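import Pool.Agent.Lib.MP_1b5cbf_lc.Bar.St

/-! The parent code: change sets determine the pattern and the code sum is at most one. -/

set_option autoImplicit false

namespace Pool.Agent.Lib.MP_1b5cbf_lc.Bar

open Finset

namespace Code

variable {ι : Type} [DecidableEq ι]

/-- the set of change points of a pattern along the parent tree -/
def chg (D : Finset ι) (b : Finset ι → ι) (T : Finset (Finset ι)) : Finset (Finset ι) :=
  (if ∅ ∈ T then {∅} else ∅) ∪
    ((D.powerset.erase ∅).filter fun l => ¬(l ∈ T ↔ l.erase (b l) ∈ T))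

theorem chg_sub (D : Finset ι) (b : Finset ι → ι) (T : Finset (Finset ι)) :
    chg D b T ⊆ D.powerset := by
  intro l hl
  rcases mem_union.1 hl with h | h
  · split_ifs at h with h0
    · rw [mem_singleton.1 h]; exact empty_mem_powerset D
    · exact absurd h (notMem_empty _)
  · exact mem_of_mem_erase (mem_filter.1 h).1

theorem chg_card (D : Finset ι) (b : Finset ι → ι) (T : Finset (Finset ι)) :
    (chg D b T).card = (if ∅ ∈ T then 1 else 0) +
      ((D.powerset.erase ∅).filter fun l => ¬(l ∈ T ↔ l.erase (b l) ∈ T)).card := by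
  unfold chg
  rw [card_union_of_disjoint]
  · split_ifs <;> simp
  · split_ifs
    · rw [disjoint_singleton_left]
      intro h
      exact (mem_erase.1 (mem_filter.1 h).1).1 rfl
    · exact disjoint_empty_left _

theorem empty_mem_chg (D : Finset ι) (b : Finset ι → ι) (T : Finset (Finset ι)) :
    ∅ ∈ chg D b T ↔ ∅ ∈ T := by
  unfold chg
  by_cases h : ∅ ∈ T <;> simp [h]

theorem mem_chg (D : Finset ι) (b : Finset ι → ι) (T : Finset (Finset ι)) (l : Finset ι)
    (h0 : l ≠ ∅) (hl : l ⊆ D) : l ∈ chg D b T ↔ ¬(l ∈ T ↔ l.erase (b l) ∈ T) := by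
  unfold chg
  by_cases h : ∅ ∈ T <;> simp [h, h0, hl]

theorem chg_inj (D : Finset ι) (b : Finset ι → ι) (hb : ∀ l : Finset ι, l.Nonempty → b l ∈ l)
    (T T' : Finset (Finset ι)) (hT : T ⊆ D.powerset) (hT' : T' ⊆ D.powerset)
    (h : chg D b T = chg D b T') : T = T' := by
  have key : ∀ n : ℕ, ∀ l : Finset ι, l.card = n → l ⊆ D → (l ∈ T ↔ l ∈ T') := by
    intro n
    induction n with
    | zero =>
      intro l hl _
      rw [card_eq_zero.1 hl, ← empty_mem_chg D b T, ← empty_mem_chg D b T', h]
    | succ n ih =>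
      intro l hl hD
      have hne : l.Nonempty := card_pos.1 (by omega)
      have h1 := ih (l.erase (b l)) (by rw [card_erase_of_mem (hb l hne), hl]; rfl)
        ((erase_subset _ _).trans hD)
      have h2 := mem_chg D b T l hne.ne_empty hD
      have h3 := mem_chg D b T' l hne.ne_empty hD
      rw [h] at h2
      tauto
  ext l
  constructor
  · intro hl
    exact (key _ l rfl (mem_powerset.1 (hT hl))).1 hl
  · intro hl
    exact (key _ l rfl (mem_powerset.1 (hT' hl))).2 hl

theorem chg_empty (D : Finset ι) (b : Finset ι → ι) : chg D b ∅ = ∅ := by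
  unfold chg
  simp

theorem sum_pow {α : Type} [DecidableEq α] (s : Finset α) (x : ℝ) :
    ∑ C ∈ s.powerset.erase ∅, x ^ C.card = (1 + x) ^ s.card - 1 := by
  have h1 : ∏ _i ∈ s, (1 + x) = ∑ t ∈ s.powerset, ∏ _i ∈ t, x := prod_one_add s
  rw [prod_const] at h1
  have h2 := add_sum_erase s.powerset (fun C : Finset α => x ^ C.card) (empty_mem_powerset s)
  simp only [prod_const] at h1
  simp only [card_empty, pow_zero] at h2
  linarith

theorem pow_le_two (m : ℕ) (hm : 0 < m) : (1 + 1 / (2 * (m : ℝ))) ^ m ≤ 2 := by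
  have hm' : (0 : ℝ) < m := by exact_mod_cast hm
  have h1 : 1 + 1 / (2 * (m : ℝ)) ≤ Real.exp (1 / (2 * (m : ℝ))) := by
    have := Real.add_one_le_exp (1 / (2 * (m : ℝ)))
    linarith
  have h2 : (1 + 1 / (2 * (m : ℝ))) ^ m ≤ Real.exp (1 / (2 * (m : ℝ))) ^ m :=
    pow_le_pow_left₀ (by positivity) h1 m
  rw [← Real.exp_nat_mul] at h2
  have h3 : (m : ℝ) * (1 / (2 * (m : ℝ))) = 1 / 2 := by field_simp
  rw [h3] at h2
  have h4 : Real.exp (1 / 2) * Real.exp (1 / 2) = Real.exp 1 := by
    rw [← Real.exp_add]; norm_num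
  have h5 := Real.exp_one_lt_d9
  have h6 := Real.exp_pos (1 / 2 : ℝ)
  nlinarith

end Code

theorem code_st : CodeSt := by
  intro ι _ _ D b hb
  have hj : ∀ T, jc D b T = (Code.chg D b T).card := fun T => (Code.chg_card D b T).symm
  refine ⟨fun T => ?_, ?_⟩
  · rw [hj, ← card_powerset]
    exact card_le_card (Code.chg_sub D b T)
  · have hpos : (0 : ℝ) < 2 * 2 ^ D.card := by positivity
    have hterm : ∀ T, Real.exp (-((jc D b T : ℝ) * Real.log (2 * 2 ^ D.card))) =
        (1 / (2 * 2 ^ D.card) : ℝ) ^ (Code.chg D b T).card := by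
      intro T
      rw [hj, Real.exp_neg, Real.exp_nat_mul, Real.exp_log hpos, one_div, inv_pow]
    simp only [hterm]
    have hinj : Set.InjOn (Code.chg D b) (D.powerset.powerset.erase ∅ : Finset (Finset (Finset ι))) := by
      intro T hT T' hT' h
      exact Code.chg_inj D b hb T T' (mem_powerset.1 (mem_of_mem_erase (mem_coe.1 hT)))
        (mem_powerset.1 (mem_of_mem_erase (mem_coe.1 hT'))) h
    rw [← sum_image (f := fun C : Finset (Finset ι) => (1 / (2 * 2 ^ D.card) : ℝ) ^ C.card) hinj]
    have hsub : (D.powerset.powerset.erase ∅).image (Code.chg D b) ⊆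
        D.powerset.powerset.erase ∅ := by
      intro C hC
      obtain ⟨T, hT, rfl⟩ := mem_image.1 hC
      refine mem_erase.2 ⟨fun h => (mem_erase.1 hT).1 ?_, mem_powerset.2 (Code.chg_sub D b T)⟩
      exact Code.chg_inj D b hb T ∅ (mem_powerset.1 (mem_of_mem_erase hT)) (empty_subset _)
        (h.trans (Code.chg_empty D b).symm)
    refine (sum_le_sum_of_subset_of_nonneg hsub (fun _ _ _ => by positivity)).trans ?_
    rw [Code.sum_pow, card_powerset]
    have h := Code.pow_le_two (2 ^ D.card) (by positivity)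
    push_cast at h
    linarith

end Pool.Agent.Lib.MP_1b5cbf_lc.Bar
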