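import Mathlib

/-! From the number of colours to the degree. -/

set_option autoImplicit false

namespace Pool.Agent.Lib.MP_1b5cbf_lc.Bar.Calc

open Real

/-- monotonicity of `d / (log d + C log log d)` in the form needed -/
theorem up {C a d k : ℝ} (hC : 0 ≤ C) (ha : 1 ≤ log a) (ha2 : 1 ≤ log (log a)) (ha0 : 0 < a)
    (hk : 0 ≤ k) (had : a ≤ d) (h : (log a + C * log (log a)) * k ≤ a) :
    (log d + C * log (log d)) * k ≤ d := by
  have hd0 : 0 < d := ha0.trans_le had
  set r := d / a with hr
  have hr1 : 1 ≤ r := (one_le_div ha0).2 had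
  have hda : d = r * a := by rw [hr]; field_simp
  have h1 : log d = log r + log a := by rw [hda, log_mul (by positivity) ha0.ne']
  have h2 : log r ≤ r - 1 := log_le_sub_one_of_pos (by positivity)
  have h3 : 0 ≤ log r := log_nonneg hr1
  have h4 : log (log d) ≤ log (log a) + (r - 1) := by
    have hq : log d / log a ≤ r := by
      rw [div_le_iff₀ (by linarith), h1]
      nlinarith
    have h5 : log (log d / log a) ≤ log d / log a - 1 :=
      log_le_sub_one_of_pos (div_pos (by linarith) (by linarith))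
    rw [log_div (by linarith) (by linarith)] at h5
    linarith
  have h6 : log d + C * log (log d) ≤ r * (log a + C * log (log a)) := by
    have h7 : C * log (log d) ≤ C * (log (log a) + (r - 1)) := mul_le_mul_of_nonneg_left h4 hC
    have h8 : 0 ≤ (r - 1) * (log a - 1) := mul_nonneg (by linarith) (by linarith)
    have h9 : 0 ≤ C * ((r - 1) * (log (log a) - 1)) :=
      mul_nonneg hC (mul_nonneg (by linarith) (by linarith))
    nlinarith
  calc (log d + C * log (log d)) * k ≤ r * (log a + C * log (log a)) * k :=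
        mul_le_mul_of_nonneg_right h6 hk
    _ = r * ((log a + C * log (log a)) * k) := by ring
    _ ≤ r * a := mul_le_mul_of_nonneg_left h (by linarith)
    _ = d := hda.symm

theorem calc_k (C d0 : ℝ) : ∃ (C' : ℝ) (k0 : ℕ), 0 ≤ C' ∧ 3 ≤ k0 ∧ ∀ k : ℕ, k0 ≤ k → ∀ d : ℝ,
    k * (log k + C' * log (log k)) ≤ d + 1 →
      d0 ≤ d ∧ 2 ≤ d ∧ (log d + C * log (log d)) * k ≤ d := by
  set B := max C 0 with hB
  have hB0 : 0 ≤ B := le_max_right _ _
  have hCB : C ≤ B := le_max_left _ _
  refine ⟨2 * B + 3, ⌈max (max d0 3) (exp (exp (2 * B + 3)))⌉₊, by positivity, ?_, ?_⟩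
  · have : ((3 : ℕ) : ℝ) ≤ ⌈max (max d0 3) (exp (exp (2 * B + 3)))⌉₊ :=
      le_trans (by simp) (Nat.le_ceil _)
    exact_mod_cast this
  intro k hk d hd
  have hk' : max (max d0 3) (exp (exp (2 * B + 3))) ≤ k := (Nat.le_ceil _).trans (by exact_mod_cast hk)
  have hk1 : d0 ≤ k := le_trans (by simp) hk'
  have hk3 : (3 : ℝ) ≤ k := le_trans (by simp) hk'
  have hk2 : exp (exp (2 * B + 3)) ≤ k := le_trans (le_max_right _ _) hk'
  have hx : exp (2 * B + 3) ≤ log k := (le_log_iff_exp_le (by linarith)).2 hk2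
  have hx1 : 2 * B + 3 + 1 ≤ exp (2 * B + 3) := add_one_le_exp _
  set x := log (k : ℝ) with hxd
  have hy : 2 * B + 3 ≤ log x := (le_log_iff_exp_le (by linarith)).2 hx
  set y := log x with hyd
  have hyx : y ≤ x - 1 := log_le_sub_one_of_pos (by linarith)
  -- `x = exp y ≥ y ^ 2 / 2`, hence `(2B+2) y ≤ y ^ 2 ≤ 2 x`
  have hsq : y ^ 2 ≤ 2 * x := by
    have h1 := quadratic_le_exp_of_nonneg (x := y) (by linarith)
    rw [hyd, exp_log (by linarith)] at h1
    rw [hyd]
    linarith
  set a := (k : ℝ) * (x + (2 * B + 2) * y) with ha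
  have hy0 : 0 ≤ (2 * B + 2) * y := mul_nonneg (by linarith) (by linarith)
  have hlo : (k : ℝ) * 1 ≤ a := mul_le_mul_of_nonneg_left (by linarith) (by linarith)
  have had : a ≤ d := by
    have : (k : ℝ) * (x + (2 * B + 3) * y) = a + k * y := by rw [ha]; ring
    have h2 : (1 : ℝ) * 1 ≤ k * y := mul_le_mul (by linarith) (by linarith) (by norm_num) (by linarith)
    linarith
  have ha0 : 0 < a := by linarith
  have hla : x ≤ log a := log_le_log (by linarith) (by linarith)
  have hlla : y ≤ log (log a) := log_le_log (by linarith) hla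
  have hup : log a ≤ x + y + 2 := by
    have h1 : x + (2 * B + 2) * y ≤ x * 3 := by nlinarith
    have h2 : a ≤ k * (x * 3) := mul_le_mul_of_nonneg_left h1 (by linarith)
    have h3 := log_le_log ha0 h2
    have hk0 : (k : ℝ) ≠ 0 := ne_of_gt (by linarith)
    have hx0 : x ≠ 0 := ne_of_gt (by linarith)
    have h5 : log (k * (x * 3)) = x + (y + log 3) := by
      rw [log_mul hk0 (mul_ne_zero hx0 (by norm_num)), log_mul hx0 (by norm_num)]
    have h4 : log 3 ≤ 3 - 1 := log_le_sub_one_of_pos (by norm_num)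
    linarith
  have hup2 : log (log a) ≤ y + 2 := by
    have h1 : log a ≤ x * 3 := by linarith
    have h3 := log_le_log (by linarith) h1
    have hx0 : x ≠ 0 := ne_of_gt (by linarith)
    have h5 : log (x * 3) = y + log 3 := log_mul hx0 (by norm_num)
    have h4 : log 3 ≤ 3 - 1 := log_le_sub_one_of_pos (by norm_num)
    linarith
  have hbase : (log a + B * log (log a)) * k ≤ a := by
    have h1 : B * log (log a) ≤ B * (y + 2) := mul_le_mul_of_nonneg_left hup2 hB0
    have h2 : 0 ≤ B * (y - 2) := mul_nonneg hB0 (by linarith)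
    have h3 : log a + B * log (log a) ≤ x + (2 * B + 2) * y := by nlinarith
    have h4 := mul_le_mul_of_nonneg_right h3 (show (0 : ℝ) ≤ k by linarith)
    exact h4.trans_eq (mul_comm _ _)
  have hfin := up hB0 (by linarith) (by linarith) ha0 (by linarith) had hbase
  refine ⟨by linarith, by linarith, le_trans (mul_le_mul_of_nonneg_right ?_ (by linarith)) hfin⟩
  have h1 : log a ≤ log d := log_le_log ha0 had
  have h2 : 0 ≤ log (log d) := log_nonneg (by linarith)
  have := mul_le_mul_of_nonneg_right hCB h2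
  linarith

end Pool.Agent.Lib.MP_1b5cbf_lc.Bar.Calc
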