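import Pool.Agent.Lib.MP_1b5cbf_lc.Bar.GnMSt
import Pool.Agent.Lib.MP_1b5cbf_lc.Bar.Calc

/-! From independent sets to colourings, on bit vectors with a fixed number of edges. -/

set_option autoImplicit false

namespace Pool.Agent.Lib.MP_1b5cbf_lc.Bar

open Finset

open Classical in
/-- the colouring theorem on bit vectors with exactly `M` edges -/
def ColMSt : Prop := ∃ (C : ℝ) (k0 : ℕ), ∀ k ≥ k0, ∀ c : ℝ,
  k * (Real.log k + C * Real.log (Real.log k)) ≤ 2 * c → ∀ δ > 0, ∃ η > 0, ∃ n0 : ℕ, ∀ n ≥ n0,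
  ∀ M : ℕ, c * n - 1 ≤ (M : ℝ) → ∀ col : (Pr n → Bool) → Fin n → Fin k,
    ∑ z ∈ adj (Pr n) M, (hammingDist (col z.1) (col z.2) : ℝ) ^ 2 ≤
      η * n * ((adj (Pr n) M).card : ℝ) →
    (((lvl (Pr n) M).filter fun g =>
      ∀ e : Pr n, g e = true → col g e.1.1 ≠ col g e.1.2).card : ℝ) ≤
      δ * ((lvl (Pr n) M).card : ℝ)

namespace ColM

/-- a colour class -/
def cls {n k : ℕ} (f : Fin n → Fin k) (i : Fin k) : Finset (Fin n) := univ.filter fun v => f v = i

theorem cls_le {n k : ℕ} (f f' : Fin n → Fin k) (i : Fin k) :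
    (symmDiff (cls f i) (cls f' i)).card ≤ hammingDist f f' := by
  refine card_le_card fun v hv => ?_
  simp only [cls, mem_symmDiff, mem_filter, mem_univ, true_and] at hv ⊢
  rcases hv with h | h
  · exact fun e => h.2 (e ▸ h.1)
  · exact fun e => h.2 (e ▸ h.1)

theorem exists_big {n k : ℕ} (hk : 0 < k) (f : Fin n → Fin k) :
    ∃ i, (n : ℝ) ≤ k * ((cls f i).card : ℝ) := by
  by_contra h
  push Not at h
  have : Nonempty (Fin k) := ⟨⟨0, hk⟩⟩
  have h1 : ∑ i : Fin k, (k : ℝ) * ((cls f i).card : ℝ) < ∑ _i : Fin k, (n : ℝ) :=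
    sum_lt_sum_of_nonempty univ_nonempty fun i _ => h i
  have h2 : ∑ i : Fin k, (cls f i).card = n := by
    have := card_eq_sum_card_fiberwise (s := (univ : Finset (Fin n))) (t := (univ : Finset (Fin k)))
      (f := f) fun _ _ => mem_coe.2 (mem_univ _)
    rw [card_univ, Fintype.card_fin] at this
    exact this.symm
  rw [← mul_sum, ← Nat.cast_sum, h2, sum_const, card_univ, Fintype.card_fin, nsmul_eq_mul] at h1
  exact lt_irrefl _ h1

end ColM

open ColM in
theorem colM_st (hM : MainMSt) : ColMSt := by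
  classical
  obtain ⟨C, d0, H⟩ := hM
  obtain ⟨C', k0, -, hk0, hc⟩ := Calc.calc_k C d0
  refine ⟨C', k0, fun k hk c hkc δ hδ => ?_⟩
  obtain ⟨h1, h2, h3⟩ := hc k hk (2 * c - 1) (by linarith)
  have hkp : 0 < k := by omega
  have hkr : (0 : ℝ) < k := by exact_mod_cast hkp
  obtain ⟨η, hη, n0, H2⟩ := H (2 * c - 1) h1 (δ / k) (by positivity)
  refine ⟨η, hη, n0, fun n hn M hMc col hcol => ?_⟩
  have hi : ∀ i : Fin k, _ := fun i => H2 n hn M (by linarith) (fun g => cls (col g) i)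
    (le_trans (sum_le_sum fun z _ => pow_le_pow_left₀ (Nat.cast_nonneg _)
      (by exact_mod_cast cls_le (col z.1) (col z.2) i) 2) hcol)
  have hs := sum_le_sum (s := (univ : Finset (Fin k))) fun i _ => hi i
  rw [sum_const, card_univ, Fintype.card_fin, nsmul_eq_mul, ← mul_assoc,
    mul_div_cancel₀ _ hkr.ne', ← Nat.cast_sum] at hs
  refine le_trans ?_ hs
  refine Nat.cast_le.2 (le_trans (card_le_card fun g hg => ?_) card_biUnion_le)
  obtain ⟨hg1, hg2⟩ := mem_filter.1 hg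
  obtain ⟨i, hb⟩ := exists_big hkp (col g)
  refine mem_biUnion.2 ⟨i, mem_univ _, mem_filter.2 ⟨hg1, fun e he hh => ?_, ?_⟩⟩
  · simp only [cls, mem_filter, mem_univ, true_and] at hh
    exact hg2 e he (hh.1.trans hh.2.symm)
  · rw [div_le_iff₀ (by linarith)]
    have hn0 : (0 : ℝ) ≤ n := Nat.cast_nonneg _
    have hc0 : (0 : ℝ) ≤ (cls (col g) i).card := Nat.cast_nonneg _
    refine le_of_mul_le_mul_left ?_ hkr
    have e1 := mul_le_mul_of_nonneg_right h3 hn0
    have e2 := mul_le_mul_of_nonneg_left hb (show (0 : ℝ) ≤ 2 * c - 1 by linarith)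
    nlinarith

end Pool.Agent.Lib.MP_1b5cbf_lc.Bar
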