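import Pool.Agent.Lib.MP_1b5cbf_lc.Bar.St

/-! The deterministic core: choice of the stage times. -/

set_option autoImplicit false

namespace Pool.Agent.Lib.MP_1b5cbf_lc.Bar

namespace CoreX

/-- the set of times where `g` is at least `m` -/
def h57S (g : ℝ → ℝ) (m : ℝ) : Set ℝ := {s | s ∈ Set.Icc (0 : ℝ) 1 ∧ m ≤ g s}

lemma h57_bdd (g : ℝ → ℝ) (m : ℝ) : BddAbove (h57S g m) := ⟨1, fun _ hx => hx.1.2⟩

lemma h57_nonneg (g : ℝ → ℝ) (m : ℝ) : 0 ≤ sSup (h57S g m) :=
  Real.sSup_nonneg fun _ hx => hx.1.1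

lemma h57_le_one (g : ℝ → ℝ) (m : ℝ) : sSup (h57S g m) ≤ 1 :=
  Real.sSup_le (fun _ hx => hx.1.2) zero_le_one

lemma h57_anti (g : ℝ → ℝ) (m m' : ℝ) (h : m ≤ m') : sSup (h57S g m') ≤ sSup (h57S g m) :=
  Real.sSup_le (fun _ hx => le_csSup (h57_bdd g m) ⟨hx.1, h.trans hx.2⟩) (h57_nonneg g m)

lemma h57_up (g : ℝ → ℝ) (hg : Continuous g) (h1 : g 1 = 0) (m : ℝ) (hm : 0 ≤ m) (s : ℝ)
    (hs : sSup (h57S g m) ≤ s) (hs1 : s ≤ 1) : g s ≤ m := by
  rcases eq_or_lt_of_le hs1 with h | h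
  · rw [h, h1]; exact hm
  · have hcl : IsClosed {x : ℝ | g x ≤ m} := isClosed_le hg continuous_const
    have hsub : Set.Ioc s 1 ⊆ {x : ℝ | g x ≤ m} := by
      intro x hx
      by_contra hc
      have hc' : m ≤ g x := le_of_lt (not_le.1 hc)
      have hx0 : 0 ≤ x := ((h57_nonneg g m).trans hs).trans hx.1.le
      have : x ≤ sSup (h57S g m) := le_csSup (h57_bdd g m) ⟨⟨hx0, hx.2⟩, hc'⟩
      exact absurd (this.trans hs) (not_le.2 hx.1)
    have hmem : s ∈ closure (Set.Ioc s 1) := by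
      rw [closure_Ioc h.ne]; exact ⟨le_rfl, h.le⟩
    exact closure_minimal hsub hcl hmem

lemma h57_eq (g : ℝ → ℝ) (hg : Continuous g) (h1 : g 1 = 0) (m : ℝ) (hm : 0 ≤ m)
    (hpos : 0 < sSup (h57S g m)) : g (sSup (h57S g m)) = m := by
  have hne : (h57S g m).Nonempty := by
    by_contra hc
    rw [Set.not_nonempty_iff_eq_empty.1 hc, Real.sSup_empty] at hpos
    exact lt_irrefl _ hpos
  have hcl : IsClosed (h57S g m) :=
    isClosed_Icc.inter (isClosed_le continuous_const hg)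
  have hmem := hcl.csSup_mem hne (h57_bdd g m)
  exact le_antisymm (h57_up g hg h1 m hm _ le_rfl (h57_le_one g m)) hmem.2

end CoreX

open CoreX in
theorem core_st (hT : TwoSt) (hI : StIndSt) : CoreSt := by
  intro R β L ld LL ifc hLL hlog hld hR
  by_contra hcon
  have hy : 2 ^ 95 * LL ≤ L - ld := not_lt.1 hcon
  have hne : bz R ≠ ((0, 1) : Bit R) := by
    intro h
    have h2 := congrArg Prod.snd h
    simp [bz] at h2
  obtain ⟨-, -, hc, h1, hb, -⟩ := hT (Bit R) β L ld (bz R) (0, 1) ifc hne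
  have hμ1 : (1 : ℝ) ≤ 2 ^ 86 * LL := by nlinarith
  have hμ0 : (0 : ℝ) ≤ 2 ^ 86 * LL := by linarith
  have hR0 : R ≠ 0 := by
    rintro rfl
    simp only [pow_zero] at hR
    nlinarith
  have hR' : L < 2 ^ 86 * LL * 2 ^ R := by
    have hp : (0 : ℝ) < 2 ^ R := by positivity
    nlinarith
  let t : ℕ → ℝ := fun k =>
    if k = 0 then 1 else sSup (h57S (sg β (bz R)) (2 ^ 86 * LL * 2 ^ k))
  have ht1 : ∀ k, t k ≤ 1 := fun k => by
    simp only [t]
    split_ifs
    · exact le_rfl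
    · exact h57_le_one _ _
  refine hI R β L ld LL (2 ^ 86 * LL) t
    { ifc := ifc, hLL := hLL, hlog := hlog, hμ := rfl, hy := by linarith, hld := hld, hR := hR',
      t0 := by simp [t], anti := ?_, tR := ?_, tnn := ?_, up := ?_, eqq := ?_ }
  · intro k k' hk
    by_cases h0 : k = 0
    · have : t k = 1 := by simp [t, h0]
      rw [this]; exact ht1 k'
    · have h0' : k' ≠ 0 := by omega
      simp only [t, if_neg h0, if_neg h0']
      refine h57_anti _ _ _ (mul_le_mul_of_nonneg_left ?_ hμ0)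
      exact pow_le_pow_right₀ (by norm_num) hk
  · simp only [t, if_neg hR0]
    have : h57S (sg β (bz R)) (2 ^ 86 * LL * 2 ^ R) = ∅ := by
      refine Set.eq_empty_of_forall_notMem fun s hs => ?_
      have h2 := hs.2
      have h3 := (hb s).2
      linarith
    rw [this, Real.sSup_empty]
  · intro k
    simp only [t]
    split_ifs
    · exact zero_le_one
    · exact h57_nonneg _ _
  · intro k s hs hs1
    have hm : (0 : ℝ) ≤ 2 ^ 86 * LL * 2 ^ k := by positivity
    by_cases h0 : k = 0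
    · have : t k = 1 := by simp [t, h0]
      rw [this] at hs
      rw [le_antisymm hs1 hs, h1]
      exact hm
    · simp only [t, if_neg h0] at hs
      exact h57_up _ hc h1 _ hm s hs hs1
  · intro k hk hpos
    have h0 : k ≠ 0 := by omega
    have hm : (0 : ℝ) ≤ 2 ^ 86 * LL * 2 ^ k := by positivity
    simp only [t, if_neg h0] at hpos ⊢
    exact h57_eq _ hc h1 _ hm hpos

end Pool.Agent.Lib.MP_1b5cbf_lc.Bar
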