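import Pool.Agent.Lib.MP_1b5cbf_lc.Bar.St

/-! The first moment bound. -/

set_option autoImplicit false

namespace Pool.Agent.Lib.MP_1b5cbf_lc.Bar

open Finset

namespace FM

/-- abstract first moment bound: marks `w e` are independent with weight `ν`, `X w` is the
pattern, and on `Good` each mark is compatible with the pattern. -/
theorem abs_fm {V E α β : Type} [Fintype V] [DecidableEq V] [Fintype E] [DecidableEq E]
    [Fintype α] [Fintype β] (ν : α → ℝ) (h0 : ∀ a, 0 ≤ ν a)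
    (R : (V → β) → E → α → Prop) (θ : (V → β) → E → ℝ)
    [∀ x e a, Decidable (R x e a)]
    (hθ : ∀ x e, ∑ a, ν a * (if R x e a then 1 else 0) = θ x e)
    (X : (E → α) → V → β) (Good : (E → α) → Prop) [DecidablePred Good]
    (hG : ∀ w, Good w → ∀ e, R (X w) e (w e))
    (q : β → ℝ) (hq0 : ∀ b, 0 ≤ q b) (hq1 : ∑ b, q b ≤ 1) (t : ℝ) (ht : 0 ≤ t)
    (hGt : ∀ w, Good w → ∏ e, θ (X w) e ≤ t * ∏ v, q (X w v)) :
    ∑ w : E → α, (∏ e, ν (w e)) * (if Good w then 1 else 0) ≤ t := by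
  classical
  have s1 : ∀ w : E → α, (∏ e, ν (w e)) * (if Good w then (1:ℝ) else 0)
      ≤ ∑ x : V → β, (if ∏ e, θ x e ≤ t * ∏ v, q (x v) then (1:ℝ) else 0) *
        ∏ e, (ν (w e) * (if R x e (w e) then 1 else 0)) := by
    intro w
    have nn : ∀ x : V → β, 0 ≤ (if ∏ e, θ x e ≤ t * ∏ v, q (x v) then (1:ℝ) else 0) *
        ∏ e, (ν (w e) * (if R x e (w e) then 1 else 0)) := fun x =>
      mul_nonneg (by split_ifs <;> norm_num)
        (prod_nonneg fun e _ => mul_nonneg (h0 _) (by split_ifs <;> norm_num))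
    split_ifs with h
    · refine le_trans (le_of_eq ?_) (single_le_sum (fun x _ => nn x) (mem_univ (X w)))
      rw [if_pos (hGt w h), one_mul, mul_one]
      exact prod_congr rfl fun e _ => by rw [if_pos (hG w h e), mul_one]
    · rw [mul_zero]; exact sum_nonneg fun x _ => nn x
  refine (sum_le_sum fun w _ => s1 w).trans ?_
  rw [sum_comm]
  have s2 : ∀ x : V → β, ∑ w : E → α, (if ∏ e, θ x e ≤ t * ∏ v, q (x v) then (1:ℝ) else 0) *
        ∏ e, (ν (w e) * (if R x e (w e) then 1 else 0)) ≤ t * ∏ v, q (x v) := by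
    intro x
    rw [← mul_sum, ← Fintype.piFinset_univ,
      ← prod_univ_sum (fun _ => univ) (fun e a => ν a * (if R x e a then (1:ℝ) else 0))]
    simp only [hθ]
    split_ifs with h
    · rwa [one_mul]
    · rw [zero_mul]; exact mul_nonneg ht (prod_nonneg fun v _ => hq0 _)
  refine (sum_le_sum fun x _ => s2 x).trans ?_
  rw [← mul_sum, ← Fintype.piFinset_univ, ← prod_univ_sum (fun _ => univ) (fun _ b => q b)]
  have : ∏ _v : V, ∑ b, q b ≤ 1 :=
    prod_le_one (fun _ _ => sum_nonneg fun b _ => hq0 b) fun _ _ => hq1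
  nlinarith

theorem pow_le (p x : ℝ) (hp : p < 1) (hx : 0 ≤ x) : (1 - p) ^ x ≤ Real.exp (-(p * x)) := by
  have h1 : 1 - p ≤ Real.exp (-p) := by
    have := Real.add_one_le_exp (-p); linarith
  calc (1 - p) ^ x ≤ (Real.exp (-p)) ^ x := Real.rpow_le_rpow (by linarith) h1 hx
    _ = Real.exp (-(p * x)) := by rw [← Real.exp_mul]; congr 1; ring

end FM

theorem fm_st (hA : LenASt) (hN : NuSt) (_hP : PESt) : FMSt := by
  intro ι _ _ n p z B τ D q hp0 hp1 hq hq1
  obtain ⟨hν0, hνv, -⟩ := hN.1 ι p τ hp0 hp1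
  have hlen : ∀ U : Finset (Finset ι), 0 ≤ len τ U := fun U => ((hA ι).2.1 τ U).1
  unfold PE
  have hint : ∀ a b : Finset (Finset ι),
      a ∩ D.powerset ∩ (b ∩ D.powerset) = a ∩ b ∩ D.powerset := by
    intro a b; ext l; simp only [mem_inter]; tauto
  refine FM.abs_fm (V := Fin n) (E := Pr n) (β := Finset (Finset ι)) (nu p τ) hν0
    (fun x e a => Disjoint a (x e.1.1 ∩ x e.1.2))
    (fun x e => (1 - p) ^ len τ (x e.1.1 ∩ x e.1.2))
    (fun x e => hνv _) (fun ω v => Pat B ω v ∩ D.powerset) _ ?_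
    (fun T => if T ⊆ D.powerset then q T else 0) ?_ ?_ (Real.exp (-z)) (Real.exp_pos _).le ?_
  · intro ω hω e
    rw [Finset.disjoint_left]
    intro l hl hl'
    simp only [mem_inter, Pat, mem_filter, mem_univ, true_and] at hl'
    exact hω.1 l e (by simp [Gl, hl]) ⟨hl'.1.1, hl'.2.1⟩
  · intro T
    split_ifs
    · exact (hq T).le
    · exact le_rfl
  · refine le_trans (le_of_eq ?_) hq1
    rw [← Finset.sum_filter]
    refine Finset.sum_congr ?_ fun _ _ => rfl
    ext T; simp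
  · intro ω hω
    have h2 := hω.2
    have e1 : ∏ v : Fin n, (if Pat B ω v ∩ D.powerset ⊆ D.powerset
        then q (Pat B ω v ∩ D.powerset) else 0) =
        Real.exp (∑ v, Real.log (q (Pat B ω v ∩ D.powerset))) := by
      rw [Real.exp_sum]
      exact prod_congr rfl fun v _ => by
        rw [if_pos inter_subset_right, Real.exp_log (hq _)]
    rw [e1, ← Real.exp_add]
    calc ∏ e : Pr n, (1 - p) ^ len τ (Pat B ω e.1.1 ∩ D.powerset ∩ (Pat B ω e.1.2 ∩ D.powerset))
        ≤ ∏ e : Pr n, Real.exp (-(p * len τ (Pat B ω e.1.1 ∩ Pat B ω e.1.2 ∩ D.powerset))) := by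
          refine prod_le_prod (fun e _ => Real.rpow_nonneg (by linarith) _) fun e _ => ?_
          rw [hint]
          exact FM.pow_le p _ hp1 (hlen _)
      _ = Real.exp (-(p * ∑ e : Pr n, len τ (Pat B ω e.1.1 ∩ Pat B ω e.1.2 ∩ D.powerset))) := by
          rw [← Real.exp_sum, mul_sum, ← sum_neg_distrib]
      _ ≤ _ := Real.exp_le_exp.mpr (by linarith)

end Pool.Agent.Lib.MP_1b5cbf_lc.Bar
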