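import Pool.Agent.Lib.MP_1b5cbf_lc.Bar.GnMA

/-! Transfer to a fixed number of edges. -/

set_option autoImplicit false

namespace Pool.Agent.Lib.MP_1b5cbf_lc.Bar

open Finset

namespace GnM

variable {P : Type} [Fintype P] [DecidableEq P]

lemma bw_nonneg {p : ℝ} (h0 : 0 ≤ p) (h1 : p ≤ 1) (b : Bool) : 0 ≤ bw p b := by
  cases b <;> simp [bw, h0, h1]

lemma pe_mono {p : ℝ} (h0 : 0 ≤ p) (h1 : p ≤ 1) {F G : (P → Bool) → ℝ} (h : ∀ g, F g ≤ G g) :
    PE (bw p) F ≤ PE (bw p) G :=
  sum_le_sum fun g _ => mul_le_mul_of_nonneg_left (h g) (prod_nonneg fun _ _ => bw_nonneg h0 h1 _)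

lemma pe_add (ν : Bool → ℝ) (F G : (P → Bool) → ℝ) :
    PE ν (fun g => F g + G g) = PE ν F + PE ν G := by
  unfold PE; simp only [mul_add, sum_add_distrib]

lemma pe_mul (ν : Bool → ℝ) (c : ℝ) (F : (P → Bool) → ℝ) :
    PE ν (fun g => c * F g) = c * PE ν F := by
  unfold PE; rw [mul_sum]; exact sum_congr rfl fun g _ => by ring

lemma pe_sum {κ : Type} [Fintype κ] (ν : Bool → ℝ) (F : κ → (P → Bool) → ℝ) :
    PE ν (fun g => ∑ k, F k g) = ∑ k, PE ν (F k) := by
  unfold PE; simp only [mul_sum]; rw [sum_comm]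

lemma pe_const (hP : PESt) (p c : ℝ) : PE (bw p) (fun _ : P → Bool => c) = c := by
  have h := (hP P Bool (bw p)).2.1 fun _ _ => 1
  have h2 : PE (bw p) (fun _ : P → Bool => (1 : ℝ)) = 1 := by simpa [bw] using h
  have h3 := pe_mul (P := P) (bw p) c fun _ => 1
  simpa [h2] using h3

lemma pe_act (ν : Bool → ℝ) (σ : Equiv.Perm P) (F : (P → Bool) → ℝ) :
    PE ν (fun g => F (act σ g)) = PE ν F := by
  unfold PE
  refine Fintype.sum_bijective (act σ) ?_ _ _ fun g => ?_
  · refine Function.bijective_iff_has_inverse.2 ⟨act σ⁻¹, fun g => ?_, fun g => ?_⟩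
    · rw [← act_mul, inv_mul_cancel, act_one]
    · rw [← act_mul, mul_inv_cancel, act_one]
  · congr 1
    exact (Equiv.prod_comp σ⁻¹ fun e => ν (g e)).symm

omit [Fintype P] in
lemma act_update (σ : Equiv.Perm P) (g : P → Bool) (e : P) (b : Bool) :
    act σ (Function.update g e b) = Function.update (act σ g) (σ e) b := by
  funext x
  unfold act
  by_cases h : x = σ e
  · subst h; simp
  · rw [Function.update_of_ne h, Function.update_of_ne]
    intro h'; apply h; rw [← h']; simp

lemma tail (hP : PESt) {p t m : ℝ} (h0 : 0 ≤ p) (h1 : p ≤ 1) (ht0 : 0 ≤ t) (ht1 : t ≤ 1) :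
    PE (bw p) (fun g : P → Bool => if m ≤ (wt g : ℝ) then 1 else 0)
      ≤ Real.exp ((t + t ^ 2) * (p * Fintype.card P) - t * m) := by
  have hu : Real.exp t ≤ 1 + (t + t ^ 2) := by
    have := Real.abs_exp_sub_one_sub_id_le (x := t) (by rw [abs_of_nonneg ht0]; exact ht1)
    have := (abs_le.1 this).2
    linarith
  have h := (hP P Bool (bw p)).2.1 fun _ b => if b = true then Real.exp t else 1
  have s1 : ∀ g : P → Bool, (if m ≤ (wt g : ℝ) then (1 : ℝ) else 0)
      ≤ Real.exp (-(t * m)) * ∏ e, (if g e = true then Real.exp t else 1) := by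
    intro g
    rw [prod_ite, prod_const_one, mul_one, prod_const, ← Real.exp_nat_mul, ← Real.exp_add]
    split_ifs with hm
    · apply Real.one_le_exp
      unfold wt at hm
      nlinarith
    · exact (Real.exp_pos _).le
  refine (pe_mono h0 h1 s1).trans ?_
  rw [pe_mul, h, prod_const, card_univ, sub_eq_add_neg, add_comm, Real.exp_add]
  refine mul_le_mul_of_nonneg_left ?_ (Real.exp_pos _).le
  have e : (t + t ^ 2) * (p * Fintype.card P) = (Fintype.card P : ℕ) * ((t + t ^ 2) * p) := by ring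
  rw [e, Real.exp_nat_mul]
  have hb : ∑ x : Bool, bw p x * (if x = true then Real.exp t else 1)
      = p * Real.exp t + (1 - p) := by simp [bw]
  rw [hb]
  refine pow_le_pow_left₀ (by have := Real.exp_pos t; nlinarith) ?_ _
  have := Real.add_one_le_exp ((t + t ^ 2) * p)
  nlinarith

lemma card_Pr (n : ℕ) : (Fintype.card (Pr n) : ℝ) ≤ (n : ℝ) ^ 2 / 2 := by
  rw [Fintype.card_subtype, Fintype.card_product_filter_lt, Nat.cast_choose_two, Fintype.card_fin]
  have : (0 : ℝ) ≤ n := Nat.cast_nonneg n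
  nlinarith

/-- the padded rule with seed `σ` -/
def pad (hb : (P → Bool) → (P → Bool)) (σ : Equiv.Perm P) (g : P → Bool) : P → Bool :=
  act σ (hb (act σ⁻¹ g))

lemma infl_avg (hP : PESt) {n : ℕ} {p : ℝ} (h0 : 0 ≤ p) (h1 : p ≤ 1) (M : ℕ)
    (hb : (Pr n → Bool) → (Pr n → Bool)) (hw : ∀ g, wt (hb g) = M)
    (hs : ∀ g i, hb (Function.update g i true) = hb (Function.update g i false) ∨
      dif (hb (Function.update g i true)) (hb (Function.update g i false)) = 1)
    (B : (Pr n → Bool) → Finset (Fin n)) (c : ℝ) (hc : 0 ≤ c)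
    (hB : ∑ z ∈ adj (Pr n) M, ((symmDiff (B z.1) (B z.2)).card : ℝ) ^ 2 ≤
      c * ((adj (Pr n) M).card : ℝ)) :
    ∑ σ : Equiv.Perm (Pr n), inflB p (fun g => B (pad hb σ g))
      ≤ Fintype.card (Pr n) * (Fintype.card (Equiv.Perm (Pr n)) * c) := by
  have e1 : ∀ σ : Equiv.Perm (Pr n), inflB p (fun g => B (pad hb σ g))
      = ∑ i : Pr n, PE (bw p) fun g : Pr n → Bool =>
        ((symmDiff (B (act σ (hb (Function.update g i true))))
          (B (act σ (hb (Function.update g i false))))).card : ℝ) ^ 2 := by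
    intro σ
    unfold inflB
    refine Fintype.sum_equiv σ⁻¹ _ _ fun e => ?_
    simp only [pad, act_update]
    exact pe_act (bw p) σ⁻¹ fun g : Pr n → Bool =>
      ((symmDiff (B (act σ (hb (Function.update g (σ⁻¹ e) true))))
          (B (act σ (hb (Function.update g (σ⁻¹ e) false))))).card : ℝ) ^ 2
  simp only [e1]
  rw [sum_comm, ← nsmul_eq_mul, ← card_univ, ← sum_const]
  refine sum_le_sum fun i _ => ?_
  rw [← pe_sum, ← pe_const (P := Pr n) hP p (Fintype.card (Equiv.Perm (Pr n)) * c)]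
  refine pe_mono h0 h1 fun g => ?_
  rcases hs g i with h | h
  · rw [h]; simp only [symmDiff_self, bot_eq_empty, card_empty]
    have : (0 : ℝ) ≤ Fintype.card (Equiv.Perm (Pr n)) * c := by positivity
    simpa using this
  · have hz : (hb (Function.update g i true), hb (Function.update g i false)) ∈ adj (Pr n) M :=
      mem_filter.2 ⟨mem_univ _, hw _, hw _, h⟩
    have hpos : (0 : ℝ) < (adj (Pr n) M).card := by exact_mod_cast card_pos.2 ⟨_, hz⟩
    have := avg_adj M _ hz fun z => ((symmDiff (B z.1) (B z.2)).card : ℝ) ^ 2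
    refine le_of_mul_le_mul_left ?_ hpos
    rw [this]
    have h2 := mul_le_mul_of_nonneg_left hB
      (Nat.cast_nonneg (α := ℝ) (Fintype.card (Equiv.Perm (Pr n))))
    linarith

lemma succ_avg (hP : PESt) (p : ℝ) (M : ℕ) (hb : (P → Bool) → (P → Bool))
    (hw : ∀ g, wt (hb g) = M) (φ : (P → Bool) → ℝ) :
    ((lvl P M).card : ℝ) * ∑ σ : Equiv.Perm P, PE (bw p) (fun g => φ (pad hb σ g))
      = Fintype.card (Equiv.Perm P) * ∑ y ∈ lvl P M, φ y := by
  have e1 : ∀ σ : Equiv.Perm P, PE (bw p) (fun g => φ (pad hb σ g))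
      = PE (bw p) fun g => φ (act σ (hb g)) := fun σ =>
    pe_act (bw p) σ⁻¹ fun g => φ (act σ (hb g))
  simp only [e1]
  rw [← pe_sum, ← pe_mul]
  simp only [avg_lvl M _ (hw _) φ]
  exact pe_const hP p _

end GnM

open GnM in
theorem mainM_st (hM : MainBSt) (hP : PESt) : MainMSt := by
  classical
  obtain ⟨C, d0, H⟩ := hM
  refine ⟨C, max d0 1, fun d hd δ hδ => ?_⟩
  have hd1 : 1 ≤ d := le_trans (le_max_right _ _) hd
  obtain ⟨η0, hη0, n0, H⟩ := H d (le_trans (le_max_left _ _) hd) (δ / 3) (by positivity)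
  refine ⟨η0 * (δ / 3), by positivity, max n0 ⌈4 * (1 + 6 * d / δ) + d⌉₊, fun n hn M hMn B hB => ?_⟩
  have hn1 : 4 * (1 + 6 * d / δ) + d ≤ n := Nat.ceil_le.1 (le_trans (le_max_right _ _) hn)
  have hq : 0 < 6 * d / δ := by positivity
  have hnd : d ≤ n := by linarith
  have hn0 : (0 : ℝ) < n := by linarith
  have h0 : 0 ≤ d / n := by positivity
  have h1 : d / n ≤ 1 := (div_le_one hn0).2 hnd
  have H := H n (le_trans (le_max_left _ _) hn)
  set thr := (Real.log d + C * Real.log (Real.log d)) * n / d with hthr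
  by_cases hMN : M ≤ Fintype.card (Pr n)
  swap
  · have : lvl (Pr n) M = ∅ := by
      refine filter_eq_empty_iff.2 fun g _ hg => hMN ?_
      have := wt_false g
      omega
    rw [this]; simp
  obtain ⟨hb, hw, hsup, hs⟩ := exists_pad (P := Pr n) M hMN
  -- tail
  have htail : PE (bw (d / n)) (fun g : Pr n → Bool => if (M : ℝ) ≤ (wt g : ℝ) then 1 else 0)
      ≤ δ / 3 := by
    have ht0 : 0 < 1 / (2 * d) := by positivity
    have ht1 : 1 / (2 * d) ≤ 1 := by rw [div_le_one (by positivity)]; linarith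
    refine (tail hP h0 h1 ht0.le ht1).trans ?_
    set t := 1 / (2 * d) with ht
    have htd : t * d = 1 / 2 := by rw [ht]; field_simp
    have hN : d / n * Fintype.card (Pr n) ≤ d * n / 2 := by
      refine (mul_le_mul_of_nonneg_left (card_Pr n) h0).trans (le_of_eq ?_)
      field_simp
    have hx : 3 / δ ≤ t * (n / 4 - 1) := by
      have : 3 / δ = t * (6 * d / δ) := by rw [ht]; field_simp; norm_num
      rw [this]
      exact mul_le_mul_of_nonneg_left (by linarith) ht0.le
    have a1 : (t + t ^ 2) * (d / n * Fintype.card (Pr n)) ≤ (t + t ^ 2) * (d * n / 2) :=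
      mul_le_mul_of_nonneg_left hN (by positivity)
    have a2 : t * ((d + 1) * n / 2 - 1) ≤ t * M := mul_le_mul_of_nonneg_left hMn ht0.le
    have a3 : t ^ 2 * (d * n / 2) = t * (n / 4) := by
      have : t ^ 2 * (d * n / 2) = t * (t * d) * n / 2 := by ring
      rw [this, htd]; ring
    have a4 : (t + t ^ 2) * (d / n * Fintype.card (Pr n)) - t * M ≤ -(3 / δ) := by nlinarith
    refine (Real.exp_le_exp.2 a4).trans ?_
    rw [Real.exp_neg, inv_le_comm₀ (Real.exp_pos _) (by positivity), inv_div]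
    have := Real.add_one_le_exp (3 / δ)
    linarith
  set φ : (Pr n → Bool) → ℝ := fun g => if Ind B g ∧ thr ≤ ((B g).card : ℝ) then 1 else 0 with hφ
  have hc : 0 < η0 * (n : ℝ) ^ 3 := by positivity
  have key : ∀ σ : Equiv.Perm (Pr n), PE (bw (d / n)) (fun g => φ (pad hb σ g))
      ≤ 2 * (δ / 3) + inflB (d / n) (fun g => B (pad hb σ g)) / (η0 * (n : ℝ) ^ 3) := by
    intro σ
    by_cases hi : inflB (d / n) (fun g => B (pad hb σ g)) ≤ η0 * (n : ℝ) ^ 3
    · have s1 := H _ hi
      have s2 : PE (bw (d / n)) (fun g => φ (pad hb σ g)) ≤ PE (bw (d / n)) (fun g =>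
          (if Ind (fun g => B (pad hb σ g)) g ∧ thr ≤ ((B (pad hb σ g)).card : ℝ) then 1 else 0)
          + (if (M : ℝ) ≤ (wt g : ℝ) then 1 else 0)) := by
        refine pe_mono h0 h1 fun g => ?_
        by_cases hg : wt g ≤ M
        · have hI : Ind B (pad hb σ g) → Ind (fun g => B (pad hb σ g)) g := by
            intro hI e he
            refine hI e ?_
            exact hsup (act σ⁻¹ g) (by rw [wt_act]; exact hg) (σ⁻¹ e) (by simpa [act] using he)
          have : φ (pad hb σ g) ≤ (if Ind (fun g => B (pad hb σ g)) g ∧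
              thr ≤ ((B (pad hb σ g)).card : ℝ) then 1 else 0) := by
            simp only [hφ]
            by_cases h : Ind B (pad hb σ g) ∧ thr ≤ ((B (pad hb σ g)).card : ℝ)
            · rw [if_pos h, if_pos ⟨hI h.1, h.2⟩]
            · rw [if_neg h]; split_ifs <;> norm_num
          have h2 : (0 : ℝ) ≤ (if (M : ℝ) ≤ (wt g : ℝ) then 1 else 0) := by
            split_ifs <;> norm_num
          linarith
        · have h2 : (M : ℝ) ≤ (wt g : ℝ) := by exact_mod_cast (not_le.1 hg).le
          rw [if_pos h2]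
          simp only [hφ]
          split_ifs <;> norm_num
      rw [pe_add] at s2
      have s3 : 0 ≤ inflB (d / n) (fun g => B (pad hb σ g)) / (η0 * (n : ℝ) ^ 3) := by
        refine div_nonneg (sum_nonneg fun e _ => ?_) hc.le
        rw [← pe_const (P := Pr n) hP (d / n) 0]
        exact pe_mono h0 h1 fun g => sq_nonneg _
      linarith
    · have s1 : PE (bw (d / n)) (fun g => φ (pad hb σ g)) ≤ 1 := by
        rw [← pe_const (P := Pr n) hP (d / n) 1]
        refine pe_mono h0 h1 fun g => ?_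
        simp only [hφ]
        split_ifs <;> norm_num
      have s2 : 1 ≤ inflB (d / n) (fun g => B (pad hb σ g)) / (η0 * (n : ℝ) ^ 3) :=
        (one_le_div hc).2 (not_le.1 hi).le
      linarith
  have hI := infl_avg hP h0 h1 M hb hw hs B (η0 * (δ / 3) * n) (by positivity) hB
  have hS := succ_avg hP (d / n) M hb hw φ
  set Γ : ℝ := (Fintype.card (Equiv.Perm (Pr n)) : ℝ) with hΓ
  have hΓ0 : 0 < Γ := by rw [hΓ]; exact_mod_cast Fintype.card_pos
  have hsum : ∑ σ : Equiv.Perm (Pr n), PE (bw (d / n)) (fun g => φ (pad hb σ g)) ≤ Γ * δ := by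
    refine (sum_le_sum fun σ _ => key σ).trans ?_
    rw [sum_add_distrib, sum_const, card_univ, nsmul_eq_mul, ← sum_div, ← hΓ]
    have b1 : (∑ σ : Equiv.Perm (Pr n), inflB (d / n) (fun g => B (pad hb σ g)))
        / (η0 * (n : ℝ) ^ 3) ≤ Γ * (δ / 3) := by
      rw [div_le_iff₀ hc]
      refine hI.trans ?_
      have b2 : (Fintype.card (Pr n) : ℝ) ≤ (n : ℝ) ^ 2 := by
        have := card_Pr n; nlinarith [sq_nonneg (n : ℝ)]
      refine (mul_le_mul_of_nonneg_right b2 (by positivity)).trans (le_of_eq ?_)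
      ring
    linarith
  have hcard : ∑ y ∈ lvl (Pr n) M, φ y = (((lvl (Pr n) M).filter fun g => Ind B g ∧
      thr ≤ ((B g).card : ℝ)).card : ℝ) := by
    rw [card_filter]; push_cast; rfl
  have fin : Γ * ∑ y ∈ lvl (Pr n) M, φ y ≤ Γ * (δ * ((lvl (Pr n) M).card : ℝ)) := by
    rw [← hS]
    refine (mul_le_mul_of_nonneg_left hsum (Nat.cast_nonneg _)).trans (le_of_eq ?_)
    ring
  have fin2 := le_of_mul_le_mul_left fin hΓ0
  rw [hcard] at fin2
  convert fin2

end Pool.Agent.Lib.MP_1b5cbf_lc.Bar
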