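import Pool.Agent.Lib.MP_1b5cbf_lc.Bar.St

set_option autoImplicit false

namespace Pool.Agent.Lib.MP_1b5cbf_lc.Bar

open Finset

namespace Ineq

lemma pe_mono {P X : Type} [Fintype P] [DecidableEq P] [Fintype X] (ν : X → ℝ) (h : ∀ x, 0 ≤ ν x)
    (F G : (P → X) → ℝ) (hFG : ∀ ω, F ω ≤ G ω) : PE ν F ≤ PE ν G := by
  unfold PE
  exact sum_le_sum fun ω _ => mul_le_mul_of_nonneg_left (hFG ω) (prod_nonneg fun e _ => h _)

lemma pe_add {P X : Type} [Fintype P] [DecidableEq P] [Fintype X] (ν : X → ℝ)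
    (F G : (P → X) → ℝ) : PE ν (fun ω => F ω + G ω) = PE ν F + PE ν G := by
  unfold PE
  simp only [mul_add, sum_add_distrib]

lemma pe_sum {P X A : Type} [Fintype P] [DecidableEq P] [Fintype X] [Fintype A] (ν : X → ℝ)
    (k : ℝ) (F : A → (P → X) → ℝ) :
    PE ν (fun ω => k * ∑ a, F a ω) = k * ∑ a, PE ν (F a) := by
  unfold PE
  rw [sum_comm, mul_sum]
  refine sum_congr rfl fun ω _ => ?_
  rw [← mul_sum]
  ring

lemma quad {A : Type} [Fintype A] (a β : A → ℝ) (l : A → A → ℝ) (γ d m : ℝ) (ha : ∀ T, 0 ≤ a T)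
    (hβ : ∀ T, 0 ≤ β T) (hγ : 0 ≤ γ) (hle : ∀ T, β T ≤ a T + γ) (hs : ∑ T, a T = d)
    (hl0 : ∀ T T', 0 ≤ l T T') (hl : ∀ T T', l T T' ≤ m) :
    ∑ T, ∑ T', β T * β T' * l T T' ≤ ∑ T, ∑ T', a T * a T' * l T T' +
      m * (2 * γ * Fintype.card A * d + γ ^ 2 * (Fintype.card A : ℝ) ^ 2) := by
  have h1 : ∀ T T', β T * β T' * l T T' ≤
      a T * a T' * l T T' + m * (γ * a T + γ * a T' + γ ^ 2) := by
    intro T T'
    have h2 : β T * β T' ≤ (a T + γ) * (a T' + γ) :=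
      mul_le_mul (hle T) (hle T') (hβ T') (add_nonneg (ha T) hγ)
    have h3 : β T * β T' * l T T' ≤ (a T + γ) * (a T' + γ) * l T T' :=
      mul_le_mul_of_nonneg_right h2 (hl0 T T')
    have h4 : 0 ≤ γ * a T + γ * a T' + γ ^ 2 := by
      have := ha T
      have := ha T'
      positivity
    have h5 : (γ * a T + γ * a T' + γ ^ 2) * l T T' ≤ (γ * a T + γ * a T' + γ ^ 2) * m :=
      mul_le_mul_of_nonneg_left (hl T T') h4
    nlinarith
  refine (sum_le_sum fun T _ => sum_le_sum fun T' _ => h1 T T').trans (le_of_eq ?_)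
  simp only [sum_add_distrib, ← mul_sum, sum_const, card_univ, nsmul_eq_mul, hs]
  ring

lemma pairs {n : ℕ} (f : Fin n → Fin n → ℝ) (hf : ∀ u v, f u v = f v u) :
    ∑ u, ∑ v, f u v = 2 * ∑ e : Pr n, f e.1.1 e.1.2 + ∑ u, f u u := by
  have h1 : ∑ e : Pr n, f e.1.1 e.1.2 = ∑ u, ∑ v, if u < v then f u v else 0 := by
    rw [← Fintype.sum_prod_type', ← sum_filter]
    exact (sum_subtype (univ.filter fun e : Fin n × Fin n => e.1 < e.2) (by simp)
      (fun e : Fin n × Fin n => f e.1 e.2)).symm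
  have h2 : ∑ u, ∑ v, (if v < u then f u v else 0) = ∑ u, ∑ v, if u < v then f u v else 0 := by
    rw [sum_comm]
    refine sum_congr rfl fun u _ => sum_congr rfl fun v _ => ?_
    rw [hf]
  have h3 : ∑ u, f u u = ∑ u, ∑ v, if u = v then f u v else 0 := by
    refine sum_congr rfl fun u _ => ?_
    simp
  rw [h1, two_mul, h3]
  nth_rewrite 1 [← h2]
  simp only [← sum_add_distrib]
  refine sum_congr rfl fun u _ => sum_congr rfl fun v _ => ?_
  rcases lt_trichotomy u v with h | h | h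
  · simp [h, h.ne, not_lt.mpr h.le]
  · simp [h]
  · simp [h, h.ne', not_lt.mpr h.le]

variable {ι : Type} [Fintype ι] [DecidableEq ι]

lemma sum_pat {n : ℕ} (B : (Pr n → Bool) → Finset (Fin n)) (ω : Pr n → Finset (Finset ι))
    (F : Finset (Finset ι) → ℝ) : ∑ v, F (Pat B ω v) = ∑ T, (cnt B T ω : ℝ) * F T := by
  rw [← sum_fiberwise univ (fun v => Pat B ω v) (fun v => F (Pat B ω v))]
  refine sum_congr rfl fun T _ => ?_
  rw [sum_congr rfl (g := fun _ => F T) (fun v hv => by rw [(mem_filter.mp hv).2])]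
  simp [cnt]

/-- the deterministic step -/
lemma det {n : ℕ} (B : (Pr n → Bool) → Finset (Fin n)) (ω : Pr n → Finset (Finset ι))
    (β : Finset (Finset ι) → ℝ) (l : Finset (Finset ι) → Finset (Finset ι) → ℝ)
    (g w : Finset (Finset ι) → ℝ) (d γ m M z : ℝ) (hn : 0 < n) (hd : 0 < d) (hβ : ∀ T, 0 ≤ β T)
    (hγ : 0 ≤ γ) (hdev : ∀ T, |d / n * (cnt B T ω : ℝ) - β T| ≤ γ)
    (hl0 : ∀ T T', 0 ≤ l T T') (hl : ∀ T T', l T T' ≤ m) (hsym : ∀ T T', l T T' = l T' T)
    (hw : ∀ T, w T ≤ M) (hw0 : ∀ T, 0 ≤ w T) (hg : ∀ T, -(2 / d) - w T ≤ g T)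
    (hz : d / n * (∑ e : Pr n, l (Pat B ω e.1.1) (Pat B ω e.1.2)) + ∑ v, g (Pat B ω v) ≤ z) :
    (1 / 2) * ∑ T, ∑ T', β T * β T' * l T T' ≤ 2 + ∑ T, β T * w T + d / n * z + d ^ 2 * m / (2 * n) +
      γ * Fintype.card (Finset (Finset ι)) * M +
      m * (2 * γ * Fintype.card (Finset (Finset ι)) * d +
        γ ^ 2 * (Fintype.card (Finset (Finset ι)) : ℝ) ^ 2) / 2 := by
  have hn' : (0 : ℝ) < n := by exact_mod_cast hn
  set p : ℝ := d / n with hp
  have hp0 : 0 < p := div_pos hd hn'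
  have hpn : p * n = d := by rw [hp]; field_simp
  set a : Finset (Finset ι) → ℝ := fun T => p * (cnt B T ω : ℝ) with ha
  have ha0 : ∀ T, 0 ≤ a T := fun T => mul_nonneg hp0.le (Nat.cast_nonneg _)
  have hs : ∑ T, a T = d := by
    have := sum_pat B ω fun _ => (1 : ℝ)
    simp only [sum_const, card_univ, Fintype.card_fin, nsmul_eq_mul, mul_one] at this
    simp only [ha, ← mul_sum, ← this, hpn]
  have hq := quad a β l γ d m ha0 hβ hγ (fun T => by
    have := (abs_le.mp (hdev T)).1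
    simp only [ha]; linarith) hs hl0 hl
  have h1 : ∑ T, ∑ T', a T * a T' * l T T' =
      p ^ 2 * ∑ u, ∑ v, l (Pat B ω u) (Pat B ω v) := by
    rw [sum_pat B ω fun T => ∑ v, l T (Pat B ω v), mul_sum]
    refine sum_congr rfl fun T _ => ?_
    rw [sum_pat B ω fun T' => l T T', mul_sum, mul_sum]
    refine sum_congr rfl fun T' _ => ?_
    simp only [ha]; ring
  have h2 := pairs (fun u v => l (Pat B ω u) (Pat B ω v)) fun u v => hsym _ _
  have h3 : ∑ u, l (Pat B ω u) (Pat B ω u) ≤ n * m := by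
    refine (sum_le_sum fun u _ => hl _ _).trans (le_of_eq ?_)
    simp
  have h4 : -(2 / d) * n - ∑ T, (cnt B T ω : ℝ) * w T ≤ ∑ v, g (Pat B ω v) := by
    rw [← sum_pat B ω w]
    refine le_trans (le_of_eq ?_) (sum_le_sum fun v _ => hg (Pat B ω v))
    simp only [sum_sub_distrib, sum_const, card_univ, Fintype.card_fin, nsmul_eq_mul]
    ring
  have h5 : p * ∑ T, (cnt B T ω : ℝ) * w T ≤
      ∑ T, β T * w T + γ * Fintype.card (Finset (Finset ι)) * M := by
    have : ∀ T, p * ((cnt B T ω : ℝ) * w T) ≤ β T * w T + γ * M := by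
      intro T
      have h6 := (abs_le.mp (hdev T)).2
      have h7 : p * (cnt B T ω : ℝ) * w T ≤ (β T + γ) * w T :=
        mul_le_mul_of_nonneg_right (by linarith) (hw0 T)
      have h8 : γ * w T ≤ γ * M := mul_le_mul_of_nonneg_left (hw T) hγ
      nlinarith
    rw [mul_sum]
    refine (sum_le_sum fun T _ => this T).trans (le_of_eq ?_)
    simp only [sum_add_distrib, sum_const, card_univ, nsmul_eq_mul]
    ring
  set E := ∑ e : Pr n, l (Pat B ω e.1.1) (Pat B ω e.1.2)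
  set Gs := ∑ v, g (Pat B ω v)
  set Ws := ∑ T, (cnt B T ω : ℝ) * w T
  have h9 : p * (p * E + Gs) ≤ p * z := mul_le_mul_of_nonneg_left hz hp0.le
  have h10 : p * (-(2 / d) * n - Ws) ≤ p * Gs := mul_le_mul_of_nonneg_left h4 hp0.le
  have h11 : p * (-(2 / d) * n) = -2 := by
    rw [hp]; field_simp
  have h12 : p ^ 2 * ∑ u, l (Pat B ω u) (Pat B ω u) ≤ p ^ 2 * (n * m) :=
    mul_le_mul_of_nonneg_left h3 (by positivity)
  have h13 : p ^ 2 * (n * m) = 2 * (d ^ 2 * m / (2 * n)) := by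
    rw [hp]; field_simp
  rw [h2] at h1
  nlinarith

/-- a sample with all leaves independent, typical counts and small exponent -/
lemma sample (hNu : NuSt) (hV : VarSt) (hF : FMSt) (hP : PosSt) {n : ℕ} (p z δ γ v : ℝ)
    (B : (Pr n → Bool) → Finset (Fin n)) (τ : ι → ℝ) (D : Finset ι) (q : Finset (Finset ι) → ℝ)
    (hp0 : 0 ≤ p) (hp1 : p < 1) (hq : ∀ T, 0 < q T) (hqs : ∑ T ∈ D.powerset.powerset, q T ≤ 1)
    (hδ : 0 < δ) (hγ : 0 < γ) (hI : δ ≤ PE (bw p) (fun g => if Ind B g then 1 else 0))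
    (hv : 2 * p ^ 3 * ((2 : ℝ) ^ Fintype.card ι) ^ 2 * inflB p B ≤ v)
    (hsm : Fintype.card (Finset (Finset ι)) * v / γ ^ 2 + Real.exp (-z) < δ ^ (2 ^ Fintype.card ι)) :
    ∃ ω : Pr n → Finset (Finset ι), (∀ T, |p * (cnt B T ω : ℝ) - beta p B τ T| ≤ γ) ∧
      p * (∑ e : Pr n, len τ (Pat B ω e.1.1 ∩ Pat B ω e.1.2 ∩ D.powerset)) +
        ∑ v, Real.log (q (Pat B ω v ∩ D.powerset)) ≤ z := by
  classical
  by_contra hcon
  push Not at hcon
  have hν := (hNu.1 ι p τ hp0 hp1).1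
  have h1 := hP ι n p τ (fun g => if Ind B g then 1 else 0) hp0 hp1
    (fun g => by split_ifs <;> norm_num)
  have h2 := hF ι n p z B τ D q hp0 hp1 hq hqs
  have h3 : δ ^ (2 ^ Fintype.card ι) ≤ (PE (bw p) (fun g => if Ind B g then 1 else 0)) ^
      (2 ^ Fintype.card ι) := pow_le_pow_left₀ hδ.le hI _
  have h4 : PE (nu p τ) (fun ω : Pr n → Finset (Finset ι) => (p ^ 2 / γ ^ 2) *
      ∑ T, ((cnt B T ω : ℝ) - PE (nu p τ) fun ω' => (cnt B T ω' : ℝ)) ^ 2) ≤
      Fintype.card (Finset (Finset ι)) * v / γ ^ 2 := by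
    rw [pe_sum]
    have h5 : ∑ T : Finset (Finset ι), PE (nu p τ) (fun ω =>
        ((cnt B T ω : ℝ) - PE (nu p τ) fun ω' => (cnt B T ω' : ℝ)) ^ 2) ≤
        Fintype.card (Finset (Finset ι)) * (2 * p * ((2 : ℝ) ^ Fintype.card ι) ^ 2 * inflB p B) := by
      refine (sum_le_sum fun T _ => (hV ι n p B hp0 hp1).1 τ T).trans (le_of_eq ?_)
      simp only [sum_const, card_univ, nsmul_eq_mul]
    refine (mul_le_mul_of_nonneg_left h5 (by positivity)).trans ?_
    have hK : (0 : ℝ) ≤ Fintype.card (Finset (Finset ι)) := Nat.cast_nonneg _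
    have h6 := mul_le_mul_of_nonneg_left hv hK
    rw [div_mul_eq_mul_div]
    refine div_le_div_of_nonneg_right ?_ (by positivity)
    refine le_trans (le_of_eq ?_) h6
    ring
  have h7 := pe_mono (nu p τ) hν
    (fun ω : Pr n → Finset (Finset ι) => ∏ l : Finset ι, if Ind B (Gl ω l) then (1 : ℝ) else 0)
    (fun ω => (p ^ 2 / γ ^ 2) *
      ∑ T, ((cnt B T ω : ℝ) - PE (nu p τ) fun ω' => (cnt B T ω' : ℝ)) ^ 2 +
      if (∀ l, Ind B (Gl ω l)) ∧
        z ≤ p * (∑ e : Pr n, len τ (Pat B ω e.1.1 ∩ Pat B ω e.1.2 ∩ D.powerset)) +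
          ∑ v, Real.log (q (Pat B ω v ∩ D.powerset)) then 1 else 0) (by
    intro ω
    have hS : 0 ≤ (p ^ 2 / γ ^ 2) *
        ∑ T, ((cnt B T ω : ℝ) - PE (nu p τ) fun ω' => (cnt B T ω' : ℝ)) ^ 2 :=
      mul_nonneg (by positivity) (sum_nonneg fun T _ => sq_nonneg _)
    by_cases hall : ∀ l, Ind B (Gl ω l)
    · have e1 : (∏ l : Finset ι, if Ind B (Gl ω l) then (1 : ℝ) else 0) = 1 :=
        prod_eq_one fun l _ => if_pos (hall l)
      rw [e1]
      by_cases hdev : ∀ T, |p * (cnt B T ω : ℝ) - beta p B τ T| ≤ γ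
      · rw [if_pos ⟨hall, (hcon ω hdev).le⟩]
        linarith
      · push Not at hdev
        obtain ⟨T, hT⟩ := hdev
        have e2 : γ ^ 2 ≤ (p * (cnt B T ω : ℝ) - beta p B τ T) ^ 2 := by
          rw [← sq_abs (p * (cnt B T ω : ℝ) - beta p B τ T)]
          exact pow_le_pow_left₀ hγ.le hT.le 2
        have e3 : ((cnt B T ω : ℝ) - PE (nu p τ) fun ω' => (cnt B T ω' : ℝ)) ^ 2 ≤
            ∑ T, ((cnt B T ω : ℝ) - PE (nu p τ) fun ω' => (cnt B T ω' : ℝ)) ^ 2 :=
          single_le_sum (f := fun T => ((cnt B T ω : ℝ) -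
            PE (nu p τ) fun ω' => (cnt B T ω' : ℝ)) ^ 2) (fun T _ => sq_nonneg _) (mem_univ T)
        have e4 : 1 ≤ (p ^ 2 / γ ^ 2) *
            ∑ T, ((cnt B T ω : ℝ) - PE (nu p τ) fun ω' => (cnt B T ω' : ℝ)) ^ 2 := by
          rw [div_mul_eq_mul_div, le_div_iff₀ (by positivity), one_mul]
          refine e2.trans (le_trans (le_of_eq ?_) (mul_le_mul_of_nonneg_left e3 (sq_nonneg p)))
          unfold beta
          ring
        have e5 : (0 : ℝ) ≤ if (∀ l, Ind B (Gl ω l)) ∧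
          z ≤ p * (∑ e : Pr n, len τ (Pat B ω e.1.1 ∩ Pat B ω e.1.2 ∩ D.powerset)) +
            ∑ v, Real.log (q (Pat B ω v ∩ D.powerset)) then 1 else 0 := by
          split_ifs <;> norm_num
        linarith
    · have e1 : (∏ l : Finset ι, if Ind B (Gl ω l) then (1 : ℝ) else 0) = 0 := by
        push Not at hall
        obtain ⟨l, hl⟩ := hall
        exact prod_eq_zero (mem_univ l) (if_neg hl)
      rw [e1, if_neg (fun h => hall h.1)]
      linarith)
  rw [pe_add] at h7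
  linarith

end Ineq

theorem ineq_st (hA : LenASt) (hNu : NuSt) (hS : SoftSt) (hV : VarSt) (hF : FMSt) (hP : PosSt) :
    IneqSt := by
  intro ι _ _ d δ hd hδ
  have hd0 : 0 < d := by linarith
  obtain ⟨m, hm⟩ : ∃ x : ℝ, x = (2 : ℝ) ^ Fintype.card ι := ⟨_, rfl⟩
  have hm0 : 0 < m := by rw [hm]; positivity
  obtain ⟨K, hK⟩ : ∃ x : ℝ, x = (Fintype.card (Finset (Finset ι)) : ℝ) := ⟨_, rfl⟩
  have hK0 : 0 < K := by rw [hK]; exact_mod_cast Fintype.card_pos
  obtain ⟨ε, hε⟩ : ∃ x : ℝ, x = δ ^ (2 ^ Fintype.card ι) := ⟨_, rfl⟩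
  have hε0 : 0 < ε := by rw [hε]; positivity
  obtain ⟨M, hM⟩ : ∃ x : ℝ, x = d + m ^ 2 := ⟨_, rfl⟩
  have hM0 : 0 < M := by rw [hM]; positivity
  obtain ⟨H, hH⟩ : ∃ x : ℝ, x = 4 * (M + 2 * m * d) + 1 := ⟨_, rfl⟩
  have hH0 : 0 < H := by rw [hH]; positivity
  obtain ⟨γ, hγ⟩ : ∃ x : ℝ, x = 1 / (K * H) := ⟨_, rfl⟩
  have hγ0 : 0 < γ := by rw [hγ]; positivity
  refine ⟨ε * γ ^ 2 / (8 * K * d ^ 3 * m ^ 2), by positivity,
    ⌈2 * d ^ 2 * m + d + 1 + 16 * d / ε⌉₊, fun n hn B hB hI => ?_⟩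
  have hn1 : 2 * d ^ 2 * m + d + 1 + 16 * d / ε ≤ n := (Nat.le_ceil _).trans (by exact_mod_cast hn)
  have t1 : 0 ≤ 2 * d ^ 2 * m := by positivity
  have t2 : 0 ≤ 16 * d / ε := by positivity
  have hn0 : (0 : ℝ) < n := by linarith
  have hp0 : 0 ≤ d / n := by positivity
  have hp1 : d / n < 1 := by rw [div_lt_one hn0]; linarith
  obtain ⟨_, s2, s3, s4, s5⟩ := hS ι n (d / n) B hp0 hp1
  refine ⟨s2, s3, s4, s5, fun τ D c hc0 hc1 hc => ?_⟩
  set q : Finset (Finset ι) → ℝ := fun T => if T = ∅ then 1 - 1 / d else Real.exp (-c T) / d with hq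
  have hd1 : 1 / d ≤ 1 / 2 := one_div_le_one_div_of_le (by norm_num) hd
  have hd2 : 0 < 1 / d := by positivity
  have hq0 : ∀ T, 0 < q T := by
    intro T
    simp only [hq]
    split_ifs
    · linarith
    · positivity
  have hqs : ∑ T ∈ D.powerset.powerset, q T ≤ 1 := by
    rw [← add_sum_erase _ _ (mem_powerset.mpr (empty_subset D.powerset))]
    have e1 : ∑ T ∈ D.powerset.powerset.erase ∅, q T =
        (∑ T ∈ D.powerset.powerset.erase ∅, Real.exp (-c T)) * (1 / d) := by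
      rw [sum_mul]
      refine sum_congr rfl fun T hT => ?_
      simp only [hq, if_neg (ne_of_mem_erase hT)]
      ring
    have e2 : q ∅ = 1 - 1 / d := by simp [hq]
    have e3 := mul_le_mul_of_nonneg_right hc hd2.le
    rw [e1, e2]
    linarith
  obtain ⟨ω, hdev, hz⟩ := Ineq.sample hNu hV hF hP (d / n) (n / (4 * d)) δ γ (ε * γ ^ 2 / (4 * K)) B τ D q
    hp0 hp1 hq0 hqs hδ hγ0 hI (by
      have e1 : 2 * (d / n) ^ 3 * m ^ 2 * inflB (d / n) B ≤ 2 * (d / n) ^ 3 * m ^ 2 *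
          (ε * γ ^ 2 / (8 * K * d ^ 3 * m ^ 2) * (n : ℝ) ^ 3) :=
        mul_le_mul_of_nonneg_left hB (by positivity)
      rw [← hm]
      refine e1.trans (le_of_eq ?_)
      field_simp
      ring) (by
      have e1 : K * (ε * γ ^ 2 / (4 * K)) / γ ^ 2 = ε / 4 := by field_simp
      have e2 : Real.exp (-(n / (4 * d))) ≤ ε / 4 := by
        have e3 : n / (4 * d) + 1 ≤ Real.exp (n / (4 * d)) := Real.add_one_le_exp _
        have e4 : 4 / ε ≤ n / (4 * d) := by
          rw [le_div_iff₀ (by positivity)]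
          have : 4 / ε * (4 * d) = 16 * d / ε := by ring
          linarith
        have e5 : 4 / ε ≤ Real.exp (n / (4 * d)) := by linarith
        rw [Real.exp_neg]
        have e6 := inv_anti₀ (by positivity : 0 < 4 / ε) e5
        rwa [inv_div] at e6
      rw [← hK, ← hε, e1]
      linarith)
  obtain ⟨_, a2, _⟩ := hA ι
  have hld : Real.log d ≤ d := by
    have := Real.log_le_sub_one_of_pos hd0
    linarith
  have hld0 : 0 ≤ Real.log d := Real.log_nonneg (by linarith)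
  have key := Ineq.det B ω (beta (d / n) B τ) (fun T T' => len τ (T ∩ T' ∩ D.powerset))
    (fun T => Real.log (q (T ∩ D.powerset)))
    (fun T => if T ∩ D.powerset = ∅ then 0 else Real.log d + c (T ∩ D.powerset)) d γ m M (n / (4 * d))
    (by exact_mod_cast hn0) hd0 (s2 τ) hγ0.le hdev (fun T T' => (a2 τ _).1)
    (fun T T' => (a2 τ _).2.trans (by
      have := card_le_univ (T ∩ T' ∩ D.powerset)
      rw [Fintype.card_finset] at this
      rw [hm]
      exact_mod_cast this))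
    (fun T T' => by rw [inter_comm T T'])
    (fun T => by
      split_ifs
      · exact hM0.le
      · have := hc1 (T ∩ D.powerset)
        rw [← hm] at this
        linarith)
    (fun T => by
      split_ifs
      · exact le_rfl
      · have := hc0 (T ∩ D.powerset)
        linarith)
    (fun T => by
      simp only [hq]
      split_ifs
      · have e1 : 0 < 1 - 1 / d := by linarith
        have e2 := Real.one_sub_inv_le_log_of_pos e1
        have e3 : (1 - 1 / d)⁻¹ ≤ 1 + 2 * (1 / d) := by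
          rw [inv_le_comm₀ e1 (by linarith), inv_eq_one_div, div_le_iff₀ (by linarith)]
          nlinarith
        have e4 : 2 / d = 2 * (1 / d) := by ring
        linarith
      · rw [Real.log_div (Real.exp_pos _).ne' hd0.ne', Real.log_exp]
        have : 0 ≤ 2 / d := by positivity
        linarith) hz
  rw [← hK] at key
  have f1 : d / n * (n / (4 * d)) = 1 / 4 := by field_simp
  have f2 : d ^ 2 * m / (2 * n) ≤ 1 / 4 := by
    rw [div_le_iff₀ (by positivity)]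
    linarith
  have f3 : γ * K = 1 / H := by rw [hγ]; field_simp
  have f4 : γ * K * M + m * (2 * γ * K * d + γ ^ 2 * K ^ 2) / 2 ≤ 1 / 4 := by
    have g1 : γ * K * M + m * (2 * γ * K * d + γ ^ 2 * K ^ 2) / 2 =
        (γ * K) * (M + m * d + m * (γ * K) / 2) := by ring
    have g2 : 1 / H ≤ 1 := by
      rw [div_le_one hH0]
      have : 0 ≤ M + 2 * m * d := by positivity
      linarith
    have g3 : m * (1 / H) / 2 ≤ m * d := by nlinarith
    rw [g1, f3, one_div_mul_eq_div, div_le_iff₀ hH0]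
    linarith
  linarith

end Pool.Agent.Lib.MP_1b5cbf_lc.Bar
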