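import Pool.Agent.Lib.MP_1b5cbf_lc.Bar.St

/-! The star kill. -/

set_option autoImplicit false

namespace Pool.Agent.Lib.MP_1b5cbf_lc.Bar

open Finset

namespace K0

variable {α : Type} [DecidableEq α]

theorem psi_ge (A B : Finset α) (r : α) (hA : r ∈ A) (hB : r ∈ B) :
    -min (1 / (A.card : ℝ)) (1 / (B.card : ℝ)) ≤
      1 / ((A ∩ B).card : ℝ) - 1 / (A.card : ℝ) - 1 / (B.card : ℝ) := by
  have h0 : (0 : ℝ) < ((A ∩ B).card : ℝ) := by
    exact_mod_cast card_pos.2 ⟨r, mem_inter.2 ⟨hA, hB⟩⟩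
  have h1 : 1 / (A.card : ℝ) ≤ 1 / ((A ∩ B).card : ℝ) :=
    one_div_le_one_div_of_le h0 (by exact_mod_cast card_le_card inter_subset_left)
  have h2 : 1 / (B.card : ℝ) ≤ 1 / ((A ∩ B).card : ℝ) :=
    one_div_le_one_div_of_le h0 (by exact_mod_cast card_le_card inter_subset_right)
  rcases le_total (1 / (A.card : ℝ)) (1 / (B.card : ℝ)) with h | h
  · rw [min_eq_left h]; linarith
  · rw [min_eq_right h]; linarith

end K0

theorem k0_st (hU : KUSt) : K0St := by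
  intro Ω α _ _ ρ T o θ y hρ ho hUU hy
  have hQ := (hU Ω α ρ T o θ hρ ho hUU).1
  have h1 : Wm ρ T 1 ≤ um ρ T := by
    unfold Wm um
    refine sum_le_sum fun ω _ => mul_le_mul_of_nonneg_left ?_ (hρ ω)
    split_ifs with h
    · have h2 : (T ω).card = 1 := le_antisymm h (card_pos.2 ⟨o, ho ω⟩)
      simp [h2]
    · positivity
  have h2 : -(∑ ω, ∑ ω', ρ ω * ρ ω' * mn T ω ω') ≤ ∑ ω, ∑ ω', ρ ω * ρ ω' *
      (1 / ((T ω ∩ T ω').card : ℝ) - 1 / ((T ω).card : ℝ) - 1 / ((T ω').card : ℝ)) := by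
    rw [← sum_neg_distrib]
    refine sum_le_sum fun a _ => ?_
    rw [← sum_neg_distrib]
    refine sum_le_sum fun b _ => ?_
    have h := mul_le_mul_of_nonneg_left (K0.psi_ge (T a) (T b) o (ho a) (ho b))
      (mul_nonneg (hρ a) (hρ b))
    unfold mn
    linarith
  have h3 := mul_le_mul_of_nonneg_left h1 hy
  unfold net
  linarith

end Pool.Agent.Lib.MP_1b5cbf_lc.Bar
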