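import Pool.Agent.Lib.MP_1b5cbf_lc.Bar.St

/-! The boost kill. -/

set_option autoImplicit false

namespace Pool.Agent.Lib.MP_1b5cbf_lc.Bar

open Finset

namespace KB

variable {α : Type} [DecidableEq α]

theorem inv_inter_ge (A B : Finset α) (r : α) (hA : r ∈ A) (hB : r ∈ B) :
    1 / (A.card : ℝ) + ((A \ B).card : ℝ) * (1 / (A.card : ℝ)) ^ 2 ≤ 1 / ((A ∩ B).card : ℝ) := by
  have h1 : 0 < (A ∩ B).card := card_pos.2 ⟨r, mem_inter.2 ⟨hA, hB⟩⟩
  have h2 : (A \ B).card + (A ∩ B).card = A.card := card_sdiff_add_card_inter A B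
  have h1' : (0 : ℝ) < ((A ∩ B).card : ℝ) := by exact_mod_cast h1
  have h3 : (0 : ℝ) ≤ ((A \ B).card : ℝ) := Nat.cast_nonneg _
  have h2' : (A.card : ℝ) = ((A \ B).card : ℝ) + ((A ∩ B).card : ℝ) := by exact_mod_cast h2.symm
  rw [h2']
  generalize ((A \ B).card : ℝ) = b at *
  generalize ((A ∩ B).card : ℝ) = c at *
  have hbc : 0 < b + c := by linarith
  have e : 1 / c - (1 / (b + c) + b * (1 / (b + c)) ^ 2) = b ^ 2 / (c * (b + c) ^ 2) := by
    field_simp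
    ring
  have : 0 ≤ b ^ 2 / (c * (b + c) ^ 2) := by positivity
  linarith

theorem psi_ge_two (A B : Finset α) (r : α) (hA : r ∈ A) (hB : r ∈ B) :
    -(2 * min (1 / (A.card : ℝ)) (1 / (B.card : ℝ))) +
        ((A \ B).card : ℝ) * (1 / (A.card : ℝ)) ^ 2 ≤
      1 / ((A ∩ B).card : ℝ) - 1 / (A.card : ℝ) - 1 / (B.card : ℝ) := by
  have h1 := inv_inter_ge A B r hA hB
  have h2 := inv_inter_ge B A r hB hA
  rw [inter_comm] at h2
  have p2 : 0 ≤ ((B \ A).card : ℝ) * (1 / (B.card : ℝ)) ^ 2 := by positivity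
  have hAp : (0 : ℝ) < (A.card : ℝ) := by exact_mod_cast card_pos.2 ⟨r, hA⟩
  have hBp : (0 : ℝ) < (B.card : ℝ) := by exact_mod_cast card_pos.2 ⟨r, hB⟩
  have hw : 0 < 1 / (B.card : ℝ) := by positivity
  rcases le_total (1 / (A.card : ℝ)) (1 / (B.card : ℝ)) with h | h
  · rw [min_eq_left h]
    have hle : ((A \ B).card : ℝ) ≤ (A.card : ℝ) := by exact_mod_cast card_le_card sdiff_subset
    have : ((A \ B).card : ℝ) * (1 / (A.card : ℝ)) ^ 2 ≤ 1 / (A.card : ℝ) := by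
      calc ((A \ B).card : ℝ) * (1 / (A.card : ℝ)) ^ 2
          ≤ (A.card : ℝ) * (1 / (A.card : ℝ)) ^ 2 := by gcongr
        _ = 1 / (A.card : ℝ) := by field_simp
    linarith
  · rw [min_eq_right h]; linarith

variable {Ω : Type} [Fintype Ω]

theorem miss_ge (ρ : Ω → ℝ) (hρ : ∀ a, 0 ≤ ρ a) (S : Ω → Finset α) (r : α) (lam : ℝ)
    (A : Finset α) (hA : r ∈ A)
    (hl : ∀ l ∈ A, l ≠ r → lam ≤ ∑ b, ρ b * (if l ∈ S b then 0 else 1)) :
    ((A.card : ℝ) - 1) * lam ≤ ∑ b, ρ b * ((A \ S b).card : ℝ) := by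
  have e : ∀ b, ρ b * ((A \ S b).card : ℝ) = ∑ l ∈ A, ρ b * (if l ∈ S b then 0 else 1) := by
    intro b
    rw [sdiff_eq_filter, card_filter]
    push_cast
    rw [mul_sum]
    refine sum_congr rfl fun l _ => ?_
    by_cases h : l ∈ S b <;> simp [h]
  simp_rw [e]
  rw [sum_comm]
  have h1 : ∑ l ∈ A.erase r, lam ≤ ∑ l ∈ A.erase r, ∑ b, ρ b * (if l ∈ S b then 0 else 1) :=
    sum_le_sum fun l h => hl l (mem_of_mem_erase h) (ne_of_mem_erase h)
  have h2 : (∑ l ∈ A.erase r, ∑ b, ρ b * (if l ∈ S b then 0 else 1)) ≤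
      ∑ l ∈ A, ∑ b, ρ b * (if l ∈ S b then 0 else 1) :=
    sum_le_sum_of_subset_of_nonneg (erase_subset r A) fun l _ _ =>
      sum_nonneg fun b _ => mul_nonneg (hρ b) (by split_ifs <;> norm_num)
  rw [sum_const, card_erase_of_mem hA, nsmul_eq_mul,
    Nat.cast_sub (card_pos.2 ⟨r, hA⟩), Nat.cast_one] at h1
  exact h1.trans h2

theorem kb (ρ : Ω → ℝ) (hρ : ∀ a, 0 ≤ ρ a) (S : Ω → Finset α) (r : α) (hr : ∀ a, r ∈ S a)
    (lam : ℝ) (hlam : 0 ≤ lam)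
    (hl : ∀ a, ∀ l ∈ S a, l ≠ r → lam ≤ ∑ b, ρ b * (if l ∈ S b then 0 else 1)) :
    -(2 * ∑ a, ∑ b, ρ a * ρ b * mn S a b) + lam / 16 * big ρ S 8 ≤
      ∑ a, ∑ b, ρ a * ρ b *
        (1 / ((S a ∩ S b).card : ℝ) - 1 / ((S a).card : ℝ) - 1 / ((S b).card : ℝ)) := by
  unfold big mn
  rw [mul_sum, mul_sum, ← sum_neg_distrib, ← sum_add_distrib]
  refine sum_le_sum fun a _ => ?_
  have hAp : (0 : ℝ) < ((S a).card : ℝ) := by exact_mod_cast card_pos.2 ⟨r, hr a⟩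
  have hA1 : (1 : ℝ) ≤ ((S a).card : ℝ) := by exact_mod_cast card_pos.2 ⟨r, hr a⟩
  have hm := miss_ge ρ hρ S r lam (S a) (hr a) (hl a)
  have h1 : lam / 16 * (ρ a * (if 2 ≤ (S a).card then min 1 (8 / ((S a).card : ℝ)) else 0)) ≤
      ρ a * (1 / ((S a).card : ℝ)) ^ 2 * ((((S a).card : ℝ) - 1) * lam) := by
    have ha := hρ a
    split_ifs with h
    · have h2 : (2 : ℝ) ≤ ((S a).card : ℝ) := by exact_mod_cast h
      have e : ρ a * (1 / ((S a).card : ℝ)) ^ 2 * ((((S a).card : ℝ) - 1) * lam) -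
          lam / 16 * (ρ a * (8 / ((S a).card : ℝ))) =
          ρ a * lam * (((S a).card : ℝ) - 2) / (2 * ((S a).card : ℝ) ^ 2) := by
        field_simp
        ring
      have h3 : 0 ≤ ((S a).card : ℝ) - 2 := by linarith
      have h4 : 0 ≤ ρ a * lam * (((S a).card : ℝ) - 2) / (2 * ((S a).card : ℝ) ^ 2) := by
        positivity
      have h5 : lam / 16 * (ρ a * min 1 (8 / ((S a).card : ℝ))) ≤
          lam / 16 * (ρ a * (8 / ((S a).card : ℝ))) :=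
        mul_le_mul_of_nonneg_left (mul_le_mul_of_nonneg_left (min_le_right _ _) ha) (by positivity)
      linarith
    · have h3 : 0 ≤ ((S a).card : ℝ) - 1 := by linarith
      rw [mul_zero, mul_zero]
      positivity
  have h2 : ρ a * (1 / ((S a).card : ℝ)) ^ 2 * ((((S a).card : ℝ) - 1) * lam) ≤
      ρ a * (1 / ((S a).card : ℝ)) ^ 2 * ∑ b, ρ b * ((S a \ S b).card : ℝ) :=
    mul_le_mul_of_nonneg_left hm (mul_nonneg (hρ a) (sq_nonneg _))
  have h3 : -(2 * ∑ b, ρ a * ρ b * min (1 / ((S a).card : ℝ)) (1 / ((S b).card : ℝ))) +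
      ρ a * (1 / ((S a).card : ℝ)) ^ 2 * ∑ b, ρ b * ((S a \ S b).card : ℝ) ≤
      ∑ b, ρ a * ρ b *
        (1 / ((S a ∩ S b).card : ℝ) - 1 / ((S a).card : ℝ) - 1 / ((S b).card : ℝ)) := by
    rw [mul_sum, mul_sum, ← sum_neg_distrib, ← sum_add_distrib]
    refine sum_le_sum fun b _ => ?_
    have h := mul_le_mul_of_nonneg_left (psi_ge_two (S a) (S b) r (hr a) (hr b))
      (mul_nonneg (hρ a) (hρ b))
    linarith
  linarith

end KB

theorem kb_st (hU : KUSt) : KBSt := by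
  intro Ω α _ _ ρ T o θ y lam hρ ho hUU hy hlam hl
  have hQ := (hU Ω α ρ T o θ hρ ho hUU).1
  have h := KB.kb ρ hρ T o ho lam hlam hl
  have h1 : 0 ≤ um ρ T := sum_nonneg fun ω _ => mul_nonneg (hρ ω) (by positivity)
  have h3 := mul_nonneg hy h1
  unfold net
  linarith

end Pool.Agent.Lib.MP_1b5cbf_lc.Bar
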