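import Pool.Agent.Lib.MP_1b5cbf_lc.Bar.St

/-! The pair kill. -/

set_option autoImplicit false

namespace Pool.Agent.Lib.MP_1b5cbf_lc.Bar.KP

open Finset

variable {α L : Type} [Fintype α] [DecidableEq L]

/-- the kernel of inequality (N) -/
noncomputable def Psi (A B : Finset L) : ℝ :=
  1 / ((A ∩ B).card : ℝ) - 1 / (A.card : ℝ) - 1 / (B.card : ℝ)

omit [DecidableEq L] in
lemma h23_one_le {A : Finset L} {r : L} (h : r ∈ A) : (1 : ℝ) ≤ (A.card : ℝ) := by
  have : 0 < A.card := card_pos.mpr ⟨r, h⟩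
  exact_mod_cast this

lemma h23_psi_ge {A B : Finset L} {r : L} (hA : r ∈ A) (hB : r ∈ B) :
    -min (1 / (A.card : ℝ)) (1 / (B.card : ℝ)) ≤ Psi A B := by
  have h1 : (1 : ℝ) ≤ ((A ∩ B).card : ℝ) := h23_one_le (mem_inter.mpr ⟨hA, hB⟩)
  have hA' : ((A ∩ B).card : ℝ) ≤ A.card := by exact_mod_cast card_le_card inter_subset_left
  have hB' : ((A ∩ B).card : ℝ) ≤ B.card := by exact_mod_cast card_le_card inter_subset_right
  have e1 : 1 / (A.card : ℝ) ≤ 1 / ((A ∩ B).card : ℝ) :=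
    one_div_le_one_div_of_le (by linarith) hA'
  have e2 : 1 / (B.card : ℝ) ≤ 1 / ((A ∩ B).card : ℝ) :=
    one_div_le_one_div_of_le (by linarith) hB'
  unfold Psi
  rcases le_total (1 / (A.card : ℝ)) (1 / (B.card : ℝ)) with h | h
  · rw [min_eq_left h]; linarith
  · rw [min_eq_right h]; linarith

lemma h23_card_inter {A B N : Finset L} {r : L} (hA : r ∈ A) (hB : r ∈ B) (hN : A ⊆ N) :
    ((A ∩ B).card : ℝ) - 1 =
      ∑ l ∈ N.erase r, (if l ∈ A then (1 : ℝ) else 0) * (if l ∈ B then 1 else 0) := by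
  have h : ∑ l ∈ N, (if l ∈ A then (1 : ℝ) else 0) * (if l ∈ B then 1 else 0) = (A ∩ B).card := by
    have : ∀ l : L, (if l ∈ A then (1 : ℝ) else 0) * (if l ∈ B then 1 else 0)
        = if l ∈ A ∩ B then 1 else 0 := by
      intro l
      by_cases h1 : l ∈ A <;> by_cases h2 : l ∈ B <;> simp [h1, h2]
    simp only [this]
    rw [sum_boole]
    congr 2
    ext l
    simp only [mem_filter, mem_inter]
    exact ⟨fun h => h.2, fun h => ⟨hN h.1, h⟩⟩
  have h2 := add_sum_erase N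
    (fun l => (if l ∈ A then (1 : ℝ) else 0) * (if l ∈ B then 1 else 0)) (hN hA)
  simp only [hA, hB, if_true] at h2
  linarith

lemma h23_point {A B : Finset L} {r : L} (hA : r ∈ A) (hB : r ∈ B) (R : ℕ) :
    (if 8 < A.card ∧ A.card ≤ R then (1 : ℝ) else 0) * (if 8 < B.card ∧ B.card ≤ R then 1 else 0)
        * (3 / 4 - (((A ∩ B).card : ℝ) - 1))
      - (if R < max A.card B.card then min (1 / (A.card : ℝ)) (1 / (B.card : ℝ)) else 0)
      - ((if A.card ≤ 8 then (1 : ℝ) else 0) * (if B.card ≤ R then 1 else 0)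
        + (if A.card ≤ R then (1 : ℝ) else 0) * (if B.card ≤ 8 then 1 else 0)) ≤ Psi A B := by
  have h1 : (1 : ℝ) ≤ ((A ∩ B).card : ℝ) := h23_one_le (mem_inter.mpr ⟨hA, hB⟩)
  have hA1 := h23_one_le hA
  have hB1 := h23_one_le hB
  have hp := h23_psi_ge hA hB
  have hm1 : min (1 / (A.card : ℝ)) (1 / (B.card : ℝ)) ≤ 1 :=
    (min_le_left _ _).trans ((div_le_one (by linarith)).mpr hA1)
  by_cases hAA : (8 < A.card ∧ A.card ≤ R) ∧ (8 < B.card ∧ B.card ≤ R)
  · obtain ⟨⟨a1, a2⟩, b1, b2⟩ := hAA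
    have c1 : ¬ R < max A.card B.card := by omega
    have c2 : ¬ A.card ≤ 8 := by omega
    have c3 : ¬ B.card ≤ 8 := by omega
    simp only [a1, a2, b1, b2, c1, c2, c3, and_self, if_true, if_false]
    have a8 : (8 : ℝ) ≤ A.card := by exact_mod_cast a1.le
    have b8 : (8 : ℝ) ≤ B.card := by exact_mod_cast b1.le
    have e1 : 1 / (A.card : ℝ) ≤ 1 / 8 := one_div_le_one_div_of_le (by norm_num) a8
    have e2 : 1 / (B.card : ℝ) ≤ 1 / 8 := one_div_le_one_div_of_le (by norm_num) b8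
    have e3 : 2 - ((A ∩ B).card : ℝ) ≤ 1 / ((A ∩ B).card : ℝ) := by
      rw [le_div_iff₀ (by linarith)]
      nlinarith [sq_nonneg (((A ∩ B).card : ℝ) - 1)]
    unfold Psi
    linarith
  · have z : (if 8 < A.card ∧ A.card ≤ R then (1 : ℝ) else 0)
        * (if 8 < B.card ∧ B.card ≤ R then 1 else 0) = 0 := by
      by_cases p1 : 8 < A.card ∧ A.card ≤ R
      · have p2 : ¬ (8 < B.card ∧ B.card ≤ R) := fun h => hAA ⟨p1, h⟩
        simp [p2]
      · simp [p1]
    rw [z, zero_mul]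
    have n1 : (0 : ℝ) ≤ (if A.card ≤ 8 then (1 : ℝ) else 0) * (if B.card ≤ R then 1 else 0) := by
      positivity
    have n2 : (0 : ℝ) ≤ (if A.card ≤ R then (1 : ℝ) else 0) * (if B.card ≤ 8 then 1 else 0) := by
      positivity
    by_cases c1 : R < max A.card B.card
    · rw [if_pos c1]; linarith
    · rw [if_neg c1]
      have a2 : A.card ≤ R := by omega
      have b2 : B.card ≤ R := by omega
      by_cases c2 : A.card ≤ 8
      · rw [if_pos c2, if_pos b2] at *; linarith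
      · have c3 : B.card ≤ 8 := by
          by_contra c3
          exact hAA ⟨⟨by omega, a2⟩, by omega, b2⟩
        rw [if_pos c3, if_pos a2] at *; linarith

/-- Kill KP: `V = 2^14 θ`, `R = 8^17`. -/
theorem kp (ρ : α → ℝ) (hρ : ∀ a, 0 ≤ ρ a) (S : α → Finset L) (r : L) (hr : ∀ a, r ∈ S a)
    (N : Finset L) (hN : ∀ a, S a ⊆ N) (θ : ℝ) (hθ : 0 ≤ θ)
    (hU : ∀ c : ℕ, ∑ a, (if (S a).card ≤ 8 ^ c then ρ a else 0) ≤ 4 * θ * 2 ^ c)
    (hC : 2 ^ 14 * θ ≤ ∑ a, ρ a * min 1 (2 ^ 42 * (1 / ((S a).card : ℝ))))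
    (hT1 : ∑ a, (if 8 ^ 17 < (S a).card then ρ a * (1 / ((S a).card : ℝ)) else 0)
      ≤ 11 * θ / 4 ^ 17)
    (hT2 : ∑ a, ∑ b, (if 8 ^ 17 < max (S a).card (S b).card then
      ρ a * ρ b * min (1 / ((S a).card : ℝ)) (1 / ((S b).card : ℝ)) else 0)
        ≤ 128 * θ ^ 2 / 2 ^ 17)
    (hS : ∀ l ∈ N, l ≠ r →
      ∑ a, (if (8 < (S a).card ∧ (S a).card ≤ 8 ^ 17) ∧ l ∈ S a then ρ a else 0)
        ≤ 2 * 8 ^ 17 / 8 ^ 35 * (∑ a, (if 8 < (S a).card ∧ (S a).card ≤ 8 ^ 17 then ρ a else 0))) :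
    (2 ^ 14 * θ) ^ 2 / 16 ≤ ∑ a, ∑ b, ρ a * ρ b * Psi (S a) (S b) := by
  classical
  generalize hR : (8 : ℕ) ^ 17 = R at *
  have hRr : (R : ℝ) = 8 ^ 17 := by rw [← hR]; norm_num
  set x : ℝ := ∑ a, (if 8 < (S a).card ∧ (S a).card ≤ R then ρ a else 0) with hx
  set W8 : ℝ := ∑ a, (if (S a).card ≤ 8 then ρ a else 0) with hW8
  set WR : ℝ := ∑ a, (if (S a).card ≤ R then ρ a else 0) with hWR
  have u1 : W8 ≤ 8 * θ := by
    have := hU 1
    simp only [pow_one] at this
    linarith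
  have u2 : WR ≤ 2 ^ 19 * θ := by
    have := hU 17
    rw [hR] at this
    linarith
  have w80 : 0 ≤ W8 := sum_nonneg fun a _ => by split_ifs; exacts [hρ a, le_rfl]
  have wR0 : 0 ≤ WR := sum_nonneg fun a _ => by split_ifs; exacts [hρ a, le_rfl]
  have c1 : 2 ^ 14 * θ ≤ x + W8 + 2 ^ 42 * (11 * θ / 4 ^ 17) := by
    refine hC.trans ?_
    have : ∑ a, ρ a * min 1 (2 ^ 42 * (1 / ((S a).card : ℝ))) ≤
        ∑ a, ((if 8 < (S a).card ∧ (S a).card ≤ R then ρ a else 0)
          + (if (S a).card ≤ 8 then ρ a else 0)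
          + 2 ^ 42 * (if R < (S a).card then ρ a * (1 / ((S a).card : ℝ)) else 0)) := by
      refine sum_le_sum fun a _ => ?_
      have m1 : ρ a * min 1 (2 ^ 42 * (1 / ((S a).card : ℝ))) ≤ ρ a := by
        have := mul_le_mul_of_nonneg_left (min_le_left (1 : ℝ) (2 ^ 42 * (1 / ((S a).card : ℝ)))) (hρ a)
        linarith
      have m2 : ρ a * min 1 (2 ^ 42 * (1 / ((S a).card : ℝ)))
          ≤ 2 ^ 42 * (ρ a * (1 / ((S a).card : ℝ))) := by
        have := mul_le_mul_of_nonneg_left (min_le_right (1 : ℝ) (2 ^ 42 * (1 / ((S a).card : ℝ)))) (hρ a)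
        linarith
      have p0 : 0 ≤ ρ a * (1 / ((S a).card : ℝ)) := mul_nonneg (hρ a) (by positivity)
      have := hρ a
      by_cases q1 : R < (S a).card
      · rw [if_pos q1]
        split_ifs <;> linarith
      · rw [if_neg q1]
        by_cases q2 : (S a).card ≤ 8
        · rw [if_pos q2]
          split_ifs <;> linarith
        · rw [if_neg q2, if_pos ⟨by omega, by omega⟩]; linarith
    refine this.trans ?_
    rw [sum_add_distrib, sum_add_distrib, ← mul_sum]
    have := mul_le_mul_of_nonneg_left hT1 (show (0 : ℝ) ≤ 2 ^ 42 by positivity)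
    linarith
  have x1 : 2 ^ 13 * θ ≤ x := by
    have : (2 : ℝ) ^ 42 * (11 * θ / 4 ^ 17) = 2816 * θ := by ring
    rw [this] at c1
    linarith
  have x0 : 0 ≤ x := le_trans (by positivity) x1
  -- the overlap term
  set c : L → ℝ := fun l =>
    ∑ a, (if (8 < (S a).card ∧ (S a).card ≤ R) ∧ l ∈ S a then ρ a else 0) with hc
  have c0 : ∀ l, 0 ≤ c l := fun l => sum_nonneg fun a _ => by split_ifs; exacts [hρ a, le_rfl]
  have csum : ∑ l ∈ N.erase r, c l ≤ R * x := by
    refine (sum_le_sum_of_subset_of_nonneg (erase_subset _ _) fun l _ _ => c0 l).trans ?_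
    simp only [hc]
    rw [sum_comm, hx, mul_sum]
    refine sum_le_sum fun a _ => ?_
    by_cases q : 8 < (S a).card ∧ (S a).card ≤ R
    · simp only [q, and_self, true_and, if_true]
      rw [← sum_filter, sum_const, nsmul_eq_mul]
      have : (N.filter fun l => l ∈ S a) = S a := by
        ext l
        simp only [mem_filter]
        exact ⟨fun h => h.2, fun h => ⟨hN a h, h⟩⟩
      rw [this]
      have : ((S a).card : ℝ) ≤ R := by exact_mod_cast q.2
      exact mul_le_mul_of_nonneg_right this (hρ a)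
    · simp [q]
  have csq : ∑ l ∈ N.erase r, c l * c l ≤ x ^ 2 / 4 := by
    have b1 : ∑ l ∈ N.erase r, c l * c l ≤ ∑ l ∈ N.erase r, (2 * 8 ^ 17 / 8 ^ 35 * x) * c l :=
      sum_le_sum fun l hl =>
        mul_le_mul_of_nonneg_right (hS l (mem_of_mem_erase hl) (ne_of_mem_erase hl)) (c0 l)
    rw [← mul_sum] at b1
    have b2 : (2 * 8 ^ 17 / 8 ^ 35 * x) * ∑ l ∈ N.erase r, c l
        ≤ (2 * 8 ^ 17 / 8 ^ 35 * x) * (R * x) :=
      mul_le_mul_of_nonneg_left csum (by positivity)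
    have b3 : (2 * 8 ^ 17 / 8 ^ 35 * x) * (R * x) = x ^ 2 / 4 := by
      rw [hRr]; ring
    linarith
  -- sum the pointwise bound
  have main : ∑ a, ∑ b, (3 / 4 * ((if 8 < (S a).card ∧ (S a).card ≤ R then ρ a else 0)
        * (if 8 < (S b).card ∧ (S b).card ≤ R then ρ b else 0))
      - ∑ l ∈ N.erase r, (if (8 < (S a).card ∧ (S a).card ≤ R) ∧ l ∈ S a then ρ a else 0)
        * (if (8 < (S b).card ∧ (S b).card ≤ R) ∧ l ∈ S b then ρ b else 0)
      - (if R < max (S a).card (S b).card then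
          ρ a * ρ b * min (1 / ((S a).card : ℝ)) (1 / ((S b).card : ℝ)) else 0)
      - ((if (S a).card ≤ 8 then ρ a else 0) * (if (S b).card ≤ R then ρ b else 0)
        + (if (S a).card ≤ R then ρ a else 0) * (if (S b).card ≤ 8 then ρ b else 0)))
      ≤ ∑ a, ∑ b, ρ a * ρ b * Psi (S a) (S b) := by
    refine sum_le_sum fun a _ => sum_le_sum fun b _ => ?_
    have hp := mul_le_mul_of_nonneg_left (h23_point (hr a) (hr b) R) (mul_nonneg (hρ a) (hρ b))
    refine le_trans (le_of_eq ?_) hp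
    rw [h23_card_inter (hr a) (hr b) (hN a)]
    have e1 : ∑ l ∈ N.erase r, (if (8 < (S a).card ∧ (S a).card ≤ R) ∧ l ∈ S a then ρ a else 0)
        * (if (8 < (S b).card ∧ (S b).card ≤ R) ∧ l ∈ S b then ρ b else 0)
        = ρ a * ρ b * ((if 8 < (S a).card ∧ (S a).card ≤ R then (1 : ℝ) else 0)
          * (if 8 < (S b).card ∧ (S b).card ≤ R then 1 else 0)) *
          ∑ l ∈ N.erase r, (if l ∈ S a then (1 : ℝ) else 0) * (if l ∈ S b then 1 else 0) := by
      rw [mul_sum]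
      refine sum_congr rfl fun l _ => ?_
      by_cases p1 : 8 < (S a).card ∧ (S a).card ≤ R <;>
        by_cases p2 : 8 < (S b).card ∧ (S b).card ≤ R <;>
        by_cases p3 : l ∈ S a <;> by_cases p4 : l ∈ S b <;> simp [p1, p2, p3, p4]
    rw [e1]
    generalize (∑ l ∈ N.erase r,
      (if l ∈ S a then (1 : ℝ) else 0) * (if l ∈ S b then 1 else 0)) = Z
    generalize min (1 / ((S a).card : ℝ)) (1 / ((S b).card : ℝ)) = M
    split_ifs <;> ring
  refine le_trans ?_ main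
  simp only [sum_sub_distrib, sum_add_distrib]
  have s1 : ∑ a, ∑ b, 3 / 4 * ((if 8 < (S a).card ∧ (S a).card ≤ R then ρ a else 0)
        * (if 8 < (S b).card ∧ (S b).card ≤ R then ρ b else 0)) = 3 / 4 * (x * x) := by
    rw [hx, sum_mul_sum, mul_sum]
    exact sum_congr rfl fun a _ => by rw [mul_sum]
  have s2 : ∑ a, ∑ b, ∑ l ∈ N.erase r,
      (if (8 < (S a).card ∧ (S a).card ≤ R) ∧ l ∈ S a then ρ a else 0)
        * (if (8 < (S b).card ∧ (S b).card ≤ R) ∧ l ∈ S b then ρ b else 0)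
      = ∑ l ∈ N.erase r, c l * c l := by
    simp only [hc, sum_mul_sum]
    rw [sum_comm (s := N.erase r)]
    exact sum_congr rfl fun a _ => sum_comm
  have s3 : ∑ a, ∑ b, (if (S a).card ≤ 8 then ρ a else 0) * (if (S b).card ≤ R then ρ b else 0)
      = W8 * WR := by rw [hW8, hWR, sum_mul_sum]
  have s4 : ∑ a, ∑ b, (if (S a).card ≤ R then ρ a else 0) * (if (S b).card ≤ 8 then ρ b else 0)
      = WR * W8 := by rw [hW8, hWR, sum_mul_sum]
  rw [s1, s2, s3, s4]
  have f1 : W8 * WR ≤ (8 * θ) * (2 ^ 19 * θ) := mul_le_mul u1 u2 wR0 (by positivity)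
  have f2 : (2 ^ 13 * θ) * (2 ^ 13 * θ) ≤ x * x := mul_le_mul x1 x1 (by positivity) x0
  have f3 : 0 ≤ θ ^ 2 := sq_nonneg θ
  nlinarith

end Pool.Agent.Lib.MP_1b5cbf_lc.Bar.KP

namespace Pool.Agent.Lib.MP_1b5cbf_lc.Bar

open Finset

theorem kp_st (hKU : KUSt) : KPSt := by
  intro Ω α _ _ ρ T o θ y hρ ho hU hy hC hS
  obtain ⟨-, k2, k3, -⟩ := hKU Ω α ρ T o θ hρ ho hU
  have hθ : 0 ≤ θ := by
    have h0 := hU 0
    have : 0 ≤ Wm ρ T (8 ^ 0) :=
      sum_nonneg fun ω _ => mul_nonneg (hρ ω) (by split_ifs <;> norm_num)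
    norm_num at h0 this
    linarith
  have key := KP.kp ρ hρ T o ho (univ.biUnion T) (fun a => subset_biUnion_of_mem T (mem_univ a)) θ hθ
    (fun c => by
      have := hU c
      unfold Wm at this
      simpa only [mul_ite, mul_one, mul_zero] using this)
    (by
      refine hC.trans (le_of_eq ?_)
      unfold Wm big
      rw [← sum_add_distrib]
      refine sum_congr rfl fun ω _ => ?_
      have h1 : 0 < (T ω).card := card_pos.mpr ⟨o, ho ω⟩
      by_cases q : (T ω).card ≤ 1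
      · have e : (T ω).card = 1 := by omega
        rw [e]; norm_num
      · rw [if_neg q, if_pos (by omega), mul_zero, zero_add, mul_one_div]
        norm_num)
    (by
      have := k3 17
      simpa only [mul_ite, mul_zero] using this)
    (by
      have := k2 17
      unfold mn at this
      simpa only [mul_ite, mul_zero, lt_max_iff] using this)
    (fun l hl hne => by
      obtain ⟨ω, -, hω⟩ := mem_biUnion.mp hl
      have := hS ω l hω hne
      simpa only [mul_ite, mul_one, mul_zero] using this)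
  have hu : 0 ≤ y * um ρ T :=
    mul_nonneg hy (sum_nonneg fun ω _ => mul_nonneg (hρ ω) (by positivity))
  unfold net
  unfold KP.Psi at key
  linarith

end Pool.Agent.Lib.MP_1b5cbf_lc.Bar
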