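import Pool.Agent.Lib.MP_1b5cbf_lc.Bar.St

/-! First facts on the length of a subtree of the replica cube. -/

set_option autoImplicit false

namespace Pool.Agent.Lib.MP_1b5cbf_lc.Bar

open Finset

namespace LenA

open MeasureTheory

variable {ι : Type} [Fintype ι] [DecidableEq ι]

/-- the bits that have split before time `t`. -/
noncomputable def cut (τ : ι → ℝ) (t : ℝ) : Finset ι := univ.filter fun b => τ b < t

/-- total length of the subtree spanned by the leaves `U`. -/
noncomputable def len2 (τ : ι → ℝ) (U : Finset (Finset ι)) : ℝ :=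
  ∫ t in Set.Ioc (0:ℝ) 1, ((U.image fun l => l ∩ cut τ t).card : ℝ)

/-- the time spent with split set `S`. -/
noncomputable def dl (τ : ι → ℝ) (S : Finset ι) : ℝ :=
  max (Sᶜ.fold min 1 τ - S.fold max 0 τ) 0

theorem dl_nonneg (τ : ι → ℝ) (S : Finset ι) : 0 ≤ dl τ S := le_max_right _ _

theorem cut_set (τ : ι → ℝ) (S : Finset ι) :
    {t : ℝ | cut τ t = S} ∩ Set.Ioc (0:ℝ) 1 = Set.Ioc (S.fold max 0 τ) (Sᶜ.fold min 1 τ) := by
  ext t
  simp only [Set.mem_inter_iff, Set.mem_ofPred_eq, Set.mem_Ioc, Finset.fold_max_lt,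
    Finset.le_fold_min, mem_compl]
  constructor
  · rintro ⟨h, h0, h1⟩
    subst h
    refine ⟨⟨h0, fun b hb => (mem_filter.1 hb).2⟩, h1, fun b hb => ?_⟩
    by_contra hlt
    exact hb (mem_filter.2 ⟨mem_univ _, not_le.1 hlt⟩)
  · rintro ⟨⟨h0, ha⟩, h1, hb⟩
    refine ⟨?_, h0, h1⟩
    ext b
    simp only [cut, mem_filter, mem_univ, true_and]
    exact ⟨fun h => by_contra fun hn => absurd (hb b hn) (not_le.2 h), ha b⟩

theorem measurableSet_cut (τ : ι → ℝ) (S : Finset ι) : MeasurableSet {t : ℝ | cut τ t = S} := by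
  have : {t : ℝ | cut τ t = S} = (⋂ b ∈ S, Set.Ioi (τ b)) ∩ ⋂ b ∈ Sᶜ, Set.Iic (τ b) := by
    ext t
    simp only [Set.mem_ofPred_eq, Set.mem_inter_iff, Set.mem_iInter, Set.mem_Ioi, Set.mem_Iic,
      mem_compl]
    constructor
    · rintro rfl
      refine ⟨fun b hb => (mem_filter.1 hb).2, fun b hb => ?_⟩
      by_contra hlt
      exact hb (mem_filter.2 ⟨mem_univ _, not_le.1 hlt⟩)
    · rintro ⟨ha, hb⟩
      ext b
      simp only [cut, mem_filter, mem_univ, true_and]
      exact ⟨fun h => by_contra fun hn => absurd (hb b hn) (not_le.2 h), ha b⟩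
  rw [this]
  exact (Finset.measurableSet_biInter _ fun b _ => measurableSet_Ioi).inter
    (Finset.measurableSet_biInter _ fun b _ => measurableSet_Iic)

theorem integral_cut (τ : ι → ℝ) (F : Finset ι → ℝ) :
    ∫ t in Set.Ioc (0:ℝ) 1, F (cut τ t) = ∑ S, dl τ S * F S := by
  have h1 : ∀ t, F (cut τ t) = ∑ S, Set.indicator {t : ℝ | cut τ t = S} (fun _ => F S) t := by
    intro t
    rw [sum_eq_single (cut τ t)]
    · rw [Set.indicator_of_mem (by simp)]
    · intro S _ hS
      rw [Set.indicator_of_notMem (by simpa using Ne.symm hS)]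
    · simp
  simp_rw [h1]
  rw [integral_finsetSum]
  · refine sum_congr rfl fun S _ => ?_
    rw [integral_indicator_const _ (measurableSet_cut τ S), measureReal_restrict_apply
      (measurableSet_cut τ S), cut_set, Real.volume_real_Ioc, smul_eq_mul, dl]
  · intro S _
    exact (integrable_const _).indicator (measurableSet_cut τ S)

theorem len_eq (τ : ι → ℝ) (U : Finset (Finset ι)) :
    len2 τ U = ∑ S, dl τ S * ((U.image fun l => l ∩ S).card : ℝ) :=
  integral_cut τ fun S => ((U.image fun l => l ∩ S).card : ℝ)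

theorem sum_dl (τ : ι → ℝ) : ∑ S, dl τ S = 1 := by
  have := integral_cut τ fun _ => 1
  simpa using this.symm

omit [Fintype ι] in
theorem continuous_fold_min (a : ℝ) (S : Finset ι) :
    Continuous fun τ : ι → ℝ => S.fold min a τ := by
  induction S using Finset.induction_on with
  | empty => simpa using continuous_const
  | insert b S hb ih =>
    simp only [fold_insert hb]
    exact (continuous_apply b).min ih

omit [Fintype ι] in
theorem continuous_fold_max (a : ℝ) (S : Finset ι) :
    Continuous fun τ : ι → ℝ => S.fold max a τ := by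
  induction S using Finset.induction_on with
  | empty => simpa using continuous_const
  | insert b S hb ih =>
    simp only [fold_insert hb]
    exact (continuous_apply b).max ih

theorem continuous_dl (S : Finset ι) : Continuous fun τ : ι → ℝ => dl τ S :=
  ((continuous_fold_min 1 Sᶜ).sub (continuous_fold_max 0 S)).max continuous_const

/-- lengths agree when the numbers of classes agree at every time of `(0,1]`. -/
theorem len_congr {ι' : Type} [Fintype ι'] [DecidableEq ι'] (τ : ι → ℝ) (τ' : ι' → ℝ)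
    (U : Finset (Finset ι)) (U' : Finset (Finset ι'))
    (h : ∀ t, 0 < t → t ≤ 1 →
      (U.image fun l => l ∩ cut τ t).card = (U'.image fun l => l ∩ cut τ' t).card) :
    len2 τ U = len2 τ' U' := by
  unfold len2
  refine setIntegral_congr_fun measurableSet_Ioc fun t ht => ?_
  simp only [h t ht.1 ht.2]

theorem len_const (τ : ι → ℝ) (U : Finset (Finset ι)) (c : ℕ)
    (h : ∀ t, 0 < t → t ≤ 1 → (U.image fun l => l ∩ cut τ t).card = c) : len2 τ U = c := by
  unfold len2
  rw [setIntegral_congr_fun (g := fun _ => (c : ℝ)) measurableSet_Ioc fun t ht => by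
    simp only [h t ht.1 ht.2]]
  simp

theorem len_empty (τ : ι → ℝ) : len2 τ ∅ = 0 := by
  simpa using len_const τ ∅ 0 fun _ _ _ => by simp

theorem len_singleton (τ : ι → ℝ) (l : Finset ι) : len2 τ {l} = 1 := by
  simpa using len_const τ {l} 1 fun _ _ _ => by simp

theorem len_nonneg (τ : ι → ℝ) (U : Finset (Finset ι)) : 0 ≤ len2 τ U := by
  rw [len_eq]
  exact sum_nonneg fun S _ => mul_nonneg (dl_nonneg _ _) (Nat.cast_nonneg _)

theorem one_le_len (τ : ι → ℝ) {U : Finset (Finset ι)} (hU : U.Nonempty) : 1 ≤ len2 τ U := by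
  rw [len_eq, ← sum_dl τ]
  refine sum_le_sum fun S _ => le_mul_of_one_le_right (dl_nonneg _ _) ?_
  exact_mod_cast (hU.image _).card_pos

theorem len_le_card (τ : ι → ℝ) (U : Finset (Finset ι)) : len2 τ U ≤ U.card := by
  rw [len_eq]
  calc ∑ S, dl τ S * ((U.image fun l => l ∩ S).card : ℝ) ≤ ∑ S, dl τ S * (U.card : ℝ) := by
        refine sum_le_sum fun S _ => mul_le_mul_of_nonneg_left ?_ (dl_nonneg _ _)
        exact_mod_cast card_image_le
    _ = U.card := by rw [← sum_mul, sum_dl, one_mul]

/-- if every bit used by `U` has time at most `0`, the leaves are independent. -/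
theorem len_eq_card (τ : ι → ℝ) (U : Finset (Finset ι)) (h : ∀ l ∈ U, ∀ b ∈ l, τ b ≤ 0) :
    len2 τ U = U.card := by
  refine len_const τ U _ fun t h0 _ => ?_
  congr 1
  rw [image_congr (g := id), image_id]
  intro l hl
  exact inter_eq_left.2 fun b hb => mem_filter.2 ⟨mem_univ _, (h l hl b hb).trans_lt h0⟩

theorem continuous_len (U : Finset (Finset ι)) : Continuous fun τ : ι → ℝ => len2 τ U := by
  simp only [len_eq]
  exact continuous_finsetSum _ fun S _ => (continuous_dl S).mul continuous_const

theorem len_eq_len2 (τ : ι → ℝ) (U : Finset (Finset ι)) : len τ U = len2 τ U := by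
  unfold len len2
  congr 1
  funext t
  congr 2
  refine image_congr fun l _ => ?_
  ext b
  simp [cut]

end LenA

theorem lenA_st : LenASt := by
  intro ι _ _
  simp only [LenA.len_eq_len2]
  exact ⟨fun τ U h => LenA.one_le_len τ h, fun τ U => ⟨LenA.len_nonneg τ U, LenA.len_le_card τ U⟩,
    fun τ D U hD hU => LenA.len_eq_card τ U fun l hl b hb => hD b (mem_powerset.1 (hU hl) hb),
    fun U => LenA.continuous_len U,
    fun τ => ⟨LenA.dl τ, LenA.dl_nonneg τ, LenA.len_eq τ⟩⟩

end Pool.Agent.Lib.MP_1b5cbf_lc.Bar
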