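import Pool.Agent.Lib.MP_1b5cbf_lc.Bar.St

/-! Symmetries of the tree length. -/

set_option autoImplicit false

namespace Pool.Agent.Lib.MP_1b5cbf_lc.Bar

open Finset MeasureTheory

namespace LenB

/-- two maps with the same kernel on `U` have images of the same size -/
lemma card_ker {α β γ : Type} [DecidableEq β] [DecidableEq γ] (U : Finset α) (f : α → β) (g : α → γ)
    (h : ∀ x ∈ U, ∀ y ∈ U, f x = f y ↔ g x = g y) : (U.image f).card = (U.image g).card := by
  classical
  have key : ∀ {β γ : Type} [DecidableEq β] [DecidableEq γ] (f : α → β) (g : α → γ),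
      (∀ x ∈ U, ∀ y ∈ U, f x = f y ↔ g x = g y) →
      (U.image f).card = (U.image fun x => (f x, g x)).card := by
    intro β γ _ _ f g h
    have e : U.image f = (U.image fun x => (f x, g x)).image Prod.fst := by
      rw [image_image]; rfl
    rw [e]
    refine card_image_of_injOn ?_
    intro p hp q hq hpq
    obtain ⟨x, hx, rfl⟩ := mem_image.1 (mem_coe.1 hp)
    obtain ⟨y, hy, rfl⟩ := mem_image.1 (mem_coe.1 hq)
    exact Prod.ext hpq ((h x hx y hy).1 hpq)
  rw [key f g h, key g f fun x hx y hy => (h x hx y hy).symm]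
  have e : (U.image fun x => (g x, f x)) = (U.image fun x => (f x, g x)).image Prod.swap := by
    rw [image_image]; rfl
  rw [e, card_image_of_injective _ Prod.swap_injective]

lemma card_two {α β : Type} [DecidableEq α] [DecidableEq β] (f : α → β) (x y : α) :
    (({x, y} : Finset α).image f).card = if f x = f y then 1 else 2 := by
  rw [image_insert, image_singleton]
  split_ifs with h
  · rw [h]; simp
  · exact card_pair h

variable {ι : Type} [Fintype ι] [DecidableEq ι]

/-- lengths agree when the numbers of classes agree at every time of `(0,1]` -/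
lemma len_congr (τ τ' : ι → ℝ) (U U' : Finset (Finset ι))
    (h : ∀ t : ℝ, 0 < t → t ≤ 1 →
      (U.image fun l => l.filter fun b => τ b < t).card
        = (U'.image fun l => l.filter fun b => τ' b < t).card) :
    len τ U = len τ' U' := by
  unfold len
  refine setIntegral_congr_fun measurableSet_Ioc fun t ht => ?_
  simp only [h t ht.1 ht.2]

lemma len_const (τ : ι → ℝ) (U : Finset (Finset ι)) (c : ℕ)
    (h : ∀ t : ℝ, 0 < t → t ≤ 1 → (U.image fun l => l.filter fun b => τ b < t).card = c) :
    len τ U = c := by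
  unfold len
  rw [setIntegral_congr_fun (g := fun _ => (c : ℝ)) measurableSet_Ioc fun t ht => by
    simp only [h t ht.1 ht.2]]
  simp

lemma one (τ : ι → ℝ) (l0 : Finset ι) (U : Finset (Finset ι)) :
    len τ (U.image fun l => symmDiff l l0) = len τ U := by
  refine len_congr τ τ _ _ fun t _ _ => ?_
  rw [image_image]
  refine card_ker U _ _ fun x _ y _ => ?_
  simp only [Function.comp, Finset.ext_iff, mem_filter, mem_symmDiff]
  refine forall_congr' fun b => ?_
  tauto

lemma two (τ : ι → ℝ) (s : ℝ) (D Low l₁ l₂ : Finset ι) (U : Finset (Finset ι))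
    (hL : ∀ b ∈ Low, τ b = s) (hD : ∀ b ∈ D, τ b ≤ s) (h1 : l₁ ⊆ D) (h2 : l₂ ⊆ D)
    (h12 : l₁ \ Low = l₂ \ Low) (hU : U ⊆ D.powerset) :
    len τ (U.image (Equiv.swap l₁ l₂)) = len τ U := by
  refine len_congr τ τ _ _ fun t _ _ => ?_
  rw [image_image]
  rcases le_or_gt t s with hts | hts
  · have e : (l₁.filter fun b => τ b < t) = l₂.filter fun b => τ b < t := by
      ext b
      have hb : b ∈ l₁ \ Low ↔ b ∈ l₂ \ Low := by rw [h12]
      simp only [mem_sdiff] at hb
      simp only [mem_filter]
      by_cases hl : b ∈ Low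
      · have : ¬ τ b < t := by rw [hL b hl]; exact not_lt.2 hts
        tauto
      · tauto
    congr 1
    refine image_congr fun x _ => ?_
    simp only [Function.comp]
    rw [Equiv.swap_apply_def]
    split_ifs with a1 a2
    · rw [a1, e]
    · rw [a2, e]
    · rfl
  · have e : ∀ x : Finset ι, x ⊆ D → (x.filter fun b => τ b < t) = x := fun x hx =>
      filter_true_of_mem fun b hb => (hD b (hx hb)).trans_lt hts
    have hs : ∀ x : Finset ι, x ⊆ D → Equiv.swap l₁ l₂ x ⊆ D := by
      intro x hx
      rw [Equiv.swap_apply_def]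
      split_ifs
      · exact h2
      · exact h1
      · exact hx
    refine card_ker U _ _ fun x hx y hy => ?_
    have hx' := mem_powerset.1 (hU hx)
    have hy' := mem_powerset.1 (hU hy)
    simp only [Function.comp]
    rw [e _ (hs x hx'), e _ (hs y hy'), e x hx', e y hy']
    exact (Equiv.swap l₁ l₂).injective.eq_iff

lemma three (τ τ' : ι → ℝ) (φ : ι → ι) (D : Finset ι) (U : Finset (Finset ι))
    (hφ : Set.InjOn φ D) (hτ : ∀ b ∈ D, τ' (φ b) = τ b) (hU : U ⊆ D.powerset) :
    len τ' (U.image fun l => l.image φ) = len τ U := by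
  refine len_congr τ' τ _ _ fun t _ _ => ?_
  rw [image_image]
  have e : ∀ x : Finset ι, x ⊆ D →
      ((x.image φ).filter fun b => τ' b < t) = (x.filter fun b => τ b < t).image φ := by
    intro x hx
    rw [filter_image]
    congr 1
    exact filter_congr fun b hb => by rw [hτ b (hx hb)]
  have sub : ∀ x y : Finset ι, x ⊆ D → y ⊆ D → x.image φ = y.image φ → x ⊆ y := by
    intro x y hx hy h b hb
    have : φ b ∈ y.image φ := h ▸ mem_image_of_mem φ hb
    obtain ⟨c, hc, hcb⟩ := mem_image.1 this
    rwa [← hφ (mem_coe.2 (hy hc)) (mem_coe.2 (hx hb)) hcb]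
  refine card_ker U _ _ fun x hx y hy => ?_
  have hx' := mem_powerset.1 (hU hx)
  have hy' := mem_powerset.1 (hU hy)
  simp only [Function.comp]
  rw [e x hx', e y hy']
  refine ⟨fun h => ?_, fun h => by rw [h]⟩
  exact Subset.antisymm
    (sub _ _ ((filter_subset _ _).trans hx') ((filter_subset _ _).trans hy') h)
    (sub _ _ ((filter_subset _ _).trans hy') ((filter_subset _ _).trans hx') h.symm)

lemma four (τ : ι → ℝ) (l l' : Finset ι) (b b0 : ι) (hb : b ∈ symmDiff l l')
    (hmin : ∀ b' ∈ symmDiff l l', τ b ≤ τ b') :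
    len τ {l, l'} = len (fun _ => τ b) ({∅, {b0}} : Finset (Finset ι)) := by
  refine len_congr _ _ _ _ fun t _ _ => ?_
  rw [card_two, card_two]
  by_cases ht : τ b < t
  · rw [if_neg, if_neg]
    · simp [ht]
    · intro h
      have := Finset.ext_iff.1 h b
      simp only [mem_filter, ht, and_true] at this
      rw [mem_symmDiff] at hb
      tauto
  · rw [if_pos, if_pos]
    · simp [ht]
    · ext c
      simp only [mem_filter]
      by_cases hc : τ c < t
      · have : c ∉ symmDiff l l' := fun h => ht ((hmin c h).trans_lt hc)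
        rw [mem_symmDiff] at this
        tauto
      · tauto

lemma five (τ : ι → ℝ) (l : Finset ι) : len τ {l} = 1 := by
  simpa using len_const τ {l} 1 fun _ _ _ => by simp

lemma six (U : Finset (Finset ι)) (hU : U.Nonempty) : len (fun _ : ι => (1 : ℝ)) U = 1 := by
  have := len_const (fun _ : ι => (1 : ℝ)) U 1 fun t _ ht => by
    have e : (U.image fun l => l.filter fun _ => (1 : ℝ) < t) = U.image fun _ => (∅ : Finset ι) :=
      image_congr fun x _ => filter_false_of_mem fun _ _ => not_lt.2 ht
    rw [e, image_const hU, card_singleton]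
  simpa using this

end LenB

theorem lenB_st : LenBSt := fun _ _ _ =>
  ⟨LenB.one, LenB.two, LenB.three, LenB.four, LenB.five, LenB.six⟩

end Pool.Agent.Lib.MP_1b5cbf_lc.Bar
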