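import Pool.Agent.Lib.MP_1b5cbf_lc.Bar.St

/-! The theorem on bit vectors from the core, the interface and the variance bound. -/

set_option autoImplicit false

namespace Pool.Agent.Lib.MP_1b5cbf_lc.Bar

open Finset

namespace MainB

section PEtools
variable {P X : Type} [Fintype P] [DecidableEq P] [Fintype X]

theorem pe_mono (ν : X → ℝ) (hν : ∀ x, 0 ≤ ν x) (F G : (P → X) → ℝ) (h : ∀ ω, F ω ≤ G ω) :
    PE ν F ≤ PE ν G := by
  unfold PE
  exact Finset.sum_le_sum fun ω _ =>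
    mul_le_mul_of_nonneg_left (h ω) (Finset.prod_nonneg fun e _ => hν _)

theorem pe_mul (ν : X → ℝ) (c : ℝ) (F : (P → X) → ℝ) :
    PE ν (fun ω => c * F ω) = c * PE ν F := by
  unfold PE
  rw [Finset.mul_sum]
  exact Finset.sum_congr rfl fun ω _ => by ring

theorem pe_const (ν : X → ℝ) (hν : ∑ x, ν x = 1) (c : ℝ) :
    PE (P := P) ν (fun _ => c) = c := by
  unfold PE
  rw [← Finset.sum_mul]
  have h : ∑ ω : P → X, ∏ e, ν (ω e) = ∏ _e : P, ∑ x, ν x := by
    rw [Finset.prod_univ_sum]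
    simp
  rw [h, hν]
  simp
end PEtools

theorem bw_nonneg (p : ℝ) (h0 : 0 ≤ p) (h1 : p ≤ 1) (b : Bool) : 0 ≤ bw p b := by
  unfold bw
  split_ifs
  · exact h0
  · linarith

theorem bw_sum (p : ℝ) : ∑ b, bw p b = 1 := by
  simp [bw]

/-- the bootstrap: a bound in terms of `log L` becomes a bound in terms of `log ld` -/
theorem boot (K L ld : ℝ) (hK : 1 ≤ K) (hL : 1 ≤ L) (hld : 367 * K + 36 * K ^ 2 + 3 ≤ ld)
    (h : L - ld < K * (367 + 3 * Real.log L)) : L ≤ ld + 376 * K * Real.log ld := by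
  have hK0 : 0 < K := by linarith
  have hL0 : 0 < L := by linarith
  have hld3 : 3 ≤ ld := by nlinarith
  have hld0 : 0 < ld := by linarith
  have h1 : Real.log L ≤ L / (12 * K) + 12 * K := by
    have e : L = L / (12 * K) * (12 * K) := by field_simp
    have a : Real.log (L / (12 * K)) ≤ L / (12 * K) - 1 := Real.log_le_sub_one_of_pos (by positivity)
    have b : Real.log (12 * K) ≤ 12 * K - 1 := Real.log_le_sub_one_of_pos (by positivity)
    have c : Real.log L = Real.log (L / (12 * K)) + Real.log (12 * K) := by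
      rw [← Real.log_mul (by positivity) (by positivity), ← e]
    linarith
  have h2 : K * (3 * Real.log L) ≤ L / 4 + 36 * K ^ 2 := by
    have : K * (3 * Real.log L) ≤ K * (3 * (L / (12 * K) + 12 * K)) :=
      mul_le_mul_of_nonneg_left (by linarith) hK0.le
    have e : K * (3 * (L / (12 * K) + 12 * K)) = L / 4 + 36 * K ^ 2 := by field_simp; ring
    linarith
  have h3 : L ≤ 3 * ld := by nlinarith
  have hl1 : 1 ≤ Real.log ld := by
    have : Real.exp 1 ≤ ld := by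
      have := Real.exp_one_lt_d9
      linarith
    exact (Real.le_log_iff_exp_le hld0).2 this
  have h4 : Real.log L ≤ 2 + Real.log ld := by
    have a : Real.log L ≤ Real.log (3 * ld) := Real.log_le_log hL0 h3
    have b : Real.log (3 * ld) = Real.log 3 + Real.log ld := Real.log_mul (by norm_num) hld0.ne'
    have c : Real.log 3 ≤ 3 - 1 := Real.log_le_sub_one_of_pos (by norm_num)
    linarith
  have h5 : K * (367 + 3 * Real.log L) ≤ K * (376 * Real.log ld) :=
    mul_le_mul_of_nonneg_left (by linarith) hK0.le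
  nlinarith

theorem logval (R : ℕ) : Real.log (2 * 8 ^ (121 + R)) = (364 + 3 * R) * Real.log 2 := by
  have e : (2 : ℝ) * 8 ^ (121 + R) = 2 ^ (364 + 3 * R) := by
    have : (8 : ℝ) = 2 ^ 3 := by norm_num
    rw [this, ← pow_mul, ← pow_succ']
    congr 1
    ring
  rw [e, Real.log_pow]
  push_cast
  ring

/-- choice of the number of blocks -/
theorem pickR (L d : ℝ) (hL : 1 ≤ L) (hd : L ≤ d) : ∃ R : ℕ, R < ⌊d⌋₊ + 2 ∧ L < 2 ^ R ∧
    1 ≤ Real.log (2 * 8 ^ (121 + R)) ∧ Real.log (2 * 8 ^ (121 + R)) ≤ 367 + 3 * Real.log L := by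
  have hL0 : 0 ≤ L := by linarith
  have hf : 1 ≤ ⌊L⌋₊ := Nat.le_floor (by simpa using hL)
  refine ⟨Nat.log 2 ⌊L⌋₊ + 1, ?_, ?_, ?_, ?_⟩
  · have a : Nat.log 2 ⌊L⌋₊ ≤ ⌊L⌋₊ := Nat.log_le_self 2 _
    have b : ⌊L⌋₊ ≤ ⌊d⌋₊ := Nat.floor_le_floor hd
    omega
  · have a : ⌊L⌋₊ < 2 ^ (Nat.log 2 ⌊L⌋₊ + 1) := Nat.lt_pow_succ_log_self (by norm_num) _
    have b : ((⌊L⌋₊ + 1 : ℕ) : ℝ) ≤ ((2 ^ (Nat.log 2 ⌊L⌋₊ + 1) : ℕ) : ℝ) := by exact_mod_cast a
    have c : L < (⌊L⌋₊ : ℝ) + 1 := Nat.lt_floor_add_one L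
    push_cast at b
    linarith
  · rw [logval]
    have a := Real.log_two_gt_d9
    have b : (0 : ℝ) ≤ ((Nat.log 2 ⌊L⌋₊ + 1 : ℕ) : ℝ) := Nat.cast_nonneg _
    nlinarith
  · rw [logval]
    have a := Real.log_two_lt_d9
    have b : 2 ^ Nat.log 2 ⌊L⌋₊ ≤ ⌊L⌋₊ := Nat.pow_log_le_self 2 (by omega)
    have c : ((2 : ℝ)) ^ Nat.log 2 ⌊L⌋₊ ≤ L := by
      have : ((2 ^ Nat.log 2 ⌊L⌋₊ : ℕ) : ℝ) ≤ (⌊L⌋₊ : ℝ) := by exact_mod_cast b
      push_cast at this
      exact this.trans (Nat.floor_le hL0)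
    have e : Real.log ((2 : ℝ) ^ Nat.log 2 ⌊L⌋₊) ≤ Real.log L := Real.log_le_log (by positivity) c
    rw [Real.log_pow] at e
    push_cast
    nlinarith

end MainB

open MainB in
theorem mainB_st (hCore : CoreSt) (hIneq : IneqSt) (hVar : VarSt) : MainBSt := by
  refine ⟨376 * 2 ^ 95 + 1, Real.exp (367 * 2 ^ 95 + 36 * (2 ^ 95) ^ 2 + 3), ?_⟩
  intro d hd δ hδ
  have hd0 : 0 < d := lt_of_lt_of_le (Real.exp_pos _) hd
  have hld : 367 * 2 ^ 95 + 36 * (2 ^ 95) ^ 2 + 3 ≤ Real.log d :=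
    (Real.le_log_iff_exp_le hd0).2 hd
  have hld3 : 3 ≤ Real.log d := by
    have : (0 : ℝ) ≤ 367 * 2 ^ 95 + 36 * (2 ^ 95) ^ 2 := by positivity
    linarith
  have hd2 : 2 ≤ d := by
    have := Real.log_le_sub_one_of_pos hd0
    linarith
  have hll : 1 ≤ Real.log (Real.log d) := by
    have : Real.exp 1 ≤ Real.log d := by
      have := Real.exp_one_lt_d9
      linarith
    exact (Real.le_log_iff_exp_le (by linarith)).2 this
  choose η hη n0 hI using fun R : ℕ => hIneq (Bit R) d δ hd2 hδ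
  obtain ⟨R0, -, hR0⟩ := Finset.exists_min_image (range (⌊d⌋₊ + 2)) η ⟨0, by simp⟩
  refine ⟨min (η R0) (δ / (2 * d ^ 3)), lt_min (hη R0) (by positivity),
    max ((range (⌊d⌋₊ + 2)).sup n0) (⌊d⌋₊ + 1), ?_⟩
  intro n hn B hB
  have hdn : d < n := by
    have a : ⌊d⌋₊ + 1 ≤ n := le_trans (le_max_right _ _) hn
    have b : ((⌊d⌋₊ + 1 : ℕ) : ℝ) ≤ n := by exact_mod_cast a
    have c : d < (⌊d⌋₊ : ℝ) + 1 := Nat.lt_floor_add_one d
    push_cast at b
    linarith
  have hn0 : (0 : ℝ) < n := by linarith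
  have hp0 : 0 ≤ d / n := by positivity
  have hp1 : d / n < 1 := (div_lt_one hn0).2 hdn
  have hw := bw_nonneg (d / n) hp0 hp1.le
  by_cases hc : δ ≤ PE (bw (d / n)) (fun g => if Ind B g then 1 else 0)
  swap
  · refine le_trans (pe_mono _ hw _ _ fun g => ?_) (not_le.1 hc).le
    by_cases h1 : Ind B g
    · rw [if_pos h1]
      split_ifs <;> norm_num
    · rw [if_neg h1, if_neg fun h => h1 h.1]
  obtain ⟨m, hm⟩ : ∃ m, m = PE (bw (d / n)) fun g => ((B g).card : ℝ) := ⟨_, rfl⟩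
  have hmn : m ≤ n := by
    have a : PE (bw (d / n)) (fun g => ((B g).card : ℝ)) ≤
        PE (P := Pr n) (bw (d / n)) (fun _ => (n : ℝ)) := by
      refine pe_mono _ hw _ _ fun g => ?_
      have : (B g).card ≤ n := by simpa using Finset.card_le_univ (B g)
      exact_mod_cast this
    rw [pe_const (P := Pr n) (bw (d / n)) (bw_sum _) (n : ℝ)] at a
    exact hm ▸ a
  have hLd : d / n * m ≤ d := by
    calc d / n * m ≤ d / n * n := mul_le_mul_of_nonneg_left hmn hp0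
      _ = d := by field_simp
  have hL : d / n * m ≤ Real.log d + 376 * 2 ^ 95 * Real.log (Real.log d) := by
    by_cases h1 : 1 ≤ d / n * m
    · obtain ⟨R, hR, hR1, hR2, hR3⟩ := pickR (d / n * m) d h1 hLd
      have hmem : R ∈ range (⌊d⌋₊ + 2) := mem_range.2 hR
      have hnR : n ≥ n0 R := le_trans (le_trans (Finset.le_sup hmem) (le_max_left _ _)) hn
      have hB' : inflB (d / n) B ≤ η R * (n : ℝ) ^ 3 :=
        hB.trans (mul_le_mul_of_nonneg_right ((min_le_left _ _).trans (hR0 R hmem)) (by positivity))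
      have hif := hI R n hnR B hB' hc
      rw [← hm] at hif
      have hco := hCore R _ _ _ _ hif hR2 le_rfl (by linarith) hR1
      refine boot (2 ^ 95) _ _ (by norm_num) h1 hld (lt_of_lt_of_le hco ?_)
      exact mul_le_mul_of_nonneg_left hR3 (by positivity)
    · have : (0 : ℝ) ≤ 376 * 2 ^ 95 * Real.log (Real.log d) := by positivity
      linarith [not_le.1 h1]
  have hv := (hVar Unit n (d / n) B hp0 hp1).2
  rw [← hm] at hv
  have hpt : ∀ g : Pr n → Bool, (if Ind B g ∧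
      (Real.log d + (376 * 2 ^ 95 + 1) * Real.log (Real.log d)) * n / d ≤ ((B g).card : ℝ)
        then (1 : ℝ) else 0) ≤ (d / n) ^ 2 * (((B g).card : ℝ) - m) ^ 2 := by
    intro g
    split_ifs with h
    · have h2 := h.2
      have h3 : Real.log d + (376 * 2 ^ 95 + 1) * Real.log (Real.log d) ≤ d / n * (B g).card := by
        rw [div_le_iff₀ hd0] at h2
        rw [div_mul_eq_mul_div, le_div_iff₀ hn0]
        linarith
      have h4 : 1 ≤ d / n * (((B g).card : ℝ) - m) := by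
        rw [mul_sub]
        linarith
      rw [← mul_pow]
      nlinarith
    · positivity
  refine le_trans (pe_mono _ hw _ _ hpt) ?_
  rw [pe_mul]
  have hB2 : inflB (d / n) B ≤ δ / (2 * d ^ 3) * (n : ℝ) ^ 3 :=
    hB.trans (mul_le_mul_of_nonneg_right (min_le_right _ _) (by positivity))
  calc (d / n) ^ 2 * PE (bw (d / n)) (fun g => (((B g).card : ℝ) - m) ^ 2)
      ≤ (d / n) ^ 2 * (2 * (d / n) * inflB (d / n) B) :=
        mul_le_mul_of_nonneg_left hv (by positivity)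
    _ ≤ (d / n) ^ 2 * (2 * (d / n) * (δ / (2 * d ^ 3) * (n : ℝ) ^ 3)) :=
        mul_le_mul_of_nonneg_left (mul_le_mul_of_nonneg_left hB2 (by positivity)) (by positivity)
    _ = δ := by field_simp

end Pool.Agent.Lib.MP_1b5cbf_lc.Bar
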