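import Pool.Agent.Lib.MP_1b5cbf_lc.Bar.St

/-! The net inequality from the parent code. -/

set_option autoImplicit false

namespace Pool.Agent.Lib.MP_1b5cbf_lc.Bar

open Finset

namespace Net

variable {ι : Type} [Fintype ι] [DecidableEq ι]

theorem sd_erase {l : Finset ι} {x : ι} (h : x ∈ l) : symmDiff l (l.erase x) = {x} := by
  ext y
  simp only [mem_symmDiff, mem_erase, mem_singleton]
  by_cases e : y = x
  · subst e; simp [h]
  · simp [e]

theorem jc_eq (D : Finset ι) (b : Finset ι → ι) (T : Finset (Finset ι)) :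
    (jc D b (T ∩ D.powerset) : ℝ) = (if ∅ ∈ T then 1 else 0) + ∑ l ∈ D.powerset.erase ∅,
      ((if l ∈ T ∧ l.erase (b l) ∉ T then (1 : ℝ) else 0) +
        if l.erase (b l) ∈ T ∧ l ∉ T then 1 else 0) := by
  unfold jc
  rw [card_filter]
  push_cast
  congr 1
  · simp
  · refine sum_congr rfl fun l hl => ?_
    have h1 : l ∈ D.powerset := (mem_erase.1 hl).2
    have h2 : l.erase (b l) ∈ D.powerset :=
      mem_powerset.2 ((erase_subset _ _).trans (mem_powerset.1 h1))
    by_cases e1 : l ∈ T <;> by_cases e2 : l.erase (b l) ∈ T <;> simp [e1, e2, h1, h2]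

/-- the right side of the interface inequality for the parent code -/
theorem key (hT : TwoSt) (hC : CodeSt) (hR : RootSt) (β : (ι → ℝ) → Finset (Finset ι) → ℝ)
    (L ld : ℝ) (b0 b1 : ι) (τ : ι → ℝ) (D : Finset ι) (b : Finset ι → ι) (h : Iface β L ld)
    (hb : b0 ≠ b1) (hl : ∀ l : Finset ι, l.Nonempty → b l ∈ l) :
    (1 / 2) * ∑ T, ∑ T', β τ T * β τ T' * len τ (T ∩ T' ∩ D.powerset) ≤
      2 ^ D.card * (ld * um (rho (β τ)) (TD D) + cost β b0 L τ D b) := by
  obtain ⟨t1, t2, -⟩ := hT ι β L ld b0 b1 h hb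
  obtain ⟨c1, c2⟩ := hC ι D b hl
  obtain ⟨r1, -, -⟩ := hR ι β L ld τ D h
  have hm : (1 : ℝ) ≤ 2 ^ D.card := one_le_pow₀ (by norm_num)
  have hm0 : (0 : ℝ) < 2 ^ D.card := by positivity
  set lg := Real.log (2 * 2 ^ D.card) with hlg
  have lg0 : 0 ≤ lg := Real.log_nonneg (by linarith)
  have lg1 : lg ≤ 2 ^ D.card := by
    rw [hlg, Real.log_mul (by norm_num) hm0.ne']
    have a1 := Real.log_le_sub_one_of_pos hm0
    have a2 := Real.log_le_sub_one_of_pos (show (0 : ℝ) < 2 by norm_num)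
    linarith
  have hD : (2 : ℝ) ^ D.card ≤ 2 ^ Fintype.card ι :=
    pow_le_pow_right₀ (by norm_num) (card_le_univ D)
  have hi := h.ineq τ D (fun T => (jc D b T : ℝ) * lg) (fun T => by positivity) (fun T => by
    have a1 : (jc D b T : ℝ) ≤ 2 ^ D.card := by exact_mod_cast c1 T
    rw [sq]
    exact mul_le_mul (a1.trans hD) (lg1.trans hD) lg0 (by positivity)) c2
  refine hi.trans ?_
  have e1 : ∑ T, β τ T * (jc D b (T ∩ D.powerset) : ℝ) =
      L + 2 * ∑ l ∈ D.powerset.erase ∅, sg β b0 (τ (b l)) := by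
    simp only [jc_eq, mul_add, sum_add_distrib, mul_sum]
    rw [t1 τ ∅, sum_comm, sum_comm (s := univ), ← sum_add_distrib]
    congr 1
    refine sum_congr rfl fun l hl' => ?_
    have hx := hl l (nonempty_iff_ne_empty.2 (mem_erase.1 hl').1)
    have s1 := sd_erase hx
    have s2 : symmDiff (l.erase (b l)) l = {b l} := by rw [symmDiff_comm, s1]
    rw [t2 τ l (l.erase (b l)) (b l) (by simp [s1]) (by simp [s1]),
      t2 τ (l.erase (b l)) l (b l) (by simp [s2]) (by simp [s2])]
    ring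
  have e2 : ∑ T, β τ T * (if T ∩ D.powerset = ∅ then 0
        else ld + (jc D b (T ∩ D.powerset) : ℝ) * lg) ≤
      ld * ∑ T, β τ T * (if T ∩ D.powerset = ∅ then 0 else 1) +
        lg * ∑ T, β τ T * (jc D b (T ∩ D.powerset) : ℝ) := by
    rw [mul_sum, mul_sum, ← sum_add_distrib]
    refine sum_le_sum fun T _ => ?_
    have := h.nonneg τ T
    split_ifs
    · have : 0 ≤ lg * (β τ T * (jc D b (T ∩ D.powerset) : ℝ)) := by positivity
      linarith
    · exact le_of_eq (by ring)
  rw [r1, e1] at e2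
  have e3 : 2 ^ D.card * cost β b0 L τ D b =
      3 + lg * (L + 2 * ∑ l ∈ D.powerset.erase ∅, sg β b0 (τ (b l))) := by
    unfold cost
    rw [mul_div_cancel₀ _ hm0.ne']
  rw [mul_add, e3]
  nlinarith

end Net

theorem net_st (hA : LenASt) (hT : TwoSt) (hC : CodeSt) (hR : RootSt) : NetSt := by
  intro ι _ _ β L ld b0 b1 τ D b h hb hl
  have hk := Net.key hT hC hR β L ld b0 b1 τ D b h hb hl
  obtain ⟨a1, a2, a3, -⟩ := hA ι
  obtain ⟨t1, -⟩ := hT ι β L ld b0 b1 h hb
  obtain ⟨-, r2, -⟩ := hR ι β L ld τ D h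
  have hm0 : (0 : ℝ) < 2 ^ D.card := by positivity
  constructor
  · have e1 : ∑ T, ∑ T', β τ T * β τ T' * (if T ∩ T' ∩ D.powerset = ∅ then 0 else 1) ≤
        ∑ T, ∑ T', β τ T * β τ T' * len τ (T ∩ T' ∩ D.powerset) := by
      refine sum_le_sum fun T _ => sum_le_sum fun T' _ => ?_
      refine mul_le_mul_of_nonneg_left ?_ (mul_nonneg (h.nonneg τ T) (h.nonneg τ T'))
      split_ifs with e
      · exact (a2 τ _).1
      · exact a1 τ _ (nonempty_iff_ne_empty.2 e)
    rw [r2] at e1
    have e2 : net (rho (β τ)) (TD D) (L - ld) = (1 / 2) * (∑ T, ∑ T', rho (β τ) T * rho (β τ) T' *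
        (1 / ((TD D T ∩ TD D T').card : ℝ))) - ld * um (rho (β τ)) (TD D) := by
      have u1 : ∑ T, ∑ T', rho (β τ) T * rho (β τ) T' * (1 / ((TD D T).card : ℝ)) =
          L * um (rho (β τ)) (TD D) := by
        rw [um, ← h.mass τ, sum_mul_sum, sum_comm]
        exact sum_congr rfl fun T _ => sum_congr rfl fun T' _ => by ring
      have u2 : ∑ T, ∑ T', rho (β τ) T * rho (β τ) T' * (1 / ((TD D T').card : ℝ)) =
          L * um (rho (β τ)) (TD D) := by
        rw [um, ← h.mass τ, sum_mul_sum]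
        exact sum_congr rfl fun T _ => sum_congr rfl fun T' _ => by ring
      unfold net
      simp only [mul_sub, sum_sub_distrib]
      rw [u1, u2]
      ring
    rw [e2]
    refine le_of_mul_le_mul_left ?_ hm0
    nlinarith
  · intro h0
    have e1 : ∑ T, ∑ T', β τ T * β τ T' * len τ (T ∩ T' ∩ D.powerset) = 2 ^ D.card * L ^ 2 := by
      have e2 : ∀ T T' : Finset (Finset ι), β τ T * β τ T' * len τ (T ∩ T' ∩ D.powerset) =
          ∑ l ∈ D.powerset, (β τ T * (if l ∈ T then 1 else 0)) *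
            (β τ T' * (if l ∈ T' then 1 else 0)) := fun T T' => by
        rw [a3 τ D _ h0 inter_subset_right, inter_comm, ← filter_mem_eq_inter, card_filter]
        push_cast
        rw [mul_sum]
        refine sum_congr rfl fun l _ => ?_
        by_cases e1 : l ∈ T <;> by_cases e2 : l ∈ T' <;> simp [e1, e2]
      simp only [e2]
      rw [sum_congr rfl fun T _ => sum_comm, sum_comm]
      simp only [← sum_mul_sum, t1 τ]
      rw [sum_const, card_powerset, nsmul_eq_mul]
      push_cast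
      ring
    rw [e1] at hk
    refine le_of_mul_le_mul_left ?_ hm0
    nlinarith

end Pool.Agent.Lib.MP_1b5cbf_lc.Bar
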