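import Pool.Agent.Lib.MP_1b5cbf_lc.Bar.St

/-! The law of the set of leaves that see a given edge. -/

set_option autoImplicit false

namespace Pool.Agent.Lib.MP_1b5cbf_lc.Bar

open Finset

namespace Nu

variable {α κ : Type*} [Fintype α] [DecidableEq α] [Fintype κ] [DecidableEq κ]

/-- law of the union of independent marks: mark `k` is on with probability `r k` and covers `C k`. -/
noncomputable def mk (C : κ → Finset α) (r : κ → ℝ) (w : Finset α) : ℝ :=
  ∑ M : Finset κ, if M.biUnion C = w then (∏ k ∈ M, r k) * ∏ k ∈ univ \ M, (1 - r k) else 0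

omit [Fintype α] in
theorem mk_nonneg (C : κ → Finset α) (r : κ → ℝ) (h0 : ∀ k, 0 ≤ r k) (h1 : ∀ k, r k ≤ 1)
    (w : Finset α) : 0 ≤ mk C r w := by
  unfold mk
  refine sum_nonneg fun M _ => ?_
  split_ifs
  · exact mul_nonneg (prod_nonneg fun k _ => h0 k) (prod_nonneg fun k _ => sub_nonneg.2 (h1 k))
  · exact le_rfl

theorem mk_sum (C : κ → Finset α) (r : κ → ℝ) (F : Finset α → ℝ) :
    ∑ w, mk C r w * F w
      = ∑ M : Finset κ, (∏ k ∈ M, r k) * (∏ k ∈ univ \ M, (1 - r k)) * F (M.biUnion C) := by
  unfold mk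
  simp only [sum_mul]
  rw [sum_comm]
  refine sum_congr rfl fun M _ => ?_
  rw [sum_eq_single (M.biUnion C)]
  · simp
  · intro b _ hb
    rw [if_neg (Ne.symm hb), zero_mul]
  · simp

theorem mk_void (C : κ → Finset α) (r : κ → ℝ) (U : Finset α) :
    ∑ w, mk C r w * (if Disjoint w U then 1 else 0)
      = ∏ k, (if Disjoint (C k) U then 1 else 1 - r k) := by
  rw [mk_sum]
  have h := Finset.prod_add (fun k => r k * (if Disjoint (C k) U then (1:ℝ) else 0))
    (fun k => 1 - r k) (univ : Finset κ)
  have h2 : ∏ k, (if Disjoint (C k) U then (1:ℝ) else 1 - r k)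
      = ∏ k, (r k * (if Disjoint (C k) U then (1:ℝ) else 0) + (1 - r k)) := by
    refine prod_congr rfl fun k _ => ?_
    split_ifs <;> ring
  rw [h2, h, powerset_univ]
  refine sum_congr rfl fun M _ => ?_
  rw [prod_mul_distrib, mul_right_comm]
  congr 2
  rw [Finset.prod_ite_zero]
  simp [disjoint_biUnion_left]

/-- a function on sets is determined by its void sums. -/
theorem eq_of_void (f g : Finset α → ℝ)
    (h : ∀ U : Finset α, ∑ w, f w * (if Disjoint w U then 1 else 0)
      = ∑ w, g w * (if Disjoint w U then 1 else 0)) : f = g := by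
  have key : ∀ V : Finset α, ∑ w ∈ V.powerset, f w = ∑ w ∈ V.powerset, g w := by
    intro V
    have e : ∀ φ : Finset α → ℝ, ∑ w, φ w * (if Disjoint w Vᶜ then 1 else 0)
        = ∑ w ∈ V.powerset, φ w := by
      intro φ
      rw [← sum_filter_add_sum_filter_not univ (fun w => w ⊆ V)]
      have a1 : univ.filter (fun w => w ⊆ V) = V.powerset := by ext w; simp
      rw [a1]
      have a2 : ∑ w ∈ univ.filter (fun w => ¬ w ⊆ V), φ w * (if Disjoint w Vᶜ then 1 else 0) = 0 := by
        refine sum_eq_zero fun w hw => ?_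
        rw [if_neg, mul_zero]
        rw [disjoint_compl_right_iff]
        exact (mem_filter.1 hw).2
      rw [a2, add_zero]
      refine sum_congr rfl fun w hw => ?_
      rw [if_pos, mul_one]
      rw [disjoint_compl_right_iff]
      exact mem_powerset.1 hw
    rw [← e f, ← e g, h]
  funext V
  induction V using Finset.strongInduction with
  | H V ih =>
    have := key V
    rw [← add_sum_erase _ _ (mem_powerset_self V), ← add_sum_erase _ g (mem_powerset_self V)] at this
    have e2 : ∑ w ∈ V.powerset.erase V, f w = ∑ w ∈ V.powerset.erase V, g w := by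
      refine sum_congr rfl fun w hw => ih w ?_
      rw [mem_erase, mem_powerset] at hw
      exact Finset.ssubset_iff_subset_ne.2 ⟨hw.2, hw.1⟩
    linarith

/-- inclusion-exclusion: a weight is recovered from its void sums. -/
theorem moebius (μ : Finset α → ℝ) (S : Finset α) :
    ∑ U ∈ S.powerset, (-1 : ℝ) ^ U.card * ∑ w, μ w * (if Disjoint w (Sᶜ ∪ U) then 1 else 0)
      = μ S := by
  simp only [mul_sum]
  rw [sum_comm]
  have key : ∀ w : Finset α, ∑ U ∈ S.powerset,
      (-1 : ℝ) ^ U.card * (μ w * (if Disjoint w (Sᶜ ∪ U) then 1 else 0))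
      = if w = S then μ w else 0 := by
    intro w
    by_cases hw : w ⊆ S
    · have h1 : ∑ U ∈ S.powerset,
          (-1 : ℝ) ^ U.card * (μ w * (if Disjoint w (Sᶜ ∪ U) then 1 else 0))
          = μ w * ∑ U ∈ (S \ w).powerset, (-1 : ℝ) ^ U.card := by
        rw [mul_sum, ← sum_subset (powerset_mono.2 (sdiff_subset (s := S) (t := w)))]
        · refine sum_congr rfl fun U hU => ?_
          rw [if_pos]
          · ring
          · rw [disjoint_union_right, disjoint_compl_right_iff]
            exact ⟨hw, (subset_sdiff.1 (mem_powerset.1 hU)).2.symm⟩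
        · intro U hU hn
          rw [if_neg]
          · ring
          · intro hd
            exact hn (mem_powerset.2 (subset_sdiff.2
              ⟨mem_powerset.1 hU, (disjoint_union_right.1 hd).2.symm⟩))
      have h2 : ∑ U ∈ (S \ w).powerset, (-1 : ℝ) ^ U.card = if S \ w = ∅ then 1 else 0 := by
        have := Finset.sum_powerset_neg_one_pow_card (x := S \ w)
        have h3 := congrArg (fun z : ℤ => (z : ℝ)) this
        simpa using h3
      rw [h1, h2]
      by_cases hS : w = S
      · simp [hS]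
      · rw [if_neg hS, if_neg, mul_zero]
        intro h
        exact hS (Subset.antisymm hw (sdiff_eq_empty_iff_subset.1 h))
    · rw [if_neg (fun h : w = S => hw h.le)]
      refine sum_eq_zero fun U _ => ?_
      rw [if_neg]
      · ring
      · intro hd
        exact hw (disjoint_compl_right_iff.1 (disjoint_union_right.1 hd).1)
  simp only [key]
  simp

/-- independent marks on the classes of every split set. -/
theorem exists_law {ι : Type} [Fintype ι] [DecidableEq ι] {p : ℝ} (h0 : 0 ≤ p) (h1 : p < 1)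
    (δ : Finset ι → ℝ) (hδ : ∀ S, 0 ≤ δ S) :
    ∃ μ : Finset (Finset ι) → ℝ, (∀ w, 0 ≤ μ w) ∧ ∀ U : Finset (Finset ι),
      ∑ w, μ w * (if Disjoint w U then 1 else 0)
        = (1 - p) ^ ∑ S, δ S * ((U.image fun l => l ∩ S).card : ℝ) := by
  have hp : 0 < 1 - p := by linarith
  refine ⟨mk (fun k : Finset ι × Finset ι => univ.filter fun l => l ∩ k.1 = k.2)
    (fun k => 1 - (1 - p) ^ δ k.1), fun w => ?_, fun U => ?_⟩
  · refine mk_nonneg _ _ (fun k => sub_nonneg.2 ?_) (fun k => ?_) w
    · exact Real.rpow_le_one hp.le (by linarith) (hδ _)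
    · have := Real.rpow_nonneg hp.le (δ k.1)
      linarith
  · rw [mk_void, Real.rpow_sum_of_pos hp, Fintype.prod_prod_type]
    refine prod_congr rfl fun S _ => ?_
    rw [Real.rpow_mul_natCast hp.le, ← prod_const]
    rw [← prod_subset (subset_univ (U.image fun l => l ∩ S))]
    · refine prod_congr rfl fun c hc => ?_
      rw [if_neg]
      · simp
      · obtain ⟨l, hl, rfl⟩ := mem_image.1 hc
        exact not_disjoint_iff.2 ⟨l, by simp, hl⟩
    · intro c _ hc
      rw [if_pos]
      refine disjoint_left.2 fun l hl hU => hc ?_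
      exact mem_image.2 ⟨l, hU, (mem_filter.1 hl).2⟩

end Nu

theorem nu_st (hA : LenASt) : NuSt := by
  refine ⟨fun ι _ _ p τ h0 h1 => ?_, fun Λ _ _ ν ν' h => Nu.eq_of_void ν ν' h⟩
  obtain ⟨-, -, -, hc, hd⟩ := hA ι
  obtain ⟨δ, hδ, hl⟩ := hd τ
  obtain ⟨μ, hμ, hv⟩ := Nu.exists_law h0 h1 δ hδ
  have e : ∀ S, nu p τ S = μ S := by
    intro S
    rw [← Nu.moebius μ S, nu]
    refine sum_congr rfl fun U _ => ?_
    rw [hv, hl]
  refine ⟨fun S => (e S).symm ▸ hμ S, fun U => ?_, fun S => ?_⟩
  · simp only [e]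
    rw [hv, hl]
  · have hp : 0 < 1 - p := by linarith
    unfold nu
    exact continuous_finsetSum _ fun U _ => continuous_const.mul
      ((Real.continuous_const_rpow hp.ne').comp (hc _))

end Pool.Agent.Lib.MP_1b5cbf_lc.Bar
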