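import Pool.Agent.Lib.MP_1b5cbf_lc.Bar.St

/-! Tools on `PE`: push forward, products, Efron-Stein. -/

set_option autoImplicit false

namespace Pool.Agent.Lib.MP_1b5cbf_lc.Bar

open Finset

namespace PEx

variable {α : Type*} [Fintype α]

lemma jensen_sq {β : Type*} [Fintype β] (μ : β → ℝ) (h0 : ∀ b, 0 ≤ μ b) (h1 : ∑ b, μ b = 1)
    (f : β → ℝ) : (∑ b, μ b * f b) ^ 2 ≤ ∑ b, μ b * f b ^ 2 := by
  have e : ∀ m : ℝ, ∑ b, μ b * (f b - m) ^ 2
      = ∑ b, μ b * f b ^ 2 - 2 * m * (∑ b, μ b * f b) + m ^ 2 * ∑ b, μ b := by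
    intro m
    rw [mul_sum, mul_sum, ← sum_sub_distrib, ← sum_add_distrib]
    exact sum_congr rfl fun b _ => by ring
  have h : 0 ≤ ∑ b, μ b * (f b - ∑ c, μ c * f c) ^ 2 :=
    sum_nonneg fun b _ => mul_nonneg (h0 b) (sq_nonneg _)
  rw [e, h1] at h
  nlinarith

lemma var_pair (ν : α → ℝ) (h1 : ∑ a, ν a = 1) (g : α → ℝ) :
    ∑ a, ν a * g a ^ 2 - (∑ a, ν a * g a) ^ 2
      = (1 / 2) * ∑ a, ∑ b, ν a * ν b * (g a - g b) ^ 2 := by
  have e : ∑ a, ∑ b, ν a * ν b * (g a - g b) ^ 2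
      = (∑ a, ν a * g a ^ 2) * (∑ b, ν b) - 2 * ((∑ a, ν a * g a) * (∑ b, ν b * g b))
        + (∑ a, ν a) * (∑ b, ν b * g b ^ 2) := by
    rw [sum_mul_sum, sum_mul_sum, sum_mul_sum, mul_sum, ← sum_sub_distrib, ← sum_add_distrib]
    refine sum_congr rfl fun a _ => ?_
    rw [mul_sum, ← sum_sub_distrib, ← sum_add_distrib]
    exact sum_congr rfl fun b _ => by ring
  rw [e, h1]; ring

lemma sum_prod_one {ι : Type*} [Fintype ι] [DecidableEq ι] (ν : α → ℝ) (h1 : ∑ a, ν a = 1) :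
    ∑ w : ι → α, ∏ e, ν (w e) = 1 := by
  rw [← Fintype.piFinset_univ, ← prod_univ_sum]
  simp [h1]

lemma sum_succ {n : ℕ} (F : (Fin (n + 1) → α) → ℝ) :
    ∑ w, F w = ∑ a, ∑ w : Fin n → α, F (Fin.cons a w) := by
  rw [← Fintype.sum_prod_type']
  exact (Fintype.sum_equiv (Fin.consEquiv fun _ => α) _ _ (fun _ => rfl)).symm

theorem es_fin (ν : α → ℝ) (h0 : ∀ a, 0 ≤ ν a) (h1 : ∑ a, ν a = 1) (n : ℕ) :
    ∀ F : (Fin n → α) → ℝ,
    ∑ w, (∏ e, ν (w e)) * F w ^ 2 - (∑ w, (∏ e, ν (w e)) * F w) ^ 2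
      ≤ (1 / 2) * ∑ e, ∑ w, ∑ a, (∏ e, ν (w e)) * ν a * (F w - F (Function.update w e a)) ^ 2 := by
  induction n with
  | zero => intro F; simp
  | succ n ih =>
    intro F
    have hW : ∀ (a : α) (w : Fin n → α),
        ∏ e, ν ((Fin.cons a w : Fin (n + 1) → α) e) = ν a * ∏ e, ν (w e) := by
      intro a w; rw [Fin.prod_univ_succ]; simp
    set G : α → ℝ := fun a => ∑ w : Fin n → α, (∏ e, ν (w e)) * F (Fin.cons a w) with hG
    have hP : ∀ w : Fin n → α, 0 ≤ ∏ e, ν (w e) := fun w => prod_nonneg fun e _ => h0 _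
    have e1 : ∑ w, (∏ e, ν (w e)) * F w ^ 2
        = ∑ a, ν a * ∑ w : Fin n → α, (∏ e, ν (w e)) * F (Fin.cons a w) ^ 2 := by
      rw [sum_succ]
      refine sum_congr rfl fun a _ => ?_
      rw [mul_sum]
      exact sum_congr rfl fun w _ => by rw [hW]; ring
    have e2 : ∑ w, (∏ e, ν (w e)) * F w = ∑ a, ν a * G a := by
      rw [sum_succ]
      refine sum_congr rfl fun a _ => ?_
      rw [hG, mul_sum]
      exact sum_congr rfl fun w _ => by rw [hW]; ring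
    have e3 : ∑ w, ∑ b, (∏ e, ν (w e)) * ν b * (F w - F (Function.update w 0 b)) ^ 2
        = ∑ a, ∑ b, ν a * ν b * ∑ w : Fin n → α,
          (∏ e, ν (w e)) * (F (Fin.cons a w) - F (Fin.cons b w)) ^ 2 := by
      rw [sum_succ]
      refine sum_congr rfl fun a _ => ?_
      rw [sum_comm]
      refine sum_congr rfl fun b _ => ?_
      rw [mul_sum]
      refine sum_congr rfl fun w _ => ?_
      rw [hW, Fin.update_cons_zero]; ring
    have e4 : ∀ i : Fin n,
        ∑ w, ∑ b, (∏ e, ν (w e)) * ν b * (F w - F (Function.update w i.succ b)) ^ 2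
        = ∑ a, ν a * ∑ w : Fin n → α, ∑ b, (∏ e, ν (w e)) * ν b *
          (F (Fin.cons a w) - F (Fin.cons a (Function.update w i b))) ^ 2 := by
      intro i
      rw [sum_succ]
      refine sum_congr rfl fun a _ => ?_
      rw [mul_sum]
      refine sum_congr rfl fun w _ => ?_
      rw [mul_sum]
      refine sum_congr rfl fun b _ => ?_
      rw [hW, Fin.cons_update]; ring
    have i1 : ∑ a, ν a * G a ^ 2 - (∑ a, ν a * G a) ^ 2 ≤ (1 / 2) *
        ∑ a, ∑ b, ν a * ν b * ∑ w : Fin n → α,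
          (∏ e, ν (w e)) * (F (Fin.cons a w) - F (Fin.cons b w)) ^ 2 := by
      rw [var_pair ν h1]
      refine mul_le_mul_of_nonneg_left (sum_le_sum fun a _ => sum_le_sum fun b _ =>
        mul_le_mul_of_nonneg_left ?_ (mul_nonneg (h0 a) (h0 b))) (by norm_num)
      have : G a - G b = ∑ w : Fin n → α,
          (∏ e, ν (w e)) * (F (Fin.cons a w) - F (Fin.cons b w)) := by
        rw [hG, ← sum_sub_distrib]
        exact sum_congr rfl fun w _ => by ring
      rw [this]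
      exact jensen_sq _ hP (sum_prod_one ν h1) _
    have i2 : ∑ a, ν a * (∑ w : Fin n → α, (∏ e, ν (w e)) * F (Fin.cons a w) ^ 2)
        - ∑ a, ν a * G a ^ 2 ≤ (1 / 2) * ∑ i : Fin n, ∑ a, ν a * ∑ w : Fin n → α, ∑ b,
          (∏ e, ν (w e)) * ν b *
          (F (Fin.cons a w) - F (Fin.cons a (Function.update w i b))) ^ 2 := by
      rw [sum_comm, mul_sum, ← sum_sub_distrib]
      refine sum_le_sum fun a _ => ?_
      rw [← mul_sum, ← mul_sub, mul_left_comm]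
      exact mul_le_mul_of_nonneg_left (ih fun w => F (Fin.cons a w)) (h0 a)
    rw [Fin.sum_univ_succ, e1, e2, e3, sum_congr rfl fun i _ => e4 i]
    linarith

theorem efron_stein {ι : Type*} [Fintype ι] [DecidableEq ι] (ν : α → ℝ) (h0 : ∀ a, 0 ≤ ν a)
    (h1 : ∑ a, ν a = 1) (F : (ι → α) → ℝ) :
    ∑ w, (∏ e, ν (w e)) * F w ^ 2 - (∑ w, (∏ e, ν (w e)) * F w) ^ 2
      ≤ (1 / 2) * ∑ e, ∑ w, ∑ a, (∏ e, ν (w e)) * ν a * (F w - F (Function.update w e a)) ^ 2 := by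
  classical
  let σ := Fintype.equivFin ι
  let T : (Fin (Fintype.card ι) → α) ≃ (ι → α) := (σ.arrowCongr (Equiv.refl α)).symm
  have hT : ∀ w e, T w e = w (σ e) := fun w e => rfl
  have hW : ∀ w, ∏ e, ν (T w e) = ∏ e, ν (w e) := fun w =>
    Fintype.prod_equiv σ _ _ fun e => rfl
  have hU : ∀ w e a, T (Function.update w (σ e) a) = Function.update (T w) e a := by
    intro w e a
    funext x
    rw [hT]
    by_cases h : x = e
    · subst h; simp
    · rw [Function.update_of_ne h, Function.update_of_ne (σ.injective.ne h), hT]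
  have := es_fin ν h0 h1 _ fun w => F (T w)
  rw [← T.sum_comp, ← T.sum_comp fun w => (∏ e, ν (w e)) * F w]
  simp only [hW]
  refine this.trans (le_of_eq ?_)
  congr 1
  refine (Fintype.sum_equiv σ _ _ fun e => ?_).symm
  rw [← T.sum_comp]
  simp only [hW, hU]

lemma pe_prod {P : Type} [Fintype P] [DecidableEq P] {X : Type} [Fintype X] (ν : X → ℝ)
    (h : P → X → ℝ) :
    PE ν (fun ω : P → X => ∏ e, h e (ω e)) = ∏ e, ∑ x, ν x * h e x := by
  unfold PE
  rw [prod_univ_sum (fun _ => univ) (fun e x => ν x * h e x), Fintype.piFinset_univ]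
  exact sum_congr rfl fun ω _ => by rw [prod_mul_distrib]

lemma pe_push {P : Type} [Fintype P] [DecidableEq P] {X : Type} [Fintype X] (ν : X → ℝ)
    (Y : Type) [Fintype Y] [DecidableEq Y] (g : X → Y) (F : (P → Y) → ℝ) :
    PE ν (fun ω : P → X => F fun e => g (ω e)) =
      PE (fun y => ∑ x, ν x * (if g x = y then 1 else 0)) F := by
  have h1 : ∀ η : P → Y, ∏ e, (∑ x, ν x * (if g x = η e then (1:ℝ) else 0))
      = ∑ ω : P → X, (∏ e, ν (ω e)) * ∏ e, (if g (ω e) = η e then (1:ℝ) else 0) := fun η =>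
    (pe_prod ν (fun e x => if g x = η e then (1:ℝ) else 0)).symm
  unfold PE
  simp only [h1, sum_mul]
  rw [sum_comm]
  refine sum_congr rfl fun ω _ => ?_
  rw [sum_eq_single (fun e => g (ω e))]
  · simp
  · intro η _ hη
    obtain ⟨e, he⟩ := Function.ne_iff.1 hη
    have hz : ∏ e, (if g (ω e) = η e then (1:ℝ) else 0) = 0 :=
      prod_eq_zero (mem_univ e) (if_neg (Ne.symm he))
    rw [hz, mul_zero, zero_mul]
  · simp

lemma pe_es {P : Type} [Fintype P] [DecidableEq P] {X : Type} [Fintype X] (ν : X → ℝ)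
    (h0 : ∀ x, 0 ≤ ν x) (h1 : ∑ x, ν x = 1) (F : (P → X) → ℝ) :
    PE ν (fun ω => (F ω - PE ν F) ^ 2) ≤
      ∑ e, PE ν fun ω => ∑ x, ν x * (F ω - F (Function.update ω e x)) ^ 2 := by
  have e0 : ∀ m : ℝ, ∑ ω : P → X, (∏ e, ν (ω e)) * (F ω - m) ^ 2
      = ∑ ω : P → X, (∏ e, ν (ω e)) * F ω ^ 2 - 2 * m * (∑ ω : P → X, (∏ e, ν (ω e)) * F ω)
        + m ^ 2 * ∑ ω : P → X, ∏ e, ν (ω e) := by
    intro m
    rw [mul_sum, mul_sum, ← sum_sub_distrib, ← sum_add_distrib]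
    exact sum_congr rfl fun b _ => by ring
  have es := efron_stein ν h0 h1 F
  have e1 : ∑ e, PE ν (fun ω => ∑ x, ν x * (F ω - F (Function.update ω e x)) ^ 2)
      = ∑ e, ∑ w : P → X, ∑ a, (∏ e, ν (w e)) * ν a * (F w - F (Function.update w e a)) ^ 2 := by
    refine sum_congr rfl fun e _ => ?_
    unfold PE
    refine sum_congr rfl fun w _ => ?_
    rw [mul_sum]
    exact sum_congr rfl fun a _ => by ring
  have nn : 0 ≤ ∑ e, ∑ w : P → X, ∑ a,
      (∏ e, ν (w e)) * ν a * (F w - F (Function.update w e a)) ^ 2 :=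
    sum_nonneg fun e _ => sum_nonneg fun w _ => sum_nonneg fun a _ =>
      mul_nonneg (mul_nonneg (prod_nonneg fun e _ => h0 _) (h0 a)) (sq_nonneg _)
  rw [e1]
  unfold PE
  rw [e0, sum_prod_one ν h1]
  nlinarith

end PEx

theorem pe_st : PESt := fun _ _ _ _ _ ν =>
  ⟨fun Y _ _ g F => PEx.pe_push ν Y g F, fun h => PEx.pe_prod ν h,
    fun h0 h1 F => PEx.pe_es ν h0 h1 F⟩

end Pool.Agent.Lib.MP_1b5cbf_lc.Bar
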