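import Pool.Agent.Lib.MP_1b5cbf_lc.Bar.Nu

/-! Positive correlation of the leaves: Cauchy-Schwarz bit by bit. -/

set_option autoImplicit false

namespace Pool.Agent.Lib.MP_1b5cbf_lc.Bar

open Finset

namespace Pos

theorem PE_pair {P X Y : Type} [Fintype P] [DecidableEq P] [Fintype X] [Fintype Y] (ν : X → ℝ)
    (μ : Y → ℝ) (G : (P → X × Y) → ℝ) :
    PE (fun z : X × Y => ν z.1 * μ z.2) G
      = PE ν fun ω : P → X => PE μ fun ω' : P → Y => G fun e => (ω e, ω' e) := by
  unfold PE
  rw [← (Equiv.arrowProdEquivProdArrow P (fun _ => X) (fun _ => Y)).symm.sum_comp,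
    Fintype.sum_prod_type]
  refine sum_congr rfl fun ω _ => ?_
  rw [mul_sum]
  refine sum_congr rfl fun ω' _ => ?_
  rw [prod_mul_distrib, mul_assoc]
  rfl

theorem PE_mul_mul {P X : Type} [Fintype P] [DecidableEq P] [Fintype X] (ν : X → ℝ)
    (A B : (P → X) → ℝ) :
    PE ν (fun ω => PE ν fun ω' => A ω * B ω') = PE ν A * PE ν B := by
  unfold PE
  rw [sum_mul_sum]
  refine sum_congr rfl fun ω _ => ?_
  rw [mul_sum]
  refine sum_congr rfl fun ω' _ => ?_
  ring

theorem PE_sq {P X : Type} [Fintype P] [DecidableEq P] [Fintype X] (ν : X → ℝ)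
    (h0 : ∀ x, 0 ≤ ν x) (h1 : ∑ x, ν x = 1) (H : (P → X) → ℝ) :
    PE ν H ^ 2 ≤ PE ν fun ω => H ω * H ω := by
  unfold PE
  have hs : ∑ ω : P → X, ∏ e, ν (ω e) = 1 := by
    rw [← Fintype.piFinset_univ, ← Finset.prod_univ_sum (fun _ : P => (univ : Finset X))
      (fun _ x => ν x)]
    simp [h1]
  have hw : ∀ ω : P → X, 0 ≤ ∏ e, ν (ω e) := fun ω => prod_nonneg fun e _ => h0 _
  obtain ⟨m, hm⟩ : ∃ m, m = ∑ ω : P → X, (∏ e, ν (ω e)) * H ω := ⟨_, rfl⟩
  have : 0 ≤ ∑ ω : P → X, (∏ e, ν (ω e)) * (H ω - m) ^ 2 :=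
    sum_nonneg fun ω _ => mul_nonneg (hw ω) (sq_nonneg _)
  have e : ∑ ω : P → X, (∏ e, ν (ω e)) * (H ω - m) ^ 2
      = ∑ ω : P → X, (∏ e, ν (ω e)) * (H ω * H ω) - 2 * m * ∑ ω : P → X, (∏ e, ν (ω e)) * H ω
        + m ^ 2 * ∑ ω : P → X, ∏ e, ν (ω e) := by
    rw [mul_sum, mul_sum, ← sum_sub_distrib, ← sum_add_distrib]
    refine sum_congr rfl fun ω _ => ?_
    ring
  rw [e, hs, ← hm] at this
  rw [← hm]
  nlinarith

variable {ι : Type} [Fintype ι] [DecidableEq ι]

/-- gluing of a common part and two private parts along the bit `b` -/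
def glue (b : ι) (z : Finset (Finset ι) × Finset (Finset ι) × Finset (Finset ι)) :
    Finset (Finset ι) :=
  univ.filter fun l => l.erase b ∈ z.1 ∨ (if b ∈ l then l.erase b ∈ z.2.2 else l ∈ z.2.1)

theorem disjoint_glue (b : ι) (z : Finset (Finset ι) × Finset (Finset ι) × Finset (Finset ι))
    (U : Finset (Finset ι)) :
    Disjoint (glue b z) U ↔ Disjoint z.1 (U.image fun l => l.erase b) ∧
      Disjoint z.2.1 (U.filter fun l => b ∉ l) ∧
      Disjoint z.2.2 ((U.filter fun l => b ∈ l).image fun l => l.erase b) := by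
  simp only [disjoint_right, glue, mem_filter, mem_univ, true_and, mem_image, not_or]
  constructor
  · intro h
    refine ⟨?_, ?_, ?_⟩
    · rintro _ ⟨l, hl, rfl⟩
      exact (h hl).1
    · rintro l ⟨hl, hb⟩
      simpa [hb] using (h hl).2
    · rintro _ ⟨l, ⟨hl, hb⟩, rfl⟩
      simpa [hb] using (h hl).2
  · rintro ⟨h1, h2, h3⟩ l hl
    refine ⟨h1 ⟨l, hl, rfl⟩, ?_⟩
    by_cases hb : b ∈ l
    · simpa [hb] using h3 ⟨l, ⟨hl, hb⟩, rfl⟩
    · simpa [hb] using h2 ⟨hl, hb⟩

omit [Fintype ι] in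
theorem card_out (b : ι) (S : Finset ι) (hb : b ∉ S) (U : Finset (Finset ι)) :
    ((U.image fun l => l.erase b).image fun l => l ∩ S) = U.image fun l => l ∩ S := by
  rw [image_image]
  refine image_congr fun l _ => ?_
  ext x
  simp only [Function.comp, mem_inter, mem_erase]
  exact ⟨fun h => ⟨h.1.2, h.2⟩, fun h => ⟨⟨fun e => hb (e ▸ h.2), h.1⟩, h.2⟩⟩

omit [Fintype ι] in
theorem card_in (b : ι) (S : Finset ι) (hb : b ∈ S) (U : Finset (Finset ι)) :
    (U.image fun l => l ∩ S).card = ((U.filter fun l => b ∉ l).image fun l => l ∩ S).card +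
      (((U.filter fun l => b ∈ l).image fun l => l.erase b).image fun l => l ∩ S).card := by
  have h1 : (((U.filter fun l => b ∈ l).image fun l => l.erase b).image fun l => l ∩ S)
      = ((U.filter fun l => b ∈ l).image fun l => l ∩ S).image fun c => c.erase b := by
    rw [image_image, image_image]
    refine image_congr fun l _ => ?_
    simp [Function.comp, erase_inter]
  have h2 : (((U.filter fun l => b ∈ l).image fun l => l ∩ S).image fun c => c.erase b).card
      = ((U.filter fun l => b ∈ l).image fun l => l ∩ S).card := by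
    refine card_image_of_injOn fun c hc c' hc' h => ?_
    obtain ⟨l, hl, rfl⟩ := mem_image.1 (mem_coe.1 hc)
    obtain ⟨l', hl', rfl⟩ := mem_image.1 (mem_coe.1 hc')
    have a : b ∈ l ∩ S := mem_inter.2 ⟨(mem_filter.1 hl).2, hb⟩
    have a' : b ∈ l' ∩ S := mem_inter.2 ⟨(mem_filter.1 hl').2, hb⟩
    rw [← insert_erase a, ← insert_erase a']
    exact congrArg _ h
  rw [h1, h2, ← card_union_of_disjoint, ← image_union]
  · congr 2
    rw [union_comm, filter_union_filter_not_eq]
  · refine disjoint_left.2 fun c hc hc' => ?_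
    obtain ⟨l, hl, rfl⟩ := mem_image.1 hc
    obtain ⟨l', hl', e⟩ := mem_image.1 hc'
    have a' : b ∈ l' ∩ S := mem_inter.2 ⟨(mem_filter.1 hl').2, hb⟩
    rw [e] at a'
    exact (mem_filter.1 hl).2 (mem_inter.1 a').1

omit [Fintype ι] in
theorem ite_and3 (a b c : Prop) [Decidable a] [Decidable b] [Decidable c] :
    (if a ∧ b ∧ c then (1 : ℝ) else 0)
      = (if a then 1 else 0) * ((if b then 1 else 0) * (if c then 1 else 0)) := by
  by_cases a <;> by_cases b <;> by_cases c <;> simp [*]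

theorem push_void {Z : Type} [Fintype Z] (m : Z → ℝ) (g : Z → Finset (Finset ι))
    (U : Finset (Finset ι)) :
    ∑ y, (∑ x, m x * (if g x = y then 1 else 0)) * (if Disjoint y U then (1 : ℝ) else 0)
      = ∑ x, m x * (if Disjoint (g x) U then 1 else 0) := by
  simp only [sum_mul]
  rw [sum_comm]
  refine sum_congr rfl fun x _ => ?_
  rw [sum_eq_single (g x)]
  · simp
  · intro y _ hy
    rw [if_neg (Ne.symm hy)]
    ring
  · simp

theorem step (hA : LenASt) (hN : NuSt) (hP : PESt) {n : ℕ} {p : ℝ} (τ : ι → ℝ)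
    (F : (Pr n → Bool) → ℝ) (h0 : 0 ≤ p) (h1 : p < 1) (b : ι) (D : Finset ι) (hb : b ∉ D) :
    (PE (nu p τ) fun ω : Pr n → Finset (Finset ι) => ∏ l ∈ D.powerset, F (Gl ω l)) ^ 2 ≤
      PE (nu p τ) fun ω : Pr n → Finset (Finset ι) => ∏ l ∈ (insert b D).powerset, F (Gl ω l) := by
  have hp : 0 < 1 - p := by linarith
  obtain ⟨δ, hδ, hl⟩ := (hA ι).2.2.2.2 τ
  obtain ⟨m0, hm0, hv0⟩ := Nu.exists_law h0 h1 (fun S => if b ∈ S then 0 else δ S)
    (fun S => by split_ifs; exacts [le_rfl, hδ S])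
  obtain ⟨m1, hm1, hv1⟩ := Nu.exists_law h0 h1 (fun S => if b ∈ S then δ S else 0)
    (fun S => by split_ifs; exacts [hδ S, le_rfl])
  have hvn := (hN.1 ι p τ h0 h1).2.1
  have s0 : ∑ w, m0 w = 1 := by simpa using hv0 ∅
  -- the union of a common and a private part has law `nu`
  have L1 : (fun y => ∑ x : Finset (Finset ι) × Finset (Finset ι),
      (m0 x.1 * m1 x.2) * (if x.1 ∪ x.2 = y then 1 else 0)) = nu p τ := by
    refine hN.2 _ _ _ fun U => ?_
    rw [push_void (fun x : Finset (Finset ι) × Finset (Finset ι) => m0 x.1 * m1 x.2)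
      (fun x => x.1 ∪ x.2) U, hvn, hl, Fintype.sum_prod_type]
    have : ∀ x y : Finset (Finset ι), m0 x * m1 y * (if Disjoint (x ∪ y) U then (1 : ℝ) else 0)
        = (m0 x * (if Disjoint x U then 1 else 0)) * (m1 y * (if Disjoint y U then 1 else 0)) := by
      intro x y
      by_cases hx : Disjoint x U <;> by_cases hy : Disjoint y U <;> simp [hx, hy]
    simp only [this]
    rw [← sum_mul_sum, hv0, hv1, ← Real.rpow_add hp, ← sum_add_distrib]
    congr 1
    refine sum_congr rfl fun S _ => ?_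
    split_ifs <;> ring
  -- so has the glued set
  have L2 : (fun y => ∑ x : Finset (Finset ι) × Finset (Finset ι) × Finset (Finset ι),
      (m0 x.1 * (m1 x.2.1 * m1 x.2.2)) * (if glue b x = y then 1 else 0)) = nu p τ := by
    refine hN.2 _ _ _ fun U => ?_
    rw [push_void (fun x : Finset (Finset ι) × Finset (Finset ι) × Finset (Finset ι) =>
      m0 x.1 * (m1 x.2.1 * m1 x.2.2)) (glue b) U, hvn, hl]
    simp only [disjoint_glue, ite_and3, Fintype.sum_prod_type]
    have : ∀ (x y z : Finset (Finset ι)) (a c d : ℝ), m0 x * (m1 y * m1 z) * (a * (c * d))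
        = (m0 x * a) * ((m1 y * c) * (m1 z * d)) := by intros; ring
    have t3 : ∀ A B C : Finset (Finset ι) → ℝ, ∑ x, ∑ y, ∑ z, A x * (B y * C z)
        = (∑ x, A x) * ((∑ y, B y) * ∑ z, C z) := by
      intro A B C
      simp only [← mul_sum, ← sum_mul]
    simp only [this]
    rw [t3 (fun x => m0 x * if Disjoint x (U.image fun l => l.erase b) then 1 else 0)
      (fun y => m1 y * if Disjoint y (U.filter fun l => b ∉ l) then 1 else 0)
      (fun z => m1 z * if Disjoint z ((U.filter fun l => b ∈ l).image fun l => l.erase b)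
        then 1 else 0)]
    rw [hv0, hv1, hv1, ← Real.rpow_add hp, ← Real.rpow_add hp, ← sum_add_distrib, ← sum_add_distrib]
    congr 1
    refine sum_congr rfl fun S _ => ?_
    by_cases hS : b ∈ S
    · rw [card_in b S hS U]
      simp only [hS, if_true]
      push_cast
      ring
    · rw [card_out b S hS U]
      simp [hS]
  set H : (Pr n → Finset (Finset ι)) → ℝ := fun ω => PE m1 fun ω' : Pr n → Finset (Finset ι) =>
    ∏ l ∈ D.powerset, F (Gl (fun e => ω e ∪ ω' e) l) with hH
  have E1 : (PE (nu p τ) fun ω : Pr n → Finset (Finset ι) => ∏ l ∈ D.powerset, F (Gl ω l))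
      = PE m0 H := by
    rw [← L1, ← (hP (Pr n) _ (fun x : Finset (Finset ι) × Finset (Finset ι) =>
      m0 x.1 * m1 x.2)).1 _ (fun x => x.1 ∪ x.2), PE_pair]
  have E2 : (PE (nu p τ) fun ω : Pr n → Finset (Finset ι) =>
      ∏ l ∈ (insert b D).powerset, F (Gl ω l)) = PE m0 fun ω => H ω * H ω := by
    rw [← L2, ← (hP (Pr n) _ (fun x : Finset (Finset ι) × Finset (Finset ι) × Finset (Finset ι) =>
      m0 x.1 * (m1 x.2.1 * m1 x.2.2))).1 _ (glue b),
      PE_pair m0 (fun x : Finset (Finset ι) × Finset (Finset ι) => m1 x.1 * m1 x.2)]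
    congr 1
    funext ω
    rw [PE_pair, hH, ← PE_mul_mul]
    congr 1
    funext ω1
    congr 1
    funext ω2
    rw [prod_powerset_insert hb]
    congr 1
    · refine prod_congr rfl fun l hl => ?_
      have hbl : b ∉ l := fun h => hb (mem_powerset.1 hl h)
      congr 1
      funext e
      simp [Gl, glue, hbl]
    · refine prod_congr rfl fun l hl => ?_
      have hbl : b ∉ l := fun h => hb (mem_powerset.1 hl h)
      congr 1
      funext e
      simp [Gl, glue, hbl]
  rw [E1, E2]
  exact PE_sq m0 hm0 s0 H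

end Pos

theorem pos_st (hA : LenASt) (hN : NuSt) (hP : PESt) : PosSt := by
  intro ι _ _ n p τ F h0 h1 hF
  have hp : 0 < 1 - p := by linarith
  obtain ⟨hn0, hv, -⟩ := hN.1 ι p τ h0 h1
  have hb0 : 0 ≤ PE (bw p) F := by
    refine sum_nonneg fun g _ => mul_nonneg (prod_nonneg fun e _ => ?_) (hF g)
    unfold bw
    split_ifs
    exacts [h0, hp.le]
  have base : PE (nu p τ) (fun ω : Pr n → Finset (Finset ι) => F (Gl ω ∅)) = PE (bw p) F := by
    have h := (hP (Pr n) _ (nu p τ)).1 Bool (fun S => decide ((∅ : Finset ι) ∈ S)) F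
    refine h.trans ?_
    congr 1
    have l0 : len τ (∅ : Finset (Finset ι)) = 0 := by
      have := (hA ι).2.1 τ ∅
      simp only [card_empty, Nat.cast_zero] at this
      linarith [this.1, this.2]
    have l1 : len τ ({∅} : Finset (Finset ι)) = 1 := by
      have a := (hA ι).1 τ {∅} (singleton_nonempty _)
      have b := ((hA ι).2.1 τ {∅}).2
      simp only [card_singleton, Nat.cast_one] at b
      linarith
    have s1 : ∑ S, nu p τ S = 1 := by simpa [l0] using hv ∅
    have s2 := hv {∅}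
    rw [l1, Real.rpow_one] at s2
    have hf : ∑ S, nu p τ S * (if decide ((∅ : Finset ι) ∈ S) = false then 1 else 0) = 1 - p := by
      rw [← s2]
      refine sum_congr rfl fun S _ => ?_
      by_cases hS : (∅ : Finset ι) ∈ S <;> simp [hS]
    funext y
    cases y
    · simpa [bw] using hf
    · have h2 : ∑ S, nu p τ S * (if decide ((∅ : Finset ι) ∈ S) = true then 1 else 0)
          + ∑ S, nu p τ S * (if decide ((∅ : Finset ι) ∈ S) = false then 1 else 0) = 1 := by
        rw [← sum_add_distrib]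
        refine Eq.trans (sum_congr rfl fun S _ => ?_) s1
        by_cases hS : (∅ : Finset ι) ∈ S <;> simp [hS]
      rw [hf] at h2
      simp only [bw, if_true]
      linarith
  have key : ∀ D : Finset ι, (PE (bw p) F) ^ (2 ^ D.card) ≤
      PE (nu p τ) fun ω : Pr n → Finset (Finset ι) => ∏ l ∈ D.powerset, F (Gl ω l) := by
    intro D
    induction D using Finset.induction_on with
    | empty => simp [base]
    | insert b D hb ih =>
      refine le_trans ?_ (Pos.step hA hN hP τ F h0 h1 b D hb)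
      rw [card_insert_of_notMem hb, pow_succ, pow_mul]
      exact pow_le_pow_left₀ (pow_nonneg hb0 _) ih 2
  simpa using key univ

end Pool.Agent.Lib.MP_1b5cbf_lc.Bar
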