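import Pool.Agent.Lib.MP_1b5cbf_lc.Bar.St

/-! Translation of the cube: unrooted sums against rooted sums. -/

set_option autoImplicit false

namespace Pool.Agent.Lib.MP_1b5cbf_lc.Bar

open Finset

namespace Root

variable {ι : Type} [Fintype ι] [DecidableEq ι]

/-- the pattern seen from the leaf `l0` -/
def sh (l0 : Finset ι) (T : Finset (Finset ι)) : Finset (Finset ι) :=
  univ.filter fun l => symmDiff l l0 ∈ T

theorem mem_sh {l0 l : Finset ι} {T : Finset (Finset ι)} : l ∈ sh l0 T ↔ symmDiff l l0 ∈ T := by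
  simp [sh]

theorem empty_sd (l : Finset ι) : symmDiff (∅ : Finset ι) l = l := bot_symmDiff l

theorem empty_mem_sh {l0 : Finset ι} {T : Finset (Finset ι)} : ∅ ∈ sh l0 T ↔ l0 ∈ T := by
  rw [mem_sh, empty_sd]

theorem sh_inter (l0 : Finset ι) (T T' : Finset (Finset ι)) :
    sh l0 T ∩ sh l0 T' = sh l0 (T ∩ T') := by
  ext l
  simp only [mem_inter, mem_sh]

theorem sd_sub {l l0 D : Finset ι} (h : l ⊆ D) (h0 : l0 ⊆ D) : symmDiff l l0 ⊆ D := by
  intro x hx
  rcases mem_symmDiff.1 hx with h1 | h1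
  exacts [h h1.1, h0 h1.1]

theorem card_sh {l0 D : Finset ι} (h0 : l0 ⊆ D) (T : Finset (Finset ι)) :
    (sh l0 T ∩ D.powerset).card = (T ∩ D.powerset).card := by
  refine card_bij' (fun l _ => symmDiff l l0) (fun l _ => symmDiff l l0) ?_ ?_ ?_ ?_
  · intro l hl
    rw [mem_inter, mem_sh, mem_powerset] at hl
    exact mem_inter.2 ⟨hl.1, mem_powerset.2 (sd_sub hl.2 h0)⟩
  · intro l hl
    rw [mem_inter, mem_powerset] at hl
    refine mem_inter.2 ⟨mem_sh.2 ?_, mem_powerset.2 (sd_sub hl.2 h0)⟩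
    rw [symmDiff_symmDiff_cancel_right]
    exact hl.1
  · intro l _
    exact symmDiff_symmDiff_cancel_right _ _
  · intro l _
    exact symmDiff_symmDiff_cancel_right _ _

theorem TD_eq {D : Finset ι} {T : Finset (Finset ι)} (h : ∅ ∈ T) : TD D T = T ∩ D.powerset :=
  insert_eq_of_mem (mem_inter.2 ⟨h, empty_mem_powerset D⟩)

variable {β : (ι → ℝ) → Finset (Finset ι) → ℝ} {L ld : ℝ}

theorem sym (hB : LenBSt) (hI : Iface β L ld) (τ : ι → ℝ) (l0 : Finset ι)
    (F : Finset (Finset ι) → ℝ) : ∑ T, β τ T * F (sh l0 T) = ∑ T, β τ T * F T := by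
  have h := hI.iso τ τ (fun l => symmDiff l l0) id
    (fun U => by rw [image_id]; exact (hB ι).1 τ l0 U) F
  refine h.trans (sum_congr rfl fun T _ => ?_)
  congr 2
  ext l
  simp

theorem avg (hB : LenBSt) (hI : Iface β L ld) (τ : ι → ℝ) (D : Finset ι)
    (F : Finset (Finset ι) → ℝ) :
    ∑ T, β τ T * ∑ l0 ∈ D.powerset, F (sh l0 T) = 2 ^ D.card * ∑ T, β τ T * F T := by
  simp only [mul_sum (s := D.powerset)]
  rw [sum_comm, sum_congr rfl fun l0 _ => sym hB hI τ l0 F, sum_const, card_powerset,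
    nsmul_eq_mul]
  push_cast
  rfl

theorem avg2 (hB : LenBSt) (hI : Iface β L ld) (τ : ι → ℝ) (D : Finset ι)
    (F : Finset (Finset ι) → Finset (Finset ι) → ℝ) :
    ∑ T, ∑ T', β τ T * β τ T' * ∑ l0 ∈ D.powerset, F (sh l0 T) (sh l0 T') =
      2 ^ D.card * ∑ T, ∑ T', β τ T * β τ T' * F T T' := by
  have h : ∀ l0 : Finset ι, ∑ T, ∑ T', β τ T * β τ T' * F (sh l0 T) (sh l0 T') =
      ∑ T, ∑ T', β τ T * β τ T' * F T T' := fun l0 => by
    have h1 : ∀ T, ∑ T', β τ T * β τ T' * F (sh l0 T) (sh l0 T') =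
        β τ T * ∑ T', β τ T' * F (sh l0 T) T' := fun T => by
      rw [← sym hB hI τ l0 (F (sh l0 T)), mul_sum]
      exact sum_congr rfl fun _ _ => mul_assoc _ _ _
    rw [sum_congr rfl fun T _ => h1 T, sym hB hI τ l0 fun S => ∑ T', β τ T' * F S T']
    refine sum_congr rfl fun T _ => ?_
    rw [mul_sum]
    exact sum_congr rfl fun _ _ => (mul_assoc _ _ _).symm
  simp only [mul_sum (s := D.powerset)]
  rw [sum_congr rfl fun T _ => sum_comm, sum_comm, sum_congr rfl fun l0 _ => h l0, sum_const,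
    card_powerset, nsmul_eq_mul]
  push_cast
  rfl

theorem sum_mem (P T : Finset (Finset ι)) (c : ℝ) :
    ∑ l0 ∈ P, (if l0 ∈ T then c else 0) = ((T ∩ P).card : ℝ) * c := by
  rw [sum_ite_mem, sum_const, nsmul_eq_mul, inter_comm]

theorem ind_eq (P T : Finset (Finset ι)) :
    (if T ∩ P = ∅ then (0 : ℝ) else 1) =
      ∑ l0 ∈ P, if l0 ∈ T then 1 / ((T ∩ P).card : ℝ) else 0 := by
  rw [sum_mem]
  split_ifs with h
  · simp [h]
  · have : ((T ∩ P).card : ℝ) ≠ 0 := by
      exact_mod_cast card_ne_zero.2 (nonempty_iff_ne_empty.2 h)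
    field_simp

theorem one (hB : LenBSt) (hI : Iface β L ld) (τ : ι → ℝ) (D : Finset ι) :
    ∑ T, β τ T * (if T ∩ D.powerset = ∅ then 0 else 1) =
      2 ^ D.card * um (rho (β τ)) (TD D) := by
  have h := avg hB hI τ D fun T => if ∅ ∈ T then 1 / ((T ∩ D.powerset).card : ℝ) else 0
  refine Eq.trans (sum_congr rfl fun T _ => ?_) (h.trans ?_)
  · rw [ind_eq]
    congr 1
    refine sum_congr rfl fun l0 hl => ?_
    simp only [empty_mem_sh, card_sh (mem_powerset.1 hl)]
  · congr 1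
    refine sum_congr rfl fun T _ => ?_
    by_cases hT : ∅ ∈ T
    · simp only [rho, if_pos hT, TD_eq hT]
    · simp only [rho, if_neg hT, mul_zero, zero_mul]

theorem two (hB : LenBSt) (hI : Iface β L ld) (τ : ι → ℝ) (D : Finset ι) :
    ∑ T, ∑ T', β τ T * β τ T' * (if T ∩ T' ∩ D.powerset = ∅ then 0 else 1) =
      2 ^ D.card * ∑ T, ∑ T', rho (β τ) T * rho (β τ) T' *
        (1 / ((TD D T ∩ TD D T').card : ℝ)) := by
  have h := avg2 hB hI τ D fun T T' =>
    if ∅ ∈ T ∩ T' then 1 / ((T ∩ T' ∩ D.powerset).card : ℝ) else 0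
  refine Eq.trans (sum_congr rfl fun T _ => sum_congr rfl fun T' _ => ?_) (h.trans ?_)
  · rw [ind_eq]
    congr 1
    refine sum_congr rfl fun l0 hl => ?_
    simp only [sh_inter, empty_mem_sh, card_sh (mem_powerset.1 hl)]
  · congr 1
    refine sum_congr rfl fun T _ => sum_congr rfl fun T' _ => ?_
    by_cases hT : ∅ ∈ T
    · by_cases hT' : ∅ ∈ T'
      · have e : T ∩ D.powerset ∩ (T' ∩ D.powerset) = T ∩ T' ∩ D.powerset := by
          ext l
          simp only [mem_inter]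
          tauto
        simp only [rho, if_pos hT, if_pos hT', TD_eq hT, TD_eq hT', e,
          if_pos (mem_inter.2 ⟨hT, hT'⟩)]
      · have : ∅ ∉ T ∩ T' := fun h => hT' (mem_inter.1 h).2
        simp only [rho, if_neg hT', if_neg this, mul_zero, zero_mul]
    · have : ∅ ∉ T ∩ T' := fun h => hT (mem_inter.1 h).1
      simp only [rho, if_neg hT, if_neg this, mul_zero, zero_mul]

/-- leaves that are alone in their class -/
theorem alone_le {D' D : Finset ι} (T : Finset (Finset ι)) :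
    ((T ∩ D.powerset).filter fun l0 => (sh l0 T ∩ D'.powerset).card ≤ 1).card ≤
      2 ^ (D \ D').card := by
  rw [← card_powerset]
  refine card_le_card_of_injOn (fun l0 => l0 \ D') ?_ ?_
  · intro l0 hl
    have hl' := mem_inter.1 (mem_filter.1 (mem_coe.1 hl)).1
    exact mem_coe.2 (mem_powerset.2 (sdiff_subset_sdiff (mem_powerset.1 hl'.2) Subset.rfl))
  · intro l0 h0 l1 h1 he
    have h0' := mem_filter.1 (mem_coe.1 h0)
    have h1' := mem_filter.1 (mem_coe.1 h1)
    have he' : l0 \ D' = l1 \ D' := he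
    have hs : symmDiff l1 l0 ⊆ D' := by
      intro x hx
      by_contra hx'
      have := Finset.ext_iff.1 he' x
      simp only [mem_sdiff, hx', not_false_eq_true, and_true] at this
      rcases mem_symmDiff.1 hx with h | h
      exacts [h.2 (this.2 h.1), h.2 (this.1 h.1)]
    have ha : symmDiff l1 l0 ∈ sh l0 T ∩ D'.powerset := by
      refine mem_inter.2 ⟨mem_sh.2 ?_, mem_powerset.2 hs⟩
      rw [symmDiff_symmDiff_cancel_right]
      exact (mem_inter.1 h1'.1).1
    have hb : ∅ ∈ sh l0 T ∩ D'.powerset :=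
      mem_inter.2 ⟨empty_mem_sh.2 (mem_inter.1 h0'.1).1, empty_mem_powerset _⟩
    have := card_le_one.1 h0'.2 _ ha _ hb
    exact (symmDiff_eq_bot.1 this).symm

theorem point {D' D : Finset ι} (T : Finset (Finset ι)) :
    ∑ l0 ∈ D.powerset, (if ∅ ∈ sh l0 T ∧ (sh l0 T ∩ D'.powerset).card ≤ 1 ∧
        2 ≤ (sh l0 T ∩ D.powerset).card then (1 : ℝ) else 0) ≤
      ∑ l0 ∈ D.powerset, if ∅ ∈ sh l0 T then (if 2 ≤ (sh l0 T ∩ D.powerset).card then
        min 1 ((2 : ℝ) ^ (D \ D').card / ((sh l0 T ∩ D.powerset).card : ℝ)) else 0) else 0 := by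
  have e1 : ∑ l0 ∈ D.powerset, (if ∅ ∈ sh l0 T then (if 2 ≤ (sh l0 T ∩ D.powerset).card then
        min 1 ((2 : ℝ) ^ (D \ D').card / ((sh l0 T ∩ D.powerset).card : ℝ)) else 0) else 0) =
      ((T ∩ D.powerset).card : ℝ) * (if 2 ≤ (T ∩ D.powerset).card then
        min 1 ((2 : ℝ) ^ (D \ D').card / ((T ∩ D.powerset).card : ℝ)) else 0) := by
    rw [← sum_mem]
    refine sum_congr rfl fun l0 hl => ?_
    simp only [empty_mem_sh, card_sh (mem_powerset.1 hl)]
  rw [e1]
  by_cases h2 : 2 ≤ (T ∩ D.powerset).card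
  · have e2 : ∑ l0 ∈ D.powerset, (if ∅ ∈ sh l0 T ∧ (sh l0 T ∩ D'.powerset).card ≤ 1 ∧
        2 ≤ (sh l0 T ∩ D.powerset).card then (1 : ℝ) else 0) =
        (((T ∩ D.powerset).filter fun l0 => (sh l0 T ∩ D'.powerset).card ≤ 1).card : ℝ) := by
      rw [sum_boole]
      congr 2
      ext l0
      simp only [mem_filter, mem_inter, empty_mem_sh]
      constructor
      · rintro ⟨h, h', h'', -⟩
        exact ⟨⟨h', h⟩, h''⟩
      · rintro ⟨⟨h', h⟩, h''⟩
        exact ⟨h, h', h'', by rwa [card_sh (mem_powerset.1 h)]⟩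
    have hp : (0 : ℝ) < (T ∩ D.powerset).card := by exact_mod_cast lt_of_lt_of_le two_pos h2
    rw [e2, if_pos h2, mul_min_of_nonneg _ _ hp.le, mul_one, mul_div_cancel₀ _ hp.ne']
    refine le_min ?_ ?_
    · exact_mod_cast card_filter_le _ _
    · exact_mod_cast alone_le T
  · rw [if_neg h2, mul_zero]
    refine (sum_eq_zero fun l0 hl => if_neg fun h => h2 ?_).le
    rw [← card_sh (mem_powerset.1 hl)]
    exact h.2.2

theorem three (hB : LenBSt) (hI : Iface β L ld) (τ : ι → ℝ) (D D' : Finset ι) :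
    fr (β τ) D' ≤ fr (β τ) D + big (rho (β τ)) (TD D) (2 ^ (D \ D').card) := by
  have ha := avg hB hI τ D fun T => if ∅ ∈ T ∧ (T ∩ D'.powerset).card ≤ 1 ∧
    2 ≤ (T ∩ D.powerset).card then (1 : ℝ) else 0
  have hb := avg hB hI τ D fun T => if ∅ ∈ T then (if 2 ≤ (T ∩ D.powerset).card then
    min 1 ((2 : ℝ) ^ (D \ D').card / ((T ∩ D.powerset).card : ℝ)) else 0) else 0
  have hle := sum_le_sum (s := univ) fun T _ =>
    mul_le_mul_of_nonneg_left (point (D' := D') (D := D) T) (hI.nonneg τ T)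
  rw [ha, hb] at hle
  have h := le_of_mul_le_mul_left hle (by positivity)
  have e : ∑ T, β τ T * (if ∅ ∈ T then (if 2 ≤ (T ∩ D.powerset).card then
      min 1 ((2 : ℝ) ^ (D \ D').card / ((T ∩ D.powerset).card : ℝ)) else 0) else 0) =
      big (rho (β τ)) (TD D) (2 ^ (D \ D').card) := by
    refine sum_congr rfl fun T _ => ?_
    by_cases hT : ∅ ∈ T
    · simp only [rho, if_pos hT, TD_eq hT]
    · simp only [rho, if_neg hT, mul_zero, zero_mul]
  rw [e] at h
  refine le_trans ?_ (add_le_add_right h _)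
  simp only [fr, Wm]
  rw [← sum_add_distrib]
  refine sum_le_sum fun T _ => ?_
  have h0 := hI.nonneg τ T
  by_cases hT : ∅ ∈ T
  · simp only [rho, if_pos hT, TD_eq hT, hT, true_and]
    by_cases h1 : (T ∩ D'.powerset).card ≤ 1
    · by_cases h2 : (T ∩ D.powerset).card ≤ 1
      · have h3 : ¬2 ≤ (T ∩ D.powerset).card := by omega
        simp [h1, h2, h3]
      · have h3 : 2 ≤ (T ∩ D.powerset).card := by omega
        simp [h1, h2, h3]
    · simp only [h1, false_and, if_false, mul_zero, add_zero]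
      split_ifs <;> simp [h0]
  · simp [rho, hT]

end Root

theorem root_st (hB : LenBSt) : RootSt := fun _ _ _ _ _ _ τ D hI =>
  ⟨Root.one hB hI τ D, Root.two hB hI τ D, fun D' _ => Root.three hB hI τ D D'⟩

end Pool.Agent.Lib.MP_1b5cbf_lc.Bar
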