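import Pool.Agent.Lib.MP_1b5cbf_lc.Bar.St

/-! One leaf is the binomial random graph; the soft fields of the interface. -/

set_option autoImplicit false

namespace Pool.Agent.Lib.MP_1b5cbf_lc.Bar

open Finset

namespace Soft

variable {ι : Type} [Fintype ι] [DecidableEq ι]

omit [Fintype ι] in
theorem len_empty (τ : ι → ℝ) : len τ (∅ : Finset (Finset ι)) = 0 := by
  simp [len]

theorem sum_beta {n : ℕ} (p : ℝ) (B : (Pr n → Bool) → Finset (Fin n)) (τ : ι → ℝ)
    (F : Finset (Finset ι) → ℝ) :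
    ∑ T, beta p B τ T * F T =
      p * PE (nu p τ) fun ω : Pr n → Finset (Finset ι) => ∑ v, F (Pat B ω v) := by
  have h : ∀ ω : Pr n → Finset (Finset ι),
      ∑ v, F (Pat B ω v) = ∑ T, (cnt B T ω : ℝ) * F T := by
    intro ω
    rw [← Finset.sum_fiberwise (s := univ) (g := fun v => Pat B ω v)]
    refine Finset.sum_congr rfl fun T _ => ?_
    rw [Finset.sum_congr rfl (g := fun _ => F T)]
    · simp [cnt]
    · intro v hv
      rw [(Finset.mem_filter.1 hv).2]
  simp only [beta, PE, h, Finset.mul_sum, Finset.sum_mul]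
  rw [Finset.sum_comm]
  refine Finset.sum_congr rfl fun ω _ => Finset.sum_congr rfl fun T _ => by ring

theorem leaf (hL : LenBSt) (hN : NuSt) (p : ℝ) (τ : ι → ℝ) (l : Finset ι) (h0 : 0 ≤ p)
    (h1 : p < 1) :
    (fun y : Bool => ∑ S : Finset (Finset ι), nu p τ S * (if decide (l ∈ S) = y then 1 else 0)) =
      bw p := by
  have hA := (hN.1 ι p τ h0 h1).2.1
  have hl := hA {l}
  rw [(hL ι).2.2.2.2.1 τ l, Real.rpow_one] at hl
  have he := hA ∅
  rw [len_empty, Real.rpow_zero] at he
  have hf : ∑ S : Finset (Finset ι), nu p τ S * (if decide (l ∈ S) = false then 1 else 0) =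
      1 - p := by
    rw [← hl]
    refine Finset.sum_congr rfl fun S _ => ?_
    by_cases h : l ∈ S <;> simp [h]
  have hs : ∑ S : Finset (Finset ι), nu p τ S * (if decide (l ∈ S) = true then 1 else 0) +
      ∑ S : Finset (Finset ι), nu p τ S * (if decide (l ∈ S) = false then 1 else 0) = 1 := by
    refine Eq.trans ?_ he
    rw [← Finset.sum_add_distrib]
    refine Finset.sum_congr rfl fun S _ => ?_
    by_cases h : l ∈ S <;> simp [h]
  funext y
  cases y
  · rw [hf]
    simp [bw]
  · have : bw p true = p := by simp [bw]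
    rw [this]
    linarith

theorem one_leaf (hL : LenBSt) (hN : NuSt) (hP : PESt) {n : ℕ} (p : ℝ) (h0 : 0 ≤ p) (h1 : p < 1)
    (τ : ι → ℝ) (l : Finset ι) (F : (Pr n → Bool) → ℝ) :
    PE (nu p τ) (fun ω : Pr n → Finset (Finset ι) => F (Gl ω l)) = PE (bw p) F := by
  have h := (hP (Pr n) (Finset (Finset ι)) (nu p τ)).1 Bool (fun S => decide (l ∈ S)) F
  rw [leaf hL hN p τ l h0 h1] at h
  exact h

/-- pull back of a set of leaves -/
def pb (e : Finset ι → Finset ι) (S : Finset (Finset ι)) : Finset (Finset ι) :=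
  univ.filter fun l => e l ∈ S

theorem pb_disj (e : Finset ι → Finset ι) (S U : Finset (Finset ι)) :
    Disjoint (pb e S) U ↔ Disjoint S (U.image e) := by
  simp only [Finset.disjoint_right, pb, Finset.mem_filter, Finset.mem_univ, true_and,
    Finset.mem_image]
  constructor
  · rintro h a ⟨l, hl, rfl⟩
    exact h hl
  · intro h l hl
    exact h ⟨l, hl, rfl⟩

theorem push_avoid (hN : NuSt) (p : ℝ) (h0 : 0 ≤ p) (h1 : p < 1) (τ : ι → ℝ)
    (e : Finset ι → Finset ι) (U : Finset (Finset ι)) :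
    ∑ S : Finset (Finset ι), (∑ x, nu p τ x * (if pb e x = S then 1 else 0)) *
      (if Disjoint S U then (1 : ℝ) else 0) = (1 - p) ^ len τ (U.image e) := by
  rw [← (hN.1 ι p τ h0 h1).2.1 (U.image e)]
  simp only [Finset.sum_mul]
  rw [Finset.sum_comm]
  refine Finset.sum_congr rfl fun x _ => ?_
  rw [Finset.sum_eq_single (pb e x)]
  · simp only [if_true, mul_one, pb_disj]
  · intro S _ hS
    rw [if_neg (fun h => hS h.symm)]
    simp
  · intro h
    exact absurd (Finset.mem_univ _) h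

theorem pat_pb {n : ℕ} (B : (Pr n → Bool) → Finset (Fin n)) (e : Finset ι → Finset ι)
    (ω : Pr n → Finset (Finset ι)) (v : Fin n) :
    (univ.filter fun l => e l ∈ Pat B ω v) = Pat B (fun x => pb e (ω x)) v := by
  ext l
  have : Gl (fun x => pb e (ω x)) l = Gl ω (e l) := by
    funext x
    simp [Gl, pb]
  simp [Pat, this]

theorem iso_one (hP : PESt) {n : ℕ} (p : ℝ) (B : (Pr n → Bool) → Finset (Fin n)) (τ : ι → ℝ)
    (e : Finset ι → Finset ι) (F : Finset (Finset ι) → ℝ) :
    ∑ T, beta p B τ T * F (univ.filter fun l => e l ∈ T) =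
      p * PE (fun S => ∑ x, nu p τ x * (if pb e x = S then 1 else 0))
        fun ω : Pr n → Finset (Finset ι) => ∑ v, F (Pat B ω v) := by
  rw [sum_beta p B τ fun T => F (univ.filter fun l => e l ∈ T)]
  simp only [pat_pb]
  rw [← (hP (Pr n) (Finset (Finset ι)) (nu p τ)).1 (Finset (Finset ι)) (pb e)
    fun ω : Pr n → Finset (Finset ι) => ∑ v, F (Pat B ω v)]

end Soft

theorem soft_st (hL : LenBSt) (hN : NuSt) (hP : PESt) : SoftSt := by
  intro ι _ _ n p B h0 h1
  refine ⟨fun τ l F => Soft.one_leaf hL hN hP p h0 h1 τ l F, fun τ T => ?_, fun τ => ?_,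
    fun τ τ' e₁ e₂ h F => ?_, fun T => ?_⟩
  · refine mul_nonneg h0 (Finset.sum_nonneg fun ω _ => mul_nonneg ?_ (Nat.cast_nonneg _))
    exact Finset.prod_nonneg fun e _ => (hN.1 ι p τ h0 h1).1 _
  · have h2 : ∑ T, rho (beta p B τ) T =
        ∑ T, beta p B τ T * (if (∅ : Finset ι) ∈ T then 1 else 0) := by
      refine Finset.sum_congr rfl fun T _ => ?_
      unfold rho
      split_ifs <;> simp
    rw [h2, Soft.sum_beta, ← Soft.one_leaf hL hN hP p h0 h1 τ ∅ fun g => ((B g).card : ℝ)]
    congr 2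
    funext ω
    simp [Pat]
  · rw [Soft.iso_one hP, Soft.iso_one hP]
    have h3 := hN.2 (Finset ι) (fun S => ∑ x, nu p τ x * (if Soft.pb e₁ x = S then 1 else 0))
      (fun S => ∑ x, nu p τ' x * (if Soft.pb e₂ x = S then 1 else 0)) fun U => by
        rw [Soft.push_avoid hN p h0 h1, Soft.push_avoid hN p h0 h1, h U]
    rw [h3]
  · unfold beta PE
    refine continuous_const.mul (continuous_finsetSum _ fun ω _ => ?_)
    refine Continuous.mul (continuous_finsetProd _ fun e _ => ?_) continuous_const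
    exact (hN.1 ι p (fun _ => 0) h0 h1).2.2 _

end Pool.Agent.Lib.MP_1b5cbf_lc.Bar
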