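import Pool.Agent.Lib.MP_1b5cbf_lc.Bar.St

/-! The cost of the parent code on every tree of a stage. -/

set_option autoImplicit false

namespace Pool.Agent.Lib.MP_1b5cbf_lc.Bar

open Finset

namespace StCost

/-- rank of a bit -/
def rk (R i : ℕ) (x : Bit R) : ℕ := if (x.1 : ℕ) = R then 0 else (x.1 : ℕ) - i

/-- the blocks of rank `1..j` -/
def Bj (R i j : ℕ) : Finset (Bit R) :=
  univ.filter fun x => i < (x.1 : ℕ) ∧ (x.1 : ℕ) ≤ i + j ∧ (x.1 : ℕ) < R ∧ (x.2 : ℕ) < 3

lemma Bj_sub (R i j a b : ℕ) : Bj R i j ⊆ DD R i a b := by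
  intro x hx
  simp only [Bj, DD, mem_filter, mem_univ, true_and] at hx ⊢
  omega

lemma card_Bj (R i j : ℕ) (h : i + j < R) : 3 * j ≤ (Bj R i j).card := by
  have h1 : ((range j) ×ˢ (range 3)).card ≤ (Bj R i j).card := by
    refine card_le_card_of_injOn
      (fun p : ℕ × ℕ => ((⟨min (i + 1 + p.1) R, by omega⟩, ⟨min p.2 199, by omega⟩) : Bit R)) ?_ ?_
    · intro p hp
      simp only [coe_product, coe_range, Set.mem_prod, Set.mem_Iio] at hp
      simp only [Bj, coe_filter, mem_univ, true_and, Set.mem_ofPred_eq]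
      omega
    · intro p hp q hq hpq
      simp only [coe_product, coe_range, Set.mem_prod, Set.mem_Iio] at hp hq
      simp only [Prod.mk.injEq, Fin.mk.injEq] at hpq
      ext <;> omega
  rw [card_product, card_range, card_range] at h1
  omega

lemma card_DD (R i a b : ℕ) : (DD R i a b).card ≤ 3 * b + 3 * a + 3 * R := by
  have h1 : (DD R i a b).card ≤
      ((({i} : Finset ℕ) ×ˢ range (3 * b)) ∪ (({R} : Finset ℕ) ×ˢ range (3 * a)) ∪
        (range R ×ˢ range 3)).card := by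
    refine card_le_card_of_injOn (fun x : Bit R => ((x.1 : ℕ), (x.2 : ℕ))) ?_ ?_
    · intro x hx
      simp only [DD, coe_filter, mem_univ, true_and, Set.mem_ofPred_eq] at hx
      simp only [mem_coe, mem_union, mem_product, mem_singleton, mem_range]
      omega
    · intro x _ y _ hxy
      simp only [Prod.mk.injEq] at hxy
      exact Prod.ext (Fin.ext hxy.1) (Fin.ext hxy.2)
  have h2 := card_union_le ((({i} : Finset ℕ) ×ˢ range (3 * b)) ∪ (({R} : Finset ℕ) ×ˢ range (3 * a)))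
    (range R ×ˢ range 3)
  have h3 := card_union_le (({i} : Finset ℕ) ×ˢ range (3 * b)) (({R} : Finset ℕ) ×ˢ range (3 * a))
  simp only [card_product, card_singleton, card_range] at h2 h3
  omega

lemma geo2 (k : ℕ) : (2 : ℝ) ^ k ≤ 2 + ∑ j ∈ range k, (2 : ℝ) ^ j := by
  induction k with
  | zero => simp
  | succ k ih =>
    rw [sum_range_succ, pow_succ]
    linarith

lemma geo4 (k : ℕ) : ∑ j ∈ range k, (1 / 4 : ℝ) ^ j ≤ 2 - 2 * (1 / 4 : ℝ) ^ k := by
  induction k with
  | zero => simp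
  | succ k ih =>
    rw [sum_range_succ, pow_succ]
    have : (0 : ℝ) ≤ (1 / 4 : ℝ) ^ k := by positivity
    linarith

lemma count (R i j a b : ℕ) (h : i + j < R) :
    (2 : ℝ) ^ j * ∑ l ∈ (DD R i a b).powerset.erase ∅,
      (if l ⊆ DD R i a b \ Bj R i j then (1 : ℝ) else 0) ≤
      (1 / 4 : ℝ) ^ j * 2 ^ (DD R i a b).card := by
  have h1 : ∑ l ∈ (DD R i a b).powerset.erase ∅,
      (if l ⊆ DD R i a b \ Bj R i j then (1 : ℝ) else 0) ≤ 2 ^ (DD R i a b \ Bj R i j).card := by
    rw [sum_boole]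
    have : (((DD R i a b).powerset.erase ∅).filter fun l => l ⊆ DD R i a b \ Bj R i j).card ≤
        (DD R i a b \ Bj R i j).powerset.card :=
      card_le_card fun l hl => mem_powerset.2 (mem_filter.1 hl).2
    rw [card_powerset] at this
    exact_mod_cast this
  have h2 : (DD R i a b \ Bj R i j).card + 3 * j ≤ (DD R i a b).card := by
    have := card_sdiff_add_card_eq_card (Bj_sub R i j a b)
    have := card_Bj R i j h
    omega
  have h3 : (2 : ℝ) ^ ((DD R i a b \ Bj R i j).card + 3 * j) ≤ 2 ^ (DD R i a b).card :=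
    pow_le_pow_right₀ (by norm_num) h2
  have h4 : (2 : ℝ) ^ j = (1 / 4 : ℝ) ^ j * 2 ^ (3 * j) := by
    rw [pow_mul, ← mul_pow]; norm_num
  calc (2 : ℝ) ^ j * ∑ l ∈ (DD R i a b).powerset.erase ∅,
        (if l ⊆ DD R i a b \ Bj R i j then (1 : ℝ) else 0)
      ≤ 2 ^ j * 2 ^ (DD R i a b \ Bj R i j).card := by gcongr
    _ = (1 / 4 : ℝ) ^ j * 2 ^ ((DD R i a b \ Bj R i j).card + 3 * j) := by
        rw [pow_add, h4]; ring
    _ ≤ _ := by gcongr

lemma point {R : ℕ} {β : (Bit R → ℝ) → Finset (Finset (Bit R)) → ℝ} {L ld LL μ0 : ℝ}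
    {t : ℕ → ℝ} {i a b : ℕ} {s : ℝ} (S : Stg R β L ld LL μ0 t) (h1 : t (i + 1) ≤ s) (h2 : s ≤ t i)
    (l : Finset (Bit R)) (hl : l ⊆ DD R i a b) (x : Bit R) (hx : x ∈ l)
    (hmin : ∀ y ∈ l, rk R i x ≤ rk R i y) :
    sg β (bz R) (tt R t s x) ≤ μ0 * 2 ^ i *
      (2 + ∑ j ∈ range (R - i), (2 : ℝ) ^ j * (if l ⊆ DD R i a b \ Bj R i j then (1 : ℝ) else 0)) := by
  have hμ : 0 ≤ μ0 := by
    rw [S.hμ]; have := S.hLL; positivity
  have ht1 : ∀ k, t k ≤ 1 := fun k => by rw [← S.t0]; exact S.anti (Nat.zero_le k)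
  have hterm : ∀ j ∈ range (R - i),
      0 ≤ (2 : ℝ) ^ j * (if l ⊆ DD R i a b \ Bj R i j then (1 : ℝ) else 0) := by
    intro j _
    split_ifs <;> positivity
  have hs0 := sum_nonneg hterm
  have hm : 0 ≤ μ0 * 2 ^ i := by positivity
  by_cases hR : (x.1 : ℕ) = R
  · have := S.up (i + 1) s h1 (h2.trans (ht1 i))
    simp only [tt, hR, if_true]
    rw [pow_succ] at this
    nlinarith [mul_nonneg hm hs0]
  · have hup := S.up x.1 (t x.1) le_rfl (ht1 _)
    simp only [tt, hR, if_false]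
    have hxD := hl hx
    simp only [DD, mem_filter, mem_univ, true_and] at hxD
    have hik : i ≤ (x.1 : ℕ) := by omega
    have hlt : (x.1 : ℕ) < R := by have := x.1.2; omega
    obtain ⟨k, hk⟩ := Nat.exists_eq_add_of_le hik
    have hrk : rk R i x = k := by simp only [rk, hR, if_false]; omega
    have hsub : range k ⊆ range (R - i) := range_subset_range.2 (by omega)
    have hsum : ∑ j ∈ range k, (2 : ℝ) ^ j ≤ ∑ j ∈ range (R - i),
        (2 : ℝ) ^ j * (if l ⊆ DD R i a b \ Bj R i j then (1 : ℝ) else 0) := by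
      refine le_trans (le_of_eq ?_) (sum_le_sum_of_subset_of_nonneg hsub fun j hj _ => hterm j hj)
      refine sum_congr rfl fun j hj => ?_
      have hjk := mem_range.1 hj
      have : l ⊆ DD R i a b \ Bj R i j := by
        intro y hy
        refine mem_sdiff.2 ⟨hl hy, fun hB => ?_⟩
        have hy2 := hmin y hy
        simp only [Bj, mem_filter, mem_univ, true_and] at hB
        have hne : ¬ (y.1 : ℕ) = R := by omega
        rw [hrk] at hy2
        simp only [rk, hne, if_false] at hy2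
        omega
      rw [if_pos this, mul_one]
    have hg := geo2 k
    calc sg β (bz R) (t x.1) ≤ μ0 * 2 ^ (x.1 : ℕ) := hup
      _ = μ0 * 2 ^ i * 2 ^ k := by rw [hk, pow_add]; ring
      _ ≤ _ := by
        refine mul_le_mul_of_nonneg_left ?_ hm
        linarith

end StCost

open StCost in
theorem stCost_st (_hTwo : TwoSt) : StCostSt := by
  intro R β L ld LL μ0 t i a b s S hi h1 h2 ha hb
  classical
  have hex : ∀ l : Finset (Bit R), ∃ x : Bit R,
      l.Nonempty → x ∈ l ∧ ∀ y ∈ l, rk R i x ≤ rk R i y := by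
    intro l
    by_cases h : l.Nonempty
    · obtain ⟨x, hx, hm⟩ := exists_min_image l (rk R i) h
      exact ⟨x, fun _ => ⟨hx, hm⟩⟩
    · exact ⟨bz R, fun h' => absurd h' h⟩
  choose f hf using hex
  refine ⟨f, fun l hl => (hf l hl).1, ?_⟩
  have hLL := S.hLL
  have hμ : 0 ≤ μ0 := by rw [S.hμ]; positivity
  set μ : ℝ := μ0 * 2 ^ i with hμdef
  have hm : 0 ≤ μ := by positivity
  have hμ3 : 3 ≤ μ := by
    have h3 : (1 : ℝ) ≤ 2 ^ i := one_le_pow₀ (by norm_num)
    have h4 : (3 : ℝ) ≤ μ0 := by rw [S.hμ]; nlinarith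
    nlinarith
  set D := DD R i a b with hD
  have hm1 : (1 : ℝ) ≤ 2 ^ D.card := one_le_pow₀ (by norm_num)
  have hm0 : (0 : ℝ) < 2 ^ D.card := by positivity
  -- the sum of swap masses
  have hsum : ∑ l ∈ D.powerset.erase ∅, sg β (bz R) (tt R t s (f l)) ≤ μ * (4 * 2 ^ D.card) := by
    have hA : ∑ l ∈ D.powerset.erase ∅, sg β (bz R) (tt R t s (f l)) ≤
        ∑ l ∈ D.powerset.erase ∅, μ *
          (2 + ∑ j ∈ range (R - i), (2 : ℝ) ^ j * (if l ⊆ D \ Bj R i j then (1 : ℝ) else 0)) := by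
      refine sum_le_sum fun l hl => ?_
      have hne : l.Nonempty := nonempty_iff_ne_empty.2 (mem_erase.1 hl).1
      exact point S h1 h2 l (mem_powerset.1 (mem_erase.1 hl).2) (f l) (hf l hne).1 (hf l hne).2
    refine hA.trans ?_
    rw [← mul_sum]
    refine mul_le_mul_of_nonneg_left ?_ hm
    rw [sum_add_distrib, sum_comm]
    have hB : ∑ _l ∈ D.powerset.erase ∅, (2 : ℝ) ≤ 2 * 2 ^ D.card := by
      rw [sum_const, nsmul_eq_mul, mul_comm]
      have : (D.powerset.erase ∅).card ≤ 2 ^ D.card := by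
        rw [← card_powerset]; exact card_erase_le
      have h5 : ((D.powerset.erase ∅).card : ℝ) ≤ 2 ^ D.card := by exact_mod_cast this
      linarith
    have hC : ∑ j ∈ range (R - i), ∑ l ∈ D.powerset.erase ∅,
        (2 : ℝ) ^ j * (if l ⊆ D \ Bj R i j then (1 : ℝ) else 0) ≤
        ∑ j ∈ range (R - i), (1 / 4 : ℝ) ^ j * 2 ^ D.card := by
      refine sum_le_sum fun j hj => ?_
      rw [← mul_sum]
      exact count R i j a b (by have := mem_range.1 hj; omega)
    rw [← sum_mul] at hC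
    have hE := geo4 (R - i)
    have hF : (0 : ℝ) ≤ (1 / 4 : ℝ) ^ (R - i) := by positivity
    nlinarith
  -- the root term
  have hL : L ≤ μ * (2 * 2 ^ D.card) := by
    obtain ⟨e, he⟩ : ∃ e, R = i + 1 + e := ⟨R - (i + 1), by omega⟩
    have h5 : e ≤ D.card := by
      have h6 := card_Bj R i e (by omega)
      have h7 : (Bj R i e).card ≤ D.card := card_le_card (Bj_sub R i e a b)
      omega
    have h8 : (2 : ℝ) ^ e ≤ 2 ^ D.card := pow_le_pow_right₀ (by norm_num) h5
    have h9 : μ0 * 2 ^ R = μ * (2 * 2 ^ e) := by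
      rw [hμdef]
      conv_lhs => rw [he]
      rw [pow_add, pow_add]; ring
    have h10 := S.hR
    rw [h9] at h10
    nlinarith
  -- the logarithm
  have hlog : Real.log (2 * 2 ^ D.card) ≤ LL := by
    refine le_trans (Real.log_le_log (by positivity) ?_) S.hlog
    have h5 : D.card ≤ 3 * (121 + R) := by
      have h7 : D.card ≤ 3 * b + 3 * a + 3 * R := card_DD R i a b
      omega
    have h6 : (2 : ℝ) ^ D.card ≤ 2 ^ (3 * (121 + R)) := pow_le_pow_right₀ (by norm_num) h5
    rw [pow_mul] at h6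
    norm_num at h6 ⊢
    exact h6
  have hlog0 : 0 ≤ Real.log (2 * 2 ^ D.card) := Real.log_nonneg (by linarith)
  unfold cost
  rw [div_le_iff₀ hm0]
  have hX : L + 2 * ∑ l ∈ D.powerset.erase ∅, sg β (bz R) (tt R t s (f l)) ≤
      μ * (10 * 2 ^ D.card) := by linarith
  have hY : 0 ≤ μ * (10 * 2 ^ D.card) := by positivity
  have hZ := (mul_le_mul_of_nonneg_left hX hlog0).trans (mul_le_mul_of_nonneg_right hlog hY)
  have hW : 3 ≤ μ * LL * 2 ^ D.card := by
    have : 3 ≤ μ * LL := by nlinarith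
    nlinarith
  nlinarith

end Pool.Agent.Lib.MP_1b5cbf_lc.Bar
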