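import Pool.Agent.Lib.MP_1b5cbf_lc.Bar.St

/-! Transport between stages. -/

set_option autoImplicit false

namespace Pool.Agent.Lib.MP_1b5cbf_lc.Bar

open Finset

namespace StIso

theorem mem_DD {R i a b : ℕ} {x : Bit R} : x ∈ DD R i a b ↔
    ((x.1 : ℕ) = i ∧ (x.2 : ℕ) < 3 * b) ∨ ((x.1 : ℕ) = R ∧ (x.2 : ℕ) < 3 * a) ∨
      (i < (x.1 : ℕ) ∧ (x.1 : ℕ) < R ∧ (x.2 : ℕ) < 3) := by
  unfold DD
  rw [Finset.mem_filter]
  exact ⟨fun h => h.2, fun h => ⟨Finset.mem_univ _, h⟩⟩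

/-- move the movable block into block `k`, shifted by `c` -/
def mv (R : ℕ) (k : Fin (R + 1)) (c : ℕ) (x : Bit R) : Bit R :=
  if (x.1 : ℕ) = R then (k, ⟨((x.2 : ℕ) + c) % 200, Nat.mod_lt _ (by norm_num)⟩) else x

theorem mv_fst {R : ℕ} (k : Fin (R + 1)) (c : ℕ) (x : Bit R) :
    ((mv R k c x).1 : ℕ) = if (x.1 : ℕ) = R then (k : ℕ) else (x.1 : ℕ) := by
  unfold mv; split_ifs <;> rfl

theorem mv_snd {R : ℕ} (k : Fin (R + 1)) (c : ℕ) (x : Bit R) :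
    ((mv R k c x).2 : ℕ) = if (x.1 : ℕ) = R then ((x.2 : ℕ) + c) % 200 else (x.2 : ℕ) := by
  unfold mv; split_ifs <;> rfl

theorem bit_ext {R : ℕ} {x y : Bit R} (h1 : (x.1 : ℕ) = y.1) (h2 : (x.2 : ℕ) = y.2) : x = y :=
  Prod.ext (Fin.ext h1) (Fin.ext h2)

theorem tt_mv {R : ℕ} (t : ℕ → ℝ) (k : Fin (R + 1)) (c : ℕ) (x : Bit R) :
    tt R t (t k) (mv R k c x) = tt R t (t k) x := by
  unfold tt
  rw [mv_fst]
  by_cases h : (x.1 : ℕ) = R
  · simp only [h, if_true]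
    split_ifs <;> rfl
  · simp only [h, if_false]

theorem inj0 {R i j : ℕ} (hi : i < R) :
    Set.InjOn (mv R ⟨i, by omega⟩ 0) (DD R i j 0 : Finset (Bit R)) := by
  intro x hx y hy hxy
  have hx' := mem_DD.1 (Finset.mem_coe.1 hx)
  have hy' := mem_DD.1 (Finset.mem_coe.1 hy)
  have h1 : ((mv R ⟨i, by omega⟩ 0 x).1 : ℕ) = (mv R ⟨i, by omega⟩ 0 y).1 := by rw [hxy]
  have h2 : ((mv R ⟨i, by omega⟩ 0 x).2 : ℕ) = (mv R ⟨i, by omega⟩ 0 y).2 := by rw [hxy]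
  rw [mv_fst, mv_fst] at h1
  rw [mv_snd, mv_snd] at h2
  have := x.2.2
  have := y.2.2
  simp only at h1
  apply bit_ext <;> split_ifs at h1 h2 <;> omega

theorem img0 {R i j : ℕ} (hi : i < R) :
    (DD R i j 0).image (mv R ⟨i, by omega⟩ 0) = DD R i 0 j := by
  ext y
  rw [Finset.mem_image, mem_DD]
  have hy2 := y.2.2
  constructor
  · rintro ⟨x, hx, rfl⟩
    have hx' := mem_DD.1 hx
    have := x.2.2
    rw [mv_fst, mv_snd]
    simp only
    split_ifs <;> omega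
  · intro hy
    by_cases h : (y.1 : ℕ) = i
    · refine ⟨(⟨R, by omega⟩, y.2), mem_DD.2 ?_, bit_ext ?_ ?_⟩
      · refine Or.inr (Or.inl ⟨rfl, ?_⟩)
        show (y.2 : ℕ) < 3 * j
        omega
      · rw [mv_fst]; simp only [if_true]; omega
      · rw [mv_snd]; simp only [if_true]; omega
    · refine ⟨y, mem_DD.2 (by omega), bit_ext ?_ ?_⟩
      · rw [mv_fst]; split_ifs <;> omega
      · rw [mv_snd]; split_ifs <;> omega

theorem inj3 {R i j : ℕ} (hi : i + 1 < R) (hj : j ≤ 60) :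
    Set.InjOn (mv R ⟨i + 1, by omega⟩ 3) (DD R i j 0 : Finset (Bit R)) := by
  intro x hx y hy hxy
  have hx' := mem_DD.1 (Finset.mem_coe.1 hx)
  have hy' := mem_DD.1 (Finset.mem_coe.1 hy)
  have h1 : ((mv R ⟨i + 1, by omega⟩ 3 x).1 : ℕ) = (mv R ⟨i + 1, by omega⟩ 3 y).1 := by rw [hxy]
  have h2 : ((mv R ⟨i + 1, by omega⟩ 3 x).2 : ℕ) = (mv R ⟨i + 1, by omega⟩ 3 y).2 := by rw [hxy]
  rw [mv_fst, mv_fst] at h1
  rw [mv_snd, mv_snd] at h2
  simp only at h1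
  apply bit_ext <;> split_ifs at h1 h2 <;> omega

theorem img3 {R i j : ℕ} (hi : i + 1 < R) (hj : j ≤ 60) :
    (DD R i j 0).image (mv R ⟨i + 1, by omega⟩ 3) = DD R (i + 1) 0 (j + 1) := by
  ext y
  rw [Finset.mem_image, mem_DD]
  have hy2 := y.2.2
  constructor
  · rintro ⟨x, hx, rfl⟩
    have hx' := mem_DD.1 hx
    rw [mv_fst, mv_snd]
    simp only
    split_ifs <;> omega
  · intro hy
    by_cases h : (y.1 : ℕ) = i + 1 ∧ 3 ≤ (y.2 : ℕ)
    · refine ⟨(⟨R, by omega⟩, ⟨(y.2 : ℕ) - 3, by omega⟩), mem_DD.2 ?_, bit_ext ?_ ?_⟩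
      · refine Or.inr (Or.inl ⟨rfl, ?_⟩)
        show (y.2 : ℕ) - 3 < 3 * j
        omega
      · rw [mv_fst]; simp only [if_true]; omega
      · rw [mv_snd]; simp only [if_true]; omega
    · refine ⟨y, mem_DD.2 (by omega), bit_ext ?_ ?_⟩
      · rw [mv_fst]; split_ifs <;> omega
      · rw [mv_snd]; split_ifs <;> omega

end StIso

theorem stIso_st (hTwo : TwoSt) (hApr : AprSt) : StIsoSt := by
  intro R β L ld LL μ0 t i hS hi
  have hb : bz R ≠ ((0, 1) : Bit R) := by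
    intro h
    have h2 := congrArg Prod.snd h
    simp [bz] at h2
  obtain ⟨-, -, -, h4, -, h6, h7⟩ := hApr (Bit R) β L ld (bz R) (0, 1) hS.ifc hb
  obtain ⟨-, -, -, hz, -, -⟩ := hTwo (Bit R) β L ld (bz R) (0, 1) hS.ifc hb
  refine ⟨?_, ?_, ?_, ?_, ?_⟩
  · intro j s s'
    have h := h6 (tt R t s') (tt R t s) id (DD R i 0 j) (Set.injOn_id _) (by
      intro x hx
      have hx' := StIso.mem_DD.1 hx
      have hne : (x.1 : ℕ) ≠ R := by omega
      simp only [tt, id, hne, if_false])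
    rwa [Finset.image_id] at h
  · intro j _
    have h := h6 (tt R t (t i)) (tt R t (t i)) (StIso.mv R ⟨i, by omega⟩ 0) (DD R i j 0)
      (StIso.inj0 hi) (fun x _ => StIso.tt_mv t ⟨i, by omega⟩ 0 x)
    rw [StIso.img0 hi] at h
    exact h.symm
  · intro hi1 j hj
    have h := h6 (tt R t (t (i + 1))) (tt R t (t (i + 1))) (StIso.mv R ⟨i + 1, by omega⟩ 3)
      (DD R i j 0) (StIso.inj3 hi1 hj) (fun x _ => StIso.tt_mv t ⟨i + 1, by omega⟩ 3 x)
    rw [StIso.img3 hi1 hj] at h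
    exact h
  · intro j
    have hc : Continuous fun s : ℝ => tt R t s := by
      refine continuous_pi fun x => ?_
      unfold tt
      split_ifs
      · exact continuous_id
      · exact continuous_const
    exact (h7 (DD R i j 0)).comp hc
  · intro j hj
    have hx : ((⟨R, by omega⟩, 0) : Bit R) ∈ DD R i j 0 := by
      refine StIso.mem_DD.2 (Or.inr (Or.inl ⟨rfl, ?_⟩))
      show 0 < 3 * j
      omega
    have h := h4 (tt R t 1) (DD R i j 0) _ hx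
    have h1 : tt R t 1 ((⟨R, by omega⟩, 0) : Bit R) = 1 := by simp [tt]
    rw [h1, hz] at h
    exact h

end Pool.Agent.Lib.MP_1b5cbf_lc.Bar
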