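import Pool.Agent.Lib.MP_1b5cbf_lc.Bar.St

/-! A trigger is impossible: the three kills applied to the trees of a stage. -/

set_option autoImplicit false

namespace Pool.Agent.Lib.MP_1b5cbf_lc.Bar

open Finset

namespace StKill

theorem card_blk (R k lo hi : ℕ) (hk : k ≤ R) (hhi : hi ≤ 200) :
    (univ.filter fun x : Bit R => (x.1 : ℕ) = k ∧ lo ≤ (x.2 : ℕ) ∧ (x.2 : ℕ) < hi).card = hi - lo := by
  rw [← Nat.card_Ico lo hi]
  refine Finset.card_bij (fun x _ => (x.2 : ℕ)) ?_ ?_ ?_
  · intro x hx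
    simp only [mem_filter, mem_univ, true_and] at hx
    exact mem_Ico.2 hx.2
  · intro x hx x' hx' h
    simp only [mem_filter, mem_univ, true_and] at hx hx'
    exact Prod.ext (Fin.ext (hx.1.trans hx'.1.symm)) (Fin.ext h)
  · intro m hm
    rw [mem_Ico] at hm
    refine ⟨(⟨k, by omega⟩, ⟨m, by omega⟩), ?_, rfl⟩
    simp only [mem_filter, mem_univ, true_and]
    exact hm

theorem mem_DD {R i a b : ℕ} {x : Bit R} : x ∈ DD R i a b ↔
    ((x.1 : ℕ) = i ∧ (x.2 : ℕ) < 3 * b) ∨ ((x.1 : ℕ) = R ∧ (x.2 : ℕ) < 3 * a) ∨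
      (i < (x.1 : ℕ) ∧ (x.1 : ℕ) < R ∧ (x.2 : ℕ) < 3) := by
  simp only [DD, mem_filter, mem_univ, true_and]

theorem DD_mono {R i a a' b b' : ℕ} (ha : a ≤ a') (hb : b ≤ b') : DD R i a b ⊆ DD R i a' b' := by
  intro x hx
  rw [mem_DD] at hx ⊢
  omega

theorem card_da {R i a : ℕ} (ha : a + 14 ≤ 60) :
    (DD R i (a + 14) 0 \ DD R i a 0).card = 42 := by
  have : DD R i (a + 14) 0 \ DD R i a 0 =
      univ.filter fun x : Bit R => (x.1 : ℕ) = R ∧ 3 * a ≤ (x.2 : ℕ) ∧ (x.2 : ℕ) < 3 * a + 42 := by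
    ext x
    simp only [mem_sdiff, mem_DD, mem_filter, mem_univ, true_and]
    omega
  rw [this, card_blk R R _ _ le_rfl (by omega)]
  omega

theorem card_db {R i a b : ℕ} (hi : i < R) (hb : b ≤ 60) :
    (DD R i a (b + 1) \ DD R i a b).card = 3 := by
  have : DD R i a (b + 1) \ DD R i a b =
      univ.filter fun x : Bit R => (x.1 : ℕ) = i ∧ 3 * b ≤ (x.2 : ℕ) ∧ (x.2 : ℕ) < 3 * b + 3 := by
    ext x
    simp only [mem_sdiff, mem_DD, mem_filter, mem_univ, true_and]
    omega
  rw [this, card_blk R i _ _ hi.le (by omega)]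
  omega

theorem th_pos {μ0 : ℝ} (h : 0 < μ0) (i j : ℕ) : 0 < th μ0 i j := by unfold th; positivity

theorem th_add (μ0 : ℝ) (i j k : ℕ) : th μ0 i j = 2 ^ k * th μ0 i (j + k) := by
  unfold th; rw [pow_add]; field_simp

theorem th_anti {μ0 : ℝ} (h : 0 < μ0) (i : ℕ) {j k : ℕ} (hjk : j ≤ k) : th μ0 i k ≤ th μ0 i j := by
  unfold th
  exact div_le_div_of_nonneg_left (by positivity) (by positivity)
    (pow_le_pow_right₀ one_le_two hjk)

theorem sub_of_TD {ι : Type} [Fintype ι] [DecidableEq ι] {D l : Finset ι} {T : Finset (Finset ι)}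
    (h : l ∈ TD D T) (h0 : l ≠ ∅) : l ⊆ D := by
  unfold TD at h
  rcases mem_insert.1 h with h | h
  · exact absurd h h0
  · exact mem_powerset.1 (mem_inter.1 h).2

end StKill

open StKill in
theorem stKill_st (hK0 : K0St) (hKB : KBSt) (hKP : KPSt) (hTwo : TwoSt) (hRoot : RootSt)
    (hNet : NetSt) (hSwap : SwapSt) (hApr : AprSt) (hStU : StUSt) (hCost : StCostSt) :
    StKillSt := by
  intro R β L ld LL μ0 t i j s H hi hs1 hs2 hti hI hg hj heq
  have hLL := H.hLL
  have hμ0 : 0 < μ0 := by rw [H.hμ]; positivity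
  have hb01 : bz R ≠ ((0, 1) : Bit R) := by
    intro h
    have h2 : (0 : Fin 200) = 1 := congrArg Prod.snd h
    exact absurd h2 (by decide)
  have hy := H.hy
  have hy0 : 0 ≤ L - ld := le_trans (by positivity) hy
  have hρ : ∀ T, 0 ≤ rho (β (tt R t s)) T := by
    intro T
    unfold rho
    split_ifs
    · exact H.ifc.nonneg _ _
    · exact le_rfl
  have ho : ∀ (D : Finset (Bit R)) T, (∅ : Finset (Bit R)) ∈ TD D T := fun D T => mem_insert_self _ _
  have hnet : ∀ a ≤ 60, ∀ b ≤ 61,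
      net (rho (β (tt R t s))) (TD (DD R i a b)) (L - ld) ≤ 17 * (μ0 * 2 ^ i) * LL := by
    intro a ha b hb
    obtain ⟨f, hf, hc⟩ := hCost R β L ld LL μ0 t i a b s H hi hs1 hs2 ha hb
    exact (hNet _ β L ld (bz R) (0, 1) (tt R t s) (DD R i a b) f H.ifc hb01 hf).1.trans hc
  obtain ⟨hA, hUU⟩ := hStU R β L ld LL μ0 t i s H hi hs1 hs2
  have hU := hUU hg
  have hm : 0 < μ0 * 2 ^ i := by positivity
  have hge : 2 ^ 86 * LL ≤ μ0 * 2 ^ i := by
    rw [← H.hμ]
    exact le_mul_of_one_le_right hμ0.le (one_le_pow₀ one_le_two)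
  have hle : th μ0 i j ≤ 2 * (μ0 * 2 ^ i) := heq ▸ hA j (by omega)
  have hlow : μ0 * 2 ^ i / 2 ^ 38 ≤ th μ0 i j := by
    refine le_trans (le_of_eq ?_) (th_anti hμ0 i hj)
    unfold th; field_simp
  have hj21 : 21 ≤ j := by
    by_contra hlt
    have h1 : th μ0 i 20 ≤ th μ0 i j := th_anti hμ0 i (by omega)
    have h2 : th μ0 i 20 = 4 * (μ0 * 2 ^ i) := by unfold th; field_simp; norm_num
    linarith
  have hθ := th_pos hμ0 i j
  rcases Nat.eq_zero_or_pos i with h0 | h0
  · subst h0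
    have h1 := (hK0 _ _ (rho (β (tt R t s))) (TD (DD R 0 j 0)) ∅ (th μ0 0 j) (L - ld) hρ (ho _)
      (hU j hj 0 (by norm_num)) hy0).trans (hnet j hj 0 (by norm_num))
    have h1' : Wm (rho (β (tt R t s))) (TD (DD R 0 j 0)) 1 = th μ0 0 j := heq
    rw [h1'] at h1
    simp only [pow_zero, mul_one] at h1 hle hlow hge
    generalize th μ0 0 j = θ at h1 hle hlow hθ
    have h2 : 2 ^ 8 * μ0 * θ ≤ 17 * μ0 * LL := by nlinarith
    have h3 : 2 ^ 8 * θ ≤ 17 * LL := by
      by_contra hh
      push Not at hh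
      nlinarith
    have h4 : 2 ^ 86 * LL / 2 ^ 38 ≤ θ := le_trans (by gcongr) hlow
    norm_num at h3 h4
    linarith
  · by_cases hj46 : j + 14 ≤ 60
    · have hC := (hRoot _ β L ld (tt R t s) (DD R i (j + 14) 0) H.ifc).2.2 (DD R i j 0)
        (DD_mono (by omega) le_rfl)
      rw [card_da hj46, heq, th_add μ0 i j 14] at hC
      have h42 : (2 : ℝ) ^ 42 = 8 ^ 14 := by norm_num
      rw [h42] at hC
      have hLow : (univ.filter fun x : Bit R =>
          (x.1 : ℕ) = R ∧ 0 ≤ (x.2 : ℕ) ∧ (x.2 : ℕ) < 105) ⊆ DD R i (j + 14) 0 := by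
        intro x hx
        simp only [mem_filter, mem_univ, true_and] at hx
        rw [mem_DD]
        omega
      have hcard := card_blk R R 0 105 le_rfl (by norm_num)
      have hS := (hSwap _ β L ld (tt R t s) s (DD R i (j + 14) 0) _ H.ifc hLow
        (by
          intro x hx
          simp only [mem_filter, mem_univ, true_and] at hx
          unfold tt
          rw [if_pos hx.1])
        (by
          intro x hx
          rw [mem_DD] at hx
          unfold tt
          split_ifs with hx1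
          · exact le_rfl
          · exact (H.anti (show i + 1 ≤ (x.1 : ℕ) by omega)).trans hs1)).1 8 (8 ^ 17)
      rw [hcard] at hS
      have h1 := (hKP _ _ (rho (β (tt R t s))) (TD (DD R i (j + 14) 0)) ∅ (th μ0 i (j + 14))
        (L - ld) hρ (ho _) (hU (j + 14) hj46 0 (by norm_num)) hy0 hC
        (by
          intro T l hl hl0
          refine (hS l (card_pos.1 (by rw [hcard]; norm_num)) (sub_of_TD hl hl0) hl0).trans
            (le_of_eq ?_)
          congr 1
          norm_num)).trans (hnet (j + 14) hj46 0 (by norm_num))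
      rw [← th_add μ0 i j 14] at h1
      generalize th μ0 i j = θ at h1 hlow hθ
      generalize μ0 * 2 ^ i = mu at h1 hlow hm hge
      have h2 : (mu / 2 ^ 38) ^ 2 ≤ θ ^ 2 := by gcongr
      have h3 : (mu / 2 ^ 38) ^ 2 = mu * mu / 2 ^ 76 := by field_simp
      have h4 : mu * (2 ^ 86 * LL) ≤ mu * mu := by gcongr
      have h5 : 0 < mu * LL := by positivity
      norm_num at h1 h2 h3 h4
      nlinarith
    · obtain ⟨hW, -, -, -, hlam, -, -⟩ := hApr _ β L ld (bz R) (0, 1) H.ifc hb01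
      obtain ⟨-, -, -, -, -, htri⟩ := hTwo _ β L ld (bz R) (0, 1) H.ifc hb01
      have hend : fr (β (tt R t s)) (DD R i j 61) ≤ th μ0 i j / 2 := by
        have h3 : fr (β (tt R t s)) (DD R i j 61) ≤ fr (β (tt R t s)) (DD R i 0 61) :=
          hW (tt R t s) _ _ 1 (DD_mono (Nat.zero_le _) le_rfl)
        refine h3.trans ((hI h0).trans ?_)
        have h1 := th_add μ0 i j 1
        have h2 : th μ0 i 61 ≤ th μ0 i (j + 1) := th_anti hμ0 i (by omega)
        linarith
      have hdrop : ∃ b ≤ 60, th μ0 i j / 122 ≤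
          fr (β (tt R t s)) (DD R i j b) - fr (β (tt R t s)) (DD R i j (b + 1)) := by
        by_contra hh
        push Not at hh
        have h1 : ∑ b ∈ Finset.range 61,
            (fr (β (tt R t s)) (DD R i j b) - fr (β (tt R t s)) (DD R i j (b + 1))) =
            fr (β (tt R t s)) (DD R i j 0) - fr (β (tt R t s)) (DD R i j 61) :=
          Finset.sum_range_sub' (fun b => fr (β (tt R t s)) (DD R i j b)) 61
        have h2 : ∑ b ∈ Finset.range 61,
            (fr (β (tt R t s)) (DD R i j b) - fr (β (tt R t s)) (DD R i j (b + 1)))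
            < ∑ _b ∈ Finset.range 61, th μ0 i j / 122 :=
          Finset.sum_lt_sum_of_nonempty ⟨0, by simp⟩
            (fun b hb => hh b (by simpa [Nat.lt_succ_iff] using hb))
        rw [h1, heq, Finset.sum_const, Finset.card_range, nsmul_eq_mul] at h2
        push_cast at h2
        linarith
      obtain ⟨b, hb, hd⟩ := hdrop
      have hC := (hRoot _ β L ld (tt R t s) (DD R i j (b + 1)) H.ifc).2.2 (DD R i j b)
        (DD_mono le_rfl (by omega))
      rw [card_db hi hb] at hC
      have h8 : (2 : ℝ) ^ 3 = 8 := by norm_num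
      rw [h8] at hC
      have hsg : ∀ x ∈ DD R i j (b + 1), μ0 * 2 ^ i / 2 ≤ sg β (bz R) (tt R t s x) := by
        intro x hx
        have hx2 : tt R t s x ≤ t i := by
          rw [mem_DD] at hx
          unfold tt
          split_ifs with hx1
          · exact hs2
          · exact H.anti (show i ≤ (x.1 : ℕ) by omega)
        have h1 := htri _ _ hx2
        rw [H.eqq i h0 hti] at h1
        linarith
      have h1 := (hKB _ _ (rho (β (tt R t s))) (TD (DD R i j (b + 1))) ∅ (th μ0 i j) (L - ld)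
        (μ0 * 2 ^ i / 2) hρ (ho _) (hU j hj (b + 1) (by omega)) hy0 (by positivity)
        (fun T l hl hl0 => hlam (tt R t s) _ l _ hsg (sub_of_TD hl hl0) hl0)).trans
        (hnet j hj (b + 1) (by omega))
      have hup : th μ0 i j ≤ μ0 * 2 ^ i / 2 ^ 25 := by
        refine (th_anti hμ0 i (show 47 ≤ j by omega)).trans (le_of_eq ?_)
        unfold th; field_simp
      have hbig : th μ0 i j / 122 ≤ big (rho (β (tt R t s))) (TD (DD R i j (b + 1))) 8 := by
        linarith
      generalize big (rho (β (tt R t s))) (TD (DD R i j (b + 1))) 8 = g at h1 hbig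
      generalize th μ0 i j = θ at h1 hlow hθ hup hbig
      generalize μ0 * 2 ^ i = mu at h1 hlow hm hge hup
      have h2 : mu / 2 / 32 * (θ / 122) ≤ mu / 2 / 32 * g := by gcongr
      have h3 : θ * θ ≤ θ * (mu / 2 ^ 25) := by gcongr
      have h4 : mu * (2 ^ 86 * LL / 2 ^ 38) ≤ mu * θ := by
        have : 2 ^ 86 * LL / 2 ^ 38 ≤ θ := le_trans (by gcongr) hlow
        gcongr
      have h5 : 0 < mu * LL := by positivity
      norm_num at h1 h2 h3 h4
      nlinarith

end Pool.Agent.Lib.MP_1b5cbf_lc.Bar
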