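import Pool.Agent.Lib.MP_1b5cbf_lc.Bar.St

/-! A priori bound and the condition (U) inside one stage. -/

set_option autoImplicit false

namespace Pool.Agent.Lib.MP_1b5cbf_lc.Bar

open Finset

namespace StU

lemma card_ge (R N : ℕ) (S : Finset (Bit R)) (f g : ℕ → ℕ) (hf : ∀ m < N, f m < R + 1)
    (hg : ∀ m < N, g m < 200)
    (hS : ∀ m (h : m < N), ((⟨f m, hf m h⟩, ⟨g m, hg m h⟩) : Bit R) ∈ S)
    (hinj : ∀ m < N, ∀ m' < N, f m = f m' → g m = g m' → m = m') : N ≤ S.card := by
  have h := Finset.card_le_card_of_injOn (s := (univ : Finset (Fin N))) (t := S)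
    (fun m : Fin N => ((⟨f m, hf m m.2⟩, ⟨g m, hg m m.2⟩) : Bit R))
    (fun m _ => hS m m.2)
    (fun m _ m' _ h => by
      have h1 := congrArg (fun x : Bit R => (x.1 : ℕ)) h
      have h2 := congrArg (fun x : Bit R => (x.2 : ℕ)) h
      exact Fin.ext (hinj m m.2 m' m'.2 h1 h2))
  simpa using h

lemma two_pow_le (c n : ℕ) (h : 3 * (c + 1) ≤ n) : 2 * 8 ^ c ≤ 2 ^ n := by
  calc 2 * 8 ^ c ≤ 8 * 8 ^ c := Nat.mul_le_mul_right _ (by norm_num)
    _ = 2 ^ (3 * (c + 1)) := by rw [pow_mul]; norm_num; ring
    _ ≤ 2 ^ n := Nat.pow_le_pow_right (by norm_num) h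

lemma bz_ne (R : ℕ) : bz R ≠ ((0, 1) : Bit R) := by
  intro h
  have h2 := congrArg (fun x : Bit R => (x.2 : ℕ)) h
  simp [bz] at h2

end StU

open StU in
theorem stU_st (_hTwo : TwoSt) (hSwap : SwapSt) (hApr : AprSt) : StUSt := by
  intro R β L ld LL μ0 t i s hS hi h1 h2
  obtain ⟨aM, aL, aA, aF, -, -, -⟩ := hApr (Bit R) β L ld (bz R) (0, 1) hS.ifc (bz_ne R)
  have hμ : 0 < μ0 := by
    rw [hS.hμ]; have := hS.hLL; positivity
  have ht1 : ∀ k, t k ≤ 1 := fun k => by rw [← hS.t0]; exact hS.anti (Nat.zero_le k)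
  have hs1 : s ≤ 1 := h2.trans (ht1 i)
  have hsgs : sg β (bz R) s ≤ μ0 * 2 ^ (i + 1) := hS.up (i + 1) s h1 hs1
  have hsgt : ∀ k, sg β (bz R) (t k) ≤ μ0 * 2 ^ k := fun k => hS.up k (t k) le_rfl (ht1 k)
  have hmono : ∀ a b : ℕ, a ≤ b → μ0 * 2 ^ a ≤ μ0 * 2 ^ b := fun a b h =>
    mul_le_mul_of_nonneg_left (pow_le_pow_right₀ (by norm_num) h) hμ.le
  refine ⟨fun j hj => ?_, fun hg j hj b hb c => ?_⟩
  · have e2 : 2 * (μ0 * 2 ^ i) = μ0 * 2 ^ (i + 1) := by ring
    rw [e2]
    by_cases hj0 : 1 ≤ j
    · have hx : ((Fin.last R, 0) : Bit R) ∈ DD R i j 0 := by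
        simp only [DD, mem_filter, mem_univ, true_and, Fin.val_last, Fin.val_zero]
        omega
      have := aF (tt R t s) _ _ hx
      simp only [tt, Fin.val_last, if_true] at this
      exact this.trans hsgs
    · by_cases hR : i + 1 < R
      · have hx : ((⟨i + 1, by omega⟩, 0) : Bit R) ∈ DD R i j 0 := by
          simp only [DD, mem_filter, mem_univ, true_and, Fin.val_zero]
          omega
        have := aF (tt R t s) _ _ hx
        have hne : ¬ (i + 1 = R) := by omega
        simp only [tt, hne, if_false] at this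
        exact this.trans (hsgt (i + 1))
      · have e : R = i + 1 := by omega
        have := aL (tt R t s) (DD R i j 0) 1
        have h3 := hS.hR
        unfold fr
        calc _ ≤ L := this
          _ ≤ μ0 * 2 ^ R := h3.le
          _ ≤ μ0 * 2 ^ (i + 1) := hmono _ _ e.le
  · have hsub : DD R i j 0 ⊆ DD R i j b := by
      intro x hx
      simp only [DD, mem_filter, mem_univ, true_and] at hx ⊢
      omega
    refine (aM (tt R t s) _ _ (8 ^ c) hsub).trans ?_
    by_cases hc : c + 1 ≤ j
    · obtain ⟨k, rfl⟩ : ∃ k, j = k + (c + 1) := ⟨j - (c + 1), by omega⟩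
      have hsw := (hSwap (Bit R) β L ld (tt R t s) s (DD R i (k + (c + 1)) 0)
        (univ.filter fun x : Bit R => (x.1 : ℕ) = R ∧ (x.2 : ℕ) < 3 * (k + (c + 1))) hS.ifc
        (by
          intro x hx
          simp only [DD, mem_filter, mem_univ, true_and] at hx ⊢
          omega)
        (by
          intro x hx
          simp only [mem_filter, mem_univ, true_and] at hx
          simp only [tt, hx.1, if_true])
        (by
          intro x hx
          simp only [DD, mem_filter, mem_univ, true_and] at hx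
          by_cases hxR : (x.1 : ℕ) = R
          · simp only [tt, hxR, if_true, le_refl]
          · simp only [tt, hxR, if_false]
            exact (hS.anti (by omega : i + 1 ≤ (x.1 : ℕ))).trans h1)).2
        (univ.filter fun x : Bit R => (x.1 : ℕ) = R ∧ 3 * k ≤ (x.2 : ℕ) ∧
          (x.2 : ℕ) < 3 * (k + (c + 1)))
        (by
          intro x hx
          simp only [mem_filter, mem_univ, true_and] at hx ⊢
          omega) (8 ^ c)
        (two_pow_le c _ (card_ge R (3 * (c + 1)) _ (fun _ => R) (fun m => 3 * k + m)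
          (fun m _ => by omega) (fun m hm => by omega)
          (fun m hm => by
            simp only [mem_filter, mem_univ, true_and]
            omega)
          (fun m _ m' _ _ h => by omega)))
      have e : DD R i (k + (c + 1)) 0 \ (univ.filter fun x : Bit R => (x.1 : ℕ) = R ∧
          3 * k ≤ (x.2 : ℕ) ∧ (x.2 : ℕ) < 3 * (k + (c + 1))) = DD R i k 0 := by
        ext x
        simp only [DD, mem_sdiff, mem_filter, mem_univ, true_and]
        omega
      rw [e] at hsw
      have h4 := hg k (by omega)
      have e2 : 4 * th μ0 i (k + (c + 1)) * 2 ^ c = 2 * th μ0 i k := by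
        unfold th
        field_simp
        ring
      rw [e2]
      linarith
    · obtain ⟨r, hr⟩ : ∃ r, c = j + r := ⟨c - j, by omega⟩
      have e2 : 4 * th μ0 i j * 2 ^ c = 2 ^ 23 * (μ0 * 2 ^ (i + (r + 1))) := by
        unfold th
        rw [hr]
        field_simp
        ring
      have hp : 0 < μ0 * 2 ^ (i + (r + 1)) := by positivity
      rw [e2]
      by_cases hR : i + (r + 1) < R
      · have hsub' : (univ.filter fun x : Bit R => ((x.1 : ℕ) = R ∧ (x.2 : ℕ) < 3 * j) ∨
            (i < (x.1 : ℕ) ∧ (x.1 : ℕ) ≤ i + (r + 1) ∧ (x.2 : ℕ) < 3)) ⊆ DD R i j 0 := by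
          intro x hx
          simp only [DD, mem_filter, mem_univ, true_and] at hx ⊢
          omega
        refine (aM (tt R t s) _ _ (8 ^ c) hsub').trans ?_
        have h5 := aA (tt R t s) (univ.filter fun x : Bit R =>
            ((x.1 : ℕ) = R ∧ (x.2 : ℕ) < 3 * j) ∨
            (i < (x.1 : ℕ) ∧ (x.1 : ℕ) ≤ i + (r + 1) ∧ (x.2 : ℕ) < 3)) (8 ^ c)
          (μ0 * 2 ^ (i + (r + 1))) hp.le
          (by
            intro x hx
            simp only [mem_filter, mem_univ, true_and] at hx
            by_cases hxR : (x.1 : ℕ) = R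
            · simp only [tt, hxR, if_true]
              exact hsgs.trans (hmono _ _ (by omega))
            · simp only [tt, hxR, if_false]
              exact (hsgt _).trans (hmono _ _ (by omega)))
          (two_pow_le c _ (card_ge R (3 * (c + 1)) _
            (fun m => if m < 3 * j then R else i + 1 + (m - 3 * j) / 3)
            (fun m => if m < 3 * j then m else (m - 3 * j) % 3)
            (fun m hm => by split_ifs <;> omega) (fun m hm => by split_ifs <;> omega)
            (fun m hm => by
              simp only [mem_filter, mem_univ, true_and]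
              split_ifs <;> omega)
            (fun m hm m' hm' ha hb => by
              split_ifs at ha hb <;> omega)))
        nlinarith
      · have h5 := aL (tt R t s) (DD R i j 0) (8 ^ c)
        have h6 := hS.hR
        have h7 := hmono R (i + (r + 1)) (by omega)
        nlinarith

end Pool.Agent.Lib.MP_1b5cbf_lc.Bar
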