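import Pool.Agent.Lib.MP_1b5cbf_lc.Bar.St

/-! Swapping two leaves inside a node. -/

set_option autoImplicit false

namespace Pool.Agent.Lib.MP_1b5cbf_lc.Bar

open Finset

namespace Swap
variable {ι : Type} [Fintype ι] [DecidableEq ι]

omit [Fintype ι] in
lemma mem_TD {D : Finset ι} {T : Finset (Finset ι)} {l : Finset ι} :
    l ∈ TD D T ↔ l = ∅ ∨ (l ∈ T ∧ l ⊆ D) := by
  simp [TD]

lemma TD_proj (D : Finset ι) (T : Finset (Finset ι)) :
    TD D (univ.filter fun l => l ∩ D ∈ T) = TD D T := by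
  ext l
  simp only [mem_TD, mem_filter, mem_univ, true_and]
  constructor
  · rintro (h | ⟨h, hl⟩)
    · exact Or.inl h
    · rw [inter_eq_left.2 hl] at h
      exact Or.inr ⟨h, hl⟩
  · rintro (h | ⟨h, hl⟩)
    · exact Or.inl h
    · rw [inter_eq_left.2 hl]
      exact Or.inr ⟨h, hl⟩

omit [Fintype ι] in
lemma swap_sub {D l₁ l₂ l : Finset ι} (h₁ : l₁ ⊆ D) (h₂ : l₂ ⊆ D) :
    Equiv.swap l₁ l₂ l ⊆ D ↔ l ⊆ D := by
  rw [Equiv.swap_apply_def]
  split_ifs with a b
  · subst a; exact ⟨fun _ => h₁, fun _ => h₂⟩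
  · subst b; exact ⟨fun _ => h₂, fun _ => h₁⟩
  · rfl

omit [Fintype ι] in
lemma swap_empty {l₁ l₂ l : Finset ι} (n₁ : l₁ ≠ ∅) (n₂ : l₂ ≠ ∅) :
    Equiv.swap l₁ l₂ l = ∅ ↔ l = ∅ := by
  rw [Equiv.swap_apply_def]
  split_ifs with a b
  · subst a; exact ⟨fun h => absurd h n₂, fun h => absurd h n₁⟩
  · subst b; exact ⟨fun h => absurd h n₁, fun h => absurd h n₂⟩
  · rfl

lemma mem_TD_swap {D l₁ l₂ : Finset ι} (h₁ : l₁ ⊆ D) (h₂ : l₂ ⊆ D) (n₁ : l₁ ≠ ∅) (n₂ : l₂ ≠ ∅)
    (T : Finset (Finset ι)) (l : Finset ι) :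
    l ∈ TD D (univ.filter fun l => Equiv.swap l₁ l₂ (l ∩ D) ∈ T) ↔ Equiv.swap l₁ l₂ l ∈ TD D T := by
  simp only [mem_TD, mem_filter, mem_univ, true_and, swap_sub h₁ h₂, swap_empty n₁ n₂]
  constructor
  · rintro (h | ⟨h, hl⟩)
    · exact Or.inl h
    · rw [inter_eq_left.2 hl] at h
      exact Or.inr ⟨h, hl⟩
  · rintro (h | ⟨h, hl⟩)
    · exact Or.inl h
    · rw [inter_eq_left.2 hl]
      exact Or.inr ⟨h, hl⟩

lemma card_TD_swap {D l₁ l₂ : Finset ι} (h₁ : l₁ ⊆ D) (h₂ : l₂ ⊆ D) (n₁ : l₁ ≠ ∅) (n₂ : l₂ ≠ ∅)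
    (T : Finset (Finset ι)) :
    (TD D (univ.filter fun l => Equiv.swap l₁ l₂ (l ∩ D) ∈ T)).card = (TD D T).card :=
  card_equiv (Equiv.swap l₁ l₂) fun l => mem_TD_swap h₁ h₂ n₁ n₂ T l

/-- mass of patterns of admissible size that contain `l` -/
noncomputable def cc (β : Finset (Finset ι) → ℝ) (D : Finset ι) (p : ℕ → Prop) [DecidablePred p]
    (l : Finset ι) : ℝ :=
  ∑ T, rho β T * (if p (TD D T).card ∧ l ∈ TD D T then 1 else 0)

lemma rho_nonneg {β : Finset (Finset ι) → ℝ} (h : ∀ T, 0 ≤ β T) (T : Finset (Finset ι)) :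
    0 ≤ rho β T := by
  unfold rho
  split_ifs
  · exact h T
  · exact le_rfl

lemma cc_nonneg {β : Finset (Finset ι) → ℝ} (h : ∀ T, 0 ≤ β T) (D : Finset ι) (p : ℕ → Prop)
    [DecidablePred p] (l : Finset ι) : 0 ≤ cc β D p l :=
  sum_nonneg fun T _ => mul_nonneg (rho_nonneg h T) (by split_ifs <;> norm_num)

lemma cc_symm (hB : LenBSt) {β : (ι → ℝ) → Finset (Finset ι) → ℝ} {L ld : ℝ} {τ : ι → ℝ} {s : ℝ}
    {D Low : Finset ι} (hI : Iface β L ld) (hLow : ∀ x ∈ Low, τ x = s) (hD : ∀ x ∈ D, τ x ≤ s)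
    (p : ℕ → Prop) [DecidablePred p] {l₁ l₂ : Finset ι} (h₁ : l₁ ⊆ D) (h₂ : l₂ ⊆ D)
    (n₁ : l₁ ≠ ∅) (n₂ : l₂ ≠ ∅) (he : l₁ \ Low = l₂ \ Low) :
    cc (β τ) D p l₁ = cc (β τ) D p l₂ := by
  have key := hI.iso τ τ (fun l => Equiv.swap l₁ l₂ (l ∩ D)) (fun l => l ∩ D) (fun U => by
    have h := (hB ι).2.1 τ s D Low l₁ l₂ (U.image fun l => l ∩ D) hLow hD h₁ h₂ he (by
      intro x hx
      obtain ⟨y, _, rfl⟩ := mem_image.1 hx
      exact mem_powerset.2 inter_subset_right)
    rw [image_image] at h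
    exact h)
    (fun S => (if ∅ ∈ S then 1 else 0) * (if p (TD D S).card ∧ l₂ ∈ TD D S then 1 else 0))
  unfold cc
  have e0 : Equiv.swap l₁ l₂ (∅ : Finset ι) = ∅ := (swap_empty n₁ n₂).2 rfl
  refine Eq.trans ?_ (key.trans ?_)
  · refine sum_congr rfl fun T _ => ?_
    simp only [card_TD_swap h₁ h₂ n₁ n₂, mem_TD_swap h₁ h₂ n₁ n₂, Equiv.swap_apply_right,
      mem_filter, mem_univ, true_and, empty_inter, e0, rho]
    split_ifs <;> simp
  · refine sum_congr rfl fun T _ => ?_
    simp only [TD_proj, mem_filter, mem_univ, true_and, empty_inter, rho]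
    split_ifs <;> simp

lemma cc_total {β : Finset (Finset ι) → ℝ} (h : ∀ T, 0 ≤ β T) (D : Finset ι) (p : ℕ → Prop)
    [DecidablePred p] (R : ℕ) (hp : ∀ n, p n → n ≤ R) (S : Finset (Finset ι)) :
    ∑ l ∈ S, cc β D p l ≤ R * ∑ T, rho β T * (if p (TD D T).card then 1 else 0) := by
  unfold cc
  rw [sum_comm, mul_sum]
  refine sum_le_sum fun T _ => ?_
  rw [← mul_sum, mul_left_comm]
  refine mul_le_mul_of_nonneg_left ?_ (rho_nonneg h T)
  by_cases hT : p (TD D T).card
  · simp only [hT, true_and, if_true, mul_one, sum_boole]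
    have : (S.filter fun l => l ∈ TD D T).card ≤ R :=
      (card_le_card fun l hl => (mem_filter.1 hl).2).trans (hp _ hT)
    exact_mod_cast this
  · simp [hT]

end Swap

open Swap in
theorem swap_st (hB : LenBSt) : SwapSt := by
  intro ι _ _ β L ld τ s D Low hI hLD hLow hD
  have hβ : ∀ T, 0 ≤ β τ T := hI.nonneg τ
  refine ⟨fun a R l hne hl hn => ?_, fun E hE R hR => ?_⟩
  · set p : ℕ → Prop := fun n => a < n ∧ n ≤ R with hp
    set S : Finset (Finset ι) := (Low.powerset.erase ∅).image fun e => (l \ Low) ∪ e with hS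
    have hinj : Set.InjOn (fun e => (l \ Low) ∪ e) (Low.powerset.erase ∅ : Finset (Finset ι)) := by
      intro e he e' he' h
      have h1 : e ⊆ Low := mem_powerset.1 (mem_erase.1 (mem_coe.1 he)).2
      have h2 : e' ⊆ Low := mem_powerset.1 (mem_erase.1 (mem_coe.1 he')).2
      ext x
      have hx := Finset.ext_iff.1 h x
      simp only [mem_union, mem_sdiff] at hx
      constructor
      · intro hxe
        rcases hx.1 (Or.inr hxe) with h3 | h3
        · exact absurd (h1 hxe) h3.2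
        · exact h3
      · intro hxe
        rcases hx.2 (Or.inr hxe) with h3 | h3
        · exact absurd (h2 hxe) h3.2
        · exact h3
    have hcard : (S.card : ℝ) = 2 ^ Low.card - 1 := by
      rw [hS, card_image_of_injOn hinj, card_erase_of_mem (empty_mem_powerset _), card_powerset,
        Nat.cast_sub Nat.one_le_two_pow]
      push_cast
      ring
    have hall : ∀ l' ∈ S, cc (β τ) D p l' = cc (β τ) D p l := by
      intro l' hl'
      obtain ⟨e, he, rfl⟩ := mem_image.1 hl'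
      have h1 : e ⊆ Low := mem_powerset.1 (mem_erase.1 he).2
      have h2 : e ≠ ∅ := (mem_erase.1 he).1
      refine cc_symm hB hI hLow hD p (union_subset (sdiff_subset.trans hl) (h1.trans hLD)) hl ?_ hn ?_
      · intro h
        exact h2 (union_eq_empty.1 h).2
      · ext x
        simp only [mem_union, mem_sdiff]
        constructor
        · rintro ⟨h3 | h3, h4⟩
          · exact h3
          · exact absurd (h1 h3) h4
        · intro h3
          exact ⟨Or.inl h3, h3.2⟩
    have ht := cc_total hβ D p R (fun n h => h.2) S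
    rw [sum_congr rfl hall, sum_const, nsmul_eq_mul, hcard] at ht
    have h2 : (2 : ℝ) ≤ 2 ^ Low.card := by
      have := pow_le_pow_right₀ (by norm_num : (1 : ℝ) ≤ 2) (card_pos.2 hne)
      simpa using this
    have hc := cc_nonneg hβ D p l
    change cc (β τ) D p l ≤ 2 * R / 2 ^ Low.card *
      ∑ T, rho (β τ) T * (if p (TD D T).card then 1 else 0)
    rw [div_mul_eq_mul_div, le_div_iff₀ (by positivity)]
    nlinarith
  · set p : ℕ → Prop := fun n => n ≤ R with hp
    set A : Finset (Finset ι) := (D \ E).powerset.erase ∅ with hA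
    set S : Finset (Finset ι) := (A ×ˢ E.powerset).image fun q => q.1 ∪ q.2 with hS
    have hAm : ∀ l ∈ A, l ≠ ∅ ∧ l ⊆ D \ E := fun l hl =>
      ⟨(mem_erase.1 hl).1, mem_powerset.1 (mem_erase.1 hl).2⟩
    have hinj : Set.InjOn (fun q : Finset ι × Finset ι => q.1 ∪ q.2)
        (A ×ˢ E.powerset : Finset (Finset ι × Finset ι)) := by
      rintro ⟨l, e⟩ hq ⟨l', e'⟩ hq' h
      obtain ⟨a1, a2⟩ := mem_product.1 (mem_coe.1 hq)
      obtain ⟨b1, b2⟩ := mem_product.1 (mem_coe.1 hq')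
      have a3 : l ⊆ D \ E := (hAm _ a1).2
      have b3 : l' ⊆ D \ E := (hAm _ b1).2
      have a4 : e ⊆ E := mem_powerset.1 a2
      have b4 : e' ⊆ E := mem_powerset.1 b2
      have hx : ∀ x, x ∈ l ∨ x ∈ e ↔ x ∈ l' ∨ x ∈ e' := fun x => by
        simpa only [mem_union] using Finset.ext_iff.1 h x
      refine Prod.ext (Finset.ext fun x => ?_) (Finset.ext fun x => ?_)
      · have := hx x
        have := @a3 x
        have := @b3 x
        have := @a4 x
        have := @b4 x
        simp only [mem_sdiff] at *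
        tauto
      · have := hx x
        have := @a3 x
        have := @b3 x
        have := @a4 x
        have := @b4 x
        simp only [mem_sdiff] at *
        tauto
    have ht := cc_total hβ D p R (fun n h => h) S
    rw [hS, sum_image hinj, sum_product] at ht
    have hin : ∀ l ∈ A, ∑ e ∈ E.powerset, cc (β τ) D p (l ∪ e) = 2 ^ E.card * cc (β τ) D p l := by
      intro l hl
      obtain ⟨h1, h2⟩ := hAm l hl
      have h3 : l ⊆ D := h2.trans sdiff_subset
      have : ∀ e ∈ E.powerset, cc (β τ) D p (l ∪ e) = cc (β τ) D p l := by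
        intro e he
        have h4 : e ⊆ Low := (mem_powerset.1 he).trans hE
        refine cc_symm hB hI hLow hD p (union_subset h3 (h4.trans hLD)) h3 ?_ h1 ?_
        · intro h
          exact h1 (union_eq_empty.1 h).1
        · rw [union_sdiff_distrib, sdiff_eq_empty_iff_subset.2 h4, union_empty]
      rw [sum_congr rfl this, sum_const, card_powerset, nsmul_eq_mul]
      push_cast
      ring
    simp only at ht
    rw [sum_congr rfl hin, ← mul_sum] at ht
    have hW : Wm (rho (β τ)) (TD D) R = ∑ T, rho (β τ) T * (if p (TD D T).card then 1 else 0) := rfl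
    have hsplit : Wm (rho (β τ)) (TD D) R ≤ fr (β τ) (D \ E) + ∑ l ∈ A, cc (β τ) D p l := by
      unfold fr cc
      rw [sum_comm, hW, Wm, ← sum_add_distrib]
      refine sum_le_sum fun T _ => ?_
      rw [← mul_sum, ← mul_add]
      refine mul_le_mul_of_nonneg_left ?_ (rho_nonneg hβ T)
      have hs : (0 : ℝ) ≤ ∑ l ∈ A, (if p (TD D T).card ∧ l ∈ TD D T then (1 : ℝ) else 0) :=
        sum_nonneg fun l _ => by split_ifs <;> norm_num
      by_cases hT : p (TD D T).card
      · by_cases h1 : (TD (D \ E) T).card ≤ 1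
        · rw [if_pos hT, if_pos h1]
          linarith
        · rw [if_pos hT, if_neg h1, zero_add]
          obtain ⟨l, hl, hn⟩ := exists_mem_ne (not_le.1 h1) ∅
          rcases mem_TD.1 hl with h2 | ⟨h2, h3⟩
          · exact absurd h2 hn
          have hlA : l ∈ A := mem_erase.2 ⟨hn, mem_powerset.2 h3⟩
          have hlT : l ∈ TD D T := mem_TD.2 (Or.inr ⟨h2, h3.trans sdiff_subset⟩)
          have := single_le_sum (f := fun l => if p (TD D T).card ∧ l ∈ TD D T then (1 : ℝ) else 0)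
            (fun l _ => by split_ifs <;> norm_num) hlA
          simpa only [hT, hlT, and_self, if_true] using this
      · rw [if_neg hT]
        have : (0 : ℝ) ≤ if (TD (D \ E) T).card ≤ 1 then 1 else 0 := by split_ifs <;> norm_num
        linarith
    rw [← hW] at ht
    have hW0 : 0 ≤ Wm (rho (β τ)) (TD D) R :=
      sum_nonneg fun T _ => mul_nonneg (rho_nonneg hβ T) (by split_ifs <;> norm_num)
    have hR' : 2 * (R : ℝ) ≤ 2 ^ E.card := by exact_mod_cast hR
    have hpos : (0 : ℝ) < 2 ^ E.card := by positivity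
    have h5 : 2 * ∑ l ∈ A, cc (β τ) D p l ≤ Wm (rho (β τ)) (TD D) R := by
      refine le_of_mul_le_mul_left ?_ hpos
      nlinarith [mul_le_mul_of_nonneg_right hR' hW0]
    linarith

end Pool.Agent.Lib.MP_1b5cbf_lc.Bar
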