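import Pool.Agent.Lib.MP_1b5cbf_lc.Bar.St

/-! One and two leaves of the replica cube. -/

set_option autoImplicit false

namespace Pool.Agent.Lib.MP_1b5cbf_lc.Bar

open Finset

namespace Two

variable {ι : Type} [Fintype ι] [DecidableEq ι]

omit [Fintype ι] in
theorem h9_len_empty (τ : ι → ℝ) : len τ (∅ : Finset (Finset ι)) = 0 := by
  simp [len]

omit [Fintype ι] in
theorem h9_image (b0 : ι) (p q : Finset ι) (U : Finset (Finset ι)) :
    U.image (fun x => if b0 ∈ x then p else q) =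
      (if ∃ x ∈ U, b0 ∉ x then {q} else ∅) ∪ (if ∃ x ∈ U, b0 ∈ x then {p} else ∅) := by
  ext y
  simp only [mem_image, mem_union]
  constructor
  · rintro ⟨x, hx, rfl⟩
    by_cases h : b0 ∈ x
    · right
      rw [if_pos ⟨x, hx, h⟩, if_pos h]
      exact mem_singleton_self _
    · left
      rw [if_pos ⟨x, hx, h⟩, if_neg h]
      exact mem_singleton_self _
  · rintro (h | h)
    · by_cases hA : ∃ x ∈ U, b0 ∉ x
      · rw [if_pos hA, mem_singleton] at h
        obtain ⟨x, hx, hb⟩ := hA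
        exact ⟨x, hx, by rw [if_neg hb, h]⟩
      · rw [if_neg hA] at h
        exact absurd h (notMem_empty _)
    · by_cases hA : ∃ x ∈ U, b0 ∈ x
      · rw [if_pos hA, mem_singleton] at h
        obtain ⟨x, hx, hb⟩ := hA
        exact ⟨x, hx, by rw [if_pos hb, h]⟩
      · rw [if_neg hA] at h
        exact absurd h (notMem_empty _)

/-- transport of functions of two leaves -/
theorem h9_key {β : (ι → ℝ) → Finset (Finset ι) → ℝ} {L ld : ℝ} (h : Iface β L ld) (b0 : ι)
    (h1 : ∀ (τ : ι → ℝ) (l : Finset ι), len τ {l} = 1)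
    (τ τ' : ι → ℝ) (l l' m m' : Finset ι) (hl : len τ {l, l'} = len τ' {m, m'})
    (G : Prop → Prop → ℝ) :
    ∑ T, β τ T * G (l ∈ T) (l' ∈ T) = ∑ T, β τ' T * G (m ∈ T) (m' ∈ T) := by
  have hU : ∀ U : Finset (Finset ι), len τ (U.image fun x => if b0 ∈ x then l' else l) =
      len τ' (U.image fun x => if b0 ∈ x then m' else m) := by
    intro U
    rw [h9_image, h9_image]
    by_cases hA : ∃ x ∈ U, b0 ∉ x <;> by_cases hB : ∃ x ∈ U, b0 ∈ x
    · simp only [if_pos hA, if_pos hB]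
      rw [← insert_eq, ← insert_eq]
      exact hl
    · simp only [if_pos hA, if_neg hB, union_empty, h1]
    · simp only [if_neg hA, if_pos hB, empty_union, h1]
    · simp only [if_neg hA, if_neg hB, empty_union, h9_len_empty]
  have := h.iso τ τ' _ _ hU (fun S => G (∅ ∈ S) (({b0} : Finset ι) ∈ S))
  simpa using this

theorem h9_sg (β : (ι → ℝ) → Finset (Finset ι) → ℝ) (b0 : ι) (t : ℝ) :
    sg β b0 t = ∑ T, β (fun _ => t) T * (if ∅ ∈ T ∧ ({b0} : Finset ι) ∉ T then 1 else 0) := by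
  unfold sg rho
  refine sum_congr rfl fun T _ => ?_
  by_cases h1 : ∅ ∈ T <;> by_cases h2 : ({b0} : Finset ι) ∈ T <;> simp [h1, h2]

theorem h9_mass {β : (ι → ℝ) → Finset (Finset ι) → ℝ} {L ld : ℝ} (h : Iface β L ld) (τ : ι → ℝ) :
    ∑ T, β τ T * (if ∅ ∈ T then 1 else 0) = L := by
  rw [← h.mass τ]
  refine sum_congr rfl fun T _ => ?_
  unfold rho
  by_cases h1 : ∅ ∈ T <;> simp [h1]

end Two

open Two in
theorem two_st (hB : LenBSt) : TwoSt := by
  classical
  intro ι _ _ β L ld b0 b1 h hne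
  obtain ⟨-, -, -, h4, h1, h6⟩ := hB ι
  have key : ∀ (τ τ' : ι → ℝ) (l l' m m' : Finset ι), len τ {l, l'} = len τ' {m, m'} →
      ∑ T, β τ T * (if l ∈ T ∧ l' ∉ T then (1 : ℝ) else 0) =
        ∑ T, β τ' T * (if m ∈ T ∧ m' ∉ T then (1 : ℝ) else 0) := by
    intro τ τ' l l' m m' hl
    have := h9_key h b0 h1 τ τ' l l' m m' hl
      (fun P Q => @ite ℝ (P ∧ ¬Q) (Classical.propDecidable _) 1 0)
    convert this
  have two : ∀ (τ : ι → ℝ) (l l' : Finset ι) (b : ι), b ∈ symmDiff l l' →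
      (∀ b' ∈ symmDiff l l', τ b ≤ τ b') →
      ∑ T, β τ T * (if l ∈ T ∧ l' ∉ T then (1 : ℝ) else 0) = sg β b0 (τ b) := by
    intro τ l l' b hb hm
    rw [h9_sg]
    exact key τ _ l l' ∅ {b0} (h4 τ l l' b b0 hb hm)
  refine ⟨?_, two, ?_, ?_, ?_, ?_⟩
  · intro τ l
    rw [← h9_mass h τ]
    have hl : len τ {l, l} = len τ {∅, ∅} := by
      rw [pair_eq_singleton, pair_eq_singleton, h1, h1]
    have := h9_key h b0 h1 τ τ l l ∅ ∅ hl
      (fun P _ => @ite ℝ P (Classical.propDecidable _) 1 0)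
    convert this
  · have : sg β b0 = fun t =>
        ∑ T, β (fun _ => t) T * (if ∅ ∈ T ∧ ({b0} : Finset ι) ∉ T then (1 : ℝ) else 0) :=
      funext (h9_sg β b0)
    rw [this]
    refine continuous_finsetSum _ fun T _ => Continuous.mul ?_ continuous_const
    exact (h.cont T).comp (continuous_pi fun _ => continuous_id)
  · rw [h9_sg, key (fun _ => 1) (fun _ => 1) ∅ {b0} ∅ ∅
      (by rw [h6 _ (insert_nonempty _ _), h6 _ (insert_nonempty _ _)])]
    simp
  · intro t
    rw [h9_sg]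
    constructor
    · refine sum_nonneg fun T _ => mul_nonneg (h.nonneg _ _) ?_
      split_ifs <;> norm_num
    · rw [← h9_mass h (fun _ => t)]
      refine sum_le_sum fun T _ => mul_le_mul_of_nonneg_left ?_ (h.nonneg _ _)
      by_cases h1 : ∅ ∈ T <;> by_cases h2 : ({b0} : Finset ι) ∈ T <;> simp [h1, h2]
  · intro t t' htt
    set τ : ι → ℝ := fun x => if x = b0 then t else t' with hτ
    have e0 : τ b0 = t := by simp [hτ]
    have e1 : τ b1 = t' := by simp [hτ, hne.symm]
    have hmin : ∀ x, τ b0 ≤ τ x := by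
      intro x
      rw [e0]
      by_cases hx : x = b0
      · simp [hτ, hx]
      · simpa [hτ, hx] using htt
    have a1 := two τ ∅ {b1} b1 (by simp [mem_symmDiff]) (by
      intro b' hb'
      have : b' = b1 := by simpa [mem_symmDiff] using hb'
      rw [this])
    have a2 := two τ ∅ {b0} b0 (by simp [mem_symmDiff]) (fun b' _ => hmin b')
    have a3 := two τ {b0} {b1} b0 (by simp [mem_symmDiff, hne]) (fun b' _ => hmin b')
    rw [e1] at a1
    rw [e0] at a2 a3
    have : sg β b0 t' ≤ sg β b0 t + sg β b0 t := by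
      nth_rewrite 1 [← a2]
      rw [← a1, ← a3, ← sum_add_distrib]
      refine sum_le_sum fun T _ => ?_
      rw [← mul_add]
      refine mul_le_mul_of_nonneg_left ?_ (h.nonneg _ _)
      by_cases c1 : ∅ ∈ T <;> by_cases c2 : ({b0} : Finset ι) ∈ T <;>
        by_cases c3 : ({b1} : Finset ι) ∈ T <;> simp [c1, c2, c3]
    linarith

end Pool.Agent.Lib.MP_1b5cbf_lc.Bar
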