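import Pool.Agent.Lib.MP_1b5cbf_lc.Bar.St

/-! Variance of the pattern counts and of the output size. -/

set_option autoImplicit false
set_option linter.unusedSectionVars false

namespace Pool.Agent.Lib.MP_1b5cbf_lc.Bar

open Finset

namespace Var

section Gen
variable {P X : Type} [Fintype P] [DecidableEq P] [Fintype X]

lemma prod_update_mul (ν : X → ℝ) (w : P → X) (e : P) (a : X) :
    (∏ i, ν (Function.update w e a i)) * ν (w e) = (∏ i, ν (w i)) * ν a := by
  rw [← Finset.mul_prod_erase univ (fun i => ν (Function.update w e a i)) (mem_univ e),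
    ← Finset.mul_prod_erase univ (fun i => ν (w i)) (mem_univ e)]
  have : ∏ i ∈ univ.erase e, ν (Function.update w e a i) = ∏ i ∈ univ.erase e, ν (w i) := by
    refine Finset.prod_congr rfl fun i hi => ?_
    rw [Function.update_of_ne (Finset.ne_of_mem_erase hi)]
  rw [this, Function.update_self]
  ring

/-- the exchange involution -/
def exch (e : P) : ((P → X) × X) ≃ ((P → X) × X) where
  toFun p := (Function.update p.1 e p.2, p.1 e)
  invFun p := (Function.update p.1 e p.2, p.1 e)
  left_inv p := by simp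
  right_inv p := by simp

lemma PE_resample (ν : X → ℝ) (h1 : ∑ a, ν a = 1) (e : P) (f : (P → X) → ℝ) :
    PE ν f = PE ν fun w => ∑ a, ν a * f (Function.update w e a) := by
  unfold PE
  have h := (exch (X := X) e).sum_comp
    (fun q => (∏ i, ν (q.1 i)) * (ν q.2 * f q.1))
  have l : ∑ w : P → X, (∏ i, ν (w i)) * f w
      = ∑ q : (P → X) × X, (∏ i, ν (q.1 i)) * (ν q.2 * f q.1) := by
    rw [Fintype.sum_prod_type]
    refine Finset.sum_congr rfl fun w _ => ?_
    dsimp only
    rw [← Finset.mul_sum, ← Finset.sum_mul, h1, one_mul]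
  rw [l, ← h, Fintype.sum_prod_type]
  refine Finset.sum_congr rfl fun w _ => ?_
  rw [Finset.mul_sum]
  refine Finset.sum_congr rfl fun a _ => ?_
  simp only [exch, Equiv.coe_fn_mk]
  rw [← mul_assoc, prod_update_mul, mul_assoc]

lemma PE_mono (ν : X → ℝ) (h0 : ∀ a, 0 ≤ ν a) {f g : (P → X) → ℝ} (h : ∀ w, f w ≤ g w) :
    PE ν f ≤ PE ν g :=
  Finset.sum_le_sum fun w _ =>
    mul_le_mul_of_nonneg_left (h w) (Finset.prod_nonneg fun _ _ => h0 _)

lemma PE_nonneg (ν : X → ℝ) (h0 : ∀ a, 0 ≤ ν a) {f : (P → X) → ℝ} (h : ∀ w, 0 ≤ f w) :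
    0 ≤ PE ν f :=
  Finset.sum_nonneg fun w _ => mul_nonneg (Finset.prod_nonneg fun _ _ => h0 _) (h w)

lemma PE_const_mul (ν : X → ℝ) (c : ℝ) (f : (P → X) → ℝ) :
    PE ν (fun w => c * f w) = c * PE ν f := by
  unfold PE
  rw [Finset.mul_sum]
  exact Finset.sum_congr rfl fun w _ => by ring

lemma PE_sum {K : Type} (s : Finset K) (ν : X → ℝ) (f : K → (P → X) → ℝ) :
    PE ν (fun w => ∑ k ∈ s, f k w) = ∑ k ∈ s, PE ν (f k) := by
  unfold PE
  rw [Finset.sum_comm]
  exact Finset.sum_congr rfl fun w _ => Finset.mul_sum _ _ _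

end Gen

/-- size of the change caused by switching the pair `e` -/
noncomputable def dl {n : ℕ} (B : (Pr n → Bool) → Finset (Fin n)) (e : Pr n) (g : Pr n → Bool) : ℝ :=
  ((symmDiff (B (Function.update g e true)) (B (Function.update g e false))).card : ℝ)

/-- probability that a fresh bit differs -/
def hh (p : ℝ) (b : Bool) : ℝ := if b then 1 - p else p

lemma bw_nonneg {p : ℝ} (h0 : 0 ≤ p) (h1 : p < 1) (b : Bool) : 0 ≤ bw p b := by
  cases b
  · simp only [bw, Bool.false_eq_true, if_false]; linarith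
  · simpa [bw] using h0

lemma bw_sum (p : ℝ) : ∑ b, bw p b = 1 := by
  simp [bw]

lemma dl_update {n : ℕ} (B : (Pr n → Bool) → Finset (Fin n)) (e : Pr n) (g : Pr n → Bool)
    (b : Bool) : dl B e (Function.update g e b) = dl B e g := by
  unfold dl
  simp only [Function.update_idem]

lemma PE_hh {n : ℕ} {p : ℝ} (h0 : 0 ≤ p) (h1 : p < 1) (B : (Pr n → Bool) → Finset (Fin n))
    (e : Pr n) :
    PE (bw p) (fun g => hh p (g e) * dl B e g ^ 2) ≤ 2 * p * PE (bw p) fun g => dl B e g ^ 2 := by
  rw [PE_resample (bw p) (bw_sum p) e, ← PE_const_mul]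
  refine PE_mono _ (bw_nonneg h0 h1) fun g => ?_
  simp only [Function.update_self, dl_update, Fintype.sum_bool, bw, hh, if_true,
    Bool.false_eq_true, if_false]
  have h := sq_nonneg (dl B e g)
  nlinarith [mul_nonneg (mul_nonneg h0 h0) h]

lemma sd_update {n : ℕ} (B : (Pr n → Bool) → Finset (Fin n)) (e : Pr n) (g : Pr n → Bool)
    (b : Bool) :
    ((symmDiff (B g) (B (Function.update g e b))).card : ℝ)
      = (if g e = b then 0 else 1) * dl B e g := by
  by_cases h : g e = b
  · subst h
    simp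
  · rw [if_neg h, one_mul]
    unfold dl
    have hg : g = Function.update g e (g e) := (Function.update_eq_self e g).symm
    cases b
    · have : g e = true := by simpa using h
      rw [this] at hg
      rw [← hg]
    · have : g e = false := by simpa using h
      rw [this] at hg
      rw [← hg, symmDiff_comm]

lemma abs_card_sub {V : Type} [DecidableEq V] (A A' : Finset V) :
    |(A.card : ℝ) - (A'.card : ℝ)| ≤ ((symmDiff A A').card : ℝ) := by
  have h1 : A ⊆ A' ∪ symmDiff A A' := by
    intro x hx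
    by_cases h : x ∈ A' <;> simp [Finset.mem_symmDiff, hx, h]
  have h2 : A' ⊆ A ∪ symmDiff A A' := by
    intro x hx
    by_cases h : x ∈ A <;> simp [Finset.mem_symmDiff, hx, h]
  have k1 : (A.card : ℝ) ≤ A'.card + (symmDiff A A').card := by
    exact_mod_cast (Finset.card_le_card h1).trans (Finset.card_union_le _ _)
  have k2 : (A'.card : ℝ) ≤ A.card + (symmDiff A A').card := by
    exact_mod_cast (Finset.card_le_card h2).trans (Finset.card_union_le _ _)
  rw [abs_le]
  constructor <;> linarith

section Pat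
variable {ι : Type} [Fintype ι] [DecidableEq ι]

lemma Gl_update {n : ℕ} (ω : Pr n → Finset (Finset ι)) (e : Pr n) (x : Finset (Finset ι))
    (l : Finset ι) :
    Gl (Function.update ω e x) l = Function.update (Gl ω l) e (decide (l ∈ x)) := by
  funext e'
  by_cases h : e' = e
  · subst h
    simp [Gl]
  · simp [Gl, Function.update_of_ne h]

lemma cnt_diff {n : ℕ} (B : (Pr n → Bool) → Finset (Fin n)) (T : Finset (Finset ι))
    (ω ω' : Pr n → Finset (Finset ι)) :
    |(cnt B T ω : ℝ) - (cnt B T ω' : ℝ)|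
      ≤ ∑ l : Finset ι, ((symmDiff (B (Gl ω l)) (B (Gl ω' l))).card : ℝ) := by
  unfold cnt
  refine (abs_card_sub _ _).trans ?_
  have hsub : symmDiff (univ.filter fun v => Pat B ω v = T) (univ.filter fun v => Pat B ω' v = T)
      ⊆ (univ : Finset (Finset ι)).biUnion fun l => symmDiff (B (Gl ω l)) (B (Gl ω' l)) := by
    intro v hv
    by_contra hc
    have hall : Pat B ω v = Pat B ω' v := by
      unfold Pat
      refine Finset.filter_congr fun l _ => ?_
      have : v ∉ symmDiff (B (Gl ω l)) (B (Gl ω' l)) := fun hl =>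
        hc (Finset.mem_biUnion.mpr ⟨l, mem_univ _, hl⟩)
      rw [Finset.mem_symmDiff] at this
      tauto
    rw [Finset.mem_symmDiff] at hv
    simp only [Finset.mem_filter, mem_univ, true_and, hall] at hv
    tauto
  exact_mod_cast (Finset.card_le_card hsub).trans Finset.card_biUnion_le

lemma cnt_sq {n : ℕ} (B : (Pr n → Bool) → Finset (Fin n)) (T : Finset (Finset ι))
    (ω : Pr n → Finset (Finset ι)) (e : Pr n) (x : Finset (Finset ι)) :
    ((cnt B T ω : ℝ) - (cnt B T (Function.update ω e x) : ℝ)) ^ 2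
      ≤ (2 : ℝ) ^ Fintype.card ι * ∑ l : Finset ι,
        (if Gl ω l e = decide (l ∈ x) then 0 else 1) * dl B e (Gl ω l) ^ 2 := by
  rw [← sq_abs]
  refine (pow_le_pow_left₀ (abs_nonneg _) (cnt_diff B T ω _) 2).trans ?_
  refine sq_sum_le_card_mul_sum_sq.trans (le_of_eq ?_)
  rw [Finset.card_univ, Fintype.card_finset]
  push_cast
  congr 1
  refine Finset.sum_congr rfl fun l _ => ?_
  rw [Gl_update, sd_update]
  split_ifs <;> simp

end Pat

end Var

theorem var_st (hB : LenBSt) (hN : NuSt) (hP : PESt) (hS : SoftSt) : VarSt := by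
  intro ι _ _ n p B h0 h1
  have hinf : inflB p B = ∑ e : Pr n, PE (bw p) fun g => Var.dl B e g ^ 2 := rfl
  constructor
  · intro τ T
    obtain ⟨hn0, hv, -⟩ := hN.1 ι p τ h0 h1
    have hsum : ∑ S, nu p τ S = 1 := by
      have := hv ∅
      simpa [len] using this
    have hout : ∀ l : Finset ι, ∑ S, nu p τ S * (if l ∈ S then 0 else 1) = 1 - p := by
      intro l
      have := hv {l}
      rw [(hB ι).2.2.2.2.1 τ l, Real.rpow_one] at this
      rw [← this]
      refine Finset.sum_congr rfl fun S _ => ?_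
      by_cases h : l ∈ S <;> simp [h]
    have hin : ∀ l : Finset ι, ∑ S, nu p τ S * (if l ∈ S then 1 else 0) = p := by
      intro l
      have e : ∑ S, nu p τ S * (if l ∈ S then 1 else 0) + ∑ S, nu p τ S * (if l ∈ S then 0 else 1)
          = ∑ S, nu p τ S := by
        rw [← Finset.sum_add_distrib]
        refine Finset.sum_congr rfl fun S _ => ?_
        by_cases h : l ∈ S <;> simp [h]
      have := hout l
      linarith
    have hhh : ∀ (l : Finset ι) (b : Bool),
        ∑ S, nu p τ S * (if b = decide (l ∈ S) then 0 else 1) = Var.hh p b := by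
      intro l b
      cases b
      · have : Var.hh p false = p := by simp [Var.hh]
        rw [this]
        refine Eq.trans ?_ (hin l)
        refine Finset.sum_congr rfl fun S _ => ?_
        by_cases h : l ∈ S <;> simp [h]
      · have : Var.hh p true = 1 - p := by simp [Var.hh]
        rw [this]
        refine Eq.trans ?_ (hout l)
        refine Finset.sum_congr rfl fun S _ => ?_
        by_cases h : l ∈ S <;> simp [h]
    refine ((hP (Pr n) _ (nu p τ)).2.2 hn0 hsum fun ω => (cnt B T ω : ℝ)).trans ?_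
    rw [hinf, Finset.mul_sum]
    refine Finset.sum_le_sum fun e _ => ?_
    have step : PE (nu p τ) (fun ω : Pr n → Finset (Finset ι) => ∑ x, nu p τ x *
          ((cnt B T ω : ℝ) - (cnt B T (Function.update ω e x) : ℝ)) ^ 2)
        ≤ PE (nu p τ) (fun ω : Pr n → Finset (Finset ι) => (2 : ℝ) ^ Fintype.card ι *
          ∑ l : Finset ι, Var.hh p (Gl ω l e) * Var.dl B e (Gl ω l) ^ 2) := by
      refine Var.PE_mono _ hn0 fun ω => ?_
      refine (Finset.sum_le_sum fun x _ =>
        mul_le_mul_of_nonneg_left (Var.cnt_sq B T ω e x) (hn0 x)).trans (le_of_eq ?_)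
      simp only [Finset.mul_sum]
      rw [Finset.sum_comm]
      refine Finset.sum_congr rfl fun l _ => ?_
      rw [← hhh l (Gl ω l e), Finset.sum_mul, Finset.mul_sum]
      exact Finset.sum_congr rfl fun x _ => by ring
    refine step.trans ?_
    rw [Var.PE_const_mul, Var.PE_sum]
    have each : ∀ l : Finset ι,
        PE (nu p τ) (fun ω : Pr n → Finset (Finset ι) =>
          Var.hh p (Gl ω l e) * Var.dl B e (Gl ω l) ^ 2)
          ≤ 2 * p * PE (bw p) fun g => Var.dl B e g ^ 2 := by
      intro l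
      have := (hS ι n p B h0 h1).1 τ l (fun g => Var.hh p (g e) * Var.dl B e g ^ 2)
      rw [this]
      exact Var.PE_hh h0 h1 B e
    refine (mul_le_mul_of_nonneg_left (Finset.sum_le_sum fun l _ => each l)
      (by positivity)).trans (le_of_eq ?_)
    rw [Finset.sum_const, Finset.card_univ, Fintype.card_finset, nsmul_eq_mul]
    push_cast
    ring
  · refine ((hP (Pr n) _ (bw p)).2.2 (Var.bw_nonneg h0 h1) (Var.bw_sum p)
      fun g => ((B g).card : ℝ)).trans ?_
    rw [hinf, Finset.mul_sum]
    refine Finset.sum_le_sum fun e _ => ?_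
    refine le_trans (Var.PE_mono _ (Var.bw_nonneg h0 h1) fun g => ?_) (Var.PE_hh h0 h1 B e)
    have hx : ∀ x : Bool, (((B g).card : ℝ) - ((B (Function.update g e x)).card : ℝ)) ^ 2
        ≤ (if g e = x then 0 else 1) * Var.dl B e g ^ 2 := by
      intro x
      rw [← sq_abs]
      refine (pow_le_pow_left₀ (abs_nonneg _) (Var.abs_card_sub _ _) 2).trans (le_of_eq ?_)
      rw [Var.sd_update]
      split_ifs <;> simp
    refine (Finset.sum_le_sum fun x _ =>
      mul_le_mul_of_nonneg_left (hx x) (Var.bw_nonneg h0 h1 x)).trans (le_of_eq ?_)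
    cases hg : g e <;> simp [bw, Var.hh]

end Pool.Agent.Lib.MP_1b5cbf_lc.Bar
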