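import Pool.Agent.Lib.MP_1b5cbf_lc.Bar.Apr
import Pool.Agent.Lib.MP_1b5cbf_lc.Bar.Code
import Pool.Agent.Lib.MP_1b5cbf_lc.Bar.ColM
import Pool.Agent.Lib.MP_1b5cbf_lc.Bar.Core
import Pool.Agent.Lib.MP_1b5cbf_lc.Bar.FM
import Pool.Agent.Lib.MP_1b5cbf_lc.Bar.GnM
import Pool.Agent.Lib.MP_1b5cbf_lc.Bar.Ineq
import Pool.Agent.Lib.MP_1b5cbf_lc.Bar.K0
import Pool.Agent.Lib.MP_1b5cbf_lc.Bar.KB
import Pool.Agent.Lib.MP_1b5cbf_lc.Bar.KP
import Pool.Agent.Lib.MP_1b5cbf_lc.Bar.KU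
import Pool.Agent.Lib.MP_1b5cbf_lc.Bar.LenA
import Pool.Agent.Lib.MP_1b5cbf_lc.Bar.LenB
import Pool.Agent.Lib.MP_1b5cbf_lc.Bar.MainB
import Pool.Agent.Lib.MP_1b5cbf_lc.Bar.Net
import Pool.Agent.Lib.MP_1b5cbf_lc.Bar.Nu
import Pool.Agent.Lib.MP_1b5cbf_lc.Bar.PE
import Pool.Agent.Lib.MP_1b5cbf_lc.Bar.Pos
import Pool.Agent.Lib.MP_1b5cbf_lc.Bar.Root
import Pool.Agent.Lib.MP_1b5cbf_lc.Bar.Soft
import Pool.Agent.Lib.MP_1b5cbf_lc.Bar.StCost
import Pool.Agent.Lib.MP_1b5cbf_lc.Bar.StInd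
import Pool.Agent.Lib.MP_1b5cbf_lc.Bar.StIso
import Pool.Agent.Lib.MP_1b5cbf_lc.Bar.StKill
import Pool.Agent.Lib.MP_1b5cbf_lc.Bar.StU
import Pool.Agent.Lib.MP_1b5cbf_lc.Bar.Swap
import Pool.Agent.Lib.MP_1b5cbf_lc.Bar.Two
import Pool.Agent.Lib.MP_1b5cbf_lc.Bar.Var

/-! Assembly of all parts. -/

set_option autoImplicit false

namespace Pool.Agent.Lib.MP_1b5cbf_lc.Bar

theorem all_KUSt : KUSt := ku_st
theorem all_K0St : K0St := k0_st all_KUSt
theorem all_KBSt : KBSt := kb_st all_KUSt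
theorem all_KPSt : KPSt := kp_st all_KUSt
theorem all_LenBSt : LenBSt := lenB_st
theorem all_TwoSt : TwoSt := two_st all_LenBSt
theorem all_CodeSt : CodeSt := code_st
theorem all_RootSt : RootSt := root_st all_LenBSt
theorem all_SwapSt : SwapSt := swap_st all_LenBSt
theorem all_AprSt : AprSt := apr_st all_LenBSt all_TwoSt
theorem all_StUSt : StUSt := stU_st all_TwoSt all_SwapSt all_AprSt
theorem all_StCostSt : StCostSt := stCost_st all_TwoSt
theorem all_StIsoSt : StIsoSt := stIso_st all_TwoSt all_AprSt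
theorem all_PESt : PESt := pe_st
theorem all_LenASt : LenASt := lenA_st
theorem all_NetSt : NetSt := net_st all_LenASt all_TwoSt all_CodeSt all_RootSt
theorem all_StKillSt : StKillSt := stKill_st all_K0St all_KBSt all_KPSt all_TwoSt all_RootSt all_NetSt all_SwapSt all_AprSt all_StUSt all_StCostSt
theorem all_StIndSt : StIndSt := stind_st all_KUSt all_TwoSt all_NetSt all_StUSt all_StCostSt all_StIsoSt all_StKillSt
theorem all_CoreSt : CoreSt := core_st all_TwoSt all_StIndSt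
theorem all_NuSt : NuSt := nu_st all_LenASt
theorem all_SoftSt : SoftSt := soft_st all_LenBSt all_NuSt all_PESt
theorem all_VarSt : VarSt := var_st all_LenBSt all_NuSt all_PESt all_SoftSt
theorem all_FMSt : FMSt := fm_st all_LenASt all_NuSt all_PESt
theorem all_PosSt : PosSt := pos_st all_LenASt all_NuSt all_PESt
theorem all_IneqSt : IneqSt := ineq_st all_LenASt all_NuSt all_SoftSt all_VarSt all_FMSt all_PosSt
theorem all_MainBSt : MainBSt := mainB_st all_CoreSt all_IneqSt all_VarSt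
theorem all_MainMSt : MainMSt := mainM_st all_MainBSt all_PESt
theorem all_ColMSt : ColMSt := colM_st all_MainMSt

end Pool.Agent.Lib.MP_1b5cbf_lc.Bar
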