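import Pool.Agent.Lib.MP_1b5cbf_lc.Bar.Calc

/-! Cleaning a colour class: cut large degrees, drop vertices in conflict. -/

set_option autoImplicit false

namespace Pool.Agent.Lib.MP_1b5cbf_lc.Bar.Clean

open Finset

section Graph
variable {n : ℕ}

open Classical in
/-- neighbours -/
noncomputable def nb (G : SimpleGraph (Fin n)) (v : Fin n) : Finset (Fin n) :=
  univ.filter fun u => G.Adj v u

/-- the vertices of `S` of degree at most `D` -/
noncomputable def low (D : ℕ) (S : Finset (Fin n)) (G : SimpleGraph (Fin n)) : Finset (Fin n) :=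
  S.filter fun v => (nb G v).card ≤ D

open Classical in
/-- the vertices of `low` without neighbour in `low` -/
noncomputable def cl (D : ℕ) (S : Finset (Fin n)) (G : SimpleGraph (Fin n)) : Finset (Fin n) :=
  (low D S G).filter fun v => ∀ u ∈ low D S G, ¬G.Adj v u

theorem mem_nb {G : SimpleGraph (Fin n)} {v u : Fin n} : u ∈ nb G v ↔ G.Adj v u := by
  simp [nb]

theorem mem_low {D : ℕ} {S : Finset (Fin n)} {G : SimpleGraph (Fin n)} {v : Fin n} :
    v ∈ low D S G ↔ v ∈ S ∧ (nb G v).card ≤ D := by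
  simp [low]

theorem mem_cl {D : ℕ} {S : Finset (Fin n)} {G : SimpleGraph (Fin n)} {v : Fin n} :
    v ∈ cl D S G ↔ v ∈ low D S G ∧ ∀ u ∈ low D S G, ¬G.Adj v u := by
  simp only [cl, mem_filter]

theorem cl_indep (D : ℕ) (S : Finset (Fin n)) (G : SimpleGraph (Fin n)) {v u : Fin n}
    (hv : v ∈ cl D S G) (hu : u ∈ cl D S G) : ¬G.Adj v u :=
  (mem_cl.1 hv).2 u (mem_cl.1 hu).1

theorem cl_half (D : ℕ) (S T Y : Finset (Fin n)) (G H : SimpleGraph (Fin n))
    (hY : ∀ v, v ∉ Y → (∀ u, G.Adj v u ↔ H.Adj v u) ∧ (v ∈ S ↔ v ∈ T)) :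
    (cl D S G \ cl D T H).card ≤ (D + 1) * Y.card := by
  have hlow : ∀ v, v ∉ Y → (v ∈ low D S G ↔ v ∈ low D T H) := by
    intro v hv
    have e : nb G v = nb H v := by
      ext u; rw [mem_nb, mem_nb]; exact (hY v hv).1 u
    rw [mem_low, mem_low, e, (hY v hv).2]
  have hsub : cl D S G \ cl D T H ⊆
      Y ∪ (Y.filter fun u => (nb H u).card ≤ D).biUnion fun u => nb H u := by
    intro v hv
    obtain ⟨h1, h2⟩ := mem_sdiff.1 hv
    by_cases hvY : v ∈ Y
    · exact mem_union_left _ hvY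
    refine mem_union_right _ ?_
    obtain ⟨h3, h4⟩ := mem_cl.1 h1
    have h5 : ∃ u ∈ low D T H, H.Adj v u := by
      by_contra hc
      exact h2 (mem_cl.2 ⟨(hlow v hvY).1 h3, fun u hu ha => hc ⟨u, hu, ha⟩⟩)
    obtain ⟨u, hu, ha⟩ := h5
    have huY : u ∈ Y := by
      by_contra hc
      exact h4 u ((hlow u hc).2 hu) (((hY v hvY).1 u).2 ha)
    exact mem_biUnion.2 ⟨u, mem_filter.2 ⟨huY, (mem_low.1 hu).2⟩, mem_nb.2 ha.symm⟩
  have h6 : ((Y.filter fun u => (nb H u).card ≤ D).biUnion fun u => nb H u).card ≤ Y.card * D :=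
    (card_biUnion_le_card_mul _ _ D fun u hu => (mem_filter.1 hu).2).trans
      (Nat.mul_le_mul_right _ (card_filter_le _ _))
  have h7 := (card_le_card hsub).trans (card_union_le _ _)
  nlinarith

theorem move_Z (G H : SimpleGraph (Fin n)) (h0 : G.edgeSet.ncard = H.edgeSet.ncard)
    (h1 : (G.edgeSet \ H.edgeSet).ncard = 1) :
    ∃ Z : Finset (Fin n), Z.card ≤ 4 ∧ ∀ v, v ∉ Z → ∀ u, G.Adj v u ↔ H.Adj v u := by
  have h2 : (H.edgeSet \ G.edgeSet).ncard = 1 := by
    have a := Set.ncard_inter_add_ncard_sdiff_eq_ncard G.edgeSet H.edgeSet (Set.toFinite _)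
    have b := Set.ncard_inter_add_ncard_sdiff_eq_ncard H.edgeSet G.edgeSet (Set.toFinite _)
    rw [Set.inter_comm] at b
    omega
  obtain ⟨e1, he1⟩ := Set.ncard_eq_one.1 h1
  obtain ⟨e2, he2⟩ := Set.ncard_eq_one.1 h2
  induction e1 using Sym2.ind with
  | _ a b =>
  induction e2 using Sym2.ind with
  | _ c d =>
  refine ⟨{a, b, c, d}, card_le_four, fun v hv u => ?_⟩
  simp only [mem_insert, mem_singleton, not_or] at hv
  constructor
  · intro h
    by_contra hc
    have : s(v, u) ∈ G.edgeSet \ H.edgeSet := ⟨h, hc⟩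
    rw [he1, Set.mem_singleton_iff, Sym2.eq_iff] at this
    tauto
  · intro h
    by_contra hc
    have : s(v, u) ∈ H.edgeSet \ G.edgeSet := ⟨h, hc⟩
    rw [he2, Set.mem_singleton_iff, Sym2.eq_iff] at this
    tauto

theorem cl_move (D : ℕ) (S T X : Finset (Fin n)) (G H : SimpleGraph (Fin n))
    (h0 : G.edgeSet.ncard = H.edgeSet.ncard) (h1 : (G.edgeSet \ H.edgeSet).ncard = 1)
    (hX : ∀ v, v ∉ X → (v ∈ S ↔ v ∈ T)) :
    (symmDiff (cl D S G) (cl D T H)).card ≤ 2 * (D + 1) * (X.card + 4) := by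
  obtain ⟨Z, hZ, hZ'⟩ := move_Z G H h0 h1
  have hY : ∀ v, v ∉ X ∪ Z → (∀ u, G.Adj v u ↔ H.Adj v u) ∧ (v ∈ S ↔ v ∈ T) := fun v hv =>
    ⟨hZ' v fun h => hv (mem_union_right _ h), hX v fun h => hv (mem_union_left _ h)⟩
  have a := cl_half D S T (X ∪ Z) G H hY
  have b := cl_half D T S (X ∪ Z) H G fun v hv => ⟨fun u => ((hY v hv).1 u).symm, (hY v hv).2.symm⟩
  have c : (X ∪ Z).card ≤ X.card + 4 := (card_union_le _ _).trans (by omega)
  have d : (symmDiff (cl D S G) (cl D T H)).card ≤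
      (cl D S G \ cl D T H).card + (cl D T H \ cl D S G).card := by
    rw [symmDiff_def]
    exact card_union_le _ _
  have e := Nat.mul_le_mul_left (D + 1) c
  nlinarith

theorem high_card (D : ℕ) (G : SimpleGraph (Fin n)) :
    (univ.filter fun v => D < (nb G v).card).card * D ≤ 2 * G.edgeSet.ncard := by
  classical
  have h1 : ∑ v, (nb G v).card = 2 * G.edgeSet.ncard := by
    have := G.sum_degrees_eq_twice_card_edges
    rw [← SimpleGraph.coe_edgeFinset, Set.ncard_coe_finset, ← this]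
    refine sum_congr rfl fun v _ => ?_
    rw [← SimpleGraph.card_neighborFinset_eq_degree]
    congr 1
    ext u
    rw [mem_nb, SimpleGraph.mem_neighborFinset]
  rw [← h1]
  calc (univ.filter fun v => D < (nb G v).card).card * D
      = ∑ _v ∈ univ.filter fun v => D < (nb G v).card, D := by rw [sum_const, smul_eq_mul]
    _ ≤ ∑ v ∈ univ.filter fun v => D < (nb G v).card, (nb G v).card :=
        sum_le_sum fun v hv => (mem_filter.1 hv).2.le
    _ ≤ ∑ v, (nb G v).card := sum_le_sum_of_subset (filter_subset _ _)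

theorem cl_size (D : ℕ) (S : Finset (Fin n)) (G : SimpleGraph (Fin n)) :
    Set.ncard {v | v ∈ S ∧ ∀ u, G.Adj v u → u ∉ S} ≤
      (cl D S G).card + (univ.filter fun v => D < (nb G v).card).card := by
  refine le_trans ?_ (card_union_le _ _)
  rw [← Set.ncard_coe_finset]
  refine Set.ncard_le_ncard ?_ (Set.toFinite _)
  rintro v ⟨h1, h2⟩
  rw [mem_coe, mem_union]
  by_cases h : D < (nb G v).card
  · exact Or.inr (mem_filter.2 ⟨mem_univ v, h⟩)
  · exact Or.inl (mem_cl.2 ⟨mem_low.2 ⟨h1, not_lt.1 h⟩, fun u hu ha => h2 u ha (mem_low.1 hu).1⟩)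

end Graph

open Real

theorem calc2 (C d0 : ℝ) : ∃ (C' : ℝ) (k0 : ℕ), 3 ≤ k0 ∧ ∀ k : ℕ, k0 ≤ k →
    0 < log (log k) / log k ∧ ∀ d : ℝ, k * (log k + C' * log (log k)) ≤ d + 1 →
      d0 ≤ d ∧ 2 ≤ d ∧ (log d + C * log (log d)) * k ≤ (1 - 2 * (log (log k) / log k)) * d := by
  obtain ⟨C', k0, hC', hk0, h⟩ := Calc.calc_k C d0
  refine ⟨7 + 4 * C', max k0 ⌈exp (exp 10)⌉₊, hk0.trans (le_max_left _ _), fun k hk => ?_⟩
  have hk1 : k0 ≤ k := (le_max_left _ _).trans hk
  have hk2 : exp (exp 10) ≤ k :=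
    (Nat.le_ceil _).trans (by exact_mod_cast (le_max_right _ _).trans hk)
  have hk3 : (3 : ℝ) ≤ k := by exact_mod_cast hk0.trans hk1
  have hx : exp 10 ≤ log k := (le_log_iff_exp_le (by linarith)).2 hk2
  have hx1 : 10 + 1 ≤ exp 10 := add_one_le_exp _
  have hxk : log (k : ℝ) ≤ k - 1 := log_le_sub_one_of_pos (by linarith)
  set x := log (k : ℝ) with hxd
  have hy : 10 ≤ log x := (le_log_iff_exp_le (by linarith)).2 hx
  set y := log x with hyd
  have hsq : y ^ 2 ≤ 2 * x := by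
    have h1 := quadratic_le_exp_of_nonneg (x := y) (by linarith)
    rw [hyd, exp_log (by linarith)] at h1
    rw [hyd]
    linarith
  have hx0 : 0 < x := by linarith
  set g := y / x with hg
  have hg0 : 0 < g := div_pos (by linarith) hx0
  have hgx : g * x = y := div_mul_cancel₀ _ hx0.ne'
  have hg5 : g ≤ 1 / 5 := by
    rw [hg, div_le_iff₀ hx0]
    nlinarith
  refine ⟨hg0, fun d hd => ?_⟩
  have hkg : 1 ≤ k * g := by nlinarith
  obtain ⟨K, hK1, hK2⟩ : ∃ K : ℕ, k * (1 + 4 * g) ≤ (K : ℝ) ∧ (K : ℝ) ≤ k * (1 + 5 * g) :=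
    ⟨⌈k * (1 + 4 * g)⌉₊, Nat.le_ceil _, by
      have := Nat.ceil_lt_add_one (show (0 : ℝ) ≤ k * (1 + 4 * g) by positivity)
      linarith⟩
  have hkK : (k : ℝ) ≤ K := by nlinarith
  have hK3 : (K : ℝ) ≤ 2 * k := by nlinarith
  have l2 : log 2 ≤ 2 - 1 := log_le_sub_one_of_pos (by norm_num)
  have hL1 : log (K : ℝ) ≤ x + 1 := by
    have := log_le_log (by linarith) hK3
    rw [log_mul (by norm_num) (by linarith)] at this
    linarith
  have hL0 : x ≤ log (K : ℝ) := log_le_log (by linarith) hkK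
  have hL2 : log (log (K : ℝ)) ≤ y + 1 := by
    have := log_le_log (by linarith) (show log (K : ℝ) ≤ 2 * x by linarith)
    rw [log_mul (by norm_num) (by linarith)] at this
    linarith
  have hmain : (K : ℝ) * (log K + C' * log (log K)) ≤ k * (x + (7 + 4 * C') * y) := by
    have a1 : C' * log (log (K : ℝ)) ≤ C' * (y + 1) := mul_le_mul_of_nonneg_left hL2 hC'
    have a2 : C' * (y + 1) ≤ C' * (2 * y) := mul_le_mul_of_nonneg_left (by linarith) hC'
    have a3 : 0 ≤ C' * (2 * y) := mul_nonneg hC' (by linarith)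
    have a4 : log (K : ℝ) + C' * log (log K) ≤ x + (y + C' * (2 * y)) := by linarith
    have a5 : (K : ℝ) * (log K + C' * log (log K)) ≤ K * (x + (y + C' * (2 * y))) :=
      mul_le_mul_of_nonneg_left a4 (by linarith)
    have a6 : (K : ℝ) * x ≤ k * (1 + 5 * g) * x := mul_le_mul_of_nonneg_right hK2 hx0.le
    have a7 : (K : ℝ) * (y + C' * (2 * y)) ≤ 2 * k * (y + C' * (2 * y)) :=
      mul_le_mul_of_nonneg_right hK3 (by linarith)
    have a8 : (k : ℝ) * (1 + 5 * g) * x = k * x + 5 * k * y := by rw [← hgx]; ring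
    nlinarith
  obtain ⟨b1, b2, b3⟩ := h K (hk1.trans (by exact_mod_cast hkK)) d (hmain.trans hd)
  refine ⟨b1, b2, ?_⟩
  have c0 : 0 ≤ 1 - 2 * g := by linarith
  rcases le_total (log d + C * log (log d)) 0 with hz | hz
  · exact (mul_nonpos_of_nonpos_of_nonneg hz (by linarith)).trans (mul_nonneg c0 (by linarith))
  · have c1 : (k : ℝ) ≤ K * (1 - 2 * g) := by
      have c2 : k * (1 + 4 * g) * (1 - 2 * g) ≤ K * (1 - 2 * g) := mul_le_mul_of_nonneg_right hK1 c0
      have c3 : 0 ≤ (k : ℝ) * (g * (1 - 4 * g)) :=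
        mul_nonneg (by linarith) (mul_nonneg hg0.le (by linarith))
      nlinarith
    calc (log d + C * log (log d)) * k ≤ (log d + C * log (log d)) * (K * (1 - 2 * g)) :=
          mul_le_mul_of_nonneg_left c1 hz
      _ = (1 - 2 * g) * ((log d + C * log (log d)) * K) := by ring
      _ ≤ (1 - 2 * g) * d := mul_le_mul_of_nonneg_left b3 c0

end Pool.Agent.Lib.MP_1b5cbf_lc.Bar.Clean
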