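import Pool.Agent.Lib.MP_1b5cbf_lc.Bar.Colour
import Pool.Agent.Lib.MP_1b5cbf_lc.Bar.Clean

/-! Almost proper colourings. -/

set_option autoImplicit false

namespace Pool.Agent.Lib.MP_1b5cbf_lc.Bar.Almost

open Finset Dress Colour Clean

/-- the cleaned colour class -/
noncomputable def bb {n k : ℕ} (D : ℕ) (A : SimpleGraph (Fin n) → Fin n → Fin k) (j : Fin k)
    (g : Pr n → Bool) : Finset (Fin n) := cl D (cls A j g) (toG g)

theorem bb_ind {n k : ℕ} (D : ℕ) (A : SimpleGraph (Fin n) → Fin n → Fin k) (j : Fin k)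
    (g : Pr n → Bool) : Ind (bb D A j) g :=
  fun e he hb => cl_indep D _ _ hb.1 hb.2 (adj_toG g e he)

theorem bb_move {n k : ℕ} (D M : ℕ) (A : SimpleGraph (Fin n) → Fin n → Fin k) (j : Fin k)
    (z : (Pr n → Bool) × (Pr n → Bool)) (hz : z ∈ adj (Pr n) M) :
    ((symmDiff (bb D A j z.1) (bb D A j z.2)).card : ℝ) ^ 2 ≤
      8 * ((D : ℝ) + 1) ^ 2 * ((Set.ncard {v | A (toG z.1) v ≠ A (toG z.2) v} : ℝ) ^ 2 + 16) := by
  obtain ⟨h1, h2, h3⟩ := (mem_filter.1 hz).2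
  have h := cl_move D (cls A j z.1) (cls A j z.2)
    (univ.filter fun v => A (toG z.1) v ≠ A (toG z.2) v) (toG z.1) (toG z.2)
    (by rw [ncard_toG, ncard_toG, h1, h2]) (by rw [dif_toG, h3]) (by
      intro v hv
      simp only [mem_filter, mem_univ, true_and, not_not] at hv
      simp [cls, hv])
  have e : Set.ncard {v | A (toG z.1) v ≠ A (toG z.2) v} =
      (univ.filter fun v => A (toG z.1) v ≠ A (toG z.2) v).card := by
    rw [← Set.ncard_coe_finset]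
    congr 1
    ext v
    simp
  rw [e]
  generalize (univ.filter fun v => A (toG z.1) v ≠ A (toG z.2) v).card = x at h
  have h' : ((symmDiff (bb D A j z.1) (bb D A j z.2)).card : ℝ) ≤ 2 * ((D : ℝ) + 1) * (x + 4) := by
    exact_mod_cast h
  refine (pow_le_pow_left₀ (by positivity) h' 2).trans ?_
  have h4 : ((x : ℝ) + 4) ^ 2 ≤ 2 * ((x : ℝ) ^ 2 + 16) := by nlinarith [sq_nonneg ((x : ℝ) - 4)]
  calc (2 * ((D : ℝ) + 1) * (x + 4)) ^ 2 = 4 * ((D : ℝ) + 1) ^ 2 * ((x : ℝ) + 4) ^ 2 := by ring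
    _ ≤ 4 * ((D : ℝ) + 1) ^ 2 * (2 * ((x : ℝ) ^ 2 + 16)) := by gcongr
    _ = _ := by ring

theorem bb_size {n k : ℕ} (D : ℕ) (A : SimpleGraph (Fin n) → Fin n → Fin k) (j : Fin k)
    (g : Pr n → Bool) (c γ : ℝ) (hγ : 0 < γ) (hck : 0 < c * k) (hD : 2 * (c * k) / γ ≤ D)
    (hw : (wt g : ℝ) ≤ c * n)
    (h : (1 - γ) * n ≤ k * (Set.ncard {v | A (toG g) v = j ∧
      ∀ u, (toG g).Adj v u → A (toG g) u ≠ j} : ℝ)) :
    (1 - 2 * γ) * n ≤ k * ((bb D A j g).card : ℝ) := by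
  have e : {v | A (toG g) v = j ∧ ∀ u, (toG g).Adj v u → A (toG g) u ≠ j} =
      {v | v ∈ cls A j g ∧ ∀ u, (toG g).Adj v u → u ∉ cls A j g} := by
    ext v; simp [cls]
  rw [e] at h
  have h1 := (Nat.cast_le (α := ℝ)).2 (cl_size D (cls A j g) (toG g))
  have h2 := (Nat.cast_le (α := ℝ)).2 (high_card D (toG g))
  rw [ncard_toG] at h2
  push_cast at h1 h2
  generalize ((univ.filter fun v => D < (nb (toG g) v).card).card : ℝ) = x at h1 h2
  rw [div_le_iff₀ hγ] at hD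
  have hD0 : (0 : ℝ) < D := by
    by_contra hc
    have : (D : ℝ) * γ ≤ 0 := mul_nonpos_of_nonpos_of_nonneg (not_lt.1 hc) hγ.le
    linarith
  have hk : (0 : ℝ) ≤ k := by positivity
  have hn : (0 : ℝ) ≤ n := by positivity
  have h3 : k * x ≤ γ * n := by
    refine le_of_mul_le_mul_right ?_ hD0
    calc k * x * D = k * (x * D) := by ring
      _ ≤ k * (2 * (c * n)) := mul_le_mul_of_nonneg_left (by linarith) hk
      _ = 2 * (c * k) * n := by ring
      _ ≤ D * γ * n := mul_le_mul_of_nonneg_right hD hn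
      _ = γ * n * D := by ring
  have h4 := mul_le_mul_of_nonneg_left h1 hk
  unfold bb
  linarith

theorem main (h : MainMSt) : ∃ (C : ℝ) (k₀ : ℕ), ∀ k : ℕ, k₀ ≤ k → ∀ c : ℝ,
    k * (Real.log k + C * Real.log (Real.log k)) / 2 ≤ c → ∀ δ : ℝ, 0 < δ →
    ∃ η : ℝ, 0 < η ∧ ∃ n₀ : ℕ, ∀ n : ℕ, n₀ ≤ n →
    ∀ (m : ℕ) (A : Fin m → SimpleGraph (Fin n) → Fin n → Fin k),
      ∑ s : Fin m, ∑ᶠ x ∈ {x : SimpleGraph (Fin n) × SimpleGraph (Fin n) |
          x.1.edgeSet.ncard = ⌊c * n⌋₊ ∧ x.2.edgeSet.ncard = ⌊c * n⌋₊ ∧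
            (x.1.edgeSet \ x.2.edgeSet).ncard = 1},
          (Set.ncard {v | A s x.1 v ≠ A s x.2 v} : ℝ) ^ 2 ≤
        η * n * (m * Set.ncard {x : SimpleGraph (Fin n) × SimpleGraph (Fin n) |
          x.1.edgeSet.ncard = ⌊c * n⌋₊ ∧ x.2.edgeSet.ncard = ⌊c * n⌋₊ ∧
            (x.1.edgeSet \ x.2.edgeSet).ncard = 1}) →
      (Set.ncard {y : Fin m × SimpleGraph (Fin n) | y.2.edgeSet.ncard = ⌊c * n⌋₊ ∧
          ∃ j : Fin k, (1 - Real.log (Real.log k) / Real.log k) * n ≤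
            k * (Set.ncard {v | A y.1 y.2 v = j ∧ ∀ u, y.2.Adj v u → A y.1 y.2 u ≠ j} : ℝ)} : ℝ) ≤
        δ * (m * Set.ncard {G : SimpleGraph (Fin n) | G.edgeSet.ncard = ⌊c * n⌋₊}) := by
  classical
  obtain ⟨C, d0, hM⟩ := h
  obtain ⟨C', k0, hk0, hcalc⟩ := calc2 C d0
  refine ⟨C', k0, fun k hk c hc δ hδ => ?_⟩
  obtain ⟨hγ, hcalc'⟩ := hcalc k hk
  obtain ⟨hd0, hd2, hdk⟩ := hcalc' (2 * c - 1) (by linarith)
  generalize Real.log (Real.log k) / Real.log k = γ at hγ hdk ⊢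
  have hkpos : (0 : ℝ) < k := by exact_mod_cast (by omega : 0 < k)
  have hc0 : 0 < c := by linarith
  obtain ⟨η, hη, n0, hn⟩ := hM (2 * c - 1) hd0 (δ / 2 / k) (by positivity)
  obtain ⟨D, hD⟩ := exists_nat_ge (2 * (c * k) / γ)
  obtain ⟨η', hη', hE⟩ : ∃ η' : ℝ, 0 < η' ∧ 16 * ((D : ℝ) + 1) ^ 2 * η' = η :=
    ⟨η / (16 * ((D : ℝ) + 1) ^ 2), by positivity, by field_simp⟩
  obtain ⟨n1, hn1⟩ := exists_nat_ge (16 / η')
  refine ⟨δ / 2 * η', by positivity, max n0 n1, fun n hn0 m A hA => ?_⟩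
  have hfl : (2 * c - 1 + 1) * n / 2 - 1 ≤ (⌊c * n⌋₊ : ℝ) := by
    have := Nat.sub_one_lt_floor (c * n)
    have e : (2 * c - 1 + 1) * n / 2 = c * n := by ring
    rw [e]
    exact this.le
  have hfu : (⌊c * n⌋₊ : ℝ) ≤ c * n := Nat.floor_le (by positivity)
  have h16 : 16 ≤ η' * n := by
    have a : (n1 : ℝ) ≤ n := by exact_mod_cast (le_max_right _ _).trans hn0
    have b := hn1.trans a
    rw [div_le_iff₀ hη'] at b
    linarith
  specialize hn n ((le_max_left _ _).trans hn0) ⌊c * n⌋₊ hfl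
  generalize ⌊c * n⌋₊ = M at hn hA hfu ⊢
  rw [ncard_moves] at hA
  simp only [finsum_moves] at hA
  rw [ncard_fib (fun (s : Fin m) (G : SimpleGraph (Fin n)) => G.edgeSet.ncard = M ∧
    ∃ j : Fin k, (1 - γ) * n ≤
      k * (Set.ncard {v | A s G v = j ∧ ∀ u, G.Adj v u → A s G u ≠ j} : ℝ)), ncard_lvl']
  simp only [ncard_lvl]
  push_cast
  have key := markov (m := m)
    (fun s => ∑ z ∈ adj (Pr n) M, (Set.ncard {v | A s (toG z.1) v ≠ A s (toG z.2) v} : ℝ) ^ 2)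
    (fun s => (((lvl (Pr n) M).filter fun g => ∃ j : Fin k, (1 - γ) * n ≤
      k * (Set.ncard {v | A s (toG g) v = j ∧
        ∀ u, (toG g).Adj v u → A s (toG g) u ≠ j} : ℝ)).card : ℝ))
    (η' * n * ((adj (Pr n) M).card : ℝ)) ((lvl (Pr n) M).card : ℝ) (δ / 2)
    (fun s => sum_nonneg fun z _ => by positivity) (by positivity) (by positivity) (by positivity)
    (by refine hA.trans (le_of_eq ?_); ring)
    (fun s => by exact_mod_cast card_filter_le _ _) ?_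
  · refine le_trans (le_of_eq ?_) (key.trans (le_of_eq ?_))
    · refine sum_congr rfl fun s _ => ?_
      congr
    · ring
  intro s hs
  have hj : ∀ j : Fin k, ((((lvl (Pr n) M).filter fun g => Ind (bb D (A s) j) g ∧
      (Real.log (2 * c - 1) + C * Real.log (Real.log (2 * c - 1))) * n / (2 * c - 1) ≤
        ((bb D (A s) j g).card : ℝ)).card : ℕ) : ℝ) ≤ δ / 2 / k * ((lvl (Pr n) M).card : ℝ) := by
    intro j
    have h1 : ∑ z ∈ adj (Pr n) M, ((symmDiff (bb D (A s) j z.1) (bb D (A s) j z.2)).card : ℝ) ^ 2 ≤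
        η * n * ((adj (Pr n) M).card : ℝ) := by
      refine (sum_le_sum fun z hz => bb_move D M (A s) j z hz).trans ?_
      rw [← mul_sum, sum_add_distrib, sum_const, nsmul_eq_mul, ← hE]
      have a : ((adj (Pr n) M).card : ℝ) * 16 ≤ ((adj (Pr n) M).card : ℝ) * (η' * n) :=
        mul_le_mul_of_nonneg_left h16 (by positivity)
      calc _ ≤ 8 * ((D : ℝ) + 1) ^ 2 * (η' * n * ((adj (Pr n) M).card : ℝ) +
            ((adj (Pr n) M).card : ℝ) * (η' * n)) :=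
            mul_le_mul_of_nonneg_left (add_le_add hs a) (by positivity)
        _ = _ := by ring
    have := hn (bb D (A s) j) h1
    refine le_trans (le_of_eq ?_) this
    congr
  have hsub : ((lvl (Pr n) M).filter fun g => ∃ j : Fin k, (1 - γ) * n ≤
      k * (Set.ncard {v | A s (toG g) v = j ∧
        ∀ u, (toG g).Adj v u → A s (toG g) u ≠ j} : ℝ)) ⊆
      univ.biUnion fun j : Fin k => (lvl (Pr n) M).filter fun g => Ind (bb D (A s) j) g ∧
        (Real.log (2 * c - 1) + C * Real.log (Real.log (2 * c - 1))) * n / (2 * c - 1) ≤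
          ((bb D (A s) j g).card : ℝ) := by
    intro g hg
    obtain ⟨hl, j, hs'⟩ := mem_filter.1 hg
    refine mem_biUnion.2 ⟨j, mem_univ j, mem_filter.2 ⟨hl, bb_ind D _ j g, ?_⟩⟩
    have hw : wt g = M := (mem_filter.1 hl).2
    have h1 := bb_size D (A s) j g c γ hγ (by positivity) hD (by rw [hw]; exact hfu) hs'
    have hd : (0 : ℝ) < 2 * c - 1 := by linarith
    rw [div_le_iff₀ hd]
    refine le_of_mul_le_mul_right ?_ hkpos
    calc (Real.log (2 * c - 1) + C * Real.log (Real.log (2 * c - 1))) * n * k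
        = (Real.log (2 * c - 1) + C * Real.log (Real.log (2 * c - 1))) * k * n := by ring
      _ ≤ (1 - 2 * γ) * (2 * c - 1) * n := mul_le_mul_of_nonneg_right hdk (by positivity)
      _ = (2 * c - 1) * ((1 - 2 * γ) * n) := by ring
      _ ≤ (2 * c - 1) * (k * ((bb D (A s) j g).card : ℝ)) := mul_le_mul_of_nonneg_left h1 hd.le
      _ = ((bb D (A s) j g).card : ℝ) * (2 * c - 1) * k := by ring
  have h5 := (card_le_card hsub).trans card_biUnion_le
  have h6 := (Nat.cast_le (α := ℝ)).2 h5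
  refine h6.trans ?_
  rw [Nat.cast_sum]
  refine (sum_le_sum fun j _ => hj j).trans (le_of_eq ?_)
  rw [sum_const, card_univ, Fintype.card_fin, nsmul_eq_mul]
  field_simp

end Pool.Agent.Lib.MP_1b5cbf_lc.Bar.Almost
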