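import Pool.Agent.Lib.MP_1b5cbf_lc.Bar.St

/-! A priori bounds, monotonicity, transport and continuity of the rooted masses. -/

set_option autoImplicit false

namespace Pool.Agent.Lib.MP_1b5cbf_lc.Bar

open Finset

namespace Apr
variable {ι : Type} [Fintype ι] [DecidableEq ι]

omit [Fintype ι] in
theorem rho_nonneg {β : Finset (Finset ι) → ℝ} (h : ∀ T, 0 ≤ β T) (T : Finset (Finset ι)) :
    0 ≤ rho β T := by
  unfold rho
  split_ifs
  · exact h T
  · exact le_rfl

omit [Fintype ι] in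
theorem mem_TD (D l : Finset ι) (T : Finset (Finset ι)) :
    l ∈ TD D T ↔ l = ∅ ∨ (l ∈ T ∧ l ⊆ D) := by
  simp [TD]

omit [Fintype ι] in
theorem TD_mono {D D' : Finset ι} (h : D' ⊆ D) (T : Finset (Finset ι)) : TD D' T ⊆ TD D T := by
  intro l hl
  rw [mem_TD] at hl ⊢
  rcases hl with hl | ⟨h1, h2⟩
  · exact Or.inl hl
  · exact Or.inr ⟨h1, h2.trans h⟩

omit [Fintype ι] in
theorem TD_sub (D : Finset ι) (T : Finset (Finset ι)) : TD D T ⊆ D.powerset := by
  intro l hl
  rw [mem_TD] at hl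
  rcases hl with hl | ⟨_, h2⟩
  · simp [hl]
  · exact mem_powerset.2 h2

omit [Fintype ι] in
theorem card_le_one_iff (D : Finset ι) (T : Finset (Finset ι)) :
    (TD D T).card ≤ 1 ↔ ∀ l ∈ T, l ⊆ D → l = ∅ := by
  rw [Finset.card_le_one]
  constructor
  · intro h l hl hD
    exact h l ((mem_TD D l T).2 (Or.inr ⟨hl, hD⟩)) ∅ ((mem_TD D ∅ T).2 (Or.inl rfl))
  · intro h a ha b hb
    have key : ∀ c ∈ TD D T, c = ∅ := by
      intro c hc
      rcases (mem_TD D c T).1 hc with hc | ⟨h1, h2⟩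
      · exact hc
      · exact h c h1 h2
    rw [key a ha, key b hb]

/-- the rooted mass that misses a nonempty leaf is a value of `sg` at a bit of the leaf -/
theorem miss (hT : TwoSt) {β : (ι → ℝ) → Finset (Finset ι) → ℝ} {L ld : ℝ} {b0 b1 : ι}
    (hI : Iface β L ld) (hb : b0 ≠ b1) (τ : ι → ℝ) (l : Finset ι) (b : ι) (hbl : b ∈ l)
    (hmin : ∀ b' ∈ l, τ b ≤ τ b') :
    ∑ T, rho (β τ) T * (if l ∈ T then 0 else 1) = sg β b0 (τ b) := by
  have h2 := (hT ι β L ld b0 b1 hI hb).2.1 τ ∅ l b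
  have hs : symmDiff (∅ : Finset ι) l = l := bot_symmDiff l
  rw [hs] at h2
  rw [← h2 hbl hmin]
  refine Finset.sum_congr rfl fun T _ => ?_
  unfold rho
  by_cases h0 : (∅ : Finset ι) ∈ T <;> by_cases h1 : l ∈ T <;> simp [h0, h1]

theorem miss' (hT : TwoSt) {β : (ι → ℝ) → Finset (Finset ι) → ℝ} {L ld : ℝ} {b0 b1 : ι}
    (hI : Iface β L ld) (hb : b0 ≠ b1) (τ : ι → ℝ) (D l : Finset ι) (hD : l ⊆ D) (hl : l ≠ ∅) :
    ∃ b ∈ D, ∑ T, rho (β τ) T * (if l ∈ TD D T then 0 else 1) = sg β b0 (τ b) := by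
  obtain ⟨b, hbl, hmin⟩ := Finset.exists_min_image l τ (Finset.nonempty_iff_ne_empty.2 hl)
  refine ⟨b, hD hbl, ?_⟩
  rw [← miss hT hI hb τ l b hbl hmin]
  refine Finset.sum_congr rfl fun T _ => ?_
  have : l ∈ TD D T ↔ l ∈ T := by
    rw [mem_TD]
    constructor
    · rintro (h | h)
      · exact absurd h hl
      · exact h.1
    · exact fun h => Or.inr ⟨h, hD⟩
  simp only [this]

omit [Fintype ι] in
theorem missed_card (D : Finset ι) (T : Finset (Finset ι)) :
    ∑ l ∈ D.powerset, (if l ∈ TD D T then (0 : ℝ) else 1) = 2 ^ D.card - ((TD D T).card : ℝ) := by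
  have h1 : ∑ l ∈ D.powerset, (if l ∈ TD D T then (1 : ℝ) else 0) = ((TD D T).card : ℝ) := by
    rw [Finset.sum_boole]
    congr 1
    congr 1
    ext l
    simp only [mem_filter]
    exact ⟨fun h => h.2, fun h => ⟨TD_sub D T h, h⟩⟩
  have h2 : ∑ l ∈ D.powerset, ((if l ∈ TD D T then (0 : ℝ) else 1) +
      (if l ∈ TD D T then (1 : ℝ) else 0)) = 2 ^ D.card := by
    rw [Finset.sum_congr rfl (g := fun _ => (1 : ℝ))]
    · simp
    · intro l _
      split_ifs <;> simp
  rw [Finset.sum_add_distrib, h1] at h2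
  linarith

theorem markov (hT : TwoSt) {β : (ι → ℝ) → Finset (Finset ι) → ℝ} {L ld : ℝ} {b0 b1 : ι}
    (hI : Iface β L ld) (hb : b0 ≠ b1) (τ : ι → ℝ) (D : Finset ι) (R : ℕ) (z : ℝ) (hz : 0 ≤ z)
    (hs : ∀ x ∈ D, sg β b0 (τ x) ≤ z) (hR : 2 * R ≤ 2 ^ D.card) :
    Wm (rho (β τ)) (TD D) R ≤ 2 * z := by
  have hpos : (0 : ℝ) < 2 ^ D.card := by positivity
  have hR' : 2 * (R : ℝ) ≤ 2 ^ D.card := by exact_mod_cast hR
  have h1 : ∑ l ∈ D.powerset, ∑ T, rho (β τ) T * (if l ∈ TD D T then 0 else 1) ≤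
      2 ^ D.card * z := by
    have : ∀ l ∈ D.powerset, ∑ T, rho (β τ) T * (if l ∈ TD D T then (0 : ℝ) else 1) ≤ z := by
      intro l hl
      by_cases h0 : l = ∅
      · have : ∀ T : Finset (Finset ι), l ∈ TD D T := fun T => (mem_TD D l T).2 (Or.inl h0)
        simp [this, hz]
      · obtain ⟨b, hbD, hbe⟩ := miss' hT hI hb τ D l (mem_powerset.1 hl) h0
        rw [hbe]
        exact hs b hbD
    refine (Finset.sum_le_sum this).trans ?_
    simp
  rw [Finset.sum_comm] at h1
  have h2 : 2 ^ D.card / 2 * Wm (rho (β τ)) (TD D) R ≤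
      ∑ T, ∑ l ∈ D.powerset, rho (β τ) T * (if l ∈ TD D T then (0 : ℝ) else 1) := by
    unfold Wm
    rw [Finset.mul_sum]
    refine Finset.sum_le_sum fun T _ => ?_
    rw [← Finset.mul_sum, missed_card]
    have hr := rho_nonneg (hI.nonneg τ) T
    have hc : ((TD D T).card : ℝ) ≤ 2 ^ D.card := by
      have := Finset.card_le_card (TD_sub D T)
      rw [card_powerset] at this
      exact_mod_cast this
    split_ifs with hc'
    · have hc'' : ((TD D T).card : ℝ) ≤ R := by exact_mod_cast hc'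
      have : 2 ^ D.card / 2 ≤ (2 : ℝ) ^ D.card - ((TD D T).card : ℝ) := by linarith
      nlinarith [mul_le_mul_of_nonneg_left this hr]
    · have : 0 ≤ rho (β τ) T * ((2 : ℝ) ^ D.card - ((TD D T).card : ℝ)) :=
        mul_nonneg hr (by linarith)
      simpa using this
  have h3 : 2 ^ D.card * Wm (rho (β τ)) (TD D) R ≤ 2 ^ D.card * (2 * z) := by linarith
  exact le_of_mul_le_mul_left h3 hpos

theorem fr_eq (β : Finset (Finset ι) → ℝ) (D : Finset ι) :
    fr β D = ∑ T, β T * (if ∅ ∈ T ∧ ∀ l ∈ T, l ⊆ D → l = ∅ then 1 else 0) := by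
  unfold fr Wm rho
  refine Finset.sum_congr rfl fun T _ => ?_
  simp only [card_le_one_iff]
  by_cases h0 : (∅ : Finset ι) ∈ T
  · simp [h0]
  · simp [h0]

theorem transport (hB : LenBSt) {β : (ι → ℝ) → Finset (Finset ι) → ℝ} {L ld : ℝ}
    (hI : Iface β L ld) (τ τ' : ι → ℝ) (φ : ι → ι) (D : Finset ι) (hφ : Set.InjOn φ D)
    (hτ : ∀ x ∈ D, τ' (φ x) = τ x) : fr (β τ') (D.image φ) = fr (β τ) D := by
  have hlen : ∀ U : Finset (Finset ι),
      len τ (U.image fun l => l ∩ D) = len τ' (U.image fun l => (l ∩ D).image φ) := by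
    intro U
    have h3 := (hB ι).2.2.1 τ τ' φ D (U.image fun l => l ∩ D) hφ hτ (by
      intro l hl
      obtain ⟨m, _, rfl⟩ := mem_image.1 hl
      exact mem_powerset.2 inter_subset_right)
    rw [← h3, Finset.image_image]
    rfl
  have h := hI.iso τ τ' (fun l => l ∩ D) (fun l => (l ∩ D).image φ) hlen
    (fun S => if ∅ ∈ S ∧ ∀ l ∈ S, l ⊆ D → l = ∅ then 1 else 0)
  rw [fr_eq, fr_eq]
  refine Eq.trans ?_ (h.symm.trans ?_)
  · refine Finset.sum_congr rfl fun T _ => ?_
    congr 1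
    refine if_congr ?_ rfl rfl
    simp only [mem_filter, mem_univ, true_and, Finset.empty_inter, Finset.image_empty]
    refine and_congr_right fun _ => ⟨fun hh l hl hD => ?_, fun hh l hl hD => ?_⟩
    · have h4 := hh _ hl (Finset.image_subset_image inter_subset_right)
      rw [Finset.image_eq_empty, Finset.inter_eq_left.2 hD] at h4
      exact h4
    · obtain ⟨m, hm, rfl⟩ := Finset.subset_image_iff.1 (by exact_mod_cast hD : l ⊆ D.image φ)
      have hm' : m ⊆ D := by exact_mod_cast hm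
      have h4 := hh m (by rw [Finset.inter_eq_left.2 hm']; exact hl) hm'
      rw [h4, Finset.image_empty]
  · refine Finset.sum_congr rfl fun T _ => ?_
    congr 1
    refine if_congr ?_ rfl rfl
    simp only [mem_filter, mem_univ, true_and, Finset.empty_inter]
    refine and_congr_right fun _ => ⟨fun hh l hl hD => ?_, fun hh l hl hD => ?_⟩
    · exact hh l (by rw [Finset.inter_eq_left.2 hD]; exact hl) hD
    · rw [Finset.inter_eq_left.2 hD] at hl
      exact hh l hl hD

end Apr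

open Apr in
theorem apr_st (hB : LenBSt) (hT : TwoSt) : AprSt := by
  intro ι _ _ β L ld b0 b1 hI hb
  refine ⟨?_, ?_, ?_, ?_, ?_, ?_, ?_⟩
  · intro τ D D' R hD
    unfold Wm
    refine Finset.sum_le_sum fun T _ => ?_
    refine mul_le_mul_of_nonneg_left ?_ (rho_nonneg (hI.nonneg τ) T)
    have hc := Finset.card_le_card (TD_mono hD T)
    split_ifs with h1 h2
    · exact le_rfl
    · exact absurd (hc.trans h1) h2
    · exact zero_le_one
    · exact le_rfl
  · intro τ D R
    rw [← hI.mass τ]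
    unfold Wm
    refine Finset.sum_le_sum fun T _ => ?_
    have hr := rho_nonneg (hI.nonneg τ) T
    split_ifs
    · simp
    · simpa using hr
  · intro τ D R z hz hs hR
    exact markov hT hI hb τ D R z hz hs hR
  · intro τ D x hx
    rw [← miss hT hI hb τ {x} x (mem_singleton_self x) (by
      intro b' hb'
      rw [mem_singleton.1 hb'])]
    unfold fr Wm
    refine Finset.sum_le_sum fun T _ => ?_
    refine mul_le_mul_of_nonneg_left ?_ (rho_nonneg (hI.nonneg τ) T)
    split_ifs with h1 h2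
    · have := (card_le_one_iff D T).1 h1 {x} h2 (singleton_subset_iff.2 hx)
      exact absurd this (singleton_ne_empty x)
    · exact le_rfl
    · exact le_rfl
    · exact zero_le_one
  · intro τ D l lam hs hD hl
    obtain ⟨b, hbD, hbe⟩ := miss' hT hI hb τ D l hD hl
    rw [hbe]
    exact hs b hbD
  · intro τ τ' φ D hφ hτ
    exact transport hB hI τ τ' φ D hφ hτ
  · intro D
    simp only [fr_eq]
    exact continuous_finsetSum _ fun T _ => (hI.cont T).mul continuous_const

end Pool.Agent.Lib.MP_1b5cbf_lc.Bar
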