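import Pool.Agent.Lib.MP_1b5cbf_lc.Bar.Dress
import Pool.Agent.Lib.MP_1b5cbf_lc.Bar.Calc

/-! Colour classes and random seeds. -/

set_option autoImplicit false

namespace Pool.Agent.Lib.MP_1b5cbf_lc.Bar.Colour

open Finset Dress

theorem ncard_fib {α β : Type} [Fintype α] [Finite β] (Q : α → β → Prop) :
    Set.ncard {y : α × β | Q y.1 y.2} = ∑ a, Set.ncard {b | Q a b} := by
  classical
  have := Fintype.ofFinite β
  have h1 : {y : α × β | Q y.1 y.2} = ↑(univ.filter fun y : α × β => Q y.1 y.2) := by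
    ext y; simp
  have h2 : ∀ a, {b | Q a b} = ↑(univ.filter fun b => Q a b) := by
    intro a; ext y; simp
  simp only [h1, h2, Set.ncard_coe_finset, card_filter]
  rw [Fintype.sum_prod_type]

theorem markov {m : ℕ} (I N : Fin m → ℝ) (X Y δ : ℝ) (hI : ∀ s, 0 ≤ I s) (hX : 0 ≤ X) (hY : 0 ≤ Y)
    (hδ : 0 ≤ δ) (hs : ∑ s, I s ≤ δ * m * X) (h1 : ∀ s, N s ≤ Y)
    (h2 : ∀ s, I s ≤ X → N s ≤ δ * Y) : ∑ s, N s ≤ 2 * δ * (m * Y) := by
  classical
  have hb : ((univ.filter fun s => X < I s).card : ℝ) ≤ δ * m := by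
    rcases hX.eq_or_lt with h0 | h0
    · have : (univ.filter fun s => X < I s) = ∅ := by
        refine filter_eq_empty_iff.2 fun s _ hs' => ?_
        have h3 : I s ≤ ∑ s, I s := single_le_sum (fun s _ => hI s) (mem_univ s)
        rw [← h0] at hs hs'
        linarith
      rw [this]
      simp only [card_empty, Nat.cast_zero]
      positivity
    · have h3 : ((univ.filter fun s => X < I s).card : ℝ) * X ≤ ∑ s, I s := by
        calc ((univ.filter fun s => X < I s).card : ℝ) * X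
            = ∑ _s ∈ univ.filter fun s => X < I s, X := by rw [sum_const, nsmul_eq_mul]
          _ ≤ ∑ s ∈ univ.filter fun s => X < I s, I s :=
              sum_le_sum fun s hs' => (mem_filter.1 hs').2.le
          _ ≤ ∑ s, I s := sum_le_sum_of_subset_of_nonneg (filter_subset _ _) fun s _ _ => hI s
      exact le_of_mul_le_mul_right (h3.trans hs) h0
  have h4 : ∀ s, N s ≤ δ * Y + (if X < I s then Y else 0) := by
    intro s
    split_ifs with h
    · have := h1 s
      have := mul_nonneg hδ hY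
      linarith
    · have := h2 s (not_lt.1 h)
      linarith
  calc ∑ s, N s ≤ ∑ s, (δ * Y + (if X < I s then Y else 0)) := sum_le_sum fun s _ => h4 s
    _ = m * (δ * Y) + ((univ.filter fun s => X < I s).card : ℝ) * Y := by
        rw [sum_add_distrib, ← sum_filter, sum_const, sum_const, nsmul_eq_mul, nsmul_eq_mul]
        simp
    _ ≤ m * (δ * Y) + δ * m * Y := by gcongr
    _ = 2 * δ * (m * Y) := by ring

/-- a colour class -/
def cls {n k : ℕ} (A : SimpleGraph (Fin n) → Fin n → Fin k) (j : Fin k) (g : Pr n → Bool) :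
    Finset (Fin n) := univ.filter fun v => A (toG g) v = j

theorem cls_coe {n k : ℕ} (A : SimpleGraph (Fin n) → Fin n → Fin k) (j : Fin k) (g : Pr n → Bool) :
    {v | A (toG g) v = j} = ↑(cls A j g) := by
  ext v; simp [cls]

theorem cls_diff {n k : ℕ} (A : SimpleGraph (Fin n) → Fin n → Fin k) (j : Fin k)
    (g g' : Pr n → Bool) :
    (symmDiff (cls A j g) (cls A j g')).card ≤ Set.ncard {v | A (toG g) v ≠ A (toG g') v} := by
  rw [← Set.ncard_coe_finset]
  refine Set.ncard_le_ncard ?_ (Set.toFinite _)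
  intro v hv
  simp only [coe_symmDiff, Set.mem_symmDiff, cls, coe_filter, mem_univ, true_and,
    Set.mem_ofPred_eq] at hv ⊢
  rcases hv with ⟨h1, h2⟩ | ⟨h1, h2⟩
  · rw [h1]; exact fun h => h2 h.symm
  · rw [h1]; exact h2

theorem main (h : MainMSt) : ∃ (C : ℝ) (k₀ : ℕ), ∀ k : ℕ, k₀ ≤ k → ∀ c : ℝ,
    k * (Real.log k + C * Real.log (Real.log k)) / 2 ≤ c → ∀ δ : ℝ, 0 < δ →
    ∃ η : ℝ, 0 < η ∧ ∃ n₀ : ℕ, ∀ n : ℕ, n₀ ≤ n →
    ∀ (m : ℕ) (A : Fin m → SimpleGraph (Fin n) → Fin n → Fin k),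
      ∑ s : Fin m, ∑ᶠ x ∈ {x : SimpleGraph (Fin n) × SimpleGraph (Fin n) |
          x.1.edgeSet.ncard = ⌊c * n⌋₊ ∧ x.2.edgeSet.ncard = ⌊c * n⌋₊ ∧
            (x.1.edgeSet \ x.2.edgeSet).ncard = 1},
          (Set.ncard {v | A s x.1 v ≠ A s x.2 v} : ℝ) ^ 2 ≤
        η * n * (m * Set.ncard {x : SimpleGraph (Fin n) × SimpleGraph (Fin n) |
          x.1.edgeSet.ncard = ⌊c * n⌋₊ ∧ x.2.edgeSet.ncard = ⌊c * n⌋₊ ∧
            (x.1.edgeSet \ x.2.edgeSet).ncard = 1}) →
      (Set.ncard {y : Fin m × SimpleGraph (Fin n) | y.2.edgeSet.ncard = ⌊c * n⌋₊ ∧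
          ∃ j : Fin k, y.2.IsIndepSet {v | A y.1 y.2 v = j} ∧
            n ≤ k * Set.ncard {v | A y.1 y.2 v = j}} : ℝ) ≤
        δ * (m * Set.ncard {G : SimpleGraph (Fin n) | G.edgeSet.ncard = ⌊c * n⌋₊}) := by
  classical
  obtain ⟨C, d0, hM⟩ := h
  obtain ⟨C', k0, _, hk0, hcalc⟩ := Calc.calc_k C d0
  refine ⟨C', k0, fun k hk c hc δ hδ => ?_⟩
  obtain ⟨hd0, hd2, hdk⟩ := hcalc k hk (2 * c - 1) (by linarith)
  have hkpos : (0 : ℝ) < k := by exact_mod_cast (by omega : 0 < k)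
  obtain ⟨η, hη, n0, hn⟩ := hM (2 * c - 1) hd0 (δ / 2 / k) (by positivity)
  refine ⟨δ / 2 * η, by positivity, n0, fun n hn0 m A hA => ?_⟩
  have hfl : (2 * c - 1 + 1) * n / 2 - 1 ≤ (⌊c * n⌋₊ : ℝ) := by
    have := Nat.sub_one_lt_floor (c * n)
    have e : (2 * c - 1 + 1) * n / 2 = c * n := by ring
    rw [e]
    exact this.le
  specialize hn n hn0 ⌊c * n⌋₊ hfl
  generalize ⌊c * n⌋₊ = M at hn hA ⊢
  rw [ncard_moves] at hA
  simp only [finsum_moves] at hA
  rw [ncard_fib (fun (s : Fin m) (G : SimpleGraph (Fin n)) => G.edgeSet.ncard = M ∧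
    ∃ j : Fin k, G.IsIndepSet {v | A s G v = j} ∧ n ≤ k * Set.ncard {v | A s G v = j}), ncard_lvl']
  simp only [ncard_lvl]
  push_cast
  have key := markov (m := m)
    (fun s => ∑ z ∈ adj (Pr n) M, (Set.ncard {v | A s (toG z.1) v ≠ A s (toG z.2) v} : ℝ) ^ 2)
    (fun s => (((lvl (Pr n) M).filter fun g => ∃ j : Fin k,
      (toG g).IsIndepSet {v | A s (toG g) v = j} ∧
        n ≤ k * Set.ncard {v | A s (toG g) v = j}).card : ℝ))
    (η * n * ((adj (Pr n) M).card : ℝ)) ((lvl (Pr n) M).card : ℝ) (δ / 2)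
    (fun s => sum_nonneg fun z _ => by positivity) (by positivity) (by positivity) (by positivity)
    (by refine hA.trans (le_of_eq ?_); ring)
    (fun s => by exact_mod_cast card_filter_le _ _) ?_
  · refine le_trans (le_of_eq ?_) (key.trans (le_of_eq ?_))
    · refine sum_congr rfl fun s _ => ?_
      congr
    · ring
  intro s hs
  have hj : ∀ j : Fin k, ((((lvl (Pr n) M).filter fun g => Ind (cls (A s) j) g ∧
      (Real.log (2 * c - 1) + C * Real.log (Real.log (2 * c - 1))) * n / (2 * c - 1) ≤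
        ((cls (A s) j g).card : ℝ)).card : ℕ) : ℝ) ≤ δ / 2 / k * ((lvl (Pr n) M).card : ℝ) := by
    intro j
    have := hn (cls (A s) j) (le_trans (sum_le_sum fun z _ => by
      have h1 : ((symmDiff (cls (A s) j z.1) (cls (A s) j z.2)).card : ℝ) ≤
          (Set.ncard {v | A s (toG z.1) v ≠ A s (toG z.2) v} : ℝ) := by
        exact_mod_cast cls_diff (A s) j z.1 z.2
      exact pow_le_pow_left₀ (by positivity) h1 2) hs)
    refine le_trans (le_of_eq ?_) this
    congr
  have hsub : ((lvl (Pr n) M).filter fun g => ∃ j : Fin k,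
      (toG g).IsIndepSet {v | A s (toG g) v = j} ∧ n ≤ k * Set.ncard {v | A s (toG g) v = j}) ⊆
      univ.biUnion fun j : Fin k => (lvl (Pr n) M).filter fun g => Ind (cls (A s) j) g ∧
        (Real.log (2 * c - 1) + C * Real.log (Real.log (2 * c - 1))) * n / (2 * c - 1) ≤
          ((cls (A s) j g).card : ℝ) := by
    intro g hg
    obtain ⟨hl, j, hi, hs'⟩ := mem_filter.1 hg
    refine mem_biUnion.2 ⟨j, mem_univ j, mem_filter.2 ⟨hl, ?_, ?_⟩⟩
    · intro e he hb
      rw [cls_coe] at hi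
      exact hi (mem_coe.2 hb.1) (mem_coe.2 hb.2) (ne_of_lt e.2) (adj_toG g e he)
    · rw [cls_coe, Set.ncard_coe_finset] at hs'
      have h1 : (n : ℝ) ≤ k * ((cls (A s) j g).card : ℝ) := by exact_mod_cast hs'
      have hd : (0 : ℝ) < 2 * c - 1 := by linarith
      have h0 : (0 : ℝ) ≤ ((cls (A s) j g).card : ℝ) := by positivity
      rw [div_le_iff₀ hd]
      refine le_of_mul_le_mul_right ?_ hkpos
      calc (Real.log (2 * c - 1) + C * Real.log (Real.log (2 * c - 1))) * n * k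
          = (Real.log (2 * c - 1) + C * Real.log (Real.log (2 * c - 1))) * k * n := by ring
        _ ≤ (2 * c - 1) * n := by gcongr
        _ ≤ (2 * c - 1) * (k * ((cls (A s) j g).card : ℝ)) := by gcongr
        _ = ((cls (A s) j g).card : ℝ) * (2 * c - 1) * k := by ring
  have h5 := (card_le_card hsub).trans card_biUnion_le
  have h6 := (Nat.cast_le (α := ℝ)).2 h5
  refine h6.trans ?_
  rw [Nat.cast_sum]
  refine (sum_le_sum fun j _ => hj j).trans (le_of_eq ?_)
  rw [sum_const, card_univ, Fintype.card_fin, nsmul_eq_mul]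
  field_simp

end Pool.Agent.Lib.MP_1b5cbf_lc.Bar.Colour
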