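import Mathlib

/-! Statement-level definitions: expectation over the binomial random graph. -/

set_option autoImplicit false

namespace Pool.Agent.Lib.MP_1b5cbf_lc.Bar

open Finset

/-- expectation of `F` over the random graph `G(n,p)` -/
noncomputable def ex (n : ℕ) (p : ℝ) (F : SimpleGraph (Fin n) → ℝ) : ℝ :=
  ∑ G : SimpleGraph (Fin n),
    p ^ G.edgeSet.ncard * (1 - p) ^ (n.choose 2 - G.edgeSet.ncard) * F G

/-- total squared influence: sum over ordered pairs `(u,v)` of the mean squared number of vertices
whose output changes when the edge `uv` is switched -/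
noncomputable def infl (n : ℕ) (p : ℝ) (A : SimpleGraph (Fin n) → Finset (Fin n)) : ℝ :=
  ∑ u : Fin n, ∑ v : Fin n, ex n p fun G =>
    ((symmDiff (A (G ⊔ SimpleGraph.edge u v)) (A (G \ SimpleGraph.edge u v))).card : ℝ) ^ 2

end Pool.Agent.Lib.MP_1b5cbf_lc.Bar
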