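import Pool.Agent.Lib.MP_1b5cbf_lc.Bar.GnMSt

/-! From bit vectors to simple graphs. -/

set_option autoImplicit false

namespace Pool.Agent.Lib.MP_1b5cbf_lc.Bar.Dress

open Finset

/-- the unordered pair of an ordered pair -/
def mk2 {n : ℕ} (e : Pr n) : Sym2 (Fin n) := s(e.1.1, e.1.2)

theorem mk2_inj {n : ℕ} : Function.Injective (mk2 (n := n)) := by
  rintro ⟨⟨a, b⟩, hab⟩ ⟨⟨c, d⟩, hcd⟩ h
  simp only [mk2, Sym2.eq_iff] at h
  simp only at hab hcd
  rcases h with ⟨h1, h2⟩ | ⟨h1, h2⟩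
  · subst h1; subst h2; rfl
  · subst h1; subst h2; exact absurd hab (lt_asymm hcd)

/-- the graph of a bit vector -/
def toG {n : ℕ} (g : Pr n → Bool) : SimpleGraph (Fin n) :=
  SimpleGraph.fromEdgeSet (mk2 '' {e | g e = true})

theorem edgeSet_toG {n : ℕ} (g : Pr n → Bool) : (toG g).edgeSet = mk2 '' {e | g e = true} := by
  unfold toG
  rw [SimpleGraph.edgeSet_fromEdgeSet]
  ext x
  constructor
  · exact fun h => h.1
  · intro h
    refine ⟨h, ?_⟩
    obtain ⟨e, _, rfl⟩ := h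
    simp only [mk2, Sym2.mem_diagSet, Sym2.mk_isDiag_iff]
    exact ne_of_lt e.2

theorem toG_inj {n : ℕ} : Function.Injective (toG (n := n)) := by
  intro g g' h
  have h1 : mk2 '' {e | g e = true} = mk2 '' {e | g' e = true} := by
    rw [← edgeSet_toG, ← edgeSet_toG, h]
  have h2 := (Set.image_injective.2 mk2_inj) h1
  funext e
  have h3 : (e ∈ {e | g e = true}) ↔ (e ∈ {e | g' e = true}) := by rw [h2]
  simp only [Set.mem_ofPred_eq] at h3
  exact Bool.eq_iff_iff.2 h3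

theorem toG_surj {n : ℕ} : Function.Surjective (toG (n := n)) := by
  classical
  intro G
  refine ⟨fun e => decide (G.Adj e.1.1 e.1.2), ?_⟩
  rw [← SimpleGraph.edgeSet_inj, edgeSet_toG]
  ext x
  constructor
  · rintro ⟨e, he, rfl⟩
    simpa [mk2] using he
  · induction x using Sym2.ind with
    | _ a b =>
      intro h
      have h' : G.Adj a b := h
      rcases lt_or_gt_of_ne h'.ne with hl | hl
      · exact ⟨⟨(a, b), hl⟩, by simpa using h', rfl⟩
      · exact ⟨⟨(b, a), hl⟩, by simpa using h'.symm, by simp [mk2]⟩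

theorem ncard_toG {n : ℕ} (g : Pr n → Bool) : (toG g).edgeSet.ncard = wt g := by
  rw [edgeSet_toG, Set.ncard_image_of_injective _ mk2_inj, wt, ← Set.ncard_coe_finset]
  congr 1
  ext e
  simp

theorem dif_toG {n : ℕ} (g g' : Pr n → Bool) :
    ((toG g).edgeSet \ (toG g').edgeSet).ncard = dif g g' := by
  rw [edgeSet_toG, edgeSet_toG, ← Set.image_sdiff mk2_inj, Set.ncard_image_of_injective _ mk2_inj,
    dif, ← Set.ncard_coe_finset]
  congr 1
  ext e
  simp

theorem adj_toG {n : ℕ} (g : Pr n → Bool) (e : Pr n) (h : g e = true) :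
    (toG g).Adj e.1.1 e.1.2 := by
  have : mk2 e ∈ (toG g).edgeSet := by
    rw [edgeSet_toG]
    exact ⟨e, h, rfl⟩
  exact this

open Classical in
theorem ncard_lvl {n : ℕ} (M : ℕ) (Q : SimpleGraph (Fin n) → Prop) :
    Set.ncard {G : SimpleGraph (Fin n) | G.edgeSet.ncard = M ∧ Q G} =
      ((lvl (Pr n) M).filter fun g => Q (toG g)).card := by
  rw [← Set.ncard_coe_finset, ← Set.ncard_image_of_injective _ toG_inj]
  congr 1
  ext G
  obtain ⟨g, rfl⟩ := toG_surj G
  rw [toG_inj.mem_set_image]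
  simp [lvl, ncard_toG]

theorem ncard_lvl' {n : ℕ} (M : ℕ) :
    Set.ncard {G : SimpleGraph (Fin n) | G.edgeSet.ncard = M} = (lvl (Pr n) M).card := by
  have := ncard_lvl (n := n) M fun _ => True
  simpa using this

theorem moves_eq {n : ℕ} (M : ℕ) :
    {x : SimpleGraph (Fin n) × SimpleGraph (Fin n) | x.1.edgeSet.ncard = M ∧
      x.2.edgeSet.ncard = M ∧ (x.1.edgeSet \ x.2.edgeSet).ncard = 1} =
      Prod.map toG toG '' (adj (Pr n) M : Set ((Pr n → Bool) × (Pr n → Bool))) := by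
  ext ⟨G, H⟩
  obtain ⟨g, rfl⟩ := toG_surj G
  obtain ⟨h, rfl⟩ := toG_surj H
  have hi : Function.Injective (Prod.map (toG (n := n)) (toG (n := n))) := toG_inj.prodMap toG_inj
  have : (toG g, toG h) = Prod.map toG toG (g, h) := rfl
  rw [this, hi.mem_set_image]
  simp only [Set.mem_ofPred_eq, Prod.map_fst, Prod.map_snd, ncard_toG, dif_toG]
  simp [adj]

theorem ncard_moves {n : ℕ} (M : ℕ) :
    Set.ncard {x : SimpleGraph (Fin n) × SimpleGraph (Fin n) | x.1.edgeSet.ncard = M ∧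
      x.2.edgeSet.ncard = M ∧ (x.1.edgeSet \ x.2.edgeSet).ncard = 1} = (adj (Pr n) M).card := by
  rw [moves_eq, Set.ncard_image_of_injective _ (toG_inj.prodMap toG_inj), Set.ncard_coe_finset]

theorem finsum_moves {n : ℕ} (M : ℕ) (f : SimpleGraph (Fin n) × SimpleGraph (Fin n) → ℝ) :
    ∑ᶠ x ∈ {x : SimpleGraph (Fin n) × SimpleGraph (Fin n) | x.1.edgeSet.ncard = M ∧
      x.2.edgeSet.ncard = M ∧ (x.1.edgeSet \ x.2.edgeSet).ncard = 1}, f x =
      ∑ z ∈ adj (Pr n) M, f (toG z.1, toG z.2) := by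
  rw [moves_eq, finsum_mem_image (toG_inj.prodMap toG_inj).injOn, finsum_mem_coe_finset]
  rfl

end Pool.Agent.Lib.MP_1b5cbf_lc.Bar.Dress
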