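import Pool.Agent.Lib.MP_1b5cbf_lc.Bar.GnMSt

/-! Transfer to a fixed number of edges: symmetry and the padding map. -/

set_option autoImplicit false

namespace Pool.Agent.Lib.MP_1b5cbf_lc.Bar

open Finset

namespace GnM

lemma orbit_avg {Γ Z : Type} [Group Γ] [Fintype Γ] (a : Γ → Z → Z)
    (ha : ∀ σ τ z, a (σ * τ) z = a σ (a τ z)) (h1 : ∀ z, a 1 z = z) (Y : Finset Z)
    (hY : ∀ σ, ∀ y ∈ Y, a σ y ∈ Y) (x : Z) (htr : ∀ y ∈ Y, ∃ τ, a τ x = y) (φ : Z → ℝ) :
    (Y.card : ℝ) * ∑ σ, φ (a σ x) = (Fintype.card Γ : ℝ) * ∑ y ∈ Y, φ y := by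
  have e1 : ∀ y ∈ Y, ∑ σ, φ (a σ y) = ∑ σ, φ (a σ x) := by
    intro y hy
    obtain ⟨τ, rfl⟩ := htr y hy
    exact Fintype.sum_equiv (Equiv.mulRight τ) _ _ fun σ => by simp [ha]
  have e2 : ∀ σ, ∑ y ∈ Y, φ (a σ y) = ∑ y ∈ Y, φ y := by
    intro σ
    refine sum_bij' (fun y _ => a σ y) (fun y _ => a σ⁻¹ y) (fun y hy => hY σ y hy)
      (fun y hy => hY σ⁻¹ y hy) ?_ ?_ (fun _ _ => rfl)
    · intro y _; rw [← ha, inv_mul_cancel, h1]
    · intro y _; rw [← ha, mul_inv_cancel, h1]
  calc (Y.card : ℝ) * ∑ σ, φ (a σ x) = ∑ y ∈ Y, ∑ σ, φ (a σ y) := by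
        rw [sum_congr rfl e1, sum_const, nsmul_eq_mul]
    _ = ∑ σ : Γ, ∑ y ∈ Y, φ (a σ y) := sum_comm
    _ = _ := by rw [sum_congr rfl fun σ _ => e2 σ, sum_const, card_univ, nsmul_eq_mul]

variable {P : Type} [Fintype P] [DecidableEq P]

/-- relabelling of the pairs -/
def act (σ : Equiv.Perm P) (x : P → Bool) : P → Bool := fun e => x (σ⁻¹ e)

omit [Fintype P] [DecidableEq P] in
lemma act_mul (σ τ : Equiv.Perm P) (x : P → Bool) : act (σ * τ) x = act σ (act τ x) := by
  funext e; simp [act]

omit [Fintype P] [DecidableEq P] in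
lemma act_one (x : P → Bool) : act 1 x = x := by
  funext e; simp [act]

omit [DecidableEq P] in
lemma card_perm (σ : Equiv.Perm P) (Q : P → Prop) [DecidablePred Q] :
    (univ.filter fun e => Q (σ e)).card = (univ.filter Q).card :=
  card_equiv σ (by simp)

omit [DecidableEq P] in
lemma wt_act (σ : Equiv.Perm P) (x : P → Bool) : wt (act σ x) = wt x :=
  card_perm σ⁻¹ fun e => x e = true

omit [DecidableEq P] in
lemma dif_act (σ : Equiv.Perm P) (x y : P → Bool) : dif (act σ x) (act σ y) = dif x y :=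
  card_perm σ⁻¹ fun e => x e = true ∧ y e = false

omit [DecidableEq P] in
lemma exists_perm {β : Type} [DecidableEq β] (f g : P → β)
    (h : ∀ c, (univ.filter fun e => f e = c).card = (univ.filter fun e => g e = c).card) :
    ∃ τ : Equiv.Perm P, ∀ e, g (τ e) = f e := by
  have hc : ∀ c, Fintype.card {a // f a = c} = Fintype.card {a // g a = c} := fun c => by
    rw [Fintype.card_subtype, Fintype.card_subtype, h]
  exact ⟨Equiv.ofFiberEquiv fun c => Fintype.equivOfCardEq (hc c),
    fun e => Equiv.ofFiberEquiv_map _ e⟩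

omit [DecidableEq P] in
lemma wt_false (x : P → Bool) :
    wt x + (univ.filter fun e => x e = false).card = Fintype.card P := by
  unfold wt
  rw [card_filter, card_filter, ← sum_add_distrib, ← card_univ, card_eq_sum_ones]
  refine sum_congr rfl fun e _ => ?_
  cases x e <;> simp

lemma lvl_trans (M : ℕ) (x : P → Bool) (hx : wt x = M) :
    ∀ y ∈ lvl P M, ∃ τ, act τ x = y := by
  intro y hy
  have hy' : wt y = M := (mem_filter.1 hy).2
  obtain ⟨τ, hτ⟩ := exists_perm x y (by
    intro c
    cases c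
    · have := wt_false x; have := wt_false y; omega
    · exact hx.trans hy'.symm)
  exact ⟨τ, funext fun e => by simp [act, ← hτ]⟩

/-- number of pairs with given states in two graphs -/
def cc (x y : P → Bool) (c : Bool × Bool) : ℕ := (univ.filter fun e => (x e, y e) = c).card

omit [DecidableEq P] in
lemma cc_facts (x y : P → Bool) :
    wt x = cc x y (true, true) + cc x y (true, false) ∧
    wt y = cc x y (true, true) + cc x y (false, true) ∧
    dif x y = cc x y (true, false) ∧
    Fintype.card P = cc x y (true, true) + cc x y (true, false) + cc x y (false, true)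
      + cc x y (false, false) := by
  unfold wt dif cc
  rw [← card_univ, card_eq_sum_ones (univ : Finset P)]
  simp only [card_filter, ← sum_add_distrib]
  refine ⟨?_, ?_, ?_, ?_⟩ <;> refine sum_congr rfl fun e _ => ?_ <;>
    cases x e <;> cases y e <;> simp

lemma adj_trans (M : ℕ) (z : (P → Bool) × (P → Bool)) (hz : z ∈ adj P M) :
    ∀ y ∈ adj P M, ∃ τ, (act τ z.1, act τ z.2) = y := by
  intro y hy
  obtain ⟨a1, a2, a3⟩ := (mem_filter.1 hz).2
  obtain ⟨b1, b2, b3⟩ := (mem_filter.1 hy).2
  obtain ⟨c1, c2, c3, c4⟩ := cc_facts z.1 z.2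
  obtain ⟨d1, d2, d3, d4⟩ := cc_facts y.1 y.2
  obtain ⟨τ, hτ⟩ := exists_perm (fun e => (z.1 e, z.2 e)) (fun e => (y.1 e, y.2 e)) (by
    intro c
    change cc z.1 z.2 c = cc y.1 y.2 c
    obtain ⟨c, c'⟩ := c
    cases c <;> cases c' <;> omega)
  refine ⟨τ, Prod.ext (funext fun e => ?_) (funext fun e => ?_)⟩
  · have := congrArg Prod.fst (hτ (τ⁻¹ e)); simpa [act] using this.symm
  · have := congrArg Prod.snd (hτ (τ⁻¹ e)); simpa [act] using this.symm

lemma avg_lvl (M : ℕ) (x : P → Bool) (hx : wt x = M) (φ : (P → Bool) → ℝ) :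
    ((lvl P M).card : ℝ) * ∑ σ, φ (act σ x)
      = (Fintype.card (Equiv.Perm P) : ℝ) * ∑ y ∈ lvl P M, φ y :=
  orbit_avg act act_mul act_one _ (fun σ y hy => by
    have : wt y = M := (mem_filter.1 hy).2
    exact mem_filter.2 ⟨mem_univ _, by rw [wt_act, this]⟩) x (lvl_trans M x hx) φ

lemma avg_adj (M : ℕ) (z : (P → Bool) × (P → Bool)) (hz : z ∈ adj P M)
    (φ : (P → Bool) × (P → Bool) → ℝ) :
    ((adj P M).card : ℝ) * ∑ σ : Equiv.Perm P, φ (act σ z.1, act σ z.2)
      = (Fintype.card (Equiv.Perm P) : ℝ) * ∑ y ∈ adj P M, φ y :=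
  orbit_avg (fun σ (z : (P → Bool) × (P → Bool)) => (act σ z.1, act σ z.2))
    (fun σ τ z => by simp [act_mul]) (fun z => by simp [act_one]) _ (fun σ y hy => by
      obtain ⟨b1, b2, b3⟩ := (mem_filter.1 hy).2
      exact mem_filter.2 ⟨mem_univ _, by rw [wt_act, b1], by rw [wt_act, b2],
        by rw [dif_act, b3]⟩) z (adj_trans M z hz) φ

lemma exists_low (key : P → ℕ) (hk : Function.Injective key) (M : ℕ) (hM : M ≤ Fintype.card P) :
    ∃ S : Finset P, S.card = M ∧ ∀ a ∈ S, ∀ b ∉ S, key a < key b := by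
  induction M with
  | zero => exact ⟨∅, rfl, by simp⟩
  | succ M ih =>
    obtain ⟨S, hS, hl⟩ := ih (by omega)
    have hne : (Sᶜ).Nonempty := by
      rw [← card_pos, card_compl]; omega
    obtain ⟨b0, hb0, hmin⟩ := exists_min_image Sᶜ key hne
    have hb0' : b0 ∉ S := mem_compl.1 hb0
    refine ⟨insert b0 S, by rw [card_insert_of_notMem hb0', hS], ?_⟩
    intro a ha b hb
    rw [mem_insert, not_or] at hb
    rcases mem_insert.1 ha with rfl | ha
    · exact lt_of_le_of_ne (hmin b (mem_compl.2 hb.2)) fun h => hb.1 (hk h).symm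
    · exact hl a ha b hb.2

/-- edges first -/
noncomputable def key (g : P → Bool) (e : P) : ℕ :=
  (if g e = true then 0 else Fintype.card P) + (Fintype.equivFin P e : ℕ)

omit [DecidableEq P] in
lemma key_inj (g : P → Bool) : Function.Injective (key g) := by
  intro a b h
  have ha := (Fintype.equivFin P a).2
  have hb := (Fintype.equivFin P b).2
  unfold key at h
  apply (Fintype.equivFin P).injective
  apply Fin.ext
  split_ifs at h <;> omega

lemma exists_pad (M : ℕ) (hM : M ≤ Fintype.card P) :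
    ∃ hb : (P → Bool) → (P → Bool), (∀ g, wt (hb g) = M) ∧
      (∀ g, wt g ≤ M → ∀ e, g e = true → hb g e = true) ∧
      ∀ g i, hb (Function.update g i true) = hb (Function.update g i false) ∨
        dif (hb (Function.update g i true)) (hb (Function.update g i false)) = 1 := by
  choose S hS hl using fun g : P → Bool => exists_low (key g) (key_inj g) M hM
  refine ⟨fun g e => decide (e ∈ S g), fun g => ?_, fun g hg e he => ?_, fun g i => ?_⟩
  · rw [← hS g]; unfold wt; congr 1; ext e; simp
  · by_contra hn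
    have hn' : e ∉ S g := by simpa using hn
    have hsub : S g ⊆ (univ.filter fun e => g e = true).erase e := by
      intro a ha
      have h1 := hl g a ha e hn'
      have h2 := (Fintype.equivFin P e).2
      refine mem_erase.2 ⟨fun h => hn' (h ▸ ha), mem_filter.2 ⟨mem_univ _, ?_⟩⟩
      by_contra hga
      unfold key at h1
      rw [if_neg hga, if_pos he] at h1
      omega
    have h3 := card_le_card hsub
    have he' : e ∈ univ.filter fun e => g e = true := mem_filter.2 ⟨mem_univ _, he⟩
    rw [card_erase_of_mem he', hS] at h3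
    have h4 := card_pos.2 ⟨e, he'⟩
    unfold wt at hg
    omega
  · set g1 := Function.update g i false
    set g2 := Function.update g i true
    have hle : ∀ b, key g2 b ≤ key g1 b := by
      intro b
      unfold key
      by_cases h : b = i
      · subst h; simp [g1, g2]
      · simp [g1, g2, Function.update_of_ne h]
    have heq : ∀ b, b ≠ i → key g2 b = key g1 b := by
      intro b h
      unfold key
      simp [g1, g2, Function.update_of_ne h]
    have hsub : S g2 \ S g1 ⊆ {i} := by
      intro a ha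
      rw [mem_sdiff] at ha
      rw [mem_singleton]
      by_contra hai
      have hc : (S g1 \ S g2).Nonempty := by
        rw [← card_pos, card_sdiff_comm (by rw [hS, hS]), card_pos]
        exact ⟨a, mem_sdiff.2 ha⟩
      obtain ⟨b, hb⟩ := hc
      rw [mem_sdiff] at hb
      have h1 := hl g1 b hb.1 a ha.2
      have h2 := hl g2 a ha.1 b hb.2
      have h3 := hle b
      have h4 := heq a hai
      omega
    have hd : dif (fun e => decide (e ∈ S g2)) (fun e => decide (e ∈ S g1))
        = (S g2 \ S g1).card := by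
      unfold dif; congr 1; ext e; simp
    rcases subset_singleton_iff.1 hsub with h | h
    · left
      have : S g2 = S g1 :=
        eq_of_subset_of_card_le (sdiff_eq_empty_iff_subset.1 h) (by rw [hS, hS])
      simp only [this]
    · right
      rw [hd, h, card_singleton]

end GnM

end Pool.Agent.Lib.MP_1b5cbf_lc.Bar
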