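import Pool.Agent.Lib.MP_1b5cbf_lc.Bar.St

/-! The statement on bit vectors with a fixed number of edges. -/

set_option autoImplicit false

namespace Pool.Agent.Lib.MP_1b5cbf_lc.Bar

open Finset

/-- number of edges -/
def wt {P : Type} [Fintype P] (g : P → Bool) : ℕ := (univ.filter fun e => g e = true).card

/-- number of edges of `g` that are not edges of `g'` -/
def dif {P : Type} [Fintype P] (g g' : P → Bool) : ℕ :=
  (univ.filter fun e => g e = true ∧ g' e = false).card

/-- graphs with `M` edges -/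
def lvl (P : Type) [Fintype P] [DecidableEq P] (M : ℕ) : Finset (P → Bool) :=
  univ.filter fun g => wt g = M

/-- ordered pairs of graphs with `M` edges that differ by moving one edge -/
def adj (P : Type) [Fintype P] [DecidableEq P] (M : ℕ) : Finset ((P → Bool) × (P → Bool)) :=
  univ.filter fun z => wt z.1 = M ∧ wt z.2 = M ∧ dif z.1 z.2 = 1

open Classical in
/-- the theorem on bit vectors with exactly `M` edges -/
def MainMSt : Prop := ∃ C d0 : ℝ, ∀ d ≥ d0, ∀ δ > 0, ∃ η > 0, ∃ n0 : ℕ, ∀ n ≥ n0, ∀ M : ℕ,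
  (d + 1) * n / 2 - 1 ≤ (M : ℝ) → ∀ B : (Pr n → Bool) → Finset (Fin n),
    ∑ z ∈ adj (Pr n) M, ((symmDiff (B z.1) (B z.2)).card : ℝ) ^ 2 ≤
      η * n * ((adj (Pr n) M).card : ℝ) →
    (((lvl (Pr n) M).filter fun g => Ind B g ∧
      (Real.log d + C * Real.log (Real.log d)) * n / d ≤ ((B g).card : ℝ)).card : ℝ) ≤
      δ * ((lvl (Pr n) M).card : ℝ)

end Pool.Agent.Lib.MP_1b5cbf_lc.Bar
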