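import Pool.Agent.Lib.MP_1b5cbf_lc.Bar.St

set_option autoImplicit false

namespace Pool.Agent.Lib.MP_1b5cbf_lc.Bar.KU

open Finset

lemma h40_point (e N m : ℕ) (h1 : 8 ^ e < m) (h2 : m ≤ 8 ^ (e + N)) :
    (1 : ℝ) / m ≤ ∑ j ∈ range N, if m ≤ 8 ^ (e + j + 1) then (1 : ℝ) / 8 ^ (e + j) else 0 := by
  induction N with
  | zero => simp at h2; omega
  | succ N ih =>
    rw [sum_range_succ]
    by_cases h : m ≤ 8 ^ (e + N)
    · have := ih h
      have h0 : (0 : ℝ) ≤ if m ≤ 8 ^ (e + N + 1) then (1 : ℝ) / 8 ^ (e + N) else 0 := by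
        split_ifs <;> positivity
      linarith
    · have h3 : m ≤ 8 ^ (e + N + 1) := by rw [add_assoc]; exact h2
      rw [if_pos h3]
      have h4 : (0 : ℝ) ≤ ∑ j ∈ range N,
          if m ≤ 8 ^ (e + j + 1) then (1 : ℝ) / 8 ^ (e + j) else 0 :=
        sum_nonneg fun j _ => by split_ifs <;> positivity
      have h5 : (8 : ℝ) ^ (e + N) ≤ m := by
        have : 8 ^ (e + N) ≤ m := by omega
        exact_mod_cast this
      have h6 : (1 : ℝ) / m ≤ 1 / 8 ^ (e + N) :=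
        one_div_le_one_div_of_le (by positivity) h5
      linarith

lemma h40_geom (q : ℝ) (hq : 0 ≤ q) (hq1 : q < 1) (N : ℕ) :
    ∑ j ∈ range N, q ^ j ≤ 1 / (1 - q) := by
  have h : (∑ j ∈ range N, q ^ j) * (1 - q) = 1 - q ^ N := by
    have := geom_sum_mul_neg q N
    linarith
  have h1 : 0 < 1 - q := by linarith
  rw [le_div_iff₀ h1, h]
  have := pow_nonneg hq N
  linarith

lemma h40_le_pow (e m N : ℕ) (h : m ≤ N) : m ≤ 8 ^ (e + N) := by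
  have h1 : N < 8 ^ N := Nat.lt_pow_self (by norm_num)
  have h2 : 8 ^ N ≤ 8 ^ (e + N) := Nat.pow_le_pow_right (by norm_num) (by omega)
  omega

variable {α : Type*} [Fintype α]

/-- `theta` is nonnegative under (U). -/
lemma theta_nonneg (ρ : α → ℝ) (hρ : ∀ a, 0 ≤ ρ a) (s : α → ℕ) (θ : ℝ)
    (hU : ∀ c : ℕ, (∑ a, if s a ≤ 8 ^ c then ρ a else 0) ≤ 4 * θ * 2 ^ c) : 0 ≤ θ := by
  have h := hU 0
  have h0 : (0 : ℝ) ≤ ∑ a, if s a ≤ 8 ^ 0 then ρ a else 0 :=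
    sum_nonneg fun a _ => by split_ifs; exacts [hρ a, le_rfl]
  simp only [pow_zero, mul_one] at h h0
  linarith

/-- tail of the first moment of `w = 1 / s`. -/
theorem tail_le (ρ : α → ℝ) (hρ : ∀ a, 0 ≤ ρ a) (s : α → ℕ) (θ : ℝ)
    (hU : ∀ c : ℕ, (∑ a, if s a ≤ 8 ^ c then ρ a else 0) ≤ 4 * θ * 2 ^ c) (e : ℕ) :
    (∑ a, if 8 ^ e < s a then ρ a * (1 / (s a : ℝ)) else 0) ≤ 11 * θ / 4 ^ e := by
  have hθ := theta_nonneg ρ hρ s θ hU
  set N := univ.sup s with hN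
  have h1 : (∑ a, if 8 ^ e < s a then ρ a * (1 / (s a : ℝ)) else 0) ≤
      ∑ a, ∑ j ∈ range N,
        (1 : ℝ) / 8 ^ (e + j) * (if s a ≤ 8 ^ (e + j + 1) then ρ a else 0) := by
    refine sum_le_sum fun a _ => ?_
    split_ifs with h
    · have h2 := h40_point e N (s a) h (h40_le_pow e _ N (le_sup (f := s) (mem_univ a)))
      calc ρ a * (1 / (s a : ℝ)) ≤ ρ a * ∑ j ∈ range N,
            if s a ≤ 8 ^ (e + j + 1) then (1 : ℝ) / 8 ^ (e + j) else 0 :=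
            mul_le_mul_of_nonneg_left h2 (hρ a)
        _ = _ := by
            rw [mul_sum]
            refine sum_congr rfl fun j _ => ?_
            split_ifs <;> ring
    · refine sum_nonneg fun j _ => mul_nonneg (by positivity) ?_
      split_ifs; exacts [hρ a, le_rfl]
  rw [sum_comm] at h1
  have h2 : ∀ j ∈ range N, (∑ a, (1 : ℝ) / 8 ^ (e + j) *
      (if s a ≤ 8 ^ (e + j + 1) then ρ a else 0)) ≤ 8 * θ / 4 ^ e * (1 / 4) ^ j := by
    intro j _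
    rw [← mul_sum]
    calc (1 : ℝ) / 8 ^ (e + j) * ∑ a, (if s a ≤ 8 ^ (e + j + 1) then ρ a else 0)
        ≤ (1 : ℝ) / 8 ^ (e + j) * (4 * θ * 2 ^ (e + j + 1)) :=
          mul_le_mul_of_nonneg_left (hU _) (by positivity)
      _ = 8 * θ / 4 ^ e * (1 / 4) ^ j := by
          have h8 : (8 : ℝ) ^ (e + j) = 2 ^ (e + j) * (4 ^ e * 4 ^ j) := by
            rw [← pow_add, ← mul_pow]; norm_num
          rw [h8, pow_succ, one_div_pow]
          field_simp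
          ring
  have h3 := sum_le_sum h2
  rw [← mul_sum] at h3
  have h4 := h40_geom (1 / 4) (by norm_num) (by norm_num) N
  have h5 : 8 * θ / 4 ^ e * ∑ j ∈ range N, (1 / 4 : ℝ) ^ j ≤ 8 * θ / 4 ^ e * (1 / (1 - 1 / 4)) :=
    mul_le_mul_of_nonneg_left h4 (by positivity)
  have h6 : 8 * θ / 4 ^ e * (1 / (1 - 1 / 4)) ≤ 11 * θ / 4 ^ e := by
    have : 0 ≤ θ / 4 ^ e := by positivity
    have e1 : 8 * θ / 4 ^ e * (1 / (1 - 1 / 4)) = 32 / 3 * (θ / 4 ^ e) := by ring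
    have e2 : 11 * θ / 4 ^ e = 11 * (θ / 4 ^ e) := by ring
    rw [e1, e2]; linarith
  linarith

/-- `u <= 15 theta`. -/
theorem u_le (ρ : α → ℝ) (hρ : ∀ a, 0 ≤ ρ a) (s : α → ℕ) (hs : ∀ a, 1 ≤ s a) (θ : ℝ)
    (hU : ∀ c : ℕ, (∑ a, if s a ≤ 8 ^ c then ρ a else 0) ≤ 4 * θ * 2 ^ c) :
    (∑ a, ρ a * (1 / (s a : ℝ))) ≤ 15 * θ := by
  have h1 := tail_le ρ hρ s θ hU 0
  have h2 := hU 0
  simp only [pow_zero, mul_one, div_one] at h1 h2
  have h3 : (∑ a, ρ a * (1 / (s a : ℝ))) ≤ (∑ a, if s a ≤ 1 then ρ a else 0) +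
      ∑ a, if 1 < s a then ρ a * (1 / (s a : ℝ)) else 0 := by
    rw [← sum_add_distrib]
    refine sum_le_sum fun a _ => ?_
    by_cases h : s a ≤ 1
    · have : s a = 1 := le_antisymm h (hs a)
      simp [this]
    · rw [if_neg h, if_pos (by omega)]; simp
  linarith

/-- pairs whose larger size exceeds `8 ^ e`. -/
theorem pair_tail_le (ρ : α → ℝ) (hρ : ∀ a, 0 ≤ ρ a) (s : α → ℕ) (θ : ℝ)
    (hU : ∀ c : ℕ, (∑ a, if s a ≤ 8 ^ c then ρ a else 0) ≤ 4 * θ * 2 ^ c) (e : ℕ) :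
    (∑ a, ∑ b, if 8 ^ e < max (s a) (s b) then
      ρ a * ρ b * (1 / ((max (s a) (s b) : ℕ) : ℝ)) else 0) ≤ 128 * θ ^ 2 / 2 ^ e := by
  have hθ := theta_nonneg ρ hρ s θ hU
  set N := univ.sup s with hN
  have hW : ∀ c, (0 : ℝ) ≤ ∑ a, if s a ≤ 8 ^ c then ρ a else 0 := fun c =>
    sum_nonneg fun a _ => by split_ifs; exacts [hρ a, le_rfl]
  have h1 : (∑ a, ∑ b, if 8 ^ e < max (s a) (s b) then
      ρ a * ρ b * (1 / ((max (s a) (s b) : ℕ) : ℝ)) else 0) ≤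
      ∑ a, ∑ b, ∑ j ∈ range N, (1 : ℝ) / 8 ^ (e + j) *
        ((if s a ≤ 8 ^ (e + j + 1) then ρ a else 0) *
          (if s b ≤ 8 ^ (e + j + 1) then ρ b else 0)) := by
    refine sum_le_sum fun a _ => sum_le_sum fun b _ => ?_
    split_ifs with h
    · have hm : max (s a) (s b) ≤ N :=
        max_le (le_sup (f := s) (mem_univ a)) (le_sup (f := s) (mem_univ b))
      have h2 := h40_point e N _ h (h40_le_pow e _ N hm)
      calc ρ a * ρ b * (1 / ((max (s a) (s b) : ℕ) : ℝ)) ≤ ρ a * ρ b * ∑ j ∈ range N,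
            if max (s a) (s b) ≤ 8 ^ (e + j + 1) then (1 : ℝ) / 8 ^ (e + j) else 0 :=
            mul_le_mul_of_nonneg_left h2 (mul_nonneg (hρ a) (hρ b))
        _ = _ := by
            rw [mul_sum]
            refine sum_congr rfl fun j _ => ?_
            by_cases ha : s a ≤ 8 ^ (e + j + 1) <;> by_cases hb : s b ≤ 8 ^ (e + j + 1) <;>
              simp [ha, hb]
            ring
    · refine sum_nonneg fun j _ => mul_nonneg (by positivity) (mul_nonneg ?_ ?_)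
      · split_ifs; exacts [hρ a, le_rfl]
      · split_ifs; exacts [hρ b, le_rfl]
  have h1' : (∑ a, ∑ b, ∑ j ∈ range N, (1 : ℝ) / 8 ^ (e + j) *
        ((if s a ≤ 8 ^ (e + j + 1) then ρ a else 0) *
          (if s b ≤ 8 ^ (e + j + 1) then ρ b else 0))) =
      ∑ j ∈ range N, (1 : ℝ) / 8 ^ (e + j) *
        (∑ a, if s a ≤ 8 ^ (e + j + 1) then ρ a else 0) ^ 2 := by
    have : ∀ a, (∑ b, ∑ j ∈ range N, (1 : ℝ) / 8 ^ (e + j) *
        ((if s a ≤ 8 ^ (e + j + 1) then ρ a else 0) *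
          (if s b ≤ 8 ^ (e + j + 1) then ρ b else 0))) =
        ∑ j ∈ range N, ∑ b, (1 : ℝ) / 8 ^ (e + j) *
        ((if s a ≤ 8 ^ (e + j + 1) then ρ a else 0) *
          (if s b ≤ 8 ^ (e + j + 1) then ρ b else 0)) := fun a => sum_comm
    rw [sum_congr rfl fun a _ => this a, sum_comm]
    refine sum_congr rfl fun j _ => ?_
    rw [sq, sum_mul_sum, mul_sum]
    refine sum_congr rfl fun a _ => ?_
    rw [mul_sum]
  rw [h1'] at h1
  have h2 : ∀ j ∈ range N, (1 : ℝ) / 8 ^ (e + j) *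
        (∑ a, if s a ≤ 8 ^ (e + j + 1) then ρ a else 0) ^ 2 ≤
      64 * θ ^ 2 / 2 ^ e * (1 / 2) ^ j := by
    intro j _
    calc (1 : ℝ) / 8 ^ (e + j) * (∑ a, if s a ≤ 8 ^ (e + j + 1) then ρ a else 0) ^ 2
        ≤ (1 : ℝ) / 8 ^ (e + j) * (4 * θ * 2 ^ (e + j + 1)) ^ 2 :=
          mul_le_mul_of_nonneg_left (pow_le_pow_left₀ (hW _) (hU _) 2) (by positivity)
      _ = 64 * θ ^ 2 / 2 ^ e * (1 / 2) ^ j := by
          have h8 : (8 : ℝ) ^ (e + j) = (2 ^ (e + j)) ^ 2 * (2 ^ e * 2 ^ j) := by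
            rw [← pow_add, ← pow_succ, ← pow_mul, mul_comm (e + j), pow_mul]; norm_num
          rw [h8, pow_succ (2 : ℝ) (e + j), one_div_pow]
          field_simp
          ring
  have h3 := sum_le_sum h2
  rw [← mul_sum] at h3
  have h4 := h40_geom (1 / 2) (by norm_num) (by norm_num) N
  have h5 : 64 * θ ^ 2 / 2 ^ e * ∑ j ∈ range N, (1 / 2 : ℝ) ^ j ≤
      64 * θ ^ 2 / 2 ^ e * (1 / (1 - 1 / 2)) :=
    mul_le_mul_of_nonneg_left h4 (by positivity)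
  have h6 : 64 * θ ^ 2 / 2 ^ e * (1 / (1 - 1 / 2)) = 128 * θ ^ 2 / 2 ^ e := by ring
  linarith

lemma min_eq_max (m n : ℕ) (hm : 1 ≤ m) (hn : 1 ≤ n) :
    min (1 / (m : ℝ)) (1 / (n : ℝ)) = 1 / ((max m n : ℕ) : ℝ) := by
  rcases le_total m n with h | h
  · rw [max_eq_right h, min_eq_right]
    exact one_div_le_one_div_of_le (by exact_mod_cast hm) (by exact_mod_cast h)
  · rw [max_eq_left h, min_eq_left]
    exact one_div_le_one_div_of_le (by exact_mod_cast hn) (by exact_mod_cast h)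

/-- the same with `min (w, w')`. -/
theorem pair_tail_min_le (ρ : α → ℝ) (hρ : ∀ a, 0 ≤ ρ a) (s : α → ℕ) (hs : ∀ a, 1 ≤ s a) (θ : ℝ)
    (hU : ∀ c : ℕ, (∑ a, if s a ≤ 8 ^ c then ρ a else 0) ≤ 4 * θ * 2 ^ c) (e : ℕ) :
    (∑ a, ∑ b, if 8 ^ e < max (s a) (s b) then
      ρ a * ρ b * min (1 / (s a : ℝ)) (1 / (s b : ℝ)) else 0) ≤ 128 * θ ^ 2 / 2 ^ e := by
  have := pair_tail_le ρ hρ s θ hU e
  simpa only [min_eq_max _ _ (hs _) (hs _)] using this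

/-- `Q <= 144 theta ^ 2`. -/
theorem Q_le (ρ : α → ℝ) (hρ : ∀ a, 0 ≤ ρ a) (s : α → ℕ) (hs : ∀ a, 1 ≤ s a) (θ : ℝ)
    (hU : ∀ c : ℕ, (∑ a, if s a ≤ 8 ^ c then ρ a else 0) ≤ 4 * θ * 2 ^ c) :
    (∑ a, ∑ b, ρ a * ρ b * min (1 / (s a : ℝ)) (1 / (s b : ℝ))) ≤ 144 * θ ^ 2 := by
  have h1 := pair_tail_min_le ρ hρ s hs θ hU 0
  have h2 := hU 0
  simp only [pow_zero, mul_one, div_one] at h1 h2
  have hW : (0 : ℝ) ≤ ∑ a, if s a ≤ 1 then ρ a else 0 :=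
    sum_nonneg fun a _ => by split_ifs; exacts [hρ a, le_rfl]
  have h3 : (∑ a, ∑ b, ρ a * ρ b * min (1 / (s a : ℝ)) (1 / (s b : ℝ))) ≤
      (∑ a, if s a ≤ 1 then ρ a else 0) ^ 2 +
      ∑ a, ∑ b, if 1 < max (s a) (s b) then
        ρ a * ρ b * min (1 / (s a : ℝ)) (1 / (s b : ℝ)) else 0 := by
    rw [sq, sum_mul_sum, ← sum_add_distrib]
    refine sum_le_sum fun a _ => ?_
    rw [← sum_add_distrib]
    refine sum_le_sum fun b _ => ?_
    by_cases h : 1 < max (s a) (s b)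
    · rw [if_pos h]
      have : 0 ≤ (if s a ≤ 1 then ρ a else 0) * (if s b ≤ 1 then ρ b else 0) := by
        refine mul_nonneg ?_ ?_
        · split_ifs; exacts [hρ a, le_rfl]
        · split_ifs; exacts [hρ b, le_rfl]
      linarith
    · have ha : s a = 1 := by have := hs a; have := le_max_left (s a) (s b); omega
      have hb : s b = 1 := by have := hs b; have := le_max_right (s a) (s b); omega
      simp [ha, hb]
  have h4 := pow_le_pow_left₀ hW h2 2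
  nlinarith

theorem Q_le' (ρ : α → ℝ) (hρ : ∀ a, 0 ≤ ρ a) (s : α → ℕ) (hs : ∀ a, 1 ≤ s a) (θ : ℝ)
    (hU : ∀ c : ℕ, (∑ a, if s a ≤ 8 ^ c then ρ a else 0) ≤ 4 * θ * 2 ^ c) :
    (∑ a, ∑ b, ρ a * ρ b * min (1 / (s a : ℝ)) (1 / (s b : ℝ))) ≤ 256 * θ ^ 2 := by
  have := Q_le ρ hρ s hs θ hU
  nlinarith [sq_nonneg θ]

end Pool.Agent.Lib.MP_1b5cbf_lc.Bar.KU

namespace Pool.Agent.Lib.MP_1b5cbf_lc.Bar

open Finset

theorem ku_st : KUSt := by
  intro Ω α _ _ ρ T o θ hρ ho hU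
  have hs : ∀ ω, 1 ≤ (T ω).card := fun ω => card_pos.mpr ⟨o, ho ω⟩
  have hU' : ∀ c : ℕ, (∑ ω, if (T ω).card ≤ 8 ^ c then ρ ω else 0) ≤ 4 * θ * 2 ^ c := by
    intro c
    have := hU c
    unfold Wm at this
    refine le_trans (le_of_eq ?_) this
    refine sum_congr rfl fun ω _ => ?_
    split_ifs <;> simp
  refine ⟨KU.Q_le' ρ hρ (fun ω => (T ω).card) hs θ hU', fun e => ?_, fun e => ?_,
    KU.u_le ρ hρ (fun ω => (T ω).card) hs θ hU'⟩
  · refine le_trans (le_of_eq ?_) (KU.pair_tail_min_le ρ hρ (fun ω => (T ω).card) hs θ hU' e)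
    refine sum_congr rfl fun ω _ => sum_congr rfl fun ω' _ => ?_
    simp only [lt_max_iff, mn]
    split_ifs <;> simp
  · refine le_trans (le_of_eq ?_) (KU.tail_le ρ hρ (fun ω => (T ω).card) θ hU' e)
    refine sum_congr rfl fun ω _ => ?_
    split_ifs <;> simp

end Pool.Agent.Lib.MP_1b5cbf_lc.Bar
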