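import Pool.Agent.Lib.MP_1b5cbf_lc.Bar.Defs

/-! Internal definitions and the statements of all parts. -/

set_option autoImplicit false

namespace Pool.Agent.Lib.MP_1b5cbf_lc.Bar

open Finset

/-! ## A. Pure finite measure (kills) -/
section Kill
variable {Ω α : Type} [Fintype Ω] [DecidableEq α]

/-- mass of patterns of size at most `R` -/
noncomputable def Wm (ρ : Ω → ℝ) (T : Ω → Finset α) (R : ℕ) : ℝ :=
  ∑ ω, ρ ω * (if (T ω).card ≤ R then 1 else 0)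

noncomputable def um (ρ : Ω → ℝ) (T : Ω → Finset α) : ℝ := ∑ ω, ρ ω * (1 / ((T ω).card : ℝ))

noncomputable def mn (T : Ω → Finset α) (ω ω' : Ω) : ℝ :=
  min (1 / ((T ω).card : ℝ)) (1 / ((T ω').card : ℝ))

noncomputable def net (ρ : Ω → ℝ) (T : Ω → Finset α) (y : ℝ) : ℝ :=
  y * um ρ T + (1 / 2) * ∑ ω, ∑ ω', ρ ω * ρ ω' *
    (1 / ((T ω ∩ T ω').card : ℝ) - 1 / ((T ω).card : ℝ) - 1 / ((T ω').card : ℝ))

noncomputable def big (ρ : Ω → ℝ) (T : Ω → Finset α) (k : ℝ) : ℝ :=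
  ∑ ω, ρ ω * (if 2 ≤ (T ω).card then min 1 (k / ((T ω).card : ℝ)) else 0)

def UU (ρ : Ω → ℝ) (T : Ω → Finset α) (θ : ℝ) : Prop := ∀ c : ℕ, Wm ρ T (8 ^ c) ≤ 4 * θ * 2 ^ c
end Kill

/-- consequences of (U) -/
def KUSt : Prop := ∀ (Ω α : Type) [Fintype Ω] [DecidableEq α] (ρ : Ω → ℝ) (T : Ω → Finset α) (o : α)
  (θ : ℝ), (∀ ω, 0 ≤ ρ ω) → (∀ ω, o ∈ T ω) → UU ρ T θ →
    (∑ ω, ∑ ω', ρ ω * ρ ω' * mn T ω ω' ≤ 256 * θ ^ 2) ∧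
    (∀ e : ℕ, ∑ ω, ∑ ω', ρ ω * ρ ω' *
      (if 8 ^ e < (T ω).card ∨ 8 ^ e < (T ω').card then mn T ω ω' else 0) ≤ 128 * θ ^ 2 / 2 ^ e) ∧
    (∀ e : ℕ, ∑ ω, ρ ω * (if 8 ^ e < (T ω).card then 1 / ((T ω).card : ℝ) else 0) ≤ 11 * θ / 4 ^ e) ∧
    um ρ T ≤ 15 * θ

/-- star kill -/
def K0St : Prop := ∀ (Ω α : Type) [Fintype Ω] [DecidableEq α] (ρ : Ω → ℝ) (T : Ω → Finset α) (o : α)
  (θ y : ℝ), (∀ ω, 0 ≤ ρ ω) → (∀ ω, o ∈ T ω) → UU ρ T θ → 0 ≤ y →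
    y * Wm ρ T 1 - 128 * θ ^ 2 ≤ net ρ T y

/-- boost kill -/
def KBSt : Prop := ∀ (Ω α : Type) [Fintype Ω] [DecidableEq α] (ρ : Ω → ℝ) (T : Ω → Finset α) (o : α)
  (θ y lam : ℝ), (∀ ω, 0 ≤ ρ ω) → (∀ ω, o ∈ T ω) → UU ρ T θ → 0 ≤ y → 0 ≤ lam →
    (∀ ω, ∀ l ∈ T ω, l ≠ o → lam ≤ ∑ ω', ρ ω' * (if l ∈ T ω' then 0 else 1)) →
    lam / 32 * big ρ T 8 - 256 * θ ^ 2 ≤ net ρ T y

/-- pair kill -/
def KPSt : Prop := ∀ (Ω α : Type) [Fintype Ω] [DecidableEq α] (ρ : Ω → ℝ) (T : Ω → Finset α) (o : α)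
  (θ y : ℝ), (∀ ω, 0 ≤ ρ ω) → (∀ ω, o ∈ T ω) → UU ρ T θ → 0 ≤ y →
    2 ^ 14 * θ ≤ Wm ρ T 1 + big ρ T (8 ^ 14) →
    (∀ ω, ∀ l ∈ T ω, l ≠ o →
      ∑ ω', ρ ω' * (if (8 < (T ω').card ∧ (T ω').card ≤ 8 ^ 17) ∧ l ∈ T ω' then 1 else 0) ≤
        2 * 8 ^ 17 / 8 ^ 35 * ∑ ω', ρ ω' * (if 8 < (T ω').card ∧ (T ω').card ≤ 8 ^ 17 then 1 else 0)) →
    (2 ^ 14 * θ) ^ 2 / 32 ≤ net ρ T y

/-! ## B. The replica cube -/
section Cube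
variable {ι : Type} [Fintype ι] [DecidableEq ι]

/-- total length of the subtree spanned by a set of leaves -/
noncomputable def len (τ : ι → ℝ) (U : Finset (Finset ι)) : ℝ :=
  ∫ t in Set.Ioc (0 : ℝ) 1, ((U.image fun l => l.filter fun b => τ b < t).card : ℝ)

noncomputable def rho (β : Finset (Finset ι) → ℝ) (T : Finset (Finset ι)) : ℝ :=
  if ∅ ∈ T then β T else 0

/-- rooted pattern inside the subcube on the bits `D` -/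
def TD (D : Finset ι) (T : Finset (Finset ι)) : Finset (Finset ι) := insert ∅ (T ∩ D.powerset)

/-- fresh mass -/
noncomputable def fr (β : Finset (Finset ι) → ℝ) (D : Finset ι) : ℝ := Wm (rho β) (TD D) 1

/-- swap mass of two leaves that branch at time `t` -/
noncomputable def sg (β : (ι → ℝ) → Finset (Finset ι) → ℝ) (b0 : ι) (t : ℝ) : ℝ :=
  ∑ T, rho (β fun _ => t) T * (if ({b0} : Finset ι) ∈ T then 0 else 1)

/-- what the probabilistic part delivers -/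
structure Iface (β : (ι → ℝ) → Finset (Finset ι) → ℝ) (L ld : ℝ) : Prop where
  nonneg : ∀ τ T, 0 ≤ β τ T
  mass : ∀ τ, ∑ T, rho (β τ) T = L
  iso : ∀ (τ τ' : ι → ℝ) (e₁ e₂ : Finset ι → Finset ι),
    (∀ U : Finset (Finset ι), len τ (U.image e₁) = len τ' (U.image e₂)) →
    ∀ F : Finset (Finset ι) → ℝ,
      ∑ T, β τ T * F (univ.filter fun l => e₁ l ∈ T) = ∑ T, β τ' T * F (univ.filter fun l => e₂ l ∈ T)
  cont : ∀ T, Continuous fun τ => β τ T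
  ineq : ∀ (τ : ι → ℝ) (D : Finset ι) (c : Finset (Finset ι) → ℝ), (∀ T, 0 ≤ c T) →
    (∀ T, c T ≤ ((2 : ℝ) ^ Fintype.card ι) ^ 2) →
    ∑ T ∈ D.powerset.powerset.erase ∅, Real.exp (-c T) ≤ 1 →
    (1 / 2) * ∑ T, ∑ T', β τ T * β τ T' * len τ (T ∩ T' ∩ D.powerset) ≤
      3 + ∑ T, β τ T * (if T ∩ D.powerset = ∅ then 0 else ld + c (T ∩ D.powerset))

/-- cost of the parent code -/
noncomputable def cost (β : (ι → ℝ) → Finset (Finset ι) → ℝ) (b0 : ι) (L : ℝ) (τ : ι → ℝ)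
    (D : Finset ι) (b : Finset ι → ι) : ℝ :=
  (3 + Real.log (2 * 2 ^ D.card) * (L + 2 * ∑ l ∈ D.powerset.erase ∅, sg β b0 (τ (b l)))) / 2 ^ D.card

/-- number of changes along the parent tree -/
def jc (D : Finset ι) (b : Finset ι → ι) (T : Finset (Finset ι)) : ℕ :=
  (if ∅ ∈ T then 1 else 0) +
    ((D.powerset.erase ∅).filter fun l => ¬(l ∈ T ↔ l.erase (b l) ∈ T)).card
end Cube

/-- facts on `len`, first half -/
def LenASt : Prop := ∀ (ι : Type) [Fintype ι] [DecidableEq ι],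
  (∀ (τ : ι → ℝ) (U : Finset (Finset ι)), U.Nonempty → 1 ≤ len τ U) ∧
  (∀ (τ : ι → ℝ) (U : Finset (Finset ι)), 0 ≤ len τ U ∧ len τ U ≤ U.card) ∧
  (∀ (τ : ι → ℝ) (D : Finset ι) (U : Finset (Finset ι)), (∀ b ∈ D, τ b ≤ 0) → U ⊆ D.powerset →
    len τ U = U.card) ∧
  (∀ U : Finset (Finset ι), Continuous fun τ : ι → ℝ => len τ U) ∧
  (∀ τ : ι → ℝ, ∃ δ : Finset ι → ℝ, (∀ S, 0 ≤ δ S) ∧
    ∀ U : Finset (Finset ι), len τ U = ∑ S, δ S * ((U.image fun l => l ∩ S).card : ℝ))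

/-- facts on `len`, second half: the symmetries -/
def LenBSt : Prop := ∀ (ι : Type) [Fintype ι] [DecidableEq ι],
  (∀ (τ : ι → ℝ) (l0 : Finset ι) (U : Finset (Finset ι)),
    len τ (U.image fun l => symmDiff l l0) = len τ U) ∧
  (∀ (τ : ι → ℝ) (s : ℝ) (D Low l₁ l₂ : Finset ι) (U : Finset (Finset ι)), (∀ b ∈ Low, τ b = s) →
    (∀ b ∈ D, τ b ≤ s) → l₁ ⊆ D → l₂ ⊆ D → l₁ \ Low = l₂ \ Low → U ⊆ D.powerset →
    len τ (U.image (Equiv.swap l₁ l₂)) = len τ U) ∧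
  (∀ (τ τ' : ι → ℝ) (φ : ι → ι) (D : Finset ι) (U : Finset (Finset ι)), Set.InjOn φ D →
    (∀ b ∈ D, τ' (φ b) = τ b) → U ⊆ D.powerset →
    len τ' (U.image fun l => l.image φ) = len τ U) ∧
  (∀ (τ : ι → ℝ) (l l' : Finset ι) (b b0 : ι), b ∈ symmDiff l l' → (∀ b' ∈ symmDiff l l', τ b ≤ τ b') →
    len τ {l, l'} = len (fun _ => τ b) ({∅, {b0}} : Finset (Finset ι))) ∧
  (∀ (τ : ι → ℝ) (l : Finset ι), len τ {l} = 1) ∧
  (∀ U : Finset (Finset ι), U.Nonempty → len (fun _ : ι => (1 : ℝ)) U = 1)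

/-- one and two leaves -/
def TwoSt : Prop := ∀ (ι : Type) [Fintype ι] [DecidableEq ι] (β : (ι → ℝ) → Finset (Finset ι) → ℝ)
  (L ld : ℝ) (b0 b1 : ι), Iface β L ld → b0 ≠ b1 →
  (∀ (τ : ι → ℝ) (l : Finset ι), ∑ T, β τ T * (if l ∈ T then 1 else 0) = L) ∧
  (∀ (τ : ι → ℝ) (l l' : Finset ι) (b : ι), b ∈ symmDiff l l' → (∀ b' ∈ symmDiff l l', τ b ≤ τ b') →
    ∑ T, β τ T * (if l ∈ T ∧ l' ∉ T then 1 else 0) = sg β b0 (τ b)) ∧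
  Continuous (sg β b0) ∧ sg β b0 1 = 0 ∧ (∀ t, 0 ≤ sg β b0 t ∧ sg β b0 t ≤ L) ∧
  (∀ t t', t ≤ t' → sg β b0 t' ≤ 2 * sg β b0 t)

/-- the parent code -/
def CodeSt : Prop := ∀ (ι : Type) [Fintype ι] [DecidableEq ι] (D : Finset ι) (b : Finset ι → ι),
  (∀ l : Finset ι, l.Nonempty → b l ∈ l) →
  (∀ T, jc D b T ≤ 2 ^ D.card) ∧
  ∑ T ∈ D.powerset.powerset.erase ∅, Real.exp (-((jc D b T : ℝ) * Real.log (2 * 2 ^ D.card))) ≤ 1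

/-- translation: unrooted sums are `2^|D|` times rooted sums -/
def RootSt : Prop := ∀ (ι : Type) [Fintype ι] [DecidableEq ι] (β : (ι → ℝ) → Finset (Finset ι) → ℝ)
  (L ld : ℝ) (τ : ι → ℝ) (D : Finset ι), Iface β L ld →
  (∑ T, β τ T * (if T ∩ D.powerset = ∅ then 0 else 1) = 2 ^ D.card * um (rho (β τ)) (TD D)) ∧
  (∑ T, ∑ T', β τ T * β τ T' * (if T ∩ T' ∩ D.powerset = ∅ then 0 else 1) =
    2 ^ D.card * ∑ T, ∑ T', rho (β τ) T * rho (β τ) T' * (1 / ((TD D T ∩ TD D T').card : ℝ))) ∧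
  (∀ D' ⊆ D, fr (β τ) D' ≤ fr (β τ) D + big (rho (β τ)) (TD D) (2 ^ (D \ D').card))

/-- the net inequality and its form at time zero -/
def NetSt : Prop := ∀ (ι : Type) [Fintype ι] [DecidableEq ι] (β : (ι → ℝ) → Finset (Finset ι) → ℝ)
  (L ld : ℝ) (b0 b1 : ι) (τ : ι → ℝ) (D : Finset ι) (b : Finset ι → ι), Iface β L ld → b0 ≠ b1 →
  (∀ l : Finset ι, l.Nonempty → b l ∈ l) →
  net (rho (β τ)) (TD D) (L - ld) ≤ cost β b0 L τ D b ∧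
  ((∀ x ∈ D, τ x ≤ 0) → L ^ 2 / 2 ≤ ld * um (rho (β τ)) (TD D) + cost β b0 L τ D b)

/-- swaps inside a node -/
def SwapSt : Prop := ∀ (ι : Type) [Fintype ι] [DecidableEq ι] (β : (ι → ℝ) → Finset (Finset ι) → ℝ)
  (L ld : ℝ) (τ : ι → ℝ) (s : ℝ) (D Low : Finset ι), Iface β L ld → Low ⊆ D →
  (∀ x ∈ Low, τ x = s) → (∀ x ∈ D, τ x ≤ s) →
  (∀ (a R : ℕ) (l : Finset ι), Low.Nonempty → l ⊆ D → l ≠ ∅ →
    ∑ T, rho (β τ) T * (if (a < (TD D T).card ∧ (TD D T).card ≤ R) ∧ l ∈ TD D T then 1 else 0) ≤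
      2 * R / 2 ^ Low.card *
        ∑ T, rho (β τ) T * (if a < (TD D T).card ∧ (TD D T).card ≤ R then 1 else 0)) ∧
  (∀ E ⊆ Low, ∀ R : ℕ, 2 * R ≤ 2 ^ E.card → Wm (rho (β τ)) (TD D) R ≤ 2 * fr (β τ) (D \ E))

/-- a priori bounds, monotonicity, transport, continuity -/
def AprSt : Prop := ∀ (ι : Type) [Fintype ι] [DecidableEq ι] (β : (ι → ℝ) → Finset (Finset ι) → ℝ)
  (L ld : ℝ) (b0 b1 : ι), Iface β L ld → b0 ≠ b1 →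
  (∀ (τ : ι → ℝ) (D D' : Finset ι) (R : ℕ), D' ⊆ D →
    Wm (rho (β τ)) (TD D) R ≤ Wm (rho (β τ)) (TD D') R) ∧
  (∀ (τ : ι → ℝ) (D : Finset ι) (R : ℕ), Wm (rho (β τ)) (TD D) R ≤ L) ∧
  (∀ (τ : ι → ℝ) (D : Finset ι) (R : ℕ) (z : ℝ), 0 ≤ z → (∀ x ∈ D, sg β b0 (τ x) ≤ z) →
    2 * R ≤ 2 ^ D.card → Wm (rho (β τ)) (TD D) R ≤ 2 * z) ∧
  (∀ (τ : ι → ℝ) (D : Finset ι), ∀ x ∈ D, fr (β τ) D ≤ sg β b0 (τ x)) ∧
  (∀ (τ : ι → ℝ) (D l : Finset ι) (lam : ℝ), (∀ x ∈ D, lam ≤ sg β b0 (τ x)) → l ⊆ D → l ≠ ∅ →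
    lam ≤ ∑ T, rho (β τ) T * (if l ∈ TD D T then 0 else 1)) ∧
  (∀ (τ τ' : ι → ℝ) (φ : ι → ι) (D : Finset ι), Set.InjOn φ D → (∀ x ∈ D, τ' (φ x) = τ x) →
    fr (β τ') (D.image φ) = fr (β τ) D) ∧
  (∀ D : Finset ι, Continuous fun τ => fr (β τ) D)

/-! ## C. Stages -/

/-- bits: blocks `0..R-1` and the movable block `R` -/
abbrev Bit (R : ℕ) := Fin (R + 1) × Fin 200

def DD (R i a b : ℕ) : Finset (Bit R) :=
  univ.filter fun x => ((x.1 : ℕ) = i ∧ (x.2 : ℕ) < 3 * b) ∨ ((x.1 : ℕ) = R ∧ (x.2 : ℕ) < 3 * a) ∨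
    (i < (x.1 : ℕ) ∧ (x.1 : ℕ) < R ∧ (x.2 : ℕ) < 3)

def tt (R : ℕ) (t : ℕ → ℝ) (s : ℝ) : Bit R → ℝ := fun x => if (x.1 : ℕ) = R then s else t x.1

def bz (R : ℕ) : Bit R := (0, 0)

/-- the standing assumptions of a stage -/
structure Stg (R : ℕ) (β : (Bit R → ℝ) → Finset (Finset (Bit R)) → ℝ) (L ld LL μ0 : ℝ) (t : ℕ → ℝ) :
    Prop where
  ifc : Iface β L ld
  hLL : 1 ≤ LL
  hlog : Real.log (2 * 8 ^ (121 + R)) ≤ LL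
  hμ : μ0 = 2 ^ 86 * LL
  hy : 2 ^ 9 * μ0 ≤ L - ld
  hld : 0 ≤ ld
  hR : L < μ0 * 2 ^ R
  t0 : t 0 = 1
  anti : Antitone t
  tR : t R = 0
  tnn : ∀ k, 0 ≤ t k
  up : ∀ k s, t k ≤ s → s ≤ 1 → sg β (bz R) s ≤ μ0 * 2 ^ k
  eqq : ∀ k, 1 ≤ k → 0 < t k → sg β (bz R) (t k) = μ0 * 2 ^ k

noncomputable def th (μ0 : ℝ) (i j : ℕ) : ℝ := 2 ^ 22 * (μ0 * 2 ^ i) / 2 ^ j

/-- a priori bound and (U) -/
def StUSt : Prop := ∀ (R : ℕ) (β : (Bit R → ℝ) → Finset (Finset (Bit R)) → ℝ) (L ld LL μ0 : ℝ)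
  (t : ℕ → ℝ) (i : ℕ) (s : ℝ), Stg R β L ld LL μ0 t → i < R → t (i + 1) ≤ s → s ≤ t i →
  (∀ j ≤ 61, fr (β (tt R t s)) (DD R i j 0) ≤ 2 * (μ0 * 2 ^ i)) ∧
  ((∀ j ≤ 60, fr (β (tt R t s)) (DD R i j 0) ≤ th μ0 i j) →
    ∀ j ≤ 60, ∀ b ≤ 61, UU (rho (β (tt R t s))) (TD (DD R i j b)) (th μ0 i j))

/-- the cost of every tree used -/
def StCostSt : Prop := ∀ (R : ℕ) (β : (Bit R → ℝ) → Finset (Finset (Bit R)) → ℝ) (L ld LL μ0 : ℝ)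
  (t : ℕ → ℝ) (i a b : ℕ) (s : ℝ), Stg R β L ld LL μ0 t → i < R → t (i + 1) ≤ s → s ≤ t i →
  a ≤ 60 → b ≤ 61 →
  ∃ f : Finset (Bit R) → Bit R, (∀ l : Finset (Bit R), l.Nonempty → f l ∈ l) ∧
    cost β (bz R) L (tt R t s) (DD R i a b) f ≤ 17 * (μ0 * 2 ^ i) * LL

/-- transport between stages -/
def StIsoSt : Prop := ∀ (R : ℕ) (β : (Bit R → ℝ) → Finset (Finset (Bit R)) → ℝ) (L ld LL μ0 : ℝ)
  (t : ℕ → ℝ) (i : ℕ), Stg R β L ld LL μ0 t → i < R →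
  (∀ j s s', fr (β (tt R t s)) (DD R i 0 j) = fr (β (tt R t s')) (DD R i 0 j)) ∧
  (∀ j ≤ 61, fr (β (tt R t (t i))) (DD R i j 0) = fr (β (tt R t (t i))) (DD R i 0 j)) ∧
  (i + 1 < R → ∀ j ≤ 60,
    fr (β (tt R t (t (i + 1)))) (DD R (i + 1) 0 (j + 1)) = fr (β (tt R t (t (i + 1)))) (DD R i j 0)) ∧
  (∀ j, Continuous fun s => fr (β (tt R t s)) (DD R i j 0)) ∧
  (∀ j, 1 ≤ j → fr (β (tt R t 1)) (DD R i j 0) ≤ 0)

/-- a trigger is impossible -/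
def StKillSt : Prop := ∀ (R : ℕ) (β : (Bit R → ℝ) → Finset (Finset (Bit R)) → ℝ) (L ld LL μ0 : ℝ)
  (t : ℕ → ℝ) (i j0 : ℕ) (s : ℝ), Stg R β L ld LL μ0 t → i < R → t (i + 1) ≤ s → s ≤ t i → 0 < t i →
  (1 ≤ i → fr (β (tt R t s)) (DD R i 0 61) ≤ th μ0 i 61) →
  (∀ j ≤ 60, fr (β (tt R t s)) (DD R i j 0) ≤ th μ0 i j) → j0 ≤ 60 →
  fr (β (tt R t s)) (DD R i j0 0) = th μ0 i j0 → False

/-- the induction over stages -/
def StIndSt : Prop := ∀ (R : ℕ) (β : (Bit R → ℝ) → Finset (Finset (Bit R)) → ℝ) (L ld LL μ0 : ℝ)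
  (t : ℕ → ℝ), Stg R β L ld LL μ0 t → False

/-- the deterministic core -/
def CoreSt : Prop := ∀ (R : ℕ) (β : (Bit R → ℝ) → Finset (Finset (Bit R)) → ℝ) (L ld LL : ℝ),
  Iface β L ld → 1 ≤ LL → Real.log (2 * 8 ^ (121 + R)) ≤ LL → 0 ≤ ld → L < 2 ^ R →
  L - ld < 2 ^ 95 * LL

/-! ## D. Probability -/

/-- expectation on a product of copies of a finite weight -/
noncomputable def PE {P X : Type} [Fintype P] [DecidableEq P] [Fintype X] (ν : X → ℝ)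
    (F : (P → X) → ℝ) : ℝ := ∑ ω : P → X, (∏ e, ν (ω e)) * F ω

def bw (p : ℝ) : Bool → ℝ := fun b => if b then p else 1 - p

/-- unordered pairs -/
abbrev Pr (n : ℕ) := {e : Fin n × Fin n // e.1 < e.2}

section Prob
variable {ι : Type} [Fintype ι] [DecidableEq ι]

noncomputable def nu (p : ℝ) (τ : ι → ℝ) (S : Finset (Finset ι)) : ℝ :=
  ∑ U ∈ S.powerset, (-1) ^ U.card * (1 - p) ^ len τ (Sᶜ ∪ U)

def Gl {n : ℕ} (ω : Pr n → Finset (Finset ι)) (l : Finset ι) : Pr n → Bool := fun e => decide (l ∈ ω e)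

def Pat {n : ℕ} (B : (Pr n → Bool) → Finset (Fin n)) (ω : Pr n → Finset (Finset ι)) (v : Fin n) :
    Finset (Finset ι) := univ.filter fun l => v ∈ B (Gl ω l)

/-- number of vertices with pattern `T` -/
def cnt {n : ℕ} (B : (Pr n → Bool) → Finset (Fin n)) (T : Finset (Finset ι))
    (ω : Pr n → Finset (Finset ι)) : ℕ := (univ.filter fun v => Pat B ω v = T).card

noncomputable def beta {n : ℕ} (p : ℝ) (B : (Pr n → Bool) → Finset (Fin n)) (τ : ι → ℝ)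
    (T : Finset (Finset ι)) : ℝ := p * PE (nu p τ) fun ω => (cnt B T ω : ℝ)
end Prob

def Ind {n : ℕ} (B : (Pr n → Bool) → Finset (Fin n)) (g : Pr n → Bool) : Prop :=
  ∀ e : Pr n, g e = true → ¬(e.1.1 ∈ B g ∧ e.1.2 ∈ B g)

instance {n : ℕ} (B : (Pr n → Bool) → Finset (Fin n)) (g : Pr n → Bool) : Decidable (Ind B g) := by
  unfold Ind; infer_instance

noncomputable def inflB {n : ℕ} (p : ℝ) (B : (Pr n → Bool) → Finset (Fin n)) : ℝ :=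
  ∑ e : Pr n, PE (bw p) fun g : Pr n → Bool =>
    ((symmDiff (B (Function.update g e true)) (B (Function.update g e false))).card : ℝ) ^ 2

/-- the law `nu`: a probability with the prescribed avoidance function; uniqueness -/
def NuSt : Prop :=
  (∀ (ι : Type) [Fintype ι] [DecidableEq ι] (p : ℝ) (τ : ι → ℝ), 0 ≤ p → p < 1 →
    (∀ S, 0 ≤ nu p τ S) ∧
    (∀ U : Finset (Finset ι), ∑ S, nu p τ S * (if Disjoint S U then 1 else 0) = (1 - p) ^ len τ U) ∧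
    (∀ S : Finset (Finset ι), Continuous fun τ : ι → ℝ => nu p τ S)) ∧
  (∀ (Λ : Type) [Fintype Λ] [DecidableEq Λ] (ν ν' : Finset Λ → ℝ),
    (∀ U : Finset Λ, ∑ S, ν S * (if Disjoint S U then 1 else 0) =
      ∑ S, ν' S * (if Disjoint S U then 1 else 0)) → ν = ν')

/-- tools on `PE`: push forward, products, Efron-Stein -/
def PESt : Prop := ∀ (P X : Type) [Fintype P] [DecidableEq P] [Fintype X] (ν : X → ℝ),
  (∀ (Y : Type) [Fintype Y] [DecidableEq Y] (g : X → Y) (F : (P → Y) → ℝ),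
    PE ν (fun ω : P → X => F fun e => g (ω e)) =
      PE (fun y => ∑ x, ν x * (if g x = y then 1 else 0)) F) ∧
  (∀ h : P → X → ℝ, PE ν (fun ω : P → X => ∏ e, h e (ω e)) = ∏ e, ∑ x, ν x * h e x) ∧
  ((∀ x, 0 ≤ ν x) → ∑ x, ν x = 1 → ∀ F : (P → X) → ℝ,
    PE ν (fun ω => (F ω - PE ν F) ^ 2) ≤
      ∑ e, PE ν fun ω => ∑ x, ν x * (F ω - F (Function.update ω e x)) ^ 2)

/-- one leaf is `G(n,p)`; the four soft fields of the interface -/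
def SoftSt : Prop := ∀ (ι : Type) [Fintype ι] [DecidableEq ι] (n : ℕ) (p : ℝ)
  (B : (Pr n → Bool) → Finset (Fin n)), 0 ≤ p → p < 1 →
  (∀ (τ : ι → ℝ) (l : Finset ι) (F : (Pr n → Bool) → ℝ),
    PE (nu p τ) (fun ω : Pr n → Finset (Finset ι) => F (Gl ω l)) = PE (bw p) F) ∧
  (∀ (τ : ι → ℝ) T, 0 ≤ beta p B τ T) ∧
  (∀ τ : ι → ℝ, ∑ T, rho (beta p B τ) T = p * PE (bw p) fun g => ((B g).card : ℝ)) ∧
  (∀ (τ τ' : ι → ℝ) (e₁ e₂ : Finset ι → Finset ι),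
    (∀ U : Finset (Finset ι), len τ (U.image e₁) = len τ' (U.image e₂)) →
    ∀ F : Finset (Finset ι) → ℝ,
      ∑ T, beta p B τ T * F (univ.filter fun l => e₁ l ∈ T) =
        ∑ T, beta p B τ' T * F (univ.filter fun l => e₂ l ∈ T)) ∧
  (∀ T : Finset (Finset ι), Continuous fun τ => beta p B τ T)

/-- variance of the pattern counts and of the size -/
def VarSt : Prop := ∀ (ι : Type) [Fintype ι] [DecidableEq ι] (n : ℕ) (p : ℝ)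
  (B : (Pr n → Bool) → Finset (Fin n)), 0 ≤ p → p < 1 →
  (∀ (τ : ι → ℝ) (T : Finset (Finset ι)),
    PE (nu p τ) (fun ω => ((cnt B T ω : ℝ) - PE (nu p τ) fun ω' => (cnt B T ω' : ℝ)) ^ 2) ≤
      2 * p * ((2 : ℝ) ^ Fintype.card ι) ^ 2 * inflB p B) ∧
  PE (bw p) (fun g => (((B g).card : ℝ) - PE (bw p) fun g' => ((B g').card : ℝ)) ^ 2) ≤
    2 * p * inflB p B

/-- first moment -/
def FMSt : Prop := ∀ (ι : Type) [Fintype ι] [DecidableEq ι] (n : ℕ) (p z : ℝ)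
  (B : (Pr n → Bool) → Finset (Fin n)) (τ : ι → ℝ) (D : Finset ι) (q : Finset (Finset ι) → ℝ),
  0 ≤ p → p < 1 → (∀ T, 0 < q T) → ∑ T ∈ D.powerset.powerset, q T ≤ 1 →
  PE (nu p τ) (fun ω : Pr n → Finset (Finset ι) =>
    if (∀ l, Ind B (Gl ω l)) ∧
      z ≤ p * (∑ e : Pr n, len τ (Pat B ω e.1.1 ∩ Pat B ω e.1.2 ∩ D.powerset)) +
        ∑ v, Real.log (q (Pat B ω v ∩ D.powerset)) then 1 else 0) ≤ Real.exp (-z)

/-- positive correlation of the leaves -/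
def PosSt : Prop := ∀ (ι : Type) [Fintype ι] [DecidableEq ι] (n : ℕ) (p : ℝ) (τ : ι → ℝ)
  (F : (Pr n → Bool) → ℝ), 0 ≤ p → p < 1 → (∀ g, 0 ≤ F g) →
  (PE (bw p) F) ^ (2 ^ Fintype.card ι) ≤
    PE (nu p τ) fun ω : Pr n → Finset (Finset ι) => ∏ l : Finset ι, F (Gl ω l)

/-- the inequality of the interface -/
def IneqSt : Prop := ∀ (ι : Type) [Fintype ι] [DecidableEq ι] (d δ : ℝ), 2 ≤ d → 0 < δ →
  ∃ η : ℝ, 0 < η ∧ ∃ n0 : ℕ, ∀ n ≥ n0, ∀ B : (Pr n → Bool) → Finset (Fin n),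
    inflB (d / n) B ≤ η * (n : ℝ) ^ 3 → δ ≤ PE (bw (d / n)) (fun g => if Ind B g then 1 else 0) →
    Iface (ι := ι) (beta (d / n) B) (d / n * PE (bw (d / n)) fun g => ((B g).card : ℝ)) (Real.log d)

/-- the theorem on bit vectors -/
def MainBSt : Prop := ∃ C d0 : ℝ, ∀ d ≥ d0, ∀ δ > 0, ∃ η > 0, ∃ n0 : ℕ, ∀ n ≥ n0,
  ∀ B : (Pr n → Bool) → Finset (Fin n), inflB (d / n) B ≤ η * (n : ℝ) ^ 3 →
    PE (bw (d / n)) (fun g => if Ind B g ∧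
      (Real.log d + C * Real.log (Real.log d)) * n / d ≤ ((B g).card : ℝ) then 1 else 0) ≤ δ

open Classical in
/-- the theorem -/
def MainSt : Prop := ∃ C d0 : ℝ, ∀ d ≥ d0, ∀ δ > 0, ∃ η > 0, ∃ n0 : ℕ, ∀ n ≥ n0,
  ∀ A : SimpleGraph (Fin n) → Finset (Fin n), infl n (d / n) A ≤ η * (n : ℝ) ^ 3 →
    ex n (d / n) (fun G => if G.IsIndepSet (A G : Set (Fin n)) ∧
      (Real.log d + C * Real.log (Real.log d)) * n / d ≤ ((A G).card : ℝ) then 1 else 0) ≤ δ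

end Pool.Agent.Lib.MP_1b5cbf_lc.Bar
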