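import Pool.Agent.Lib.MP_1b5cbf_lc.Bar.St

/-! The induction over stages. -/

set_option autoImplicit false

namespace Pool.Agent.Lib.MP_1b5cbf_lc.Bar

open Finset

namespace StInd

theorem th_succ (μ0 : ℝ) (i j : ℕ) : th μ0 (i + 1) (j + 1) = th μ0 i j := by
  unfold th
  rw [pow_succ (2 : ℝ) i, pow_succ (2 : ℝ) j]
  field_simp

theorem th_zero (μ0 : ℝ) (i : ℕ) : th μ0 i 0 = 2 ^ 22 * (μ0 * 2 ^ i) := by
  unfold th
  simp

theorem th_nonneg (μ0 : ℝ) (h : 0 ≤ μ0) (i j : ℕ) : 0 ≤ th μ0 i j := by
  unfold th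
  positivity

theorem bz_ne (R : ℕ) : bz R ≠ ((0, 1) : Bit R) := by
  intro h
  have h2 := congrArg Prod.snd h
  simp [bz] at h2

/-- the intermediate value step -/
theorem ivt (g : ℕ → ℝ → ℝ) (c : ℕ → ℝ) (a b : ℝ) (hab : a ≤ b) (hc : ∀ j, Continuous (g j))
    (hb : ∀ j ≤ 60, g j b ≤ c j) (ha : ∃ j ≤ 60, c j < g j a) :
    ∃ s, a ≤ s ∧ s ≤ b ∧ (∀ j ≤ 60, g j s ≤ c j) ∧ ∃ j0 ≤ 60, g j0 s = c j0 := by
  have hne : (Finset.range 61).Nonempty := ⟨0, by simp⟩
  set Φ : ℝ → ℝ := fun s => (Finset.range 61).sup' hne fun j => g j s - c j with hΦ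
  have hcont : Continuous Φ :=
    Continuous.finset_sup'_apply (f := fun j s => g j s - c j) hne
      fun j _ => (hc j).sub continuous_const
  have h1 : Φ b ≤ 0 := by
    refine Finset.sup'_le _ _ fun j hj => ?_
    have := hb j (by have := Finset.mem_range.mp hj; omega)
    linarith
  have h2 : 0 ≤ Φ a := by
    obtain ⟨j, hj, hlt⟩ := ha
    have : g j a - c j ≤ Φ a :=
      Finset.le_sup' (fun j => g j a - c j) (Finset.mem_range.mpr (by omega))
    linarith
  obtain ⟨s, hs, hs0⟩ := intermediate_value_Icc' hab hcont.continuousOn ⟨h1, h2⟩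
  refine ⟨s, hs.1, hs.2, fun j hj => ?_, ?_⟩
  · have : g j s - c j ≤ Φ s :=
      Finset.le_sup' (fun j => g j s - c j) (Finset.mem_range.mpr (by omega))
    linarith
  · obtain ⟨j0, hj0, he⟩ := Finset.exists_mem_eq_sup' hne fun j => g j s - c j
    refine ⟨j0, by have := Finset.mem_range.mp hj0; omega, ?_⟩
    have : Φ s = g j0 s - c j0 := he
    linarith

/-- the numbers at the end -/
theorem endnum (L ld LL μ u co : ℝ) (hL : 0 < L) (hμ0 : 0 ≤ μ) (hμ : μ ≤ L) (hld0 : 0 ≤ ld)
    (hld : ld ≤ L) (hLL0 : 0 ≤ LL) (hLL : 2 ^ 95 * LL ≤ L) (hu : u ≤ 15 * (2 ^ 22 * μ / 2 ^ 60))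
    (hco : co ≤ 17 * μ * LL) (h : L ^ 2 / 2 ≤ ld * u + co) : False := by
  have h1 : ld * u ≤ ld * (15 * (2 ^ 22 * μ / 2 ^ 60)) := mul_le_mul_of_nonneg_left hu hld0
  have h2 : ld * μ ≤ L * L := mul_le_mul hld hμ hμ0 hL.le
  have h3 : μ * (2 ^ 95 * LL) ≤ L * L := mul_le_mul hμ hLL (by positivity) hL.le
  have h4 : 0 < L * L := mul_pos hL hL
  nlinarith

end StInd

open StInd in
theorem stind_st (hKU : KUSt) (hTwo : TwoSt) (hNet : NetSt) (hU : StUSt) (hCost : StCostSt)
    (hIso : StIsoSt) (hKill : StKillSt) : StIndSt := by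
  intro R β L ld LL μ0 t S
  have hLL0 : (0 : ℝ) < LL := lt_of_lt_of_le one_pos S.hLL
  have hμ0 : 0 < μ0 := by rw [S.hμ]; positivity
  have hy := S.hy
  have hld := S.hld
  have hL : 0 < L := by nlinarith
  have hμL : μ0 ≤ L := by nlinarith
  have hR0 : 0 < R := by
    rcases Nat.eq_zero_or_pos R with h | h
    · have := S.hR
      rw [h] at this
      simp at this
      linarith
    · exact h
  have key : ∀ i, i < R ∧ 0 < t i ∧
      (1 ≤ i → ∀ j ≤ 61, ∀ s, fr (β (tt R t s)) (DD R i 0 j) ≤ th μ0 i j) := by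
    intro i
    induction i with
    | zero => exact ⟨hR0, by rw [S.t0]; exact one_pos, fun h => absurd h (by omega)⟩
    | succ i ih =>
      obtain ⟨hi, hti, hinv⟩ := ih
      have hanti : t (i + 1) ≤ t i := S.anti (Nat.le_succ i)
      obtain ⟨_, I2, I3, I4, I5⟩ := hIso R β L ld LL μ0 t i S hi
      have hμi : 0 < μ0 * 2 ^ i := by positivity
      -- start of the stage
      have hstart : ∀ j ≤ 60, fr (β (tt R t (t i))) (DD R i j 0) ≤ th μ0 i j := by
        intro j hj
        rcases Nat.eq_zero_or_pos j with hj0 | hj0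
        · subst hj0
          have := (hU R β L ld LL μ0 t i (t i) S hi hanti le_rfl).1 0 (by omega)
          rw [th_zero]
          nlinarith
        · rcases Nat.eq_zero_or_pos i with hi0 | hi0
          · subst hi0
            rw [S.t0]
            exact (I5 j hj0).trans (th_nonneg μ0 hμ0.le 0 j)
          · rw [I2 j (by omega)]
            exact hinv hi0 j (by omega) _
      -- end of the stage
      have hend : ∀ j ≤ 60, fr (β (tt R t (t (i + 1)))) (DD R i j 0) ≤ th μ0 i j := by
        by_contra hcon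
        push Not at hcon
        obtain ⟨s, hs1, hs2, hall, j0, hj0, he⟩ :=
          ivt (fun j s => fr (β (tt R t s)) (DD R i j 0)) (th μ0 i) (t (i + 1)) (t i) hanti I4
            hstart hcon
        exact hKill R β L ld LL μ0 t i j0 s S hi hs1 hs2 hti
          (fun h => hinv h 61 le_rfl s) hall hj0 he
      -- the next time is positive
      have hpos : 0 < t (i + 1) := by
        rcases (S.tnn (i + 1)).lt_or_eq with h | h
        · exact h
        · exfalso
          obtain ⟨f, hf, hc⟩ :=
            hCost R β L ld LL μ0 t i 60 0 (t (i + 1)) S hi le_rfl hanti le_rfl (by omega)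
          have hUU := (hU R β L ld LL μ0 t i (t (i + 1)) S hi le_rfl hanti).2 hend 60 le_rfl 0
            (by omega)
          have hρ : ∀ T, 0 ≤ rho (β (tt R t (t (i + 1)))) T := by
            intro T
            unfold rho
            split_ifs
            · exact S.ifc.nonneg _ _
            · exact le_rfl
          have hum := (hKU _ _ (rho (β (tt R t (t (i + 1))))) (TD (DD R i 60 0)) ∅ (th μ0 i 60) hρ
            (fun T => Finset.mem_insert_self _ _) hUU).2.2.2
          have hτ : ∀ x ∈ DD R i 60 0, tt R t (t (i + 1)) x ≤ 0 := by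
            intro x hx
            unfold tt
            split_ifs with hxR
            · exact h.ge
            · have hx' := (Finset.mem_filter.mp hx).2
              have hlt : i + 1 ≤ (x.1 : ℕ) := by omega
              exact (S.anti hlt).trans h.ge
          have hnet := (hNet _ β L ld (bz R) (0, 1) (tt R t (t (i + 1))) (DD R i 60 0) f S.ifc
            (bz_ne R) hf).2 hτ
          have hμiL : μ0 * 2 ^ i ≤ L := by
            rcases Nat.eq_zero_or_pos i with hi0 | hi0
            · subst hi0
              simpa using hμL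
            · rw [← S.eqq i hi0 hti]
              exact ((hTwo _ β L ld (bz R) (0, 1) S.ifc (bz_ne R)).2.2.2.2.1 (t i)).2
          have hLLL : 2 ^ 95 * LL ≤ L := by
            have := S.hμ
            nlinarith
          exact endnum L ld LL (μ0 * 2 ^ i) _ _ hL hμi.le hμiL hld (by nlinarith) hLL0.le hLLL
            hum hc hnet
      have hi1 : i + 1 < R := by
        rcases (Nat.succ_le_of_lt hi).lt_or_eq with h | h
        · exact h
        · exfalso
          have h' : i + 1 = R := h
          rw [h', S.tR] at hpos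
          exact lt_irrefl _ hpos
      refine ⟨hi1, hpos, fun _ j hj s => ?_⟩
      rw [(hIso R β L ld LL μ0 t (i + 1) S hi1).1 j s (t (i + 1))]
      rcases j with _ | j
      · have := (hU R β L ld LL μ0 t (i + 1) (t (i + 1)) S hi1 (S.anti (Nat.le_succ _)) le_rfl).1 0
          (by omega)
        have hp : 0 < μ0 * 2 ^ (i + 1) := by positivity
        rw [th_zero]
        nlinarith
      · rw [I3 hi1 j (by omega), th_succ]
        exact hend j (by omega)
  exact lt_irrefl _ (key R).1

end Pool.Agent.Lib.MP_1b5cbf_lc.Bar
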